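import Mathlib

open MeasureTheory Set Filter Topology ProbabilityTheory Module
open scoped ENNReal NNReal RealInnerProductSpace

namespace Pool.Agent.Lib.P07dee5

variable {E : Type*} [NormedAddCommGroup E] [InnerProductSpace ℝ E] [FiniteDimensional ℝ E]
  [MeasurableSpace E] [BorelSpace E]

/-- points accessible from `V` by a path of finite length -/
def Acc (V : Set E) (w : E) : Prop := ∃ γ : ℝ → E, ContinuousOn γ (Icc 0 1) ∧
  eVariationOn γ (Icc 0 1) ≠ ∞ ∧ (∀ t ∈ Ico (0:ℝ) 1, γ t ∈ V) ∧ γ 1 = w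

omit [InnerProductSpace ℝ E] [FiniteDimensional ℝ E] [MeasurableSpace E] [BorelSpace E] in
lemma Acc.mono {V V' : Set E} (h : V ⊆ V') {w : E} (hw : Acc V w) : Acc V' w := by
  obtain ⟨γ, h1, h2, h3, h4⟩ := hw
  exact ⟨γ, h1, h2, fun t ht => h (h3 t ht), h4⟩

end Pool.Agent.Lib.P07dee5
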