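import Mathlib

/-! # Path space, Wiener measures -/

open MeasureTheory Set Filter Topology ProbabilityTheory
open scoped ENNReal NNReal

set_option linter.unusedSectionVars false

namespace Pool.Agent.Lib.P07dee5

/-- continuous paths with time in `ℝ≥0`, with the `σ`-algebra generated by the evaluations -/
abbrev Pth (E : Type*) [TopologicalSpace E] := {p : ℝ≥0 → E // Continuous p}

section Basic

variable {E : Type*} [NormedAddCommGroup E] [MeasurableSpace E] [BorelSpace E]
  [SecondCountableTopology E]

lemma measurable_eval (t : ℝ≥0) : Measurable (fun p : Pth E => p.1 t) :=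
  (measurable_pi_apply t).comp measurable_subtype_coe

lemma measurable_eval2 : Measurable (fun q : ℝ≥0 × Pth E => q.2.1 q.1) := by
  have := measurable_uncurry_of_continuous_of_measurable
    (u := fun (t : ℝ≥0) (p : Pth E) => p.1 t) (fun p => p.2) (fun t => measurable_eval t)
  exact this

lemma Measurable.eval {α : Type*} [MeasurableSpace α] {T : α → ℝ≥0} {P : α → Pth E}
    (hT : Measurable T) (hP : Measurable P) : Measurable (fun a => (P a).1 (T a)) :=
  measurable_eval2.comp (hT.prodMk hP)

lemma measurable_toPth {α : Type*} [MeasurableSpace α] {f : α → Pth E}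
    (h : ∀ t, Measurable (fun a => (f a).1 t)) : Measurable f :=
  (measurable_pi_lambda _ h).subtype_mk (h := fun a => (f a).2)

/-- translation -/
def tr (x : E) (p : Pth E) : Pth E := ⟨fun t => x + p.1 t, continuous_const.add p.2⟩

/-- shift of the time -/
def shift (s : ℝ≥0) (p : Pth E) : Pth E :=
  ⟨fun t => p.1 (s + t), p.2.comp (continuous_const.add continuous_id)⟩

/-- stopped path -/
def stop (s : ℝ≥0) (p : Pth E) : Pth E :=
  ⟨fun t => p.1 (min t s), p.2.comp (continuous_id.min continuous_const)⟩

/-- increments after time `s` -/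
def inc (s : ℝ≥0) (p : Pth E) : Pth E :=
  ⟨fun t => p.1 (s + t) - p.1 s, (p.2.comp (continuous_const.add continuous_id)).sub
    continuous_const⟩

/-- scaling (`c` is the spatial scale) -/
noncomputable def sc [NormedSpace ℝ E] (c : ℝ≥0) (p : Pth E) : Pth E :=
  ⟨fun t => (c : ℝ) • p.1 (t / c ^ 2), continuous_const.smul (p.2.comp (by fun_prop))⟩

/-- time reversal on `[0,1]` -/
noncomputable def rev (p : Pth E) : Pth E :=
  ⟨fun t => p.1 (1 - t) - p.1 1, (p.2.comp (by fun_prop)).sub continuous_const⟩

/-- linear image -/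
def mapQ [NormedSpace ℝ E] (Q : E ≃ₗᵢ[ℝ] E) (p : Pth E) : Pth E :=
  ⟨fun t => Q (p.1 t), Q.continuous.comp p.2⟩

@[simp] lemma tr_apply (x : E) (p : Pth E) (t : ℝ≥0) : (tr x p).1 t = x + p.1 t := rfl
@[simp] lemma shift_apply (s : ℝ≥0) (p : Pth E) (t : ℝ≥0) : (shift s p).1 t = p.1 (s + t) := rfl
@[simp] lemma stop_apply (s : ℝ≥0) (p : Pth E) (t : ℝ≥0) : (stop s p).1 t = p.1 (min t s) := rfl
@[simp] lemma inc_apply (s : ℝ≥0) (p : Pth E) (t : ℝ≥0) :
    (inc s p).1 t = p.1 (s + t) - p.1 s := rfl
@[simp] lemma sc_apply [NormedSpace ℝ E] (c : ℝ≥0) (p : Pth E) (t : ℝ≥0) :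
    (sc c p).1 t = (c : ℝ) • p.1 (t / c ^ 2) := rfl
@[simp] lemma rev_apply (p : Pth E) (t : ℝ≥0) : (rev p).1 t = p.1 (1 - t) - p.1 1 := rfl
@[simp] lemma mapQ_apply [NormedSpace ℝ E] (Q : E ≃ₗᵢ[ℝ] E) (p : Pth E) (t : ℝ≥0) :
    (mapQ Q p).1 t = Q (p.1 t) := rfl

lemma measurable_tr2 : Measurable (fun q : E × Pth E => tr q.1 q.2) :=
  measurable_toPth fun t => by
    simp only [tr_apply]
    exact measurable_fst.add ((measurable_eval t).comp measurable_snd)

lemma measurable_tr (x : E) : Measurable (tr x) := measurable_tr2.comp measurable_prodMk_left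

lemma measurable_shift2 : Measurable (fun q : ℝ≥0 × Pth E => shift q.1 q.2) :=
  measurable_toPth fun t => by
    simp only [shift_apply]
    exact Measurable.eval (measurable_fst.add_const t) measurable_snd

lemma measurable_shift (s : ℝ≥0) : Measurable (shift (E := E) s) :=
  measurable_shift2.comp measurable_prodMk_left

lemma measurable_stop2 : Measurable (fun q : ℝ≥0 × Pth E => stop q.1 q.2) :=
  measurable_toPth fun t => by
    simp only [stop_apply]
    exact Measurable.eval (measurable_const.min measurable_fst) measurable_snd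

lemma measurable_stop (s : ℝ≥0) : Measurable (stop (E := E) s) :=
  measurable_stop2.comp measurable_prodMk_left

lemma measurable_inc (s : ℝ≥0) : Measurable (inc (E := E) s) :=
  measurable_toPth fun t => by
    simp only [inc_apply]
    exact (measurable_eval _).sub (measurable_eval _)

lemma measurable_sc [NormedSpace ℝ E] (c : ℝ≥0) : Measurable (sc (E := E) c) :=
  measurable_toPth fun t => by
    simp only [sc_apply]
    exact (measurable_eval _).const_smul (c : ℝ)

lemma measurable_rev : Measurable (rev (E := E)) :=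
  measurable_toPth fun t => by
    simp only [rev_apply]
    exact (measurable_eval _).sub (measurable_eval _)

lemma measurable_mapQ [NormedSpace ℝ E] (Q : E ≃ₗᵢ[ℝ] E) : Measurable (mapQ Q) :=
  measurable_toPth fun t => by
    simp only [mapQ_apply]
    exact Q.continuous.measurable.comp (measurable_eval _)

lemma stop_tr (s : ℝ≥0) (x : E) (p : Pth E) : stop s (tr x p) = tr x (stop s p) := rfl

lemma shift_tr (s : ℝ≥0) (x : E) (p : Pth E) :
    shift s (tr x p) = tr (x + (stop s p).1 s) (inc s p) := by
  apply Subtype.ext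
  funext t
  simp only [shift_apply, tr_apply, inc_apply, stop_apply, min_self]
  abel

lemma pth_ext {p q : Pth E} (h : ∀ t, p.1 t = q.1 t) : p = q := Subtype.ext (funext h)

end Basic

section Wiener

variable {E : Type*} [NormedAddCommGroup E] [InnerProductSpace ℝ E] [FiniteDimensional ℝ E]
  [MeasurableSpace E] [BorelSpace E]

/-- The properties of Wiener measure that are used. -/
structure IsWiener (W : Measure (Pth E)) : Prop where
  prob : IsProbabilityMeasure W
  zero : ∀ᵐ p ∂W, p.1 0 = 0
  law : ∀ t : ℝ≥0, W.map (fun p => p.1 t) = (stdGaussian E).map (fun z => (NNReal.sqrt t : ℝ) • z)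
  indep : ∀ s : ℝ≥0, IndepFun (stop s) (inc s) W
  incl : ∀ s : ℝ≥0, W.map (inc s) = W
  rot : ∀ Q : E ≃ₗᵢ[ℝ] E, W.map (mapQ Q) = W
  scale : ∀ c : ℝ≥0, c ≠ 0 → W.map (sc c) = W
  rev : W.map (fun p => stop 1 (rev p)) = W.map (stop 1)

variable {W : Measure (Pth E)}

/-- expectation under the law of the motion started at `x` -/
noncomputable def Ex (W : Measure (Pth E)) (F : Pth E → ℝ≥0∞) (x : E) : ℝ≥0∞ :=
  ∫⁻ p, F (tr x p) ∂W

lemma measurable_Ex (hW : IsWiener W) {F : Pth E → ℝ≥0∞} (hF : Measurable F) :
    Measurable (Ex W F) := by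
  have := hW.prob
  exact Measurable.lintegral_prod_right' (f := fun q : E × Pth E => F (tr q.1 q.2))
    (hF.comp measurable_tr2)

/-- Simple Markov property. -/
lemma markov (hW : IsWiener W) (s : ℝ≥0) {G F : Pth E → ℝ≥0∞} (hG : Measurable G)
    (hF : Measurable F) (x : E) :
    Ex W (fun p => G (stop s p) * F (shift s p)) x =
      Ex W (fun p => G (stop s p) * Ex W F (p.1 s)) x := by
  have hprob := hW.prob
  have hmap := (indepFun_iff_map_prod_eq_prod_map_map (measurable_stop s).aemeasurable
    (measurable_inc s).aemeasurable).1 (hW.indep s)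
  rw [hW.incl s] at hmap
  have hH : Measurable (fun q : Pth E × Pth E => G (tr x q.1) * F (tr (x + q.1.1 s) q.2)) := by
    apply Measurable.mul
    · exact hG.comp ((measurable_tr x).comp measurable_fst)
    · apply hF.comp
      have h1 : Measurable (fun q : Pth E × Pth E => (x + q.1.1 s, q.2)) :=
        (((measurable_eval s).comp measurable_fst).const_add x).prodMk measurable_snd
      exact measurable_tr2.comp h1
  have e1 : Ex W (fun p => G (stop s p) * F (shift s p)) x =
      ∫⁻ p, (fun q : Pth E × Pth E => G (tr x q.1) * F (tr (x + q.1.1 s) q.2))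
        (stop s p, inc s p) ∂W := by
    unfold Ex
    apply lintegral_congr
    intro p
    show G (stop s (tr x p)) * F (shift s (tr x p)) = G (tr x (stop s p)) *
      F (tr (x + (stop s p).1 s) (inc s p))
    rw [stop_tr, shift_tr]
  rw [e1, ← lintegral_map hH ((measurable_stop s).prodMk (measurable_inc s)), hmap]
  have : IsProbabilityMeasure (W.map (stop s)) :=
    Measure.isProbabilityMeasure_map (measurable_stop s).aemeasurable
  rw [lintegral_prod _ hH.aemeasurable, lintegral_map hH.lintegral_prod_right'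
    (measurable_stop s)]
  unfold Ex
  apply lintegral_congr
  intro p
  show ∫⁻ q, G (tr x (stop s p)) * F (tr (x + (stop s p).1 s) q) ∂W =
    G (stop s (tr x p)) * ∫⁻ q, F (tr ((tr x p).1 s) q) ∂W
  have h1 : Measurable (fun q => F (tr (x + (stop s p).1 s) q)) := hF.comp (measurable_tr _)
  rw [lintegral_const_mul _ h1, stop_tr]
  simp [stop_apply, tr_apply]

lemma Ex_mono {F G : Pth E → ℝ≥0∞} (h : ∀ p, F p ≤ G p) (x : E) : Ex W F x ≤ Ex W G x :=
  lintegral_mono fun _ => h _

lemma Ex_const (hW : IsWiener W) (c : ℝ≥0∞) (x : E) : Ex W (fun _ => c) x = c := by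
  have := hW.prob
  simp [Ex]

lemma Ex_const_mul (c : ℝ≥0∞) {F : Pth E → ℝ≥0∞} (hF : Measurable F) (x : E) :
    Ex W (fun p => c * F p) x = c * Ex W F x := by
  exact lintegral_const_mul _ (hF.comp (measurable_tr x))

lemma Ex_add {F G : Pth E → ℝ≥0∞} (hF : Measurable F) (x : E) :
    Ex W (fun p => F p + G p) x = Ex W F x + Ex W G x := by
  exact lintegral_add_left (hF.comp (measurable_tr x)) _

end Wiener

end Pool.Agent.Lib.P07dee5
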