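import Mathlib
import Pool.Agent.Lib.P07dee5.Path

/-! # Strong Markov property -/

open MeasureTheory Set Filter Topology ProbabilityTheory
open scoped ENNReal NNReal

set_option linter.unusedSectionVars false

namespace Pool.Agent.Lib.P07dee5

variable {E : Type*} [NormedAddCommGroup E] [InnerProductSpace ℝ E] [FiniteDimensional ℝ E]
  [MeasurableSpace E] [BorelSpace E]

/-- two measures on path space with the same finite dimensional integrals agree -/
lemma measure_ext_fdd {μ ν : Measure (Pth E)} [IsFiniteMeasure μ] [IsFiniteMeasure ν]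
    (h : ∀ (I : Finset ℝ≥0) (g : BoundedContinuousFunction (I → E) ℝ≥0),
      ∫⁻ p, g (fun i => p.1 i) ∂μ = ∫⁻ p, g (fun i => p.1 i) ∂ν) : μ = ν := by
  have hval : Measurable (Subtype.val : Pth E → (ℝ≥0 → E)) := measurable_subtype_coe
  have hres : ∀ I : Finset ℝ≥0, Measurable (fun p : Pth E => fun i : I => p.1 i) := fun I =>
    measurable_pi_lambda _ fun i => measurable_eval _
  have h1 : ∀ I : Finset ℝ≥0, μ.map (fun p : Pth E => fun i : I => p.1 i) =
      ν.map (fun p : Pth E => fun i : I => p.1 i) := by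
    intro I
    have : IsFiniteMeasure (μ.map (fun p : Pth E => fun i : I => p.1 i)) := inferInstance
    apply ext_of_forall_lintegral_eq_of_IsFiniteMeasure
    intro g
    rw [lintegral_map (by fun_prop) (hres I), lintegral_map (by fun_prop) (hres I)]
    exact h I g
  have h2 : μ.map Subtype.val = ν.map Subtype.val := by
    apply IsProjectiveLimit.unique (P := fun I : Finset ℝ≥0 =>
      μ.map (fun p : Pth E => fun i : I => p.1 i))
    · intro I
      rw [Measure.map_map (Finset.measurable_restrict I) hval]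
      rfl
    · intro I
      rw [Measure.map_map (Finset.measurable_restrict I) hval]
      exact (h1 I).symm
  ext s hs
  obtain ⟨t, ht, rfl⟩ := hs
  rw [← Measure.map_apply hval ht, ← Measure.map_apply hval ht, h2]

/-- optional times, by Galmarini's test -/
structure IsOpt (T : Pth E → ℝ≥0∞) : Prop where
  meas : Measurable T
  gal : ∀ (p q : Pth E) (t : ℝ≥0), (∀ s ≤ t, p.1 s = q.1 s) → T p < t → T q = T p

/-- functionals determined by the path until right after the time `T` (zero if `T = ∞`) -/
structure IsPre (T : Pth E → ℝ≥0∞) (Γ : Pth E → ℝ≥0∞) : Prop where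
  meas : Measurable Γ
  gal : ∀ (p q : Pth E) (t : ℝ≥0), (∀ s ≤ t, p.1 s = q.1 s) → T p < t → Γ q = Γ p
  top : ∀ p, T p = ∞ → Γ p = 0

/-- dyadic approximation from the right -/
noncomputable def dy (m : ℕ) (t : ℝ≥0∞) : ℝ≥0 := (⌊2 ^ m * t.toNNReal⌋₊ + 1 : ℕ) / 2 ^ m

lemma measurable_dy (m : ℕ) : Measurable (dy m) := by
  unfold dy
  apply Measurable.div_const
  apply Measurable.comp (g := fun k : ℕ => ((k + 1 : ℕ) : ℝ≥0)) (measurable_from_top)
  exact Nat.measurable_floor.comp (measurable_id.ennreal_toNNReal.const_mul _)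

lemma dy_gt (m : ℕ) {t : ℝ≥0∞} : t.toNNReal < dy m t := by
  unfold dy
  rw [lt_div_iff₀ (by positivity), mul_comm]
  push_cast
  exact Nat.lt_floor_add_one _

lemma dy_le (m : ℕ) (t : ℝ≥0∞) : dy m t ≤ t.toNNReal + 1 / 2 ^ m := by
  unfold dy
  push_cast
  rw [add_div]
  gcongr
  rw [div_le_iff₀ (by positivity), mul_comm]
  exact Nat.floor_le (zero_le)

lemma tendsto_dy (t : ℝ≥0∞) : Tendsto (fun m => dy m t) atTop (𝓝 t.toNNReal) := by
  have h1 : Tendsto (fun m : ℕ => t.toNNReal + 1 / 2 ^ m) atTop (𝓝 (t.toNNReal + 0)) := by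
    apply tendsto_const_nhds.add
    have := tendsto_pow_atTop_nhds_zero_of_lt_one (r := (1/2 : ℝ≥0)) (zero_le) (by
      rw [div_lt_one (by norm_num)]; norm_num)
    refine this.congr fun m => ?_
    rw [one_div_pow]
  rw [add_zero] at h1
  exact tendsto_of_tendsto_of_tendsto_of_le_of_le tendsto_const_nhds h1
    (fun m => (dy_gt m).le) (fun m => dy_le m t)

section

variable {W : Measure (Pth E)} {T Γ : Pth E → ℝ≥0∞}

lemma strong_markov_dy (hW : IsWiener W) (hT : IsOpt T) (hΓ : IsPre T Γ) {F : Pth E → ℝ≥0∞}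
    (hF : Measurable F) (m : ℕ) (x : E) :
    Ex W (fun p => Γ p * F (shift (dy m (T p)) p)) x =
      Ex W (fun p => Γ p * Ex W F (p.1 (dy m (T p)))) x := by
  classical
  set t : ℕ → ℝ≥0 := fun k => (k + 1 : ℕ) / 2 ^ m with ht
  set A : ℕ → Set (Pth E) := fun k => {p | T p ≠ ∞ ∧ ⌊2 ^ m * (T p).toNNReal⌋₊ = k} with hA
  have hAm : ∀ k, MeasurableSet (A k) := by
    intro k
    apply MeasurableSet.inter
    · exact (hT.meas (measurableSet_singleton ∞)).compl
    · exact (Nat.measurable_floor.comp (hT.meas.ennreal_toNNReal.const_mul _))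
        (measurableSet_singleton k)
  set H : ℕ → Pth E → ℝ≥0∞ := fun k => (A k).indicator Γ with hH
  have hHm : ∀ k, Measurable (H k) := fun k => hΓ.meas.indicator (hAm k)
  have hlt : ∀ k p, p ∈ A k → T p < t k := by
    intro k p hp
    have h1 := dy_gt m (t := T p)
    have h2 : dy m (T p) = t k := by
      rw [dy, hp.2]
    rw [h2] at h1
    rw [← ENNReal.coe_toNNReal hp.1]
    exact_mod_cast h1
  have hge : ∀ k p, p ∈ A k ↔ (T p < t k ∧ ((k : ℝ≥0) / 2 ^ m : ℝ≥0) ≤ T p) := by
    intro k p
    constructor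
    · intro hp
      refine ⟨hlt k p hp, ?_⟩
      rw [← ENNReal.coe_toNNReal hp.1]
      rw [ENNReal.coe_le_coe, div_le_iff₀ (by positivity), mul_comm, ← hp.2]
      exact Nat.floor_le (zero_le)
    · rintro ⟨h1, h2⟩
      have hne : T p ≠ ∞ := ne_top_of_lt h1
      refine ⟨hne, ?_⟩
      rw [← ENNReal.coe_toNNReal hne, ENNReal.coe_lt_coe, ht] at h1
      rw [← ENNReal.coe_toNNReal hne, ENNReal.coe_le_coe] at h2
      rw [Nat.floor_eq_iff (zero_le)]
      rw [div_le_iff₀ (by positivity), mul_comm] at h2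
      simp only at h1
      rw [lt_div_iff₀ (by positivity), mul_comm] at h1
      push_cast at h1
      exact ⟨h2, h1⟩
  have hagree : ∀ k (p : Pth E), ∀ s ≤ t k, p.1 s = (stop (t k) p).1 s := by
    intro k p s hs
    rw [stop_apply, min_eq_left hs]
  have hHstop : ∀ k p, H k (stop (t k) p) = H k p := by
    intro k p
    simp only [hH]
    by_cases hp : p ∈ A k
    · have h1 := hT.gal p (stop (t k) p) (t k) (hagree k p) (hlt k p hp)
      have h2 : stop (t k) p ∈ A k := by
        rw [hge, h1]; exact (hge k p).1 hp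
      rw [indicator_of_mem hp, indicator_of_mem h2]
      exact hΓ.gal p _ (t k) (hagree k p) (hlt k p hp)
    · have h2 : stop (t k) p ∉ A k := by
        intro h
        have h1 := hT.gal (stop (t k) p) p (t k) (fun s hs => (hagree k p s hs).symm)
          (hlt k _ h)
        apply hp
        rw [hge, h1]; exact (hge k _).1 h
      rw [indicator_of_notMem hp, indicator_of_notMem h2]
  have hsum : ∀ (K : ℝ≥0 → Pth E → ℝ≥0∞) (p : Pth E),
      Γ p * K (dy m (T p)) p = ∑' k, H k p * K (t k) p := by
    intro K p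
    by_cases hp : T p = ∞
    · rw [hΓ.top p hp, zero_mul]
      symm
      rw [ENNReal.tsum_eq_zero]
      intro k
      have : p ∉ A k := fun h => h.1 hp
      simp only [hH, indicator_of_notMem this, zero_mul]
    · rw [tsum_eq_single ⌊2 ^ m * (T p).toNNReal⌋₊]
      · have : p ∈ A ⌊2 ^ m * (T p).toNNReal⌋₊ := ⟨hp, rfl⟩
        simp only [hH, indicator_of_mem this]
        rfl
      · intro k hk
        have : p ∉ A k := fun h => hk h.2.symm
        simp only [hH, indicator_of_notMem this, zero_mul]
  have hFE := measurable_Ex hW hF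
  have e1 : Ex W (fun p => Γ p * F (shift (dy m (T p)) p)) x =
      ∑' k, Ex W (fun p => H k (stop (t k) p) * F (shift (t k) p)) x := by
    unfold Ex
    rw [← lintegral_tsum]
    · apply lintegral_congr
      intro p
      show Γ (tr x p) * F (shift (dy m (T (tr x p))) (tr x p)) =
        ∑' k, H k (stop (t k) (tr x p)) * F (shift (t k) (tr x p))
      rw [hsum (fun s p => F (shift s p))]
      simp only [hHstop]
    · intro k
      exact (((hHm k).comp ((measurable_stop _).comp (measurable_tr x))).mul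
        (hF.comp ((measurable_shift _).comp (measurable_tr x)))).aemeasurable
  have e2 : Ex W (fun p => Γ p * Ex W F (p.1 (dy m (T p)))) x =
      ∑' k, Ex W (fun p => H k (stop (t k) p) * Ex W F (p.1 (t k))) x := by
    conv_lhs => rw [Ex]
    conv_rhs => enter [1, k]; rw [Ex]
    rw [← lintegral_tsum]
    · apply lintegral_congr
      intro p
      show Γ (tr x p) * Ex W F ((tr x p).1 (dy m (T (tr x p)))) =
        ∑' k, H k (stop (t k) (tr x p)) * Ex W F ((tr x p).1 (t k))
      rw [hsum (fun s p => Ex W F (p.1 s))]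
      simp only [hHstop]
    · intro k
      exact (((hHm k).comp ((measurable_stop _).comp (measurable_tr x))).mul
        (hFE.comp ((measurable_eval _).comp (measurable_tr x)))).aemeasurable
  rw [e1, e2]
  congr 1
  ext k
  exact markov hW (t k) (hHm k) hF x

/-- integral over cylinder functions is continuous in the starting point -/
lemma continuous_Ex_cyl (hW : IsWiener W) (I : Finset ℝ≥0)
    (g : BoundedContinuousFunction (I → E) ℝ≥0) :
    Continuous (Ex W (fun p => (g (fun i => p.1 i) : ℝ≥0∞))) := by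
  have hprob := hW.prob
  rw [continuous_iff_seqContinuous]
  intro u x hu
  obtain ⟨C, hC⟩ : ∃ C : ℝ≥0, ∀ v, g v ≤ C :=
    ⟨nndist g 0, fun v => BoundedContinuousFunction.NNReal.upper_bound g v⟩
  have hmeas : ∀ y : E, Measurable (fun p : Pth E => (g (fun i => (tr y p).1 i) : ℝ≥0∞)) := by
    intro y
    apply Measurable.coe_nnreal_ennreal
    apply g.continuous.measurable.comp
    exact measurable_pi_lambda _ fun i => (measurable_eval _).comp (measurable_tr y)
  apply tendsto_lintegral_of_dominated_convergence (bound := fun _ => (C : ℝ≥0∞))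
  · intro n
    exact hmeas (u n)
  · intro n
    apply Eventually.of_forall
    intro p
    exact ENNReal.coe_le_coe.2 (hC _)
  · simp
  · apply Eventually.of_forall
    intro p
    rw [ENNReal.tendsto_coe]
    apply (g.continuous.tendsto _).comp
    rw [tendsto_pi_nhds]
    intro i
    simp only [tr_apply]
    exact hu.add_const _

/-- Strong Markov property for cylinder functions. -/
lemma strong_markov_cyl (hW : IsWiener W) (hT : IsOpt T) (hΓ : IsPre T Γ) {x : E}
    (hfin : Ex W Γ x ≠ ∞) (I : Finset ℝ≥0)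
    (g : BoundedContinuousFunction (I → E) ℝ≥0) :
    Ex W (fun p => Γ p * g (fun i => (shift (T p).toNNReal p).1 i)) x =
      Ex W (fun p => Γ p * Ex W (fun p => (g (fun i => p.1 i) : ℝ≥0∞)) (p.1 (T p).toNNReal)) x := by
  have hprob := hW.prob
  obtain ⟨C, hC⟩ : ∃ C : ℝ≥0, ∀ v, g v ≤ C :=
    ⟨nndist g 0, fun v => BoundedContinuousFunction.NNReal.upper_bound g v⟩
  have hFm : Measurable (fun p : Pth E => (g (fun i => p.1 i) : ℝ≥0∞)) := by
    apply Measurable.coe_nnreal_ennreal
    apply g.continuous.measurable.comp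
    exact measurable_pi_lambda _ fun i => measurable_eval _
  have hEC : ∀ y, Ex W (fun p => (g (fun i => p.1 i) : ℝ≥0∞)) y ≤ C := by
    intro y
    rw [← Ex_const hW (C : ℝ≥0∞) y]
    exact Ex_mono (fun p => ENNReal.coe_le_coe.2 (hC _)) y
  have hΓx : Measurable (fun p => Γ (tr x p)) := hΓ.meas.comp (measurable_tr x)
  have hdy : ∀ m, Measurable (fun p : Pth E => dy m (T (tr x p))) := fun m =>
    (measurable_dy m).comp (hT.meas.comp (measurable_tr x))
  have hbound : ∫⁻ p, Γ (tr x p) * (C : ℝ≥0∞) ∂W ≠ ∞ := by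
    rw [lintegral_mul_const _ hΓx]
    exact ENNReal.mul_ne_top hfin ENNReal.coe_ne_top
  have hne : ∀ᵐ p ∂W, Γ (tr x p) < ∞ := ae_lt_top hΓx hfin
  have l1 : Tendsto (fun m => Ex W (fun p => Γ p * g (fun i => (shift (dy m (T p)) p).1 i)) x)
      atTop (𝓝 (Ex W (fun p => Γ p * g (fun i => (shift (T p).toNNReal p).1 i)) x)) := by
    apply tendsto_lintegral_of_dominated_convergence
      (bound := fun p => Γ (tr x p) * (C : ℝ≥0∞))
    · intro m
      exact hΓx.mul (hFm.comp (measurable_shift2.comp ((hdy m).prodMk (measurable_tr x))))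
    · intro m
      apply Eventually.of_forall
      intro p
      exact mul_le_mul_right (ENNReal.coe_le_coe.2 (hC _)) _
    · exact hbound
    · filter_upwards [hne] with p hp
      apply ENNReal.Tendsto.const_mul _ (Or.inr hp.ne)
      rw [ENNReal.tendsto_coe]
      apply (g.continuous.tendsto _).comp
      rw [tendsto_pi_nhds]
      intro i
      simp only [shift_apply]
      exact ((tr x p).2.tendsto _).comp ((tendsto_dy _).add_const _)
  have l2 : Tendsto (fun m => Ex W (fun p => Γ p *
      Ex W (fun p => (g (fun i => p.1 i) : ℝ≥0∞)) (p.1 (dy m (T p)))) x) atTop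
      (𝓝 (Ex W (fun p => Γ p *
        Ex W (fun p => (g (fun i => p.1 i) : ℝ≥0∞)) (p.1 (T p).toNNReal)) x)) := by
    apply tendsto_lintegral_of_dominated_convergence
      (bound := fun p => Γ (tr x p) * (C : ℝ≥0∞))
    · intro m
      exact hΓx.mul ((measurable_Ex hW hFm).comp (Measurable.eval (hdy m) (measurable_tr x)))
    · intro m
      apply Eventually.of_forall
      intro p
      exact mul_le_mul_right (hEC _) _
    · exact hbound
    · filter_upwards [hne] with p hp
      apply ENNReal.Tendsto.const_mul _ (Or.inr hp.ne)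
      apply ((continuous_Ex_cyl hW I g).tendsto _).comp
      exact ((tr x p).2.tendsto _).comp (tendsto_dy _)
  refine tendsto_nhds_unique l1 (l2.congr fun m => ?_)
  exact (strong_markov_dy hW hT hΓ hFm m x).symm

/-- Strong Markov property, when `Γ` is integrable. -/
lemma strong_markov_fin (hW : IsWiener W) (hT : IsOpt T) (hΓ : IsPre T Γ) {F : Pth E → ℝ≥0∞}
    (hF : Measurable F) {x : E} (hfin : Ex W Γ x ≠ ∞) :
    Ex W (fun p => Γ p * F (shift (T p).toNNReal p)) x =
      Ex W (fun p => Γ p * Ex W F (p.1 (T p).toNNReal)) x := by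
  have hprob := hW.prob
  have hΓx : Measurable (fun p => Γ (tr x p)) := hΓ.meas.comp (measurable_tr x)
  have hTx : Measurable (fun p : Pth E => (T (tr x p)).toNNReal) :=
    (hT.meas.comp (measurable_tr x)).ennreal_toNNReal
  set μ : Measure (Pth E) := W.withDensity (fun p => Γ (tr x p)) with hμ
  have hμfin : IsFiniteMeasure μ := ⟨by
    rw [hμ, withDensity_apply _ MeasurableSet.univ, setLIntegral_univ]
    exact lt_top_iff_ne_top.2 hfin⟩
  set f1 : Pth E → Pth E := fun p => shift (T (tr x p)).toNNReal (tr x p) with hf1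
  have hf1m : Measurable f1 := measurable_shift2.comp (hTx.prodMk (measurable_tr x))
  set f2 : Pth E × Pth E → Pth E := fun q => tr ((tr x q.1).1 (T (tr x q.1)).toNNReal) q.2
    with hf2
  have hf2m : Measurable f2 :=
    measurable_tr2.comp (((Measurable.eval hTx (measurable_tr x)).comp measurable_fst).prodMk
      measurable_snd)
  have key1 : ∀ G : Pth E → ℝ≥0∞, Measurable G →
      ∫⁻ p, G p ∂(μ.map f1) = Ex W (fun p => Γ p * G (shift (T p).toNNReal p)) x := by
    intro G hG
    rw [lintegral_map hG hf1m, hμ]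
    exact lintegral_withDensity_eq_lintegral_mul _ hΓx (hG.comp hf1m)
  have key2 : ∀ G : Pth E → ℝ≥0∞, Measurable G →
      ∫⁻ p, G p ∂((μ.prod W).map f2) = Ex W (fun p => Γ p * Ex W G (p.1 (T p).toNNReal)) x := by
    intro G hG
    have hGf : Measurable (fun q : Pth E × Pth E => G (f2 q)) := hG.comp hf2m
    rw [lintegral_map hG hf2m, lintegral_prod _ hGf.aemeasurable, hμ]
    exact lintegral_withDensity_eq_lintegral_mul _ hΓx hGf.lintegral_prod_right'
  have heq : μ.map f1 = (μ.prod W).map f2 := by
    apply measure_ext_fdd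
    intro I g
    have hFm : Measurable (fun p : Pth E => (g (fun i => p.1 i) : ℝ≥0∞)) := by
      apply Measurable.coe_nnreal_ennreal
      apply g.continuous.measurable.comp
      exact measurable_pi_lambda _ fun i => measurable_eval _
    rw [key1 _ hFm, key2 _ hFm]
    exact strong_markov_cyl hW hT hΓ hfin I g
  rw [← key1 F hF, heq, key2 F hF]

/-- Strong Markov property. -/
theorem strong_markov (hW : IsWiener W) (hT : IsOpt T) (hΓ : IsPre T Γ) {F : Pth E → ℝ≥0∞}
    (hF : Measurable F) (x : E) :
    Ex W (fun p => Γ p * F (shift (T p).toNNReal p)) x =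
      Ex W (fun p => Γ p * Ex W F (p.1 (T p).toNNReal)) x := by
  have hprob := hW.prob
  have hΓn : ∀ n : ℕ, IsPre T (fun p => min (Γ p) n) := fun n =>
    ⟨hΓ.meas.min measurable_const, fun p q t h1 h2 => by rw [hΓ.gal p q t h1 h2],
      fun p hp => by rw [hΓ.top p hp]; simp⟩
  have hTx : Measurable (fun p : Pth E => (T (tr x p)).toNNReal) :=
    (hT.meas.comp (measurable_tr x)).ennreal_toNNReal
  have h1 : ∀ (K : Pth E → ℝ≥0∞), Measurable K →
      Tendsto (fun n : ℕ => ∫⁻ p, min (Γ (tr x p)) n * K p ∂W) atTop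
        (𝓝 (∫⁻ p, Γ (tr x p) * K p ∂W)) := by
    intro K hK
    apply lintegral_tendsto_of_tendsto_of_monotone
    · intro n
      exact (((hΓn n).meas.comp (measurable_tr x)).mul hK).aemeasurable
    · apply Eventually.of_forall
      intro p n m hnm
      dsimp only
      gcongr
    · apply Eventually.of_forall
      intro p
      have h2 : Tendsto (fun n : ℕ => min (Γ (tr x p)) (n : ℝ≥0∞)) atTop
          (𝓝 (min (Γ (tr x p)) ∞)) :=
        tendsto_const_nhds.min ENNReal.tendsto_nat_nhds_top
      rw [min_eq_left le_top] at h2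
      have hmono : Monotone (fun n : ℕ => min (Γ (tr x p)) (n : ℝ≥0∞)) := by
        intro n m hnm
        dsimp only
        gcongr
      have h3 : ⨆ n : ℕ, min (Γ (tr x p)) (n : ℝ≥0∞) = Γ (tr x p) :=
        tendsto_nhds_unique (tendsto_atTop_iSup hmono) h2
      have h4 : Tendsto (fun n : ℕ => min (Γ (tr x p)) (n : ℝ≥0∞) * K p) atTop
          (𝓝 (⨆ n : ℕ, min (Γ (tr x p)) (n : ℝ≥0∞) * K p)) := by
        apply tendsto_atTop_iSup
        intro n m hnm
        dsimp only
        gcongr
      rw [← ENNReal.iSup_mul, h3] at h4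
      exact h4
  have e1 := h1 (fun p => F (shift (T (tr x p)).toNNReal (tr x p)))
    (hF.comp (measurable_shift2.comp (hTx.prodMk (measurable_tr x))))
  have e2 := h1 (fun p => Ex W F ((tr x p).1 (T (tr x p)).toNNReal))
    ((measurable_Ex hW hF).comp (Measurable.eval hTx (measurable_tr x)))
  refine tendsto_nhds_unique e1 (e2.congr fun n => ?_)
  refine (strong_markov_fin hW hT (hΓn n) hF (x := x) ?_).symm
  apply ne_top_of_le_ne_top (b := (n : ℝ≥0∞)) (by simp)
  calc Ex W (fun p => min (Γ p) n) x ≤ Ex W (fun _ => (n : ℝ≥0∞)) x :=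
        Ex_mono (fun p => min_le_right _ _) x
    _ = n := Ex_const hW _ x

end

end Pool.Agent.Lib.P07dee5
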