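import Mathlib
import Pool.Agent.Lib.P07dee5.Strong

/-! # Gaussian density of the position at a fixed time -/

open MeasureTheory Set Filter Topology ProbabilityTheory Module
open scoped ENNReal NNReal RealInnerProductSpace

set_option linter.unusedSectionVars false

namespace Pool.Agent.Lib.P07dee5

variable {E : Type*} [NormedAddCommGroup E] [InnerProductSpace ℝ E] [FiniteDimensional ℝ E]

/-- Gaussian kernel (heat kernel of `Δ/2`) -/
noncomputable def gk (t : ℝ) (x : E) : ℝ :=
  (2 * Real.pi * t) ^ (-(finrank ℝ E : ℝ) / 2) * Real.exp (-‖x‖ ^ 2 / (2 * t))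

lemma gk_nonneg {t : ℝ} (ht : 0 ≤ t) (x : E) : 0 ≤ gk t x := by
  unfold gk; positivity

lemma gk_pos {t : ℝ} (ht : 0 < t) (x : E) : 0 < gk t x := by
  unfold gk; positivity

lemma gk_neg (t : ℝ) (x : E) : gk t (-x) = gk t x := by simp [gk]

lemma continuous_gk (t : ℝ) : Continuous (gk (E := E) t) := by
  unfold gk; fun_prop

variable [MeasurableSpace E] [BorelSpace E] {W : Measure (Pth E)}

lemma measurable_gk2 : Measurable (fun q : ℝ × E => gk q.1 q.2) := by
  unfold gk
  fun_prop

lemma charFun_scaled (t : ℝ≥0) (ξ : E) :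
    charFun ((stdGaussian E).map (fun z => (NNReal.sqrt t : ℝ) • z)) ξ =
      Complex.exp (-(t : ℝ) * ‖ξ‖ ^ 2 / 2) := by
  rw [charFun_map_smul, charFun_stdGaussian, norm_smul]
  congr 1
  have : (NNReal.sqrt t : ℝ) ^ 2 = t := by
    rw [← NNReal.coe_pow, NNReal.sq_sqrt]
  have h2 : ((‖(NNReal.sqrt t : ℝ)‖ : ℝ) : ℂ) ^ 2 = ((t : ℝ) : ℂ) := by
    rw [← Complex.ofReal_pow, Real.norm_eq_abs, sq_abs, this]
  rw [Complex.ofReal_mul, mul_pow, h2]
  ring

lemma charFun_density {t : ℝ} (ht : 0 < t) (ξ : E) :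
    charFun (volume.withDensity (fun y : E => ENNReal.ofReal (gk t y))) ξ =
      Complex.exp (-t * ‖ξ‖ ^ 2 / 2) := by
  rw [charFun_apply, integral_withDensity_eq_integral_toReal_smul
    (continuous_gk t).measurable.ennreal_ofReal (by simp)]
  have e1 : ∀ y : E, (ENNReal.ofReal (gk t y)).toReal • Complex.exp (⟪y, ξ⟫ * Complex.I) =
      (((2 * Real.pi * t) ^ (-(finrank ℝ E : ℝ) / 2) : ℝ) : ℂ) *
        Complex.exp (-((1 / (2 * t) : ℝ) : ℂ) * ‖y‖ ^ 2 + Complex.I * ⟪ξ, y⟫) := by
    intro y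
    rw [ENNReal.toReal_ofReal (gk_nonneg ht.le y), gk, Complex.exp_add, Complex.real_smul]
    push_cast
    rw [real_inner_comm ξ y]
    have : (-(1 / (2 * (t : ℂ))) * (‖y‖ : ℂ) ^ 2) = -(‖y‖ : ℂ) ^ 2 / (2 * t) := by ring
    rw [this, mul_comm Complex.I]
    ring
  simp_rw [e1]
  rw [integral_const_mul, GaussianFourier.integral_cexp_neg_mul_sq_norm_add]
  · have h1 : ((Real.pi : ℂ) / ((1 / (2 * t) : ℝ) : ℂ)) = ((2 * Real.pi * t : ℝ) : ℂ) := by
      push_cast
      have : (t : ℂ) ≠ 0 := by exact_mod_cast ht.ne'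
      field_simp
    have h2 : ((finrank ℝ E : ℂ) / 2) = (((finrank ℝ E : ℝ) / 2 : ℝ) : ℂ) := by push_cast; rfl
    rw [h1, h2, ← Complex.ofReal_cpow (by positivity), ← mul_assoc, ← Complex.ofReal_mul,
      ← Real.rpow_add (by positivity)]
    have h3 : (-(finrank ℝ E : ℝ) / 2 + (finrank ℝ E : ℝ) / 2) = 0 := by ring
    rw [h3, Real.rpow_zero, Complex.ofReal_one, one_mul]
    congr 1
    push_cast
    rw [Complex.I_sq]
    have : (t : ℂ) ≠ 0 := by exact_mod_cast ht.ne'
    field_simp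
    ring
  · rw [Complex.ofReal_re]; positivity

lemma lintegral_gk {t : ℝ} (ht : 0 < t) : ∫⁻ y : E, ENNReal.ofReal (gk t y) = 1 := by
  have hfin : Integrable (fun y : E => gk t y) := by
    unfold gk
    apply Integrable.const_mul
    have := GaussianFourier.integrable_cexp_neg_mul_sq_norm_add (V := E)
      (b := ((1 / (2 * t) : ℝ) : ℂ)) (by rw [Complex.ofReal_re]; positivity) 0 0
    have h2 := this.norm
    refine h2.congr (Eventually.of_forall fun y => ?_)
    simp only [zero_mul, add_zero]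
    rw [Complex.norm_exp]
    congr 1
    rw [← Complex.ofReal_pow, ← Complex.ofReal_neg, ← Complex.ofReal_mul, Complex.ofReal_re]
    field_simp
  rw [← ofReal_integral_eq_lintegral_ofReal hfin (Eventually.of_forall (gk_nonneg ht.le))]
  rw [← ENNReal.ofReal_one]
  congr 1
  unfold gk
  rw [integral_const_mul]
  have h1 : ∀ y : E, Real.exp (-‖y‖ ^ 2 / (2 * t)) = Real.exp (-(1 / (2 * t)) * ‖y‖ ^ 2) := by
    intro y; congr 1; ring
  simp_rw [h1]
  rw [GaussianFourier.integral_rexp_neg_mul_sq_norm (by positivity)]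
  have h2 : Real.pi / (1 / (2 * t)) = 2 * Real.pi * t := by field_simp
  rw [h2, ← Real.rpow_add (by positivity)]
  have h3 : (-(finrank ℝ E : ℝ) / 2 + (finrank ℝ E : ℝ) / 2) = 0 := by ring
  rw [h3, Real.rpow_zero]

lemma law_eq_density {t : ℝ≥0} (ht : 0 < t) :
    (stdGaussian E).map (fun z => (NNReal.sqrt t : ℝ) • z) =
      volume.withDensity (fun y : E => ENNReal.ofReal (gk t y)) := by
  have : IsFiniteMeasure (volume.withDensity (fun y : E => ENNReal.ofReal (gk t y))) := ⟨by
    rw [withDensity_apply _ MeasurableSet.univ, setLIntegral_univ,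
      lintegral_gk (by exact_mod_cast ht)]
    exact ENNReal.one_lt_top⟩
  have : IsProbabilityMeasure ((stdGaussian E).map (fun z => (NNReal.sqrt t : ℝ) • z)) :=
    Measure.isProbabilityMeasure_map (by fun_prop)
  apply Measure.ext_of_charFun
  ext ξ
  rw [charFun_scaled, charFun_density (by exact_mod_cast ht)]

theorem Ex_eval (hW : IsWiener W) {t : ℝ≥0} (ht : 0 < t) {f : E → ℝ≥0∞} (hf : Measurable f)
    (x : E) : Ex W (fun p => f (p.1 t)) x = ∫⁻ y, ENNReal.ofReal (gk t (y - x)) * f y := by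
  have h1 : Ex W (fun p => f (p.1 t)) x = ∫⁻ z, f (x + z) ∂(W.map (fun p => p.1 t)) := by
    rw [lintegral_map (f := fun z => f (x + z)) (hf.comp (measurable_const_add x))
      (measurable_eval t)]
    rfl
  rw [h1, hW.law, law_eq_density ht, lintegral_withDensity_eq_lintegral_mul _
    (g := fun z => f (x + z))
    (continuous_gk _).measurable.ennreal_ofReal (hf.comp (measurable_const_add x))]
  rw [← lintegral_add_left_eq_self (μ := volume)
    (fun y => ENNReal.ofReal (gk t (y - x)) * f y) x]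
  apply lintegral_congr
  intro z
  simp

end Pool.Agent.Lib.P07dee5
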