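import Mathlib
import Pool.Agent.Lib.P07dee5.Strong

/-! # Hitting times and discounting -/

open MeasureTheory Set Filter Topology ProbabilityTheory
open scoped ENNReal NNReal

set_option linter.unusedSectionVars false

namespace Pool.Agent.Lib.P07dee5

/-- discount factor `exp (-a T)` -/
noncomputable def dsc (a : ℝ≥0) (T : ℝ≥0∞) : ℝ≥0∞ := EReal.exp (-(((a : ℝ≥0∞) * T : ℝ≥0∞) : EReal))

lemma dsc_continuous (a : ℝ≥0) : Continuous (dsc a) := by
  unfold dsc
  exact ENNReal.continuous_exp.comp (continuous_neg.comp (continuous_coe_ennreal_ereal.comp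
    (ENNReal.continuous_const_mul ENNReal.coe_ne_top)))

lemma dsc_measurable (a : ℝ≥0) : Measurable (dsc a) := (dsc_continuous a).measurable

lemma dsc_anti (a : ℝ≥0) : Antitone (dsc a) := by
  intro x y h
  unfold dsc
  rw [EReal.exp_le_exp_iff, EReal.neg_le_neg_iff, EReal.coe_ennreal_le_coe_ennreal_iff]
  gcongr

lemma dsc_zero (a : ℝ≥0) : dsc a 0 = 1 := by simp [dsc]

lemma dsc_le_one (a : ℝ≥0) (T : ℝ≥0∞) : dsc a T ≤ 1 := by
  rw [← dsc_zero a]
  exact dsc_anti a (zero_le)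

lemma dsc_lt_top (a : ℝ≥0) (T : ℝ≥0∞) : dsc a T < ∞ := (dsc_le_one a T).trans_lt ENNReal.one_lt_top

lemma dsc_ne_top (a : ℝ≥0) (T : ℝ≥0∞) : dsc a T ≠ ∞ := (dsc_lt_top a T).ne

lemma dsc_add (a : ℝ≥0) (S T : ℝ≥0∞) : dsc a (S + T) = dsc a S * dsc a T := by
  unfold dsc
  rw [mul_add, EReal.coe_ennreal_add, EReal.neg_add, sub_eq_add_neg, EReal.exp_add]
  · left; exact EReal.coe_ennreal_ne_bot _
  · right; exact EReal.coe_ennreal_ne_bot _

lemma dsc_top {a : ℝ≥0} (ha : a ≠ 0) : dsc a ∞ = 0 := by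
  unfold dsc
  rw [ENNReal.mul_top (by simpa using ha)]
  simp

lemma dsc_coe (a t : ℝ≥0) : dsc a t = ENNReal.ofReal (Real.exp (-(a * t))) := by
  unfold dsc
  rw [← ENNReal.coe_mul]
  have : -(((a * t : ℝ≥0) : ℝ≥0∞) : EReal) = ((-(a * t : ℝ) : ℝ) : EReal) := by
    push_cast
    rfl
  rw [this, EReal.exp_coe]

lemma dsc_coe_pos (a t : ℝ≥0) : 0 < dsc a t := by
  rw [dsc_coe]
  positivity

lemma dsc_lt_one {a : ℝ≥0} (ha : a ≠ 0) {T : ℝ≥0∞} (hT : 0 < T) : dsc a T < 1 := by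
  unfold dsc
  rw [EReal.exp_lt_one_iff]
  rw [EReal.neg_lt_zero]
  have : (0 : ℝ≥0∞) < a * T := ENNReal.mul_pos (by simpa using ha) hT.ne'
  exact_mod_cast this

lemma tendsto_dsc_zero (a : ℝ≥0) : Tendsto (fun t : ℝ≥0 => dsc a t) (𝓝 0) (𝓝 1) := by
  have h := (dsc_continuous a).tendsto 0
  rw [dsc_zero] at h
  exact h.comp (ENNReal.continuous_coe.tendsto 0)

section

variable {E : Type*} [NormedAddCommGroup E] [MeasurableSpace E] [BorelSpace E]
  [SecondCountableTopology E]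

/-- hitting time of an open set (after time `0`) -/
noncomputable def hitO (D : Set E) (p : Pth E) : ℝ≥0∞ :=
  ⨅ (t : ℝ≥0) (_ : 0 < t ∧ p.1 t ∈ D), (t : ℝ≥0∞)

lemma hitO_lt_iff {D : Set E} {p : Pth E} {c : ℝ≥0∞} :
    hitO D p < c ↔ ∃ t : ℝ≥0, 0 < t ∧ (t : ℝ≥0∞) < c ∧ p.1 t ∈ D := by
  simp only [hitO, iInf_lt_iff]
  constructor
  · rintro ⟨t, ⟨h1, h2⟩, h3⟩; exact ⟨t, h1, h3, h2⟩
  · rintro ⟨t, h1, h3, h2⟩; exact ⟨t, ⟨h1, h2⟩, h3⟩

lemma hitO_le {D : Set E} {p : Pth E} {t : ℝ≥0} (ht : 0 < t) (h : p.1 t ∈ D) :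
    hitO D p ≤ t := iInf₂_le t ⟨ht, h⟩

lemma notMem_of_lt_hitO {D : Set E} {p : Pth E} {t : ℝ≥0} (ht : 0 < t)
    (h : (t : ℝ≥0∞) < hitO D p) : p.1 t ∉ D := fun h1 => absurd (hitO_le ht h1) (not_le.2 h)

lemma hitO_anti {D D' : Set E} (h : D ⊆ D') (p : Pth E) : hitO D' p ≤ hitO D p :=
  le_iInf₂ fun t ht => iInf₂_le t ⟨ht.1, h ht.2⟩

/-- if an open condition holds at a time, it holds at a time of the dense sequence nearby -/
lemma exists_dense_time {O : Set ℝ≥0} (hO : IsOpen O) (hne : O.Nonempty) :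
    ∃ n, TopologicalSpace.denseSeq ℝ≥0 n ∈ O := by
  exact (TopologicalSpace.denseRange_denseSeq ℝ≥0).exists_mem_open hO hne

lemma measurable_hitO {D : Set E} (hD : IsOpen D) : Measurable (hitO D) := by
  apply measurable_of_Iio
  intro c
  have : (hitO D) ⁻¹' (Iio c) = ⋃ n : ℕ, {p : Pth E | (0 < TopologicalSpace.denseSeq ℝ≥0 n ∧
      ((TopologicalSpace.denseSeq ℝ≥0 n : ℝ≥0) : ℝ≥0∞) < c) ∧
      p.1 (TopologicalSpace.denseSeq ℝ≥0 n) ∈ D} := by
    ext p
    rw [mem_preimage, mem_Iio, hitO_lt_iff, mem_iUnion]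
    constructor
    · rintro ⟨t, h1, h2, h3⟩
      have hO : IsOpen {s : ℝ≥0 | (0 < s ∧ (s : ℝ≥0∞) < c) ∧ p.1 s ∈ D} := by
        apply IsOpen.inter
        · exact (isOpen_lt continuous_const continuous_id).inter
            (isOpen_lt ENNReal.continuous_coe continuous_const)
        · exact hD.preimage p.2
      exact exists_dense_time hO ⟨t, ⟨h1, h2⟩, h3⟩
    · rintro ⟨n, ⟨h1, h2⟩, h3⟩
      exact ⟨_, h1, h2, h3⟩
  rw [this]
  apply MeasurableSet.iUnion
  intro n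
  apply MeasurableSet.inter
  · exact (MeasurableSet.const (0 < TopologicalSpace.denseSeq ℝ≥0 n ∧
        ((TopologicalSpace.denseSeq ℝ≥0 n : ℝ≥0) : ℝ≥0∞) < c))
  · exact measurable_eval _ hD.measurableSet

/-- shift of the hitting time of an open set -/
lemma hitO_shift {D : Set E} (hD : IsOpen D) {p : Pth E} {s : ℝ≥0}
    (h : (s : ℝ≥0∞) ≤ hitO D p) : hitO D p = s + hitO D (shift s p) := by
  apply le_antisymm
  · apply le_of_forall_gt
    intro c hc
    have h0 : hitO D (shift s p) < c - s := by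
      rw [lt_tsub_iff_left]; exact hc
    obtain ⟨t, h1, h2, h3⟩ := hitO_lt_iff.1 h0
    rw [hitO_lt_iff]
    refine ⟨s + t, by positivity, ?_, h3⟩
    rw [lt_tsub_iff_left] at h2
    rw [ENNReal.coe_add]
    exact h2
  · apply le_of_forall_gt
    intro c hc
    obtain ⟨t, h1, h2, h3⟩ := hitO_lt_iff.1 hc
    have hst : s ≤ t := by
      have := h.trans (hitO_le h1 h3)
      exact_mod_cast this
    rcases hst.lt_or_eq with hlt | heq
    · have h4 : hitO D (shift s p) ≤ ((t - s : ℝ≥0) : ℝ≥0∞) := by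
        apply hitO_le (tsub_pos_of_lt hlt)
        rw [shift_apply, add_tsub_cancel_of_le hst]
        exact h3
      calc (s : ℝ≥0∞) + hitO D (shift s p) ≤ s + ((t - s : ℝ≥0) : ℝ≥0∞) := by gcongr
        _ = t := by rw [← ENNReal.coe_add, add_tsub_cancel_of_le hst]
        _ < c := h2
    · subst heq
      have hO : IsOpen {u : ℝ≥0 | ((s + u : ℝ≥0) : ℝ≥0∞) < c ∧ p.1 (s + u) ∈ D} := by
        apply IsOpen.inter
        · exact isOpen_lt (ENNReal.continuous_coe.comp (continuous_const.add continuous_id))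
            continuous_const
        · exact hD.preimage (p.2.comp (continuous_const.add continuous_id))
      have h0 : (0 : ℝ≥0) ∈ {u : ℝ≥0 | ((s + u : ℝ≥0) : ℝ≥0∞) < c ∧ p.1 (s + u) ∈ D} := by
        simp only [Set.mem_ofPred_eq, add_zero]
        exact ⟨h2, h3⟩
      have h5 : ∀ᶠ u in 𝓝[>] (0 : ℝ≥0), u ∈ {u : ℝ≥0 | ((s + u : ℝ≥0) : ℝ≥0∞) < c ∧
          p.1 (s + u) ∈ D} := mem_nhdsWithin_of_mem_nhds (hO.mem_nhds h0)
      obtain ⟨u, hu, hu0⟩ := (h5.and self_mem_nhdsWithin).exists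
      calc (s : ℝ≥0∞) + hitO D (shift s p) ≤ s + (u : ℝ≥0∞) := by
            gcongr
            exact hitO_le hu0 hu.2
        _ < c := by rw [← ENNReal.coe_add]; exact hu.1

/-- hitting time of a closed set -/
noncomputable def hitC (F : Set E) (p : Pth E) : ℝ≥0∞ :=
  ⨅ (t : ℝ≥0) (_ : p.1 t ∈ F), (t : ℝ≥0∞)

lemma hitC_le {F : Set E} {p : Pth E} {t : ℝ≥0} (h : p.1 t ∈ F) : hitC F p ≤ t := iInf₂_le t h

lemma hitC_lt_iff {F : Set E} {p : Pth E} {c : ℝ≥0∞} :
    hitC F p < c ↔ ∃ t : ℝ≥0, (t : ℝ≥0∞) < c ∧ p.1 t ∈ F := by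
  simp only [hitC, iInf_lt_iff]
  constructor
  · rintro ⟨t, h2, h3⟩; exact ⟨t, h3, h2⟩
  · rintro ⟨t, h3, h2⟩; exact ⟨t, h2, h3⟩

lemma hitC_le_iff {F : Set E} (hF : IsClosed F) {p : Pth E} {t : ℝ≥0} :
    hitC F p ≤ t ↔ ∃ s ≤ t, p.1 s ∈ F := by
  constructor
  · intro h
    by_contra hcon
    push Not at hcon
    have hK : IsCompact (Icc (0 : ℝ≥0) (t + 1)) := isCompact_Icc
    have hcl : IsClosed {s : ℝ≥0 | p.1 s ∈ F} := hF.preimage p.2
    have hK2 : IsCompact (Icc (0 : ℝ≥0) (t + 1) ∩ {s | p.1 s ∈ F}) := hK.inter_right hcl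
    obtain ⟨u, hu1, hu2⟩ := (hitC_lt_iff (F := F) (p := p) (c := ((t + 1 : ℝ≥0) : ℝ≥0∞))).1
      (h.trans_lt (by exact_mod_cast lt_add_one t))
    have hne : (Icc (0 : ℝ≥0) (t + 1) ∩ {s | p.1 s ∈ F}).Nonempty :=
      ⟨u, ⟨zero_le, by exact_mod_cast hu1.le⟩, hu2⟩
    obtain ⟨m, hm⟩ := hK2.exists_isLeast hne
    have htm : t < m := by
      by_contra h'
      exact hcon m (not_lt.1 h') hm.1.2
    have : (m : ℝ≥0∞) ≤ hitC F p := by
      apply le_iInf₂
      intro s hs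
      by_cases hs1 : s ≤ t + 1
      · exact_mod_cast hm.2 ⟨⟨zero_le, hs1⟩, hs⟩
      · exact_mod_cast hm.1.1.2.trans (not_le.1 hs1).le
    have := this.trans h
    exact absurd (by exact_mod_cast this) (not_le.2 htm)
  · rintro ⟨s, hs, h⟩
    exact (hitC_le h).trans (by exact_mod_cast hs)

lemma hitC_mem {F : Set E} (hF : IsClosed F) {p : Pth E} (h : hitC F p ≠ ∞) :
    p.1 (hitC F p).toNNReal ∈ F := by
  obtain ⟨s, hs, h1⟩ := (hitC_le_iff hF (p := p) (t := (hitC F p).toNNReal)).1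
    (by rw [ENNReal.coe_toNNReal h])
  have h2 := hitC_le h1
  have : s = (hitC F p).toNNReal := by
    apply le_antisymm hs
    rw [← ENNReal.coe_le_coe, ENNReal.coe_toNNReal h]
    exact h2
  rwa [← this]

lemma notMem_of_lt_hitC {F : Set E} {p : Pth E} {t : ℝ≥0}
    (h : (t : ℝ≥0∞) < hitC F p) : p.1 t ∉ F := fun h1 => absurd (hitC_le h1) (not_le.2 h)

lemma measurable_hitC {F : Set E} (hF : IsClosed F) : Measurable (hitC F) := by
  rcases F.eq_empty_or_nonempty with rfl | hne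
  · have : hitC (∅ : Set E) = fun _ => ∞ := by
      funext p; simp [hitC]
    rw [this]; exact measurable_const
  have key : ∀ t : ℝ≥0, MeasurableSet {p : Pth E | hitC F p ≤ t} := by
    intro t
    have : {p : Pth E | hitC F p ≤ t} = ⋂ k : ℕ, ⋃ n : ℕ, {p : Pth E |
        Metric.infDist (p.1 (min (TopologicalSpace.denseSeq ℝ≥0 n) t)) F < 1 / (k + 1)} := by
      ext p
      simp only [Set.mem_ofPred_eq, mem_iInter, mem_iUnion]
      rw [hitC_le_iff hF]
      constructor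
      · rintro ⟨s, hs, h⟩ k
        have hO : IsOpen {u : ℝ≥0 | Metric.infDist (p.1 (min u t)) F < 1 / ((k : ℝ) + 1)} :=
          isOpen_lt ((Metric.continuous_infDist_pt F).comp (p.2.comp
            (continuous_id.min continuous_const))) continuous_const
        refine exists_dense_time hO ⟨s, ?_⟩
        simp only [Set.mem_ofPred_eq, min_eq_left hs]
        rw [Metric.infDist_zero_of_mem h]
        positivity
      · intro h
        have hcont : ContinuousOn (fun s => Metric.infDist (p.1 s) F) (Icc (0:ℝ≥0) t) :=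
          ((Metric.continuous_infDist_pt F).comp p.2).continuousOn
        obtain ⟨s, hs, hmin⟩ := isCompact_Icc.exists_isMinOn (nonempty_Icc.2 (zero_le)) hcont
        refine ⟨s, hs.2, ?_⟩
        rw [hF.mem_iff_infDist_zero hne]
        apply le_antisymm _ Metric.infDist_nonneg
        apply le_of_forall_pos_lt_add
        intro ε hε
        rw [zero_add]
        obtain ⟨k, hk⟩ := exists_nat_one_div_lt hε
        obtain ⟨n, hn⟩ := h k
        calc Metric.infDist (p.1 s) F ≤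
              Metric.infDist (p.1 (min (TopologicalSpace.denseSeq ℝ≥0 n) t)) F :=
              hmin ⟨zero_le, min_le_right _ _⟩
          _ < 1 / ((k : ℝ) + 1) := hn
          _ < ε := hk
    rw [this]
    apply MeasurableSet.iInter
    intro k
    apply MeasurableSet.iUnion
    intro n
    apply measurableSet_lt _ measurable_const
    exact (Metric.continuous_infDist_pt F).measurable.comp (measurable_eval _)
  apply measurable_of_Iic
  intro c
  induction c with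
  | top => simp
  | coe t => exact key t

lemma hitC_shift_le {F : Set E} {p : Pth E} (s : ℝ≥0) : hitC F p ≤ s + hitC F (shift s p) := by
  apply le_of_forall_gt
  intro c hc
  have h0 : hitC F (shift s p) < c - s := by
    rw [lt_tsub_iff_left]; exact hc
  obtain ⟨t, h2, h3⟩ := hitC_lt_iff.1 h0
  rw [hitC_lt_iff]
  refine ⟨s + t, ?_, h3⟩
  rw [lt_tsub_iff_left] at h2
  rw [ENNReal.coe_add]
  exact h2

lemma hitC_shift {F : Set E} {p : Pth E} {s : ℝ≥0}
    (h : (s : ℝ≥0∞) ≤ hitC F p) : hitC F p = s + hitC F (shift s p) := by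
  apply le_antisymm (hitC_shift_le s)
  apply le_of_forall_gt
  intro c hc
  obtain ⟨t, h2, h3⟩ := hitC_lt_iff.1 hc
  have hst : s ≤ t := by
    have := h.trans (hitC_le h3)
    exact_mod_cast this
  have h4 : hitC F (shift s p) ≤ ((t - s : ℝ≥0) : ℝ≥0∞) := by
    apply hitC_le
    rw [shift_apply, add_tsub_cancel_of_le hst]
    exact h3
  calc (s : ℝ≥0∞) + hitC F (shift s p) ≤ s + ((t - s : ℝ≥0) : ℝ≥0∞) := by gcongr
    _ = t := by rw [← ENNReal.coe_add, add_tsub_cancel_of_le hst]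
    _ < c := h2

/-- exit time from the ball of radius `r` around the starting point -/
noncomputable def ext (r : ℝ) (p : Pth E) : ℝ≥0∞ :=
  ⨅ (t : ℝ≥0) (_ : r ≤ dist (p.1 t) (p.1 0)), (t : ℝ≥0∞)

lemma ext_eq (r : ℝ) (p : Pth E) : ext r p = hitC {y : E | r ≤ ‖y‖} (tr (-p.1 0) p) := by
  unfold ext hitC
  congr 1
  funext t
  have : (r ≤ dist (p.1 t) (p.1 0)) ↔ (tr (-p.1 0) p).1 t ∈ {y : E | r ≤ ‖y‖} := by
    rw [dist_eq_norm, Set.mem_ofPred_eq, tr_apply, neg_add_eq_sub]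
  simp only [this]

lemma isClosed_norm_ge (r : ℝ) : IsClosed {y : E | r ≤ ‖y‖} :=
  isClosed_le continuous_const continuous_norm

lemma measurable_ext (r : ℝ) : Measurable (ext (E := E) r) := by
  have : ext (E := E) r = fun p => hitC {y : E | r ≤ ‖y‖} (tr (-p.1 0) p) := by
    funext p; exact ext_eq r p
  rw [this]
  have h1 : Measurable (fun p : Pth E => (-p.1 0, p)) :=
    (measurable_eval 0).neg.prodMk measurable_id
  exact (measurable_hitC (isClosed_norm_ge r)).comp (measurable_tr2.comp h1)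

lemma ext_tr (r : ℝ) (x : E) (p : Pth E) : ext r (tr x p) = ext r p := by
  unfold ext
  simp [dist_eq_norm]

lemma ext_le {r : ℝ} {p : Pth E} {t : ℝ≥0} (h : r ≤ dist (p.1 t) (p.1 0)) : ext r p ≤ t :=
  iInf₂_le t h

lemma dist_lt_of_lt_ext {r : ℝ} {p : Pth E} {t : ℝ≥0} (h : (t : ℝ≥0∞) < ext r p) :
    dist (p.1 t) (p.1 0) < r := by
  by_contra h1
  exact absurd (ext_le (not_lt.1 h1)) (not_le.2 h)

lemma le_dist_ext {r : ℝ} {p : Pth E} (h : ext r p ≠ ∞) :
    r ≤ dist (p.1 (ext r p).toNNReal) (p.1 0) := by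
  have h1 := ext_eq r p
  have h2 := hitC_mem (isClosed_norm_ge r) (p := tr (-p.1 0) p) (by rwa [← h1])
  rw [← h1, Set.mem_ofPred_eq, tr_apply, neg_add_eq_sub, ← dist_eq_norm] at h2
  exact h2

lemma ext_pos {r : ℝ} (hr : 0 < r) (p : Pth E) : 0 < ext r p := by
  by_contra h
  have h0 : ext r p = 0 := le_antisymm (not_lt.1 h) (zero_le)
  have := le_dist_ext (r := r) (p := p) (by rw [h0]; simp)
  rw [h0] at this
  simp at this
  linarith

lemma dist_ext {r : ℝ} (hr : 0 < r) {p : Pth E} (h : ext r p ≠ ∞) :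
    dist (p.1 (ext r p).toNNReal) (p.1 0) = r := by
  apply le_antisymm _ (le_dist_ext h)
  have hpos : 0 < (ext r p).toNNReal := by
    rw [← ENNReal.coe_lt_coe, ENNReal.coe_toNNReal h]
    exact ext_pos hr p
  have hcont : ContinuousAt (fun s => dist (p.1 s) (p.1 0)) (ext r p).toNNReal :=
    (p.2.dist continuous_const).continuousAt
  have hne : (𝓝[<] (ext r p).toNNReal).NeBot := by
    apply nhdsLT_neBot_of_exists_lt
    exact ⟨0, hpos⟩
  refine le_of_tendsto (hcont.tendsto.mono_left nhdsWithin_le_nhds : Tendsto _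
    (𝓝[<] (ext r p).toNNReal) _) ?_
  filter_upwards [self_mem_nhdsWithin] with s hs
  apply (dist_lt_of_lt_ext _).le
  rw [← ENNReal.coe_toNNReal h]
  exact_mod_cast hs

lemma ext_mono {r r' : ℝ} (h : r ≤ r') (p : Pth E) : ext r p ≤ ext r' p :=
  le_iInf₂ fun t ht => iInf₂_le t (h.trans ht)

end

section Opt

variable {E : Type*} [NormedAddCommGroup E] [InnerProductSpace ℝ E] [FiniteDimensional ℝ E]
  [MeasurableSpace E] [BorelSpace E]

/-- general criterion: infimum over the times where a condition on the path up to the time holds -/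
lemma gal_iInf {Q : Pth E → ℝ≥0 → Prop}
    (hQ : ∀ p q t, (∀ s ≤ t, p.1 s = q.1 s) → Q p t → Q q t) {p q : Pth E} {t : ℝ≥0}
    (h : ∀ s ≤ t, p.1 s = q.1 s) (hlt : (⨅ (s : ℝ≥0) (_ : Q p s), (s : ℝ≥0∞)) < t) :
    (⨅ (s : ℝ≥0) (_ : Q q s), (s : ℝ≥0∞)) = ⨅ (s : ℝ≥0) (_ : Q p s), (s : ℝ≥0∞) := by
  have key : ∀ p q : Pth E, (∀ s ≤ t, p.1 s = q.1 s) →
      (⨅ (s : ℝ≥0) (_ : Q p s), (s : ℝ≥0∞)) < t →
      (⨅ (s : ℝ≥0) (_ : Q q s), (s : ℝ≥0∞)) ≤ ⨅ (s : ℝ≥0) (_ : Q p s), (s : ℝ≥0∞) := by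
    intro p q h hlt
    apply le_of_forall_gt
    intro c hc
    have h1 : (⨅ (s : ℝ≥0) (_ : Q p s), (s : ℝ≥0∞)) < min c t := lt_min hc hlt
    simp only [iInf_lt_iff] at h1
    obtain ⟨s, hs1, hs2⟩ := h1
    refine lt_of_le_of_lt (iInf₂_le s (hQ p q s (fun u hu => h u (hu.trans ?_)) hs1))
      (hs2.trans_le (min_le_left _ _))
    exact_mod_cast (hs2.le.trans (min_le_right _ _))
  have h1 := key p q h hlt
  exact le_antisymm h1 (key q p (fun s hs => (h s hs).symm) (h1.trans_lt hlt))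

lemma isOpt_hitO {D : Set E} (hD : IsOpen D) : IsOpt (hitO D) where
  meas := measurable_hitO hD
  gal := fun _ _ _ h hlt => gal_iInf (Q := fun p t => 0 < t ∧ p.1 t ∈ D)
    (fun p q t h h1 => ⟨h1.1, by rw [← h t le_rfl]; exact h1.2⟩) h hlt

lemma isOpt_hitC {F : Set E} (hF : IsClosed F) : IsOpt (hitC F) where
  meas := measurable_hitC hF
  gal := fun _ _ _ h hlt => gal_iInf (Q := fun p t => p.1 t ∈ F)
    (fun p q t h h1 => by rw [← h t le_rfl]; exact h1) h hlt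

lemma isOpt_ext (r : ℝ) : IsOpt (ext (E := E) r) where
  meas := measurable_ext r
  gal := fun _ _ _ h hlt => gal_iInf (Q := fun p t => r ≤ dist (p.1 t) (p.1 0))
    (fun p q t h h1 => by rw [← h t le_rfl, ← h 0 (zero_le)]; exact h1) h hlt

end Opt

end Pool.Agent.Lib.P07dee5
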