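import Mathlib

/-! # Rotation invariant probability measures on the unit sphere -/

open MeasureTheory Set Filter Topology ProbabilityTheory Module
open scoped ENNReal NNReal RealInnerProductSpace

set_option linter.unusedSectionVars false

namespace Pool.Agent.Lib.P07dee5

variable {E : Type*} [NormedAddCommGroup E] [InnerProductSpace ℝ E] [FiniteDimensional ℝ E]
  [MeasurableSpace E] [BorelSpace E]

/-- rotation invariant probability measures carried by the unit sphere -/
structure IsSph (ν : Measure E) : Prop where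
  prob : IsProbabilityMeasure ν
  rot : ∀ Q : E ≃ₗᵢ[ℝ] E, ν.map Q = ν
  norm : ∀ᵐ θ ∂ν, ‖θ‖ = 1

/-- rotations are transitive on spheres -/
lemma exists_rot {u v : E} (h : ‖u‖ = ‖v‖) : ∃ Q : E ≃ₗᵢ[ℝ] E, Q u = v :=
  ⟨(ℝ ∙ (u - v))ᗮ.reflection, Submodule.reflection_sub h⟩

lemma IsSph.lintegral_rot {ν : Measure E} (hν : IsSph ν) (Q : E ≃ₗᵢ[ℝ] E) {f : E → ℝ≥0∞}
    (hf : Measurable f) : ∫⁻ θ, f (Q θ) ∂ν = ∫⁻ θ, f θ ∂ν := by
  conv_rhs => rw [← hν.rot Q]
  rw [lintegral_map hf Q.continuous.measurable]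

lemma IsSph.charFun_eq {ν : Measure E} (hν : IsSph ν) {ξ ξ' : E} (h : ‖ξ‖ = ‖ξ'‖) :
    charFun ν ξ = charFun ν ξ' := by
  obtain ⟨Q, hQ⟩ := exists_rot h
  rw [charFun_apply, charFun_apply]
  conv_lhs => rw [← hν.rot Q.symm]
  rw [integral_map Q.symm.continuous.aemeasurable (by fun_prop)]
  congr 1
  ext θ
  congr 3
  rw [← hQ, ← Q.inner_map_map (Q.symm θ) ξ, Q.apply_symm_apply]

/-- uniqueness of the rotation invariant probability measure on the sphere -/
theorem IsSph.unique {ν σ : Measure E} (hν : IsSph ν) (hσ : IsSph σ) : ν = σ := by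
  have := hν.prob
  have := hσ.prob
  apply Measure.ext_of_charFun
  ext ξ
  -- `charFun ν (‖ξ‖ • η)` does not depend on the unit vector `η`
  have h1 : ∀ᵐ η ∂σ, charFun ν (‖ξ‖ • η) = charFun ν ξ := by
    filter_upwards [hσ.norm] with η hη
    apply hν.charFun_eq
    rw [norm_smul, hη, norm_norm, mul_one]
  have h2 : ∀ᵐ θ ∂ν, charFun σ (‖ξ‖ • θ) = charFun σ ξ := by
    filter_upwards [hν.norm] with θ hθ
    apply hσ.charFun_eq
    rw [norm_smul, hθ, norm_norm, mul_one]
  have h3 : ∫ η, charFun ν (‖ξ‖ • η) ∂σ = charFun ν ξ := by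
    rw [integral_congr_ae h1]; simp
  have h4 : ∫ θ, charFun σ (‖ξ‖ • θ) ∂ν = charFun σ ξ := by
    rw [integral_congr_ae h2]; simp
  rw [← h3, ← h4]
  simp only [charFun_apply]
  rw [integral_integral_swap]
  · congr 1
    ext θ
    congr 1
    ext η
    rw [real_inner_smul_right, real_inner_smul_right, real_inner_comm]
  · apply Integrable.of_bound (C := 1)
    · apply Continuous.aestronglyMeasurable
      simp only [Function.uncurry_def]
      fun_prop
    · apply Eventually.of_forall
      rintro ⟨η, θ⟩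
      simp only [Function.uncurry_apply_pair]
      rw [Complex.norm_exp_ofReal_mul_I]

end Pool.Agent.Lib.P07dee5
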