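import Mathlib
import Pool.Agent.Lib.P07dee5.Sph

/-! # Polar coordinates -/

open MeasureTheory Set Filter Topology ProbabilityTheory Module Metric
open scoped ENNReal NNReal RealInnerProductSpace Pointwise

set_option linter.unusedSectionVars false

namespace Pool.Agent.Lib.P07dee5

variable {E : Type*} [NormedAddCommGroup E] [InnerProductSpace ℝ E] [FiniteDimensional ℝ E]
  [MeasurableSpace E] [BorelSpace E]

/-- surface measure of the unit sphere as a measure on the space -/
noncomputable def sfm (E : Type*) [NormedAddCommGroup E] [InnerProductSpace ℝ E]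
    [FiniteDimensional ℝ E] [MeasurableSpace E] [BorelSpace E] : Measure E :=
  (volume : Measure E).toSphere.map Subtype.val

lemma sfm_apply {A : Set E} (hA : MeasurableSet A) :
    sfm E A = finrank ℝ E * volume (Ioo (0:ℝ) 1 • (A ∩ sphere (0:E) 1)) := by
  unfold sfm
  rw [Measure.map_apply measurable_subtype_coe hA,
    Measure.toSphere_apply' _ (measurable_subtype_coe hA), Subtype.image_preimage_coe, inter_comm]

lemma sfm_univ : sfm E univ = (volume : Measure E).toSphere univ := by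
  unfold sfm
  rw [Measure.map_apply measurable_subtype_coe MeasurableSet.univ, preimage_univ]

lemma sfm_univ_ne_top : sfm E univ ≠ ∞ := by
  rw [sfm_univ]; exact measure_ne_top _ _

lemma sfm_univ_ne_zero [Nontrivial E] : sfm E univ ≠ 0 := by
  rw [sfm_univ]
  exact Measure.measure_univ_ne_zero.2 (Measure.toSphere_ne_zero _)

lemma sfm_rot (Q : E ≃ₗᵢ[ℝ] E) : (sfm E).map Q = sfm E := by
  ext A hA
  rw [Measure.map_apply Q.continuous.measurable hA, sfm_apply (Q.continuous.measurable hA),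
    sfm_apply hA]
  congr 1
  have h1 : Ioo (0:ℝ) 1 • (Q ⁻¹' A ∩ sphere (0:E) 1) = Q ⁻¹' (Ioo (0:ℝ) 1 • (A ∩ sphere (0:E) 1)) := by
    ext z
    simp only [Set.mem_smul, mem_preimage, mem_inter_iff, mem_sphere_iff_norm, sub_zero]
    constructor
    · rintro ⟨ρ, hρ, θ, ⟨h1, h2⟩, rfl⟩
      exact ⟨ρ, hρ, Q θ, ⟨h1, by rw [Q.norm_map, h2]⟩, by rw [map_smul]⟩
    · rintro ⟨ρ, hρ, θ, ⟨h1, h2⟩, h3⟩
      refine ⟨ρ, hρ, Q.symm θ, ⟨by rwa [Q.apply_symm_apply], by rw [Q.symm.norm_map, h2]⟩, ?_⟩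
      apply Q.injective
      rw [map_smul, Q.apply_symm_apply, h3]
  rw [h1]
  exact (LinearIsometryEquiv.measurePreserving Q).measure_preimage_equiv (f := Q.toHomeomorph.toMeasurableEquiv) _

/-- the normalised surface measure -/
noncomputable def sph (E : Type*) [NormedAddCommGroup E] [InnerProductSpace ℝ E]
    [FiniteDimensional ℝ E] [MeasurableSpace E] [BorelSpace E] : Measure E :=
  (sfm E univ)⁻¹ • sfm E

lemma isSph_sph [Nontrivial E] : IsSph (sph E) where
  prob := ⟨by
    rw [sph, Measure.smul_apply, smul_eq_mul]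
    exact ENNReal.inv_mul_cancel sfm_univ_ne_zero sfm_univ_ne_top⟩
  rot := fun Q => by rw [sph, Measure.map_smul, sfm_rot]
  norm := by
    apply Measure.ae_smul_measure
    unfold sfm
    rw [ae_map_iff measurable_subtype_coe.aemeasurable
      (measurableSet_eq_fun measurable_norm measurable_const)]
    apply Eventually.of_forall
    intro θ
    simp

lemma IsSph.sfm_eq [Nontrivial E] {ν : Measure E} (hν : IsSph ν) : sfm E = sfm E univ • ν := by
  rw [hν.unique isSph_sph, sph, smul_smul,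
    ENNReal.mul_inv_cancel sfm_univ_ne_zero sfm_univ_ne_top, one_smul]

lemma lintegral_volumeIoiPow (n : ℕ) {g : ℝ → ℝ≥0∞} (hg : Measurable g) :
    ∫⁻ ρ : Ioi (0:ℝ), g ρ ∂(Measure.volumeIoiPow n) =
      ∫⁻ ρ in Ioi (0:ℝ), ENNReal.ofReal (ρ ^ n) * g ρ := by
  unfold Measure.volumeIoiPow
  rw [lintegral_withDensity_eq_lintegral_mul _ (by fun_prop)
    (g := fun ρ : Ioi (0:ℝ) => g ρ) (hg.comp measurable_subtype_coe)]
  exact lintegral_subtype_comap measurableSet_Ioi (fun ρ : ℝ => ENNReal.ofReal (ρ ^ n) * g ρ)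

/-- integration in polar coordinates -/
theorem IsSph.polar [Nontrivial E] {ν : Measure E} (hν : IsSph ν) {f : E → ℝ≥0∞}
    (hf : Measurable f) :
    ∫⁻ z, f z = sfm E univ * ∫⁻ θ, (∫⁻ ρ in Ioi (0:ℝ),
      ENNReal.ofReal (ρ ^ (finrank ℝ E - 1)) * f (ρ • θ)) ∂ν := by
  have := hν.prob
  have h1 : ∫⁻ z, f z = ∫⁻ z : ({0}ᶜ : Set E), f z.1 ∂((volume : Measure E).comap Subtype.val) := by
    rw [lintegral_subtype_comap (measurableSet_singleton _).compl f, restrict_compl_singleton]
  have h2 : ∫⁻ z : ({0}ᶜ : Set E), f z.1 ∂((volume : Measure E).comap Subtype.val) =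
      ∫⁻ q : sphere (0:E) 1 × Ioi (0:ℝ), f (q.2.1 • q.1.1)
        ∂((volume : Measure E).toSphere.prod (Measure.volumeIoiPow (finrank ℝ E - 1))) := by
    have h3 := (volume : Measure E).measurePreserving_homeomorphUnitSphereProd
    rw [← h3.lintegral_comp_emb (Homeomorph.measurableEmbedding _)]
    apply lintegral_congr
    intro z
    congr 1
    simp only [homeomorphUnitSphereProd_apply_snd_coe, homeomorphUnitSphereProd_apply_fst_coe]
    rw [smul_smul, mul_inv_cancel₀ (norm_ne_zero_iff.2 z.2), one_smul]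
  have hg : Measurable (fun θ : E => ∫⁻ ρ in Ioi (0:ℝ),
      ENNReal.ofReal (ρ ^ (finrank ℝ E - 1)) * f (ρ • θ)) := by
    apply Measurable.lintegral_prod_right'
      (f := fun q : E × ℝ => ENNReal.ofReal (q.2 ^ (finrank ℝ E - 1)) * f (q.2 • q.1))
    exact (by fun_prop : Measurable fun q : E × ℝ => ENNReal.ofReal (q.2 ^ (finrank ℝ E - 1))).mul
      (hf.comp (by fun_prop))
  rw [h1, h2, lintegral_prod]
  · have h4 : ∀ θ : sphere (0:E) 1, ∫⁻ ρ : Ioi (0:ℝ), f (ρ.1 • θ.1)
        ∂(Measure.volumeIoiPow (finrank ℝ E - 1)) = ∫⁻ ρ in Ioi (0:ℝ),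
      ENNReal.ofReal (ρ ^ (finrank ℝ E - 1)) * f (ρ • θ.1) := by
      intro θ
      exact lintegral_volumeIoiPow (finrank ℝ E - 1) (g := fun ρ => f (ρ • θ.1))
        (hf.comp (by fun_prop))
    simp_rw [h4]
    rw [← lintegral_map (f := fun θ : E => ∫⁻ ρ in Ioi (0:ℝ),
      ENNReal.ofReal (ρ ^ (finrank ℝ E - 1)) * f (ρ • θ)) hg measurable_subtype_coe]
    change ∫⁻ θ, _ ∂(sfm E) = _
    conv_lhs => rw [hν.sfm_eq]
    rw [lintegral_smul_measure, smul_eq_mul]
  · apply Measurable.aemeasurable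
    exact hf.comp (by fun_prop)

end Pool.Agent.Lib.P07dee5
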