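import Mathlib
import Pool.Agent.Lib.P07dee5.Dens
import Pool.Agent.Lib.P07dee5.Hit
import Pool.Agent.Lib.P07dee5.Polar

/-! # Newton kernel and potentials -/

open MeasureTheory Set Filter Topology ProbabilityTheory Module Metric
open scoped ENNReal NNReal RealInnerProductSpace

set_option linter.unusedSectionVars false

namespace Pool.Agent.Lib.P07dee5

variable {E : Type*} [NormedAddCommGroup E] [InnerProductSpace ℝ E] [FiniteDimensional ℝ E]
  [MeasurableSpace E] [BorelSpace E] {W : Measure (Pth E)}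

/-- Newton kernel -/
noncomputable def Nk (z : E) : ℝ≥0∞ := ∫⁻ t in Ioi (0:ℝ), ENNReal.ofReal (gk t z)

/-- profile of the time integral -/
noncomputable def prf (n : ℕ) (s : ℝ) : ℝ :=
  (2 * Real.pi * s) ^ (-(n : ℝ) / 2) * Real.exp (-1 / (2 * s))

/-- the constant of the Newton kernel -/
noncomputable def cN (n : ℕ) : ℝ≥0∞ := ∫⁻ s in Ioi (0:ℝ), ENNReal.ofReal (prf n s)

/-- Newton kernel as a function of the distance -/
noncomputable def Nb (n : ℕ) (s : ℝ) : ℝ≥0∞ := ENNReal.ofReal s ^ (-((n : ℝ) - 2)) * cN n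

lemma measurable_prf (n : ℕ) : Measurable (prf n) := by unfold prf; fun_prop

lemma measurable_Nk : Measurable (Nk (E := E)) := by
  unfold Nk
  apply Measurable.lintegral_prod_right' (f := fun q : E × ℝ => ENNReal.ofReal (gk q.2 q.1))
  apply Measurable.ennreal_ofReal
  exact measurable_gk2.comp measurable_swap

lemma cN_ne_zero (n : ℕ) : cN n ≠ 0 := by
  unfold cN
  rw [← pos_iff_ne_zero, lintegral_pos_iff_support (measurable_prf n).ennreal_ofReal]
  have : Ioi (0:ℝ) ⊆ Function.support (fun s => ENNReal.ofReal (prf n s)) := by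
    intro s hs
    rw [mem_Ioi] at hs
    rw [Function.mem_support]
    have : 0 < prf n s := by unfold prf; positivity
    exact (ENNReal.ofReal_pos.2 this).ne'
  rw [Measure.restrict_apply' measurableSet_Ioi, inter_eq_right.2 this]
  simp

lemma cN_ne_top {n : ℕ} (hn : 3 ≤ n) : cN n ≠ ∞ := by
  unfold cN
  have hn' : (3:ℝ) ≤ n := by exact_mod_cast hn
  have h0 : Ioi (0:ℝ) = Ioc 0 1 ∪ Ioi 1 := (Ioc_union_Ioi_eq_Ioi zero_le_one).symm
  rw [h0]
  apply ne_top_of_le_ne_top _ (lintegral_union_le _ _ _)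
  have hbase : ∀ s : ℝ, 0 < s → (2 * Real.pi * s) ^ (-(n : ℝ) / 2) ≤ s ^ (-(n : ℝ) / 2) := by
    intro s hs
    apply Real.rpow_le_rpow_of_nonpos hs
    · nlinarith [Real.pi_gt_three]
    · linarith
  apply ENNReal.add_ne_top.2
  constructor
  · apply ne_top_of_le_ne_top (b := ∫⁻ _ in Ioc (0:ℝ) 1,
      ENNReal.ofReal ((n.factorial : ℝ) * 2 ^ n))
    · rw [setLIntegral_const]
      exact ENNReal.mul_ne_top ENNReal.ofReal_ne_top (by simp)
    · apply setLIntegral_mono measurable_const
      intro s hs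
      apply ENNReal.ofReal_le_ofReal
      unfold prf
      have h1 := hbase s hs.1
      have h2 : Real.exp (-1 / (2 * s)) ≤ n.factorial * (2 * s) ^ n := by
        have h3 := Real.pow_div_factorial_le_exp (1 / (2 * s)) (by have := hs.1; positivity) n
        have h4 : -1 / (2 * s) = -(1 / (2 * s)) := by ring
        rw [h4, Real.exp_neg]
        have hpos : 0 < (1 / (2 * s)) ^ n / n.factorial := by have := hs.1; positivity
        calc (Real.exp (1 / (2 * s)))⁻¹ ≤ ((1 / (2 * s)) ^ n / n.factorial)⁻¹ := by gcongr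
          _ = n.factorial * (2 * s) ^ n := by
            rw [inv_div, div_pow, one_pow, div_div_eq_mul_div, div_one]
      have hs0 := hs.1
      calc (2 * Real.pi * s) ^ (-(n : ℝ) / 2) * Real.exp (-1 / (2 * s)) ≤
            s ^ (-(n : ℝ) / 2) * (n.factorial * (2 * s) ^ n) := by gcongr
        _ = n.factorial * 2 ^ n * (s ^ (-(n : ℝ) / 2) * s ^ n) := by rw [mul_pow]; ring
        _ = n.factorial * 2 ^ n * s ^ ((n : ℝ) / 2) := by
            rw [← Real.rpow_natCast s n, ← Real.rpow_add hs.1]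
            congr 2; ring
        _ ≤ n.factorial * 2 ^ n * 1 := by
            gcongr
            exact Real.rpow_le_one hs.1.le hs.2 (by positivity)
        _ = n.factorial * 2 ^ n := mul_one _
  · have h1 : IntegrableOn (fun s : ℝ => s ^ (-(3:ℝ) / 2)) (Ioi 1) :=
      integrableOn_Ioi_rpow_of_lt (by norm_num) one_pos
    apply ne_top_of_le_ne_top (b := ∫⁻ s in Ioi (1:ℝ), ENNReal.ofReal (s ^ (-(3:ℝ) / 2)))
    · rw [← ofReal_integral_eq_lintegral_ofReal h1]
      · exact ENNReal.ofReal_ne_top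
      · filter_upwards [ae_restrict_mem measurableSet_Ioi] with s hs
        rw [mem_Ioi] at hs
        positivity
    · apply setLIntegral_mono (by fun_prop)
      intro s hs
      rw [mem_Ioi] at hs
      have hs0 : 0 < s := one_pos.trans hs
      apply ENNReal.ofReal_le_ofReal
      unfold prf
      calc (2 * Real.pi * s) ^ (-(n : ℝ) / 2) * Real.exp (-1 / (2 * s)) ≤
            s ^ (-(n : ℝ) / 2) * 1 := by
            apply mul_le_mul (hbase s hs0) _ (Real.exp_pos _).le (by positivity)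
            rw [Real.exp_le_one_iff]
            apply div_nonpos_of_nonpos_of_nonneg (by norm_num) (by positivity)
        _ ≤ s ^ (-(3:ℝ) / 2) := by
            rw [mul_one]
            apply Real.rpow_le_rpow_of_exponent_le hs.le
            linarith

/-- scaling of the Lebesgue integral on the half line -/
lemma lintegral_scale {a : ℝ} (ha : 0 < a) {F : ℝ → ℝ≥0∞} (hF : Measurable F) :
    ∫⁻ t in Ioi (0:ℝ), F t = ENNReal.ofReal a * ∫⁻ s in Ioi (0:ℝ), F (a * s) := by
  have h1 : ∀ s, (Ioi (0:ℝ)).indicator (fun s => F (a * s)) s = (Ioi (0:ℝ)).indicator F (a * s) := by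
    intro s
    by_cases hs : 0 < s
    · rw [indicator_of_mem (by exact hs), indicator_of_mem (by rw [mem_Ioi]; positivity)]
    · have h2 : ¬ (0 < a * s) := by
        rw [not_lt] at hs ⊢
        exact mul_nonpos_of_nonneg_of_nonpos ha.le hs
      rw [indicator_of_notMem (by exact hs), indicator_of_notMem (by exact h2)]
  rw [← lintegral_indicator measurableSet_Ioi, ← lintegral_indicator measurableSet_Ioi]
  simp_rw [h1]
  rw [← lintegral_map (f := (Ioi (0:ℝ)).indicator F) (hF.indicator measurableSet_Ioi)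
    (measurable_const_mul a), Real.map_volume_mul_left ha.ne', lintegral_smul_measure, smul_eq_mul,
    ← mul_assoc, ← ENNReal.ofReal_mul ha.le, abs_of_pos (by positivity), mul_inv_cancel₀ ha.ne']
  simp

lemma Nk_eq {z : E} (hz : z ≠ 0) : Nk z = Nb (finrank ℝ E) ‖z‖ := by
  have hz' : 0 < ‖z‖ := norm_pos_iff.2 hz
  unfold Nk Nb cN
  have hmeas : Measurable (fun t => ENNReal.ofReal (gk t z)) :=
    (measurable_gk2.comp (measurable_id.prodMk measurable_const)).ennreal_ofReal
  rw [lintegral_scale (a := ‖z‖ ^ 2) (by positivity) hmeas]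
  have h1 : ∀ s ∈ Ioi (0:ℝ), ENNReal.ofReal (gk (‖z‖ ^ 2 * s) z) =
      ENNReal.ofReal (‖z‖ ^ (-(finrank ℝ E : ℝ))) * ENNReal.ofReal (prf (finrank ℝ E) s) := by
    intro s hs
    rw [mem_Ioi] at hs
    rw [← ENNReal.ofReal_mul (by positivity)]
    congr 1
    unfold gk prf
    have e1 : 2 * Real.pi * (‖z‖ ^ 2 * s) = ‖z‖ ^ 2 * (2 * Real.pi * s) := by ring
    have e2 : (‖z‖ ^ 2) ^ (-(finrank ℝ E : ℝ) / 2) = ‖z‖ ^ (-(finrank ℝ E : ℝ)) := by
      rw [← Real.rpow_natCast, ← Real.rpow_mul hz'.le]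
      congr 1; push_cast; ring
    have e3 : -‖z‖ ^ 2 / (2 * (‖z‖ ^ 2 * s)) = -1 / (2 * s) := by
      field_simp
    rw [e1, Real.mul_rpow (by positivity) (by positivity), e2, e3]
    ring
  rw [setLIntegral_congr_fun measurableSet_Ioi h1, lintegral_const_mul _
    (measurable_prf _).ennreal_ofReal, ← mul_assoc, ← ENNReal.ofReal_mul (by positivity),
    ENNReal.ofReal_rpow_of_pos hz']
  congr 2
  rw [← Real.rpow_natCast, ← Real.rpow_add hz']
  congr 1; push_cast; ring

lemma Nb_zero {n : ℕ} (hn : 3 ≤ n) : Nb n 0 = ∞ := by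
  unfold Nb
  have : (3:ℝ) ≤ n := by exact_mod_cast hn
  rw [ENNReal.ofReal_zero, ENNReal.zero_rpow_of_neg (by linarith), ENNReal.top_mul (cN_ne_zero n)]

lemma Nk_le (hn : 3 ≤ finrank ℝ E) (z : E) : Nk z ≤ Nb (finrank ℝ E) ‖z‖ := by
  rcases eq_or_ne z 0 with rfl | hz
  · rw [norm_zero, Nb_zero hn]; exact le_top
  · exact (Nk_eq hz).le

lemma Nb_anti {n : ℕ} (hn : 3 ≤ n) {s t : ℝ} (h : s ≤ t) : Nb n t ≤ Nb n s := by
  unfold Nb
  have : (3:ℝ) ≤ n := by exact_mod_cast hn
  apply mul_le_mul_left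
  rw [ENNReal.rpow_neg, ENNReal.rpow_neg, ENNReal.inv_le_inv]
  exact ENNReal.rpow_le_rpow (ENNReal.ofReal_le_ofReal h) (by linarith)

lemma continuous_Nb {n : ℕ} (hn : 3 ≤ n) : Continuous (Nb n) := by
  unfold Nb
  exact (ENNReal.continuous_mul_const (cN_ne_top hn)).comp
    (ENNReal.continuous_rpow_const.comp ENNReal.continuous_ofReal)

lemma Nk_congr {z w : E} (h : ‖z‖ = ‖w‖) : Nk z = Nk w := by
  unfold Nk gk
  rw [h]

lemma Nk_neg (z : E) : Nk (-z) = Nk z := Nk_congr (norm_neg z)

/-- potential of a function -/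
noncomputable def occ (g : E → ℝ≥0∞) (p : Pth E) : ℝ≥0∞ := ∫⁻ t in Ioi (0:ℝ), g (p.1 t.toNNReal)

lemma measurable_occ {g : E → ℝ≥0∞} (hg : Measurable g) : Measurable (occ g) := by
  unfold occ
  apply Measurable.lintegral_prod_right'
    (f := fun q : Pth E × ℝ => g (q.1.1 q.2.toNNReal))
  exact hg.comp (Measurable.eval (measurable_snd.real_toNNReal) measurable_fst)

lemma Ex_occ (hW : IsWiener W) {g : E → ℝ≥0∞} (hg : Measurable g) (y : E) :
    Ex W (occ g) y = ∫⁻ z, Nk (z - y) * g z := by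
  have hprob := hW.prob
  have h1 : Ex W (occ g) y = ∫⁻ t in Ioi (0:ℝ), Ex W (fun p => g (p.1 t.toNNReal)) y := by
    unfold Ex occ
    rw [lintegral_lintegral_swap]
    apply Measurable.aemeasurable
    exact hg.comp (Measurable.eval (measurable_snd.real_toNNReal)
      ((measurable_tr y).comp measurable_fst))
  have h2 : ∀ t ∈ Ioi (0:ℝ), Ex W (fun p => g (p.1 t.toNNReal)) y =
      ∫⁻ z, ENNReal.ofReal (gk t (z - y)) * g z := by
    intro t ht
    rw [mem_Ioi] at ht
    rw [Ex_eval hW (Real.toNNReal_pos.2 ht) hg y, Real.coe_toNNReal t ht.le]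
  rw [h1, setLIntegral_congr_fun measurableSet_Ioi h2, lintegral_lintegral_swap]
  · apply lintegral_congr
    intro z
    unfold Nk
    rw [lintegral_mul_const]
    exact (measurable_gk2.comp (measurable_id.prodMk measurable_const)).ennreal_ofReal
  · apply Measurable.aemeasurable
    apply Measurable.mul
    · exact (measurable_gk2.comp (measurable_fst.prodMk
        (measurable_snd.sub measurable_const))).ennreal_ofReal
    · exact hg.comp measurable_snd

lemma measurable_Exocc (hW : IsWiener W) {g : E → ℝ≥0∞} (hg : Measurable g) :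
    Measurable (Ex W (occ g)) := measurable_Ex hW (measurable_occ hg)

lemma occ_shift (g : E → ℝ≥0∞) (p : Pth E) (s : ℝ≥0) :
    occ g (shift s p) = ∫⁻ t in Ioi (s:ℝ), g (p.1 t.toNNReal) := by
  unfold occ
  have h1 : ∀ t ∈ Ioi (0:ℝ), g ((shift s p).1 t.toNNReal) = g (p.1 ((s:ℝ) + t).toNNReal) := by
    intro t ht
    rw [mem_Ioi] at ht
    rw [shift_apply, Real.toNNReal_add (NNReal.coe_nonneg s) ht.le, Real.toNNReal_coe]
  rw [setLIntegral_congr_fun measurableSet_Ioi h1, ← lintegral_indicator measurableSet_Ioi,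
    ← lintegral_indicator measurableSet_Ioi,
    ← lintegral_add_left_eq_self (μ := volume) ((Ioi (s:ℝ)).indicator _) (s:ℝ)]
  apply lintegral_congr
  intro t
  by_cases ht : 0 < t
  · rw [indicator_of_mem (by exact ht), indicator_of_mem (by rw [mem_Ioi]; linarith)]
  · rw [indicator_of_notMem (by exact ht), indicator_of_notMem (by rw [mem_Ioi]; linarith)]

lemma occ_shift_le (g : E → ℝ≥0∞) (p : Pth E) (s : ℝ≥0) : occ g (shift s p) ≤ occ g p := by
  rw [occ_shift]
  exact lintegral_mono_set (Ioi_subset_Ioi s.2)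

lemma isPre_ind {T : Pth E → ℝ≥0∞} (hT : IsOpt T) :
    IsPre T ({p | T p ≠ ∞}.indicator (fun _ => 1)) where
  meas := measurable_const.indicator (hT.meas (measurableSet_singleton ∞)).compl
  gal := by
    intro p q t h1 h2
    have h3 := hT.gal p q t h1 h2
    have h4 : p ∈ {p | T p ≠ ∞} := (ne_top_of_lt h2)
    have h5 : q ∈ {p | T p ≠ ∞} := by
      show T q ≠ ∞
      rw [h3]; exact h4
    rw [indicator_of_mem h4, indicator_of_mem h5]
  top := by
    intro p hp
    rw [indicator_of_notMem]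
    simpa using hp

/-- strong Markov property for occupation times -/
lemma Ex_occ_T (hW : IsWiener W) {g : E → ℝ≥0∞} (hg : Measurable g) {T : Pth E → ℝ≥0∞}
    (hT : IsOpt T) (x : E) :
    Ex W (fun p => {p | T p ≠ ∞}.indicator (fun _ => 1) p * Ex W (occ g) (p.1 (T p).toNNReal)) x =
      Ex W (fun p => {p | T p ≠ ∞}.indicator (fun _ => 1) p * occ g (shift (T p).toNNReal p)) x :=
  (strong_markov hW hT (isPre_ind hT) (measurable_occ hg) x).symm

lemma Ex_occ_T_le (hW : IsWiener W) {g : E → ℝ≥0∞} (hg : Measurable g) {T : Pth E → ℝ≥0∞}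
    (hT : IsOpt T) (x : E) :
    Ex W (fun p => {p | T p ≠ ∞}.indicator (fun _ => 1) p * Ex W (occ g) (p.1 (T p).toNNReal)) x ≤
      Ex W (occ g) x := by
  rw [Ex_occ_T hW hg hT]
  apply Ex_mono
  intro p
  calc {p | T p ≠ ∞}.indicator (fun _ => 1) p * occ g (shift (T p).toNNReal p) ≤
        1 * occ g p := by
        gcongr
        · exact indicator_le_self' (fun _ _ => zero_le) p
        · exact occ_shift_le g p _
    _ = occ g p := one_mul _

lemma Ex_occ_T_eq (hW : IsWiener W) {g : E → ℝ≥0∞} (hg : Measurable g) {T : Pth E → ℝ≥0∞}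
    (hT : IsOpt T) {D : Set E} (hgD : ∀ z, z ∉ D → g z = 0) (hTD : ∀ p, T p ≤ hitO D p) (x : E) :
    Ex W (occ g) x =
    Ex W (fun p => {p | T p ≠ ∞}.indicator (fun _ => 1) p * Ex W (occ g) (p.1 (T p).toNNReal)) x := by
  rw [Ex_occ_T hW hg hT]
  unfold Ex
  apply lintegral_congr
  intro p
  set q := tr x p
  show occ g q = {p | T p ≠ ∞}.indicator (fun _ => 1) q * occ g (shift (T q).toNNReal q)
  by_cases hq : T q = ∞
  · rw [indicator_of_notMem (by simpa using hq), zero_mul]
    unfold occ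
    rw [setLIntegral_congr_fun (g := fun _ => 0) measurableSet_Ioi]
    · simp
    · intro t ht
      rw [mem_Ioi] at ht
      apply hgD
      apply notMem_of_lt_hitO (Real.toNNReal_pos.2 ht)
      have := hTD q
      rw [hq] at this
      exact lt_of_lt_of_le ENNReal.coe_lt_top this
  · rw [indicator_of_mem (by exact hq), one_mul, occ_shift]
    unfold occ
    set s := (T q).toNNReal
    have hs : (s : ℝ≥0∞) = T q := ENNReal.coe_toNNReal hq
    have h0 : Ioi (0:ℝ) = Ioc 0 (s:ℝ) ∪ Ioi (s:ℝ) := (Ioc_union_Ioi_eq_Ioi s.2).symm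
    rw [h0, lintegral_union measurableSet_Ioi (by
      rw [disjoint_left]; intro a ha; simpa using ha.2)]
    have h1 : ∫⁻ t in Ioc 0 (s:ℝ), g (q.1 t.toNNReal) = 0 := by
      rw [restrict_Ioo_eq_restrict_Ioc.symm, setLIntegral_congr_fun (g := fun _ => 0)
        measurableSet_Ioo]
      · simp
      · intro t ht
        apply hgD
        apply notMem_of_lt_hitO (Real.toNNReal_pos.2 ht.1)
        refine lt_of_lt_of_le ?_ (hTD q)
        rw [← hs, ENNReal.coe_lt_coe]
        exact (Real.toNNReal_lt_iff_lt_coe ht.1.le).2 ht.2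
    rw [h1, zero_add]

lemma IsOpt.min {T T' : Pth E → ℝ≥0∞} (hT : IsOpt T) (hT' : IsOpt T') :
    IsOpt (fun p => min (T p) (T' p)) where
  meas := hT.meas.min hT'.meas
  gal := by
    intro p q t h hlt
    have h' : ∀ s ≤ t, q.1 s = p.1 s := fun s hs => (h s hs).symm
    have key : ∀ {S : Pth E → ℝ≥0∞}, IsOpt S → (S p < t ∧ S q = S p) ∨ ((t : ℝ≥0∞) ≤ S p ∧ (t : ℝ≥0∞) ≤ S q) := by
      intro S hS
      by_cases h1 : S p < t
      · exact Or.inl ⟨h1, hS.gal p q t h h1⟩
      · right
        refine ⟨not_lt.1 h1, ?_⟩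
        by_contra h2
        rw [not_le] at h2
        have := hS.gal q p t h' h2
        exact h1 (this ▸ h2)
    rcases key hT with ⟨a1, a2⟩ | ⟨a1, a2⟩ <;> rcases key hT' with ⟨b1, b2⟩ | ⟨b1, b2⟩
    · simp only [a2, b2]
    · simp only [a2]
      rw [min_eq_left (a1.le.trans b1), min_eq_left (a1.le.trans b2)]
    · simp only [b2]
      rw [min_eq_right (b1.le.trans a1), min_eq_right (b1.le.trans a2)]
    · exact absurd hlt (not_lt.2 (le_min a1 b1))

end Pool.Agent.Lib.P07dee5
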