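import Mathlib
import Pool.Agent.Lib.P07dee5.Newton

/-! # The exit distribution of balls and Newton's theorem -/

open MeasureTheory Set Filter Topology ProbabilityTheory Module Metric
open scoped ENNReal NNReal RealInnerProductSpace

set_option linter.unusedSectionVars false

namespace Pool.Agent.Lib.P07dee5

variable {E : Type*} [NormedAddCommGroup E] [InnerProductSpace ℝ E] [FiniteDimensional ℝ E]
  [MeasurableSpace E] [BorelSpace E] {W : Measure (Pth E)}

lemma measure_norm_lt_le (hW : IsWiener W) (r : ℝ) {t : ℝ≥0} (ht : 0 < t) :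
    W {p | ‖p.1 t‖ < r} ≤
      ENNReal.ofReal ((2 * Real.pi * t) ^ (-(finrank ℝ E : ℝ) / 2)) * volume (ball (0:E) r) := by
  have hm : MeasurableSet (ball (0:E) r) := measurableSet_ball
  have h1 : W {p | ‖p.1 t‖ < r} = Ex W (fun p => (ball (0:E) r).indicator (fun _ => 1) (p.1 t)) 0 := by
    unfold Ex
    have h2 : (fun p : Pth E => (ball (0:E) r).indicator (fun _ => (1:ℝ≥0∞)) ((tr 0 p).1 t)) =
        {p : Pth E | ‖p.1 t‖ < r}.indicator (fun _ => 1) := by
      funext p
      simp only [tr_apply, zero_add, indicator, mem_ball_zero_iff, Set.mem_ofPred_eq]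
    rw [h2, lintegral_indicator]
    · simp
    · exact (measurable_norm.comp (measurable_eval t)) measurableSet_Iio
  rw [h1, Ex_eval hW ht (f := (ball (0:E) r).indicator (fun _ => 1)) (measurable_const.indicator hm)]
  have h3 : ∀ y : E, ENNReal.ofReal (gk t (y - 0)) * (ball (0:E) r).indicator (fun _ => 1) y ≤
      (ball (0:E) r).indicator
        (fun _ => ENNReal.ofReal ((2 * Real.pi * t) ^ (-(finrank ℝ E : ℝ) / 2))) y := by
    intro y
    by_cases hy : y ∈ ball (0:E) r
    · rw [indicator_of_mem hy, indicator_of_mem hy, mul_one]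
      apply ENNReal.ofReal_le_ofReal
      unfold gk
      calc (2 * Real.pi * (t:ℝ)) ^ (-(finrank ℝ E : ℝ) / 2) * Real.exp (-‖y - 0‖ ^ 2 / (2 * t)) ≤
            (2 * Real.pi * (t:ℝ)) ^ (-(finrank ℝ E : ℝ) / 2) * 1 := by
            apply mul_le_mul_of_nonneg_left _ (by positivity)
            rw [Real.exp_le_one_iff]
            apply div_nonpos_of_nonpos_of_nonneg _ (by positivity)
            have : 0 ≤ ‖y - 0‖ ^ 2 := by positivity
            linarith
        _ = _ := mul_one _
    · rw [indicator_of_notMem hy, indicator_of_notMem hy, mul_zero]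
  refine (lintegral_mono h3).trans ?_
  rw [lintegral_indicator_const hm]

lemma ext_ne_top (hW : IsWiener W) (hn : 0 < finrank ℝ E) (r : ℝ) : ∀ᵐ p ∂W, ext r p ≠ ∞ := by
  rw [ae_iff]
  simp only [ne_eq, not_not]
  have h1 : ∀ t : ℝ≥0, W {p | ext r p = ∞} ≤ W {p | ‖p.1 t‖ < r} := by
    intro t
    apply measure_mono_ae
    filter_upwards [hW.zero] with p hp h
    have h2 := dist_lt_of_lt_ext (r := r) (p := p) (t := t) (by
      have : ext r p = ∞ := h
      rw [this]; exact ENNReal.coe_lt_top)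
    rw [hp, dist_zero_right] at h2
    exact h2
  have hV : volume (ball (0:E) r) ≠ ∞ := measure_ball_lt_top.ne
  have h2 : Tendsto (fun k : ℕ => ENNReal.ofReal
      ((2 * Real.pi * ((k + 1 : ℕ) : ℝ)) ^ (-(finrank ℝ E : ℝ) / 2)) * volume (ball (0:E) r)) atTop
      (𝓝 (ENNReal.ofReal 0 * volume (ball (0:E) r))) := by
    apply ENNReal.Tendsto.mul_const _ (Or.inr hV)
    apply ENNReal.tendsto_ofReal
    have h3 : Tendsto (fun k : ℕ => 2 * Real.pi * ((k + 1 : ℕ) : ℝ)) atTop atTop := by
      apply Tendsto.const_mul_atTop (by positivity)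
      exact tendsto_natCast_atTop_atTop.comp (tendsto_add_atTop_nat 1)
    have hpos : (0:ℝ) < (finrank ℝ E : ℝ) / 2 := by
      have : (0:ℝ) < finrank ℝ E := by exact_mod_cast hn
      positivity
    have h4 := (tendsto_rpow_neg_atTop hpos).comp h3
    refine h4.congr fun k => ?_
    simp only [Function.comp]
    congr 1; ring
  rw [ENNReal.ofReal_zero, zero_mul] at h2
  apply le_antisymm _ (zero_le)
  apply ge_of_tendsto' h2
  intro k
  refine (h1 (k + 1 : ℕ)).trans ?_
  have := measure_norm_lt_le hW r (t := ((k + 1 : ℕ) : ℝ≥0)) (by positivity)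
  simpa using this

/-- normalised exit distribution -/
noncomputable def exl (W : Measure (Pth E)) (r : ℝ) : Measure E :=
  W.map (fun p => r⁻¹ • p.1 (ext r p).toNNReal)

lemma measurable_exit (r : ℝ) : Measurable (fun p : Pth E => p.1 (ext r p).toNNReal) :=
  Measurable.eval (measurable_ext r).ennreal_toNNReal measurable_id

lemma measurable_exit' (r : ℝ) : Measurable (fun p : Pth E => r⁻¹ • p.1 (ext r p).toNNReal) :=
  (measurable_exit r).const_smul r⁻¹

lemma ext_mapQ (r : ℝ) (Q : E ≃ₗᵢ[ℝ] E) (p : Pth E) : ext r (mapQ Q p) = ext r p := by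
  unfold ext
  simp [Q.dist_map]

lemma isSph_exl (hW : IsWiener W) (hn : 0 < finrank ℝ E) {r : ℝ} (hr : 0 < r) :
    IsSph (exl W r) where
  prob := by
    have := hW.prob
    exact Measure.isProbabilityMeasure_map (measurable_exit' r).aemeasurable
  rot := by
    intro Q
    unfold exl
    rw [Measure.map_map Q.continuous.measurable (measurable_exit' r)]
    conv_rhs => rw [← hW.rot Q]
    rw [Measure.map_map (measurable_exit' r) (measurable_mapQ Q)]
    congr 1
    funext p
    simp only [Function.comp, mapQ_apply, map_smul, ext_mapQ]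
  norm := by
    unfold exl
    rw [ae_map_iff (measurable_exit' r).aemeasurable
      (measurableSet_eq_fun measurable_norm measurable_const)]
    filter_upwards [hW.zero, ext_ne_top hW hn r] with p h1 h2
    have h3 := dist_ext hr h2
    rw [h1, dist_zero_right] at h3
    rw [norm_smul, h3, norm_inv, Real.norm_eq_abs, abs_of_pos hr, inv_mul_cancel₀ hr.ne']

lemma Ex_exit (hW : IsWiener W) (hn : 0 < finrank ℝ E) {ν : Measure E} (hν : IsSph ν) {r : ℝ}
    (hr : 0 < r) {G : E → ℝ≥0∞} (hG : Measurable G) (x : E) :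
    Ex W (fun p => {p | ext r p ≠ ∞}.indicator (fun _ => 1) p * G (p.1 (ext r p).toNNReal)) x =
      ∫⁻ θ, G (x + r • θ) ∂ν := by
  rw [hν.unique (isSph_exl hW hn hr), exl, lintegral_map (f := fun θ => G (x + r • θ))
    (hG.comp (by fun_prop)) (measurable_exit' r)]
  unfold Ex
  apply lintegral_congr_ae
  filter_upwards [ext_ne_top hW hn r] with p hp
  show {p | ext r p ≠ ∞}.indicator (fun _ => 1) (tr x p) * G ((tr x p).1 (ext r (tr x p)).toNNReal) = _
  have h1 : tr x p ∈ {p : Pth E | ext r p ≠ ∞} := by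
    show ext r (tr x p) ≠ ∞
    rwa [ext_tr]
  rw [indicator_of_mem h1, one_mul, ext_tr, tr_apply, smul_smul, mul_inv_cancel₀ hr.ne', one_smul]

/-- the spherical means of the Newton kernel are at most its value at the centre -/
lemma Nk_smean (hW : IsWiener W) (hn : 3 ≤ finrank ℝ E) {ν : Measure E} (hν : IsSph ν) {a : E}
    {ρ : ℝ} (hρ : 0 < ρ) :
    ∫⁻ η, Nk (a + ρ • η) ∂ν ≤ Nb (finrank ℝ E) ‖a‖ := by
  set n := finrank ℝ E with hndef
  have hprob := hν.prob
  have key : ∀ δ : ℝ, 0 < δ → ∫⁻ η, Nb n (‖a + ρ • η‖ + δ) ∂ν ≤ Nb n (‖a‖ - δ) := by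
    intro δ hδ
    set g : E → ℝ≥0∞ := (ball (0:E) δ).indicator (fun _ => 1) with hg
    have hgm : Measurable g := measurable_const.indicator measurableSet_ball
    have hv0 : volume (ball (0:E) δ) ≠ 0 := (measure_ball_pos _ _ hδ).ne'
    have hv1 : volume (ball (0:E) δ) ≠ ∞ := measure_ball_lt_top.ne
    have hint : ∀ y : E, Ex W (occ g) y = ∫⁻ z in ball (0:E) δ, Nk (z - y) := by
      intro y
      rw [Ex_occ hW hgm, ← lintegral_indicator measurableSet_ball]
      apply lintegral_congr
      intro z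
      by_cases hz : z ∈ ball (0:E) δ
      · rw [hg, indicator_of_mem hz, indicator_of_mem hz, mul_one]
      · rw [hg, indicator_of_notMem hz, indicator_of_notMem hz, mul_zero]
    have h1 := Ex_occ_T_le hW hgm (isOpt_ext ρ) a
    rw [Ex_exit hW (by omega) hν hρ (measurable_Exocc hW hgm) a] at h1
    have h2 : Ex W (occ g) a ≤ volume (ball (0:E) δ) * Nb n (‖a‖ - δ) := by
      rw [hint, mul_comm, ← setLIntegral_const]
      apply setLIntegral_mono measurable_const
      intro z hz
      refine (Nk_le hn _).trans (Nb_anti hn ?_)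
      rw [mem_ball_zero_iff] at hz
      have := norm_sub_norm_le a z
      rw [norm_sub_rev] at this
      linarith
    have h3 : ∀ y : E, volume (ball (0:E) δ) * Nb n (‖y‖ + δ) ≤ Ex W (occ g) y := by
      intro y
      rw [hint, mul_comm, ← setLIntegral_const]
      have hae : ∀ᵐ z ∂(volume.restrict (ball (0:E) δ)), z ≠ y := by
        apply ae_restrict_of_ae
        have : Nontrivial E := Module.nontrivial_of_finrank_pos (R := ℝ) (by omega)
        exact measure_mono_null (fun z hz => not_not.1 hz) (measure_singleton y)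
      apply lintegral_mono_ae
      filter_upwards [hae, ae_restrict_mem measurableSet_ball] with z hz hz2
      rw [Nk_eq (sub_ne_zero.2 hz)]
      apply Nb_anti hn
      rw [mem_ball_zero_iff] at hz2
      have := norm_sub_le z y
      linarith
    have h4 : volume (ball (0:E) δ) * ∫⁻ η, Nb n (‖a + ρ • η‖ + δ) ∂ν ≤
        volume (ball (0:E) δ) * Nb n (‖a‖ - δ) := by
      have hm2 : Measurable (fun η : E => Nb n (‖a + ρ • η‖ + δ)) :=
        (continuous_Nb hn).measurable.comp (by fun_prop)
      rw [← lintegral_const_mul _ hm2]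
      exact (lintegral_mono fun η => h3 _).trans (h1.trans h2)
    exact (ENNReal.mul_le_mul_iff_right hv0 hv1).1 h4
  -- let `δ → 0`
  have hδ : Tendsto (fun k : ℕ => 1 / ((k : ℝ) + 1)) atTop (𝓝 0) :=
    tendsto_one_div_add_atTop_nhds_zero_nat
  have t1 : Tendsto (fun k : ℕ => Nb n (‖a‖ - 1 / ((k : ℝ) + 1))) atTop (𝓝 (Nb n ‖a‖)) := by
    have := ((continuous_Nb hn).tendsto (‖a‖ - 0)).comp (hδ.const_sub ‖a‖)
    rw [sub_zero] at this
    exact this
  have t2 : Tendsto (fun k : ℕ => ∫⁻ η, Nb n (‖a + ρ • η‖ + 1 / ((k : ℝ) + 1)) ∂ν) atTop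
      (𝓝 (∫⁻ η, Nb n ‖a + ρ • η‖ ∂ν)) := by
    apply lintegral_tendsto_of_tendsto_of_monotone
    · intro k
      exact ((continuous_Nb hn).measurable.comp (by fun_prop)).aemeasurable
    · apply Eventually.of_forall
      intro η k l hkl
      apply Nb_anti hn
      have : (1:ℝ) / (l + 1) ≤ 1 / (k + 1) := by gcongr
      linarith
    · apply Eventually.of_forall
      intro η
      have := ((continuous_Nb hn).tendsto (‖a + ρ • η‖ + 0)).comp (hδ.const_add ‖a + ρ • η‖)
      rw [add_zero] at this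
      exact this
  refine le_trans (lintegral_mono fun η => Nk_le hn _) (le_of_tendsto_of_tendsto' t2 t1 fun k => ?_)
  exact key _ (by positivity)

/-- Newton's theorem: inside the sphere -/
lemma newton_in (hW : IsWiener W) (hn : 3 ≤ finrank ℝ E) {ν : Measure E} (hν : IsSph ν) {θ : E}
    (hθ : ‖θ‖ = 1) {ρ r : ℝ} (hρ : 0 < ρ) (hr : ρ < r) :
    ∫⁻ η, Nk (ρ • θ - r • η) ∂ν ≤ Nb (finrank ℝ E) r := by
  have hprob := hν.prob
  set J : E → ℝ≥0∞ := fun θ => ∫⁻ η, Nk (ρ • θ - r • η) ∂ν with hJ
  have hJrot : ∀ θ' : E, ‖θ'‖ = 1 → J θ' = J θ := by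
    intro θ' hθ'
    obtain ⟨Q, hQ⟩ := exists_rot (hθ.trans hθ'.symm)
    simp only [hJ]
    rw [← hν.lintegral_rot Q (f := fun η => Nk (ρ • θ' - r • η))
      (measurable_Nk.comp (by fun_prop))]
    apply lintegral_congr
    intro η
    apply Nk_congr
    rw [← hQ, ← map_smul, ← map_smul, ← map_sub, Q.norm_map]
  have h1 : J θ = ∫⁻ θ', J θ' ∂ν := by
    rw [lintegral_congr_ae (g := fun _ => J θ)]
    · simp
    · filter_upwards [hν.norm] with θ' hθ'
      exact hJrot θ' hθ'
  show J θ ≤ _
  rw [h1]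
  simp only [hJ]
  have hm3 : Measurable (Function.uncurry fun (θ η : E) => Nk (ρ • θ - r • η)) :=
    measurable_Nk.comp (g := Nk) (f := fun q : E × E => ρ • q.1 - r • q.2) (by fun_prop)
  rw [lintegral_lintegral_swap hm3.aemeasurable]
  calc ∫⁻ η, ∫⁻ θ', Nk (ρ • θ' - r • η) ∂ν ∂ν ≤ ∫⁻ _, Nb (finrank ℝ E) r ∂ν := by
        apply lintegral_mono_ae
        filter_upwards [hν.norm] with η hη
        have hr0 : 0 < r := hρ.trans hr
        have h2 : ‖-(r • η)‖ = r := by
          rw [norm_neg, norm_smul, hη, mul_one, Real.norm_eq_abs, abs_of_pos hr0]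
        have := Nk_smean hW hn hν (a := -(r • η)) hρ
        rw [h2] at this
        refine le_trans (le_of_eq ?_) this
        apply lintegral_congr
        intro θ'
        congr 1
        abel
    _ = Nb (finrank ℝ E) r := by simp

end Pool.Agent.Lib.P07dee5
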