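import Mathlib
import Pool.Agent.Lib.P07dee5.Hit
import Pool.Agent.Lib.P07dee5.Dens

/-! # Supermedian and excessive functions, optional stopping, right continuity at time `0` -/

open MeasureTheory Set Filter Topology ProbabilityTheory Module
open scoped ENNReal NNReal

set_option linter.unusedSectionVars false

namespace Pool.Agent.Lib.P07dee5

variable {E : Type*} [NormedAddCommGroup E] [InnerProductSpace ℝ E] [FiniteDimensional ℝ E]
  [MeasurableSpace E] [BorelSpace E] {W : Measure (Pth E)}

/-- supermedian functions -/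
structure SMed (W : Measure (Pth E)) (a : ℝ≥0) (f : E → ℝ≥0∞) : Prop where
  meas : Measurable f
  sup : ∀ (t : ℝ≥0) (x : E), dsc a t * Ex W (fun p => f (p.1 t)) x ≤ f x

open Classical in
/-- discrete stopping value at the first grid time in `D` (or after `k` steps) -/
noncomputable def gridV (a : ℝ≥0) (f : E → ℝ≥0∞) (D : Set E) (h : ℝ≥0) : ℕ → Pth E → ℝ≥0∞
  | 0, p => f (p.1 0)
  | k + 1, p => dsc a h * (if p.1 h ∈ D then f (p.1 h) else gridV a f D h k (shift h p))

lemma measurable_gridV {a : ℝ≥0} {f : E → ℝ≥0∞} {D : Set E} {h : ℝ≥0} (hf : Measurable f)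
    (hD : MeasurableSet D) (k : ℕ) : Measurable (gridV a f D h k) := by
  induction k with
  | zero => exact hf.comp (measurable_eval 0)
  | succ k ih =>
    classical
    show Measurable (fun p : Pth E =>
      dsc a h * (if p.1 h ∈ D then f (p.1 h) else gridV a f D h k (shift h p)))
    apply Measurable.const_mul
    exact Measurable.ite (measurable_eval h hD) (hf.comp (measurable_eval h))
      (ih.comp (measurable_shift h))

lemma Ex_gridV_le (hW : IsWiener W) {a : ℝ≥0} {f : E → ℝ≥0∞} {D : Set E} {h : ℝ≥0}
    (hf : SMed W a f) (hD : MeasurableSet D) (k : ℕ) (x : E) :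
    Ex W (gridV a f D h k) x ≤ f x := by
  induction k generalizing x with
  | zero =>
    have := hf.sup 0 x
    rw [ENNReal.coe_zero, dsc_zero, one_mul] at this
    exact this
  | succ k ih =>
    classical
    have hm := measurable_gridV (a := a) (h := h) hf.meas hD k
    have e1 : Ex W (gridV a f D h (k + 1)) x = dsc a h *
        (Ex W (fun p => D.indicator f (p.1 h)) x +
          Ex W (fun p => (fun r : Pth E => Dᶜ.indicator (1 : E → ℝ≥0∞) (r.1 h)) (stop h p) *
            gridV a f D h k (shift h p)) x) := by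
      have h1 : Measurable (fun p : Pth E => D.indicator f (p.1 h)) :=
        (hf.meas.indicator hD).comp (measurable_eval h)
      have h2 : Measurable (fun p : Pth E =>
          (fun r : Pth E => Dᶜ.indicator (1 : E → ℝ≥0∞) (r.1 h)) (stop h p) *
            gridV a f D h k (shift h p)) := by
        apply Measurable.mul
        · exact ((measurable_one.indicator hD.compl).comp (measurable_eval h)).comp
            (measurable_stop h)
        · exact hm.comp (measurable_shift h)
      rw [← Ex_add h1]
      refine Eq.trans ?_ (Ex_const_mul (dsc a h) (F := fun p : Pth E => D.indicator f (p.1 h) +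
        (fun r : Pth E => Dᶜ.indicator (1 : E → ℝ≥0∞) (r.1 h)) (stop h p) *
            gridV a f D h k (shift h p)) (h1.add h2) x)
      congr 1
      funext p
      show dsc a h * (if p.1 h ∈ D then f (p.1 h) else gridV a f D h k (shift h p)) = _
      congr 1
      by_cases hp : p.1 h ∈ D
      · simp [hp]
      · simp [hp]
    rw [e1, markov hW h (G := fun r : Pth E => Dᶜ.indicator (1 : E → ℝ≥0∞) (r.1 h))
      ((measurable_one.indicator hD.compl).comp (measurable_eval h)) hm]
    refine le_trans ?_ (hf.sup h x)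
    gcongr
    have h1 : Measurable (fun p : Pth E => D.indicator f (p.1 h)) :=
      (hf.meas.indicator hD).comp (measurable_eval h)
    refine le_trans (Ex_add h1 x).ge ?_
    apply Ex_mono
    intro p
    by_cases hp : p.1 h ∈ D
    · simp [hp]
    · simpa [hp] using ih (p.1 h)

lemma le_gridV_of_mem {a : ℝ≥0} {f : E → ℝ≥0∞} {D : Set E} {h : ℝ≥0} {q : ℝ≥0∞}
    (hq : ∀ y ∈ D, q ≤ f y) (k : ℕ) (p : Pth E) (i : ℕ) (hi : 1 ≤ i) (hik : i ≤ k)
    (hp : p.1 (i * h) ∈ D) : dsc a ((i * h : ℝ≥0) : ℝ≥0∞) * q ≤ gridV a f D h k p := by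
  induction k generalizing p i with
  | zero => omega
  | succ k ih =>
    show _ ≤ dsc a h * _
    split_ifs with h1
    · gcongr
      · apply dsc_anti
        rw [ENNReal.coe_le_coe]
        have : (1 : ℝ≥0) ≤ i := by exact_mod_cast hi
        calc h = 1 * h := (one_mul h).symm
          _ ≤ i * h := by gcongr
      · exact hq _ h1
    · have hi2 : 2 ≤ i := by
        by_contra hcon
        have : i = 1 := by omega
        subst this
        simp at hp
        exact h1 hp
      obtain ⟨j, rfl⟩ : ∃ j, i = j + 1 := ⟨i - 1, by omega⟩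
      have h2 := ih (shift h p) j (by omega) (by omega) (by
        rw [shift_apply]
        have : h + (j : ℝ≥0) * h = ((j + 1 : ℕ) : ℝ≥0) * h := by push_cast; ring
        rw [this]
        exact hp)
      have h3 : dsc a (((j + 1 : ℕ) * h : ℝ≥0) : ℝ≥0∞) =
          dsc a h * dsc a ((j * h : ℝ≥0) : ℝ≥0∞) := by
        rw [← dsc_add, ← ENNReal.coe_add]
        congr 2
        push_cast
        ring
      rw [h3, mul_assoc]
      gcongr

lemma le_gridV_of_notMem {a : ℝ≥0} {f : E → ℝ≥0∞} {D : Set E} {h : ℝ≥0}
    (k : ℕ) (p : Pth E) (hp : ∀ i : ℕ, 1 ≤ i → i < k → p.1 (i * h) ∉ D) :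
    dsc a ((k * h : ℝ≥0) : ℝ≥0∞) * f (p.1 (k * h)) ≤ gridV a f D h k p := by
  induction k generalizing p with
  | zero =>
    show _ ≤ f (p.1 0)
    simp [dsc_zero]
  | succ k ih =>
    have h3 : dsc a (((k + 1 : ℕ) * h : ℝ≥0) : ℝ≥0∞) =
        dsc a h * dsc a ((k * h : ℝ≥0) : ℝ≥0∞) := by
      rw [← dsc_add, ← ENNReal.coe_add]
      congr 2
      push_cast
      ring
    have h4 : ((k + 1 : ℕ) : ℝ≥0) * h = h + k * h := by push_cast; ring
    show _ ≤ dsc a h * _
    rw [h3, mul_assoc]
    split_ifs with h1
    · have hk : k = 0 := by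
        by_contra hcon
        have := hp 1 le_rfl (by omega)
        simp at this
        exact this h1
      subst hk
      simp [dsc_zero]
    · gcongr
      rw [h4]
      exact ih (shift h p) (fun i hi1 hi2 => by
        rw [shift_apply]
        have := hp (i + 1) (by omega) (by omega)
        have h5 : ((i + 1 : ℕ) : ℝ≥0) * h = h + i * h := by push_cast; ring
        rwa [h5] at this)

/-- Optional stopping at the hitting time of an open set, with finite horizon. -/
theorem optional_stopping (hW : IsWiener W) {a : ℝ≥0} {f : E → ℝ≥0∞} (hf : SMed W a f)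
    {D : Set E} (hD : IsOpen D) {q : ℝ≥0∞} (hqt : q ≠ ∞) (hq : ∀ y ∈ D, q ≤ f y)
    (δ : ℝ≥0) (x : E) :
    Ex W (fun p => {p | hitO D p < δ}.indicator (fun p => q * dsc a (hitO D p)) p +
      {p | δ ≤ hitO D p}.indicator (fun p => dsc a δ * f (p.1 δ)) p) x ≤ f x := by
  rcases eq_or_ne δ 0 with h0 | hδ0
  · subst h0
    refine le_trans ?_ (hf.sup 0 x)
    rw [ENNReal.coe_zero, dsc_zero, one_mul]
    apply Ex_mono
    intro p
    simp
  have hmono : ∀ p : Pth E, {p | hitO D p < δ}.indicator (fun p => q * dsc a (hitO D p)) p +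
      {p | δ ≤ hitO D p}.indicator (fun p => dsc a δ * f (p.1 δ)) p ≤
      liminf (fun m : ℕ => gridV a f D (δ / 2 ^ m) (2 ^ m) p) atTop := by
    intro p
    have hδ : ∀ m : ℕ, ((2 ^ m : ℕ) : ℝ≥0) * (δ / 2 ^ m) = δ := by
      intro m
      push_cast
      field_simp
    rcases lt_or_ge (hitO D p) δ with h | h
    · rw [indicator_of_mem (by exact h), indicator_of_notMem (by
        simpa only [Set.mem_ofPred_eq, not_le] using h), add_zero]
      -- it suffices to bound by `q * dsc c` for `c` slightly larger
      have key : ∀ c : ℝ≥0, hitO D p < c → c ≤ δ →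
          q * dsc a c ≤ liminf (fun m : ℕ => gridV a f D (δ / 2 ^ m) (2 ^ m) p) atTop := by
        intro c hc hcδ
        obtain ⟨t, ht0, htc, htD⟩ := hitO_lt_iff.1 hc
        have htc' : t < c := by exact_mod_cast htc
        have hδ0 : 0 < δ := ht0.trans (htc'.trans_le hcδ)
        have hO : IsOpen {s : ℝ≥0 | s < c ∧ p.1 s ∈ D} :=
          (isOpen_lt continuous_id continuous_const).inter (hD.preimage p.2)
        have hnear : {s : ℝ≥0 | s < c ∧ p.1 s ∈ D} ∈ 𝓝 t := hO.mem_nhds ⟨htc', htD⟩
        have hlim : Tendsto (fun m : ℕ => ((⌈(t : ℝ) / (δ / 2 ^ m)⌉₊ : ℕ) : ℝ≥0) * (δ / 2 ^ m))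
            atTop (𝓝 t) := by
          rw [← NNReal.tendsto_coe]
          have hz : Tendsto (fun m : ℕ => (δ : ℝ) / 2 ^ m) atTop (𝓝 0) := by
            have := tendsto_pow_atTop_nhds_zero_of_lt_one (r := (1/2 : ℝ)) (by norm_num)
              (by norm_num)
            have h2 := this.const_mul (δ : ℝ)
            rw [mul_zero] at h2
            refine h2.congr fun m => ?_
            rw [one_div_pow]; ring
          have hup : Tendsto (fun m : ℕ => (t : ℝ) + (δ : ℝ) / 2 ^ m) atTop (𝓝 (t + 0)) :=
            tendsto_const_nhds.add hz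
          rw [add_zero] at hup
          refine tendsto_of_tendsto_of_tendsto_of_le_of_le tendsto_const_nhds hup ?_ ?_
          · intro m
            have hpos : (0 : ℝ) < δ / 2 ^ m := by positivity
            push_cast
            calc (t : ℝ) = (t / (δ / 2 ^ m)) * (δ / 2 ^ m) := by field_simp
              _ ≤ _ := by gcongr; exact Nat.le_ceil _
          · intro m
            have hpos : (0 : ℝ) < δ / 2 ^ m := by positivity
            push_cast
            calc _ ≤ ((t : ℝ) / (δ / 2 ^ m) + 1) * (δ / 2 ^ m) := by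
                  gcongr
                  exact (Nat.ceil_lt_add_one (by positivity)).le
              _ = _ := by field_simp
        have hev := hlim.eventually hnear
        apply le_liminf_of_le (by isBoundedDefault)
        filter_upwards [hev] with m hm
        set i := ⌈(t : ℝ) / (δ / 2 ^ m)⌉₊ with hi
        have hi1 : 1 ≤ i := by
          rw [hi, Nat.one_le_ceil_iff]
          positivity
        have hik : i ≤ 2 ^ m := by
          have h1 : (i : ℝ≥0) * (δ / 2 ^ m) ≤ ((2 ^ m : ℕ) : ℝ≥0) * (δ / 2 ^ m) := by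
            rw [hδ m]; exact (hm.1.le).trans hcδ
          have h2 := le_of_mul_le_mul_right h1 (by positivity)
          exact_mod_cast h2
        refine le_trans ?_ (le_gridV_of_mem (a := a) hq (2 ^ m) p i hi1 hik hm.2)
        rw [mul_comm]
        gcongr
        apply dsc_anti
        exact_mod_cast hm.1.le
      obtain ⟨c, hc1, hc2⟩ : ∃ c : ℝ≥0, hitO D p < c ∧ c ≤ δ := ⟨δ, h, le_rfl⟩
      have hne : hitO D p ≠ ∞ := ne_top_of_lt h
      have hco : ((hitO D p).toNNReal : ℝ≥0∞) = hitO D p := ENNReal.coe_toNNReal hne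
      have hlt : (hitO D p).toNNReal < δ := by rw [← ENNReal.coe_lt_coe, hco]; exact h
      have hcont : Tendsto (fun c : ℝ≥0 => q * dsc a c) (𝓝[>] (hitO D p).toNNReal)
          (𝓝 (q * dsc a (hitO D p))) := by
        apply ENNReal.Tendsto.const_mul _ (Or.inr hqt)
        have := ((dsc_continuous a).comp ENNReal.continuous_coe).tendsto (hitO D p).toNNReal
        simp only [Function.comp_apply, hco] at this
        exact this.mono_left nhdsWithin_le_nhds
      have : (𝓝[>] (hitO D p).toNNReal).NeBot := nhdsGT_neBot_of_exists_gt ⟨δ, hlt⟩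
      refine le_of_tendsto hcont ?_
      have h1 : ∀ᶠ c in 𝓝[>] (hitO D p).toNNReal, c < δ :=
        nhdsWithin_le_nhds (eventually_lt_nhds hlt)
      filter_upwards [self_mem_nhdsWithin, h1] with c hc1 hc2
      apply key c _ hc2.le
      rw [← hco]
      exact_mod_cast hc1
    · rw [indicator_of_notMem (by simpa only [Set.mem_ofPred_eq, not_lt] using h),
        indicator_of_mem (by exact h), zero_add]
      apply le_liminf_of_le (by isBoundedDefault)
      apply Eventually.of_forall
      intro m
      have h1 := le_gridV_of_notMem (a := a) (f := f) (D := D) (h := δ / 2 ^ m) (2 ^ m) p (by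
        intro i hi1 hi2
        have hd : 0 < δ / 2 ^ m := by positivity
        apply notMem_of_lt_hitO
        · positivity
        · refine lt_of_lt_of_le ?_ h
          rw [ENNReal.coe_lt_coe]
          calc (i : ℝ≥0) * (δ / 2 ^ m) < ((2 ^ m : ℕ) : ℝ≥0) * (δ / 2 ^ m) := by
                gcongr
            _ = δ := hδ m)
      rw [hδ m] at h1
      exact h1
  calc _ ≤ Ex W (fun p => liminf (fun m : ℕ => gridV a f D (δ / 2 ^ m) (2 ^ m) p) atTop) x :=
        Ex_mono hmono x
    _ ≤ liminf (fun m : ℕ => Ex W (gridV a f D (δ / 2 ^ m) (2 ^ m)) x) atTop := by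
        apply lintegral_liminf_le
        intro m
        exact (measurable_gridV hf.meas hD.measurableSet _).comp (measurable_tr x)
    _ ≤ f x := by
        apply liminf_le_of_le (by isBoundedDefault)
        intro b hb
        obtain ⟨m, hm⟩ := hb.exists
        exact hm.trans (Ex_gridV_le hW hf hD.measurableSet _ x)

/-- Right continuity at time `0` (upper part), for lower semicontinuous supermedian functions. -/
theorem rusc_zero (hW : IsWiener W) {a : ℝ≥0} {f : E → ℝ≥0∞} (hf : SMed W a f)
    (hl : LowerSemicontinuous f) {q : ℝ≥0∞} {x : E} (hx : f x < q) :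
    ∀ᵐ p ∂W, 0 < hitO {y | q < f y} (tr x p) := by
  have hprob := hW.prob
  set D : Set E := {y | q < f y} with hDdef
  have hD : IsOpen D := hl.isOpen_preimage q
  obtain ⟨q', hq1, hq2⟩ := exists_between hx
  have hq't : q' ≠ ∞ := ne_top_of_lt hq2
  have hqD : ∀ y ∈ D, q' ≤ f y := fun y hy => hq2.le.trans (le_of_lt hy)
  set g : ℕ → Pth E → ℝ≥0∞ := fun n p =>
    {p | hitO D p < ((1 / (n + 1) : ℝ≥0) : ℝ≥0∞)}.indicator (fun p => q' * dsc a (hitO D p)) p +
      {p | ((1 / (n + 1) : ℝ≥0) : ℝ≥0∞) ≤ hitO D p}.indicator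
        (fun p => dsc a ((1 / (n + 1) : ℝ≥0) : ℝ≥0∞) * f (p.1 (1 / (n + 1) : ℝ≥0))) p with hg
  have hgx : ∀ n, ∫⁻ p, g n (tr x p) ∂W ≤ f x := fun n =>
    optional_stopping hW hf hD hq't hqD (1 / (n + 1)) x
  have hhit := measurable_hitO hD
  have hgm : ∀ n, Measurable (g n) := by
    intro n
    apply Measurable.add
    · apply Measurable.indicator
      · exact ((dsc_measurable a).comp hhit).const_mul q'
      · exact measurableSet_lt hhit measurable_const
    · apply Measurable.indicator
      · exact (hf.meas.comp (measurable_eval _)).const_mul _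
      · exact measurableSet_le measurable_const hhit
  have hlim0 : Tendsto (fun n : ℕ => (1 / (n + 1) : ℝ≥0)) atTop (𝓝 0) := by
    rw [← NNReal.tendsto_coe]
    push_cast
    exact tendsto_one_div_add_atTop_nhds_zero_nat
  have hpoint : ∀ᵐ p ∂W, {p | hitO D p = 0}.indicator (fun _ => q') (tr x p) +
      {p | hitO D p = 0}ᶜ.indicator (fun _ => f x) (tr x p) ≤
      liminf (fun n => g n (tr x p)) atTop := by
    filter_upwards [hW.zero] with p hp0
    have hp : (tr x p).1 0 = x := by simp [hp0]
    by_cases h0 : hitO D (tr x p) = 0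
    · rw [indicator_of_mem (by exact h0), indicator_of_notMem (by simpa using h0), add_zero]
      apply le_liminf_of_le (by isBoundedDefault)
      apply Eventually.of_forall
      intro n
      simp only [hg]
      rw [indicator_of_mem]
      · rw [h0, dsc_zero, mul_one]
        exact le_self_add
      · rw [Set.mem_ofPred_eq, h0]
        exact_mod_cast (by positivity : (0:ℝ≥0) < 1 / (n + 1))
    · rw [indicator_of_notMem (by exact h0), indicator_of_mem (by simpa using h0), zero_add]
      have hpos : 0 < hitO D (tr x p) := pos_iff_ne_zero.2 h0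
      apply le_of_forall_lt
      intro c hc
      obtain ⟨c', hc1, hc2⟩ := exists_between hc
      -- eventually `g n (tr x p) ≥ dsc * c'`
      have hev1 : ∀ᶠ n : ℕ in atTop, ((1 / (n + 1) : ℝ≥0) : ℝ≥0∞) < hitO D (tr x p) := by
        have := ENNReal.tendsto_coe.2 hlim0
        exact this.eventually (eventually_lt_nhds hpos)
      have hev2 : ∀ᶠ n : ℕ in atTop, c' < f ((tr x p).1 (1 / (n + 1) : ℝ≥0)) := by
        have h1 : Tendsto (fun n : ℕ => (tr x p).1 (1 / (n + 1) : ℝ≥0)) atTop (𝓝 x) := by
          have := ((tr x p).2.tendsto 0).comp hlim0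
          rwa [hp] at this
        exact h1.eventually (hl x c' hc2)
      have hlimd : Tendsto (fun n : ℕ => dsc a ((1 / (n + 1) : ℝ≥0) : ℝ≥0∞) * c') atTop
          (𝓝 (1 * c')) := by
        apply ENNReal.Tendsto.mul_const _ (Or.inl one_ne_zero)
        exact (tendsto_dsc_zero a).comp hlim0
      rw [one_mul] at hlimd
      refine lt_of_lt_of_le hc1 ?_
      have hev : ∀ᶠ n : ℕ in atTop, dsc a ((1 / (n + 1) : ℝ≥0) : ℝ≥0∞) * c' ≤ g n (tr x p) := by
        filter_upwards [hev1, hev2] with n h1 h2
        simp only [hg]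
        rw [indicator_of_notMem (by simpa only [Set.mem_ofPred_eq, not_lt] using h1.le),
          indicator_of_mem (by exact h1.le), zero_add]
        gcongr
      calc c' = liminf (fun n : ℕ => dsc a ((1 / (n + 1) : ℝ≥0) : ℝ≥0∞) * c') atTop :=
            hlimd.liminf_eq.symm
        _ ≤ _ := liminf_le_liminf hev
  set A : Set (Pth E) := {p | hitO D (tr x p) = 0} with hA
  have hAm : MeasurableSet A := (hhit.comp (measurable_tr x)) (measurableSet_singleton 0)
  have hmain : q' * W A + f x * W Aᶜ ≤ f x := by
    calc q' * W A + f x * W Aᶜ = ∫⁻ p, ({p | hitO D p = 0}.indicator (fun _ => q') (tr x p) +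
          {p | hitO D p = 0}ᶜ.indicator (fun _ => f x) (tr x p)) ∂W := by
          have e1 : ∀ p : Pth E, {p | hitO D p = 0}.indicator (fun _ => q') (tr x p) =
            A.indicator (fun _ => q') p := fun p => rfl
          have e2 : ∀ p : Pth E, {p | hitO D p = 0}ᶜ.indicator (fun _ => f x) (tr x p) =
            Aᶜ.indicator (fun _ => f x) p := fun p => rfl
          simp_rw [e1, e2]
          rw [lintegral_add_left (measurable_const.indicator hAm), lintegral_indicator_const hAm,
            lintegral_indicator_const hAm.compl]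
      _ ≤ ∫⁻ p, liminf (fun n => g n (tr x p)) atTop ∂W := lintegral_mono_ae hpoint
      _ ≤ liminf (fun n => ∫⁻ p, g n (tr x p) ∂W) atTop :=
          lintegral_liminf_le fun n => (hgm n).comp (measurable_tr x)
      _ ≤ f x := by
          apply liminf_le_of_le (by isBoundedDefault)
          intro b hb
          obtain ⟨m, hm⟩ := hb.exists
          exact hm.trans (hgx m)
  have hfx : f x ≠ ∞ := ne_top_of_lt hx
  have hA0 : W A = 0 := by
    by_contra hcon
    have h1 : f x * W A < q' * W A := by
      rw [ENNReal.mul_lt_mul_iff_left hcon (measure_ne_top _ _)]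
      exact hq1
    have h2 : f x < f x := by
      calc f x = f x * W A + f x * W Aᶜ := by
            rw [← mul_add, measure_add_measure_compl hAm, measure_univ, mul_one]
        _ < q' * W A + f x * W Aᶜ := by
            apply ENNReal.add_lt_add_of_lt_of_le _ h1 le_rfl
            exact ENNReal.mul_ne_top hfx (measure_ne_top _ _)
        _ ≤ f x := hmain
    exact lt_irrefl _ h2
  rw [← compl_mem_ae_iff] at hA0
  filter_upwards [hA0] with p hp
  exact pos_iff_ne_zero.2 hp

end Pool.Agent.Lib.P07dee5
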