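import Mathlib
import Pool.Agent.Lib.P07dee5.Exc

/-! # Semicontinuity of supermedian functions along paths -/

open MeasureTheory Set Filter Topology ProbabilityTheory Module
open scoped ENNReal NNReal

set_option linter.unusedSectionVars false

namespace Pool.Agent.Lib.P07dee5

variable {E : Type*} [NormedAddCommGroup E] [InnerProductSpace ℝ E] [FiniteDimensional ℝ E]
  [MeasurableSpace E] [BorelSpace E] {W : Measure (Pth E)}

/-! ### Composition of optional times -/

open Classical in
/-- `S` after `T` -/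
noncomputable def after (T S : Pth E → ℝ≥0∞) (p : Pth E) : ℝ≥0∞ :=
  if T p = ∞ then ∞ else T p + S (shift (T p).toNNReal p)

lemma after_of_top {T S : Pth E → ℝ≥0∞} {p : Pth E} (h : T p = ∞) : after T S p = ∞ := by
  simp [after, h]

lemma after_of_ne {T S : Pth E → ℝ≥0∞} {p : Pth E} (h : T p ≠ ∞) :
    after T S p = T p + S (shift (T p).toNNReal p) := by
  simp [after, h]

lemma le_after (T S : Pth E → ℝ≥0∞) (p : Pth E) : T p ≤ after T S p := by
  by_cases h : T p = ∞
  · rw [after_of_top h]; exact le_top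
  · rw [after_of_ne h]; exact le_self_add

lemma measurable_after {T S : Pth E → ℝ≥0∞} (hT : Measurable T) (hS : Measurable S) :
    Measurable (after T S) := by
  classical
  apply Measurable.ite (hT (measurableSet_singleton ∞)) measurable_const
  exact hT.add (hS.comp (measurable_shift2.comp (hT.ennreal_toNNReal.prodMk measurable_id)))

lemma shift_agree {p q : Pth E} {s t : ℝ≥0} (h : ∀ u ≤ t, p.1 u = q.1 u) :
    ∀ u ≤ t - s, (s ≤ t) → (shift s p).1 u = (shift s q).1 u := by
  intro u hu hst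
  simp only [shift_apply]
  apply h
  calc s + u ≤ s + (t - s) := by gcongr
    _ = t := add_tsub_cancel_of_le hst

lemma isOpt_after {T S : Pth E → ℝ≥0∞} (hT : IsOpt T) (hS : IsOpt S) : IsOpt (after T S) where
  meas := measurable_after hT.meas hS.meas
  gal := by
    intro p q t h hlt
    have h1 : T p < t := (le_after T S p).trans_lt hlt
    have hne : T p ≠ ∞ := ne_top_of_lt h1
    have h2 := hT.gal p q t h h1
    have hne2 : T q ≠ ∞ := by rw [h2]; exact hne
    rw [after_of_ne hne] at hlt
    rw [after_of_ne hne, after_of_ne hne2, h2]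
    congr 1
    have hst : (T p).toNNReal ≤ t := by
      rw [← ENNReal.coe_le_coe, ENNReal.coe_toNNReal hne]; exact h1.le
    apply hS.gal _ _ (t - (T p).toNNReal)
    · intro u hu
      exact shift_agree h u hu hst
    · rw [ENNReal.coe_sub, ENNReal.coe_toNNReal hne]
      rw [lt_tsub_iff_left]
      exact hlt

lemma isPre_dsc {T : Pth E → ℝ≥0∞} (hT : IsOpt T) {a : ℝ≥0} (ha : a ≠ 0) :
    IsPre T (fun p => dsc a (T p)) where
  meas := (dsc_measurable a).comp hT.meas
  gal := fun p q t h hlt => by rw [hT.gal p q t h hlt]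
  top := fun p hp => by rw [hp, dsc_top ha]

/-- discounting after a composition -/
lemma Ex_dsc_after (hW : IsWiener W) {T S : Pth E → ℝ≥0∞} (hT : IsOpt T) (hS : Measurable S)
    {a : ℝ≥0} (ha : a ≠ 0) (x : E) :
    Ex W (fun p => dsc a (after T S p)) x =
      Ex W (fun p => dsc a (T p) * Ex W (fun r => dsc a (S r)) (p.1 (T p).toNNReal)) x := by
  rw [← strong_markov hW hT (isPre_dsc hT ha) (F := fun r => dsc a (S r))
    ((dsc_measurable a).comp hS)]
  congr 1
  funext p
  by_cases h : T p = ∞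
  · rw [after_of_top h, h, dsc_top ha, zero_mul]
  · rw [after_of_ne h, dsc_add]

/-! ### Crossings -/

/-- the first time in `D` after the first time in `F` -/
noncomputable def cyc (F D : Set E) : Pth E → ℝ≥0∞ := after (hitC F) (hitO D)

/-- time of the `j`-th crossing -/
noncomputable def crs (F D : Set E) : ℕ → Pth E → ℝ≥0∞
  | 0, _ => 0
  | j + 1, p => after (cyc F D) (crs F D j) p

lemma isOpt_cyc {F D : Set E} (hF : IsClosed F) (hD : IsOpen D) : IsOpt (cyc F D) :=
  isOpt_after (isOpt_hitC hF) (isOpt_hitO hD)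

lemma isOpt_crs {F D : Set E} (hF : IsClosed F) (hD : IsOpen D) (j : ℕ) :
    IsOpt (crs F D j) := by
  induction j with
  | zero => exact ⟨measurable_const, fun _ _ _ _ _ => rfl⟩
  | succ j ih => exact isOpt_after (isOpt_cyc hF hD) ih

lemma sub_lt_of {b s : ℝ≥0} {X : ℝ≥0∞} (hb : b ≤ s) (h : (s : ℝ≥0∞) < b + X) :
    ((s - b : ℝ≥0) : ℝ≥0∞) < X := by
  rw [ENNReal.coe_sub]
  exact ENNReal.sub_lt_of_lt_add (by exact_mod_cast hb) (by rwa [add_comm])

/-- after the `j`-th crossing time nothing is lost: at times before it, the path starting in `F`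
does not enter `D` immediately. -/
lemma rusc_of_lt_crs {F D : Set E} (j : ℕ) (p : Pth E) (t : ℝ≥0)
    (ht : (t : ℝ≥0∞) < crs F D j p) (htF : p.1 t ∈ F) : ∀ᶠ s in 𝓝[>] t, p.1 s ∉ D := by
  induction j generalizing p t with
  | zero => simp [crs] at ht
  | succ j ih =>
    have hb : hitC F p ≤ t := hitC_le htF
    have hbne : hitC F p ≠ ∞ := ne_top_of_le_ne_top ENNReal.coe_ne_top hb
    have hcyc : cyc F D p = hitC F p + hitO D (shift (hitC F p).toNNReal p) := after_of_ne hbne
    set b := (hitC F p).toNNReal with hbdef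
    have hbc : (b : ℝ≥0∞) = hitC F p := ENNReal.coe_toNNReal hbne
    have hbt : b ≤ t := by rw [← ENNReal.coe_le_coe, hbc]; exact hb
    rcases lt_or_ge (t : ℝ≥0∞) (cyc F D p) with h | h
    · -- before the end of the cycle
      have hev : ∀ᶠ s : ℝ≥0 in 𝓝[>] t, (s : ℝ≥0∞) < cyc F D p :=
        nhdsWithin_le_nhds ((isOpen_lt ENNReal.continuous_coe continuous_const).mem_nhds h)
      filter_upwards [hev, self_mem_nhdsWithin] with s hs1 hs2
      have hbs : b < s := hbt.trans_lt hs2
      have h1 : (s - b : ℝ≥0) < hitO D (shift b p) := by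
        apply sub_lt_of hbs.le
        rw [hbc, ← hcyc]
        exact hs1
      have h2 := notMem_of_lt_hitO (tsub_pos_of_lt hbs) h1
      rwa [shift_apply, add_tsub_cancel_of_le hbs.le] at h2
    · have hcne : cyc F D p ≠ ∞ := ne_top_of_le_ne_top ENNReal.coe_ne_top h
      have hcrs : crs F D (j + 1) p = cyc F D p + crs F D j (shift (cyc F D p).toNNReal p) :=
        after_of_ne hcne
      set c := (cyc F D p).toNNReal with hcdef
      have hcc : (c : ℝ≥0∞) = cyc F D p := ENNReal.coe_toNNReal hcne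
      have hct : c ≤ t := by rw [← ENNReal.coe_le_coe, hcc]; exact h
      have h1 : ((t - c : ℝ≥0) : ℝ≥0∞) < crs F D j (shift c p) := by
        apply sub_lt_of hct
        rw [hcc, ← hcrs]
        exact ht
      have h2 : (shift c p).1 (t - c) ∈ F := by
        rw [shift_apply, add_tsub_cancel_of_le hct]; exact htF
      have h3 := ih (shift c p) (t - c) h1 h2
      have h4 : Tendsto (fun s : ℝ≥0 => s - c) (𝓝[>] t) (𝓝[>] (t - c)) := by
        apply tendsto_nhdsWithin_iff.2
        constructor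
        · exact ((continuous_id.sub continuous_const).tendsto t).mono_left nhdsWithin_le_nhds
        · filter_upwards [self_mem_nhdsWithin] with s hs
          exact (tsub_lt_tsub_iff_right hct).2 hs
      filter_upwards [h4.eventually h3, self_mem_nhdsWithin] with s hs1 hs2
      rwa [shift_apply, add_tsub_cancel_of_le (hct.trans (le_of_lt hs2))] at hs1

lemma Ex_dsc_hitO_le (hW : IsWiener W) {a : ℝ≥0} (ha : a ≠ 0) {f : E → ℝ≥0∞} (hf : SMed W a f)
    {D : Set E} (hD : IsOpen D) {q' : ℝ≥0∞} (hq' : q' ≠ ∞) (hfD : ∀ y ∈ D, q' ≤ f y) (y : E) :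
    q' * Ex W (fun r => dsc a (hitO D r)) y ≤ f y := by
  have hm : Measurable (fun r : Pth E => dsc a (hitO D r)) :=
    (dsc_measurable a).comp (measurable_hitO hD)
  rw [← Ex_const_mul q' hm]
  have hle : ∀ n : ℕ, ∫⁻ p, {p | hitO D p < ((n : ℝ≥0) : ℝ≥0∞)}.indicator
      (fun p => q' * dsc a (hitO D p)) (tr y p) ∂W ≤ f y := by
    intro n
    refine le_trans ?_ (optional_stopping hW hf hD hq' hfD n y)
    exact lintegral_mono fun p => le_self_add
  have hlim : Ex W (fun p => q' * dsc a (hitO D p)) y ≤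
      ∫⁻ p, liminf (fun n : ℕ => {p | hitO D p < ((n : ℝ≥0) : ℝ≥0∞)}.indicator
      (fun p => q' * dsc a (hitO D p)) (tr y p)) atTop ∂W := by
    apply lintegral_mono
    intro p
    apply le_liminf_of_le (by isBoundedDefault)
    by_cases h : hitO D (tr y p) = ∞
    · apply Eventually.of_forall
      intro n
      show q' * dsc a (hitO D (tr y p)) ≤ _
      rw [h, dsc_top ha, mul_zero]
      exact zero_le
    · obtain ⟨N, hN⟩ := ENNReal.exists_nat_gt h
      filter_upwards [eventually_ge_atTop N] with n hn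
      have hmem : tr y p ∈ {p : Pth E | hitO D p < ((n : ℝ≥0) : ℝ≥0∞)} := by
        show hitO D (tr y p) < ((n : ℝ≥0) : ℝ≥0∞)
        refine hN.trans_le ?_
        push_cast
        exact_mod_cast hn
      rw [indicator_of_mem hmem]
  refine hlim.trans ?_
  refine (lintegral_liminf_le fun n => ?_).trans ?_
  · exact ((hm.const_mul q').indicator
      (measurableSet_lt (measurable_hitO hD) measurable_const)).comp (measurable_tr y)
  · apply liminf_le_of_le (by isBoundedDefault)
    intro b hb
    obtain ⟨m, hm⟩ := hb.exists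
    exact hm.trans (hle m)

/-- discounted crossing times are small -/
lemma Ex_dsc_crs_le (hW : IsWiener W) {a : ℝ≥0} (ha : a ≠ 0) {f : E → ℝ≥0∞} (hf : SMed W a f)
    {F D : Set E} (hF : IsClosed F) (hD : IsOpen D) {q q' : ℝ≥0∞} (hq' : q' ≠ ∞) (hq0 : q' ≠ 0)
    (hfF : ∀ y ∈ F, f y ≤ q) (hfD : ∀ y ∈ D, q' ≤ f y) (j : ℕ) (x : E) :
    Ex W (fun p => dsc a (crs F D j p)) x ≤ (q / q') ^ j := by
  -- one hitting time
  have h1 : ∀ y ∈ F, Ex W (fun r => dsc a (hitO D r)) y ≤ q / q' := by
    intro y hy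
    rw [ENNReal.le_div_iff_mul_le (Or.inl hq0) (Or.inl hq'), mul_comm]
    exact (Ex_dsc_hitO_le hW ha hf hD hq' hfD y).trans (hfF y hy)
  have hcyc : ∀ y, Ex W (fun r => dsc a (cyc F D r)) y ≤ q / q' := by
    intro y
    unfold cyc
    rw [Ex_dsc_after hW (isOpt_hitC hF) (measurable_hitO hD) ha]
    calc _ ≤ Ex W (fun _ => q / q') y := by
          apply Ex_mono
          intro p
          by_cases h : hitC F p = ∞
          · rw [h, dsc_top ha, zero_mul]; exact zero_le
          · calc _ ≤ 1 * (q / q') := by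
                  gcongr
                  · exact dsc_le_one a _
                  · exact h1 _ (hitC_mem hF h)
              _ = q / q' := one_mul _
      _ = q / q' := Ex_const hW _ _
  induction j generalizing x with
  | zero =>
    simp only [crs, dsc_zero, pow_zero]
    rw [Ex_const hW]
  | succ j ih =>
    have h2 : Ex W (fun p => dsc a (crs F D (j + 1) p)) x =
        Ex W (fun p => dsc a (cyc F D p) *
          Ex W (fun r => dsc a (crs F D j r)) (p.1 (cyc F D p).toNNReal)) x :=
      Ex_dsc_after hW (isOpt_cyc hF hD) (isOpt_crs hF hD j).meas ha x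
    rw [h2]
    calc _ ≤ Ex W (fun p => dsc a (cyc F D p) * (q / q') ^ j) x := by
          apply Ex_mono
          intro p
          gcongr
          exact ih _
      _ = Ex W (fun p => dsc a (cyc F D p)) x * (q / q') ^ j := by
          have := Ex_const_mul (W := W) ((q / q') ^ j) (F := fun p => dsc a (cyc F D p))
            ((dsc_measurable a).comp (isOpt_cyc hF hD).meas) x
          rw [mul_comm, ← this]
          congr 1
          funext p
          rw [mul_comm]
      _ ≤ (q / q') * (q / q') ^ j := by gcongr; exact hcyc x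
      _ = (q / q') ^ (j + 1) := by rw [pow_succ, mul_comm]

lemma dsc_eq_zero_iff {a : ℝ≥0} (ha : a ≠ 0) {T : ℝ≥0∞} : dsc a T = 0 ↔ T = ∞ := by
  constructor
  · intro h
    by_contra hT
    have := dsc_coe_pos a T.toNNReal
    rw [ENNReal.coe_toNNReal hT, h] at this
    exact lt_irrefl _ this
  · rintro rfl
    exact dsc_top ha

/-- crossing times tend to infinity -/
lemma iSup_crs (hW : IsWiener W) {a : ℝ≥0} (ha : a ≠ 0) {f : E → ℝ≥0∞} (hf : SMed W a f)
    {F D : Set E} (hF : IsClosed F) (hD : IsOpen D) {q q' : ℝ≥0∞} (hqq : q < q') (hq' : q' ≠ ∞)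
    (hfF : ∀ y ∈ F, f y ≤ q) (hfD : ∀ y ∈ D, q' ≤ f y) (x : E) :
    ∀ᵐ p ∂W, ⨆ j, crs F D j (tr x p) = ∞ := by
  have hq0 : q' ≠ 0 := (zero_le.trans_lt hqq).ne'
  have hm : Measurable (fun p : Pth E => ⨆ j, crs F D j p) :=
    Measurable.iSup fun j => (isOpt_crs hF hD j).meas
  have h0 : Ex W (fun p => dsc a (⨆ j, crs F D j p)) x = 0 := by
    have hle : ∀ j, Ex W (fun p => dsc a (⨆ j, crs F D j p)) x ≤ (q / q') ^ j := fun j =>
      (Ex_mono (fun p => dsc_anti a (le_iSup (fun j => crs F D j p) j)) x).trans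
        (Ex_dsc_crs_le hW ha hf hF hD hq' hq0 hfF hfD j x)
    have hlt : q / q' < 1 := by
      rw [ENNReal.div_lt_iff (Or.inl hq0) (Or.inl hq'), one_mul]
      exact hqq
    have hlim : Tendsto (fun j : ℕ => (q / q') ^ j) atTop (𝓝 0) :=
      ENNReal.tendsto_pow_atTop_nhds_zero_of_lt_one hlt
    exact le_antisymm (ge_of_tendsto' hlim hle) zero_le
  have h1 := (lintegral_eq_zero_iff (((dsc_measurable a).comp hm).comp (measurable_tr x))).1 h0
  filter_upwards [h1] with p hp
  exact (dsc_eq_zero_iff ha).1 hp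

/-! ### Time reversal -/

/-- reversed path on `[0,1]` -/
noncomputable def rv (p : Pth E) : Pth E := ⟨fun t => p.1 (1 - t), p.2.comp (by fun_prop)⟩

@[simp] lemma rv_apply (p : Pth E) (t : ℝ≥0) : (rv p).1 t = p.1 (1 - t) := rfl

lemma measurable_rv : Measurable (rv (E := E)) :=
  measurable_toPth fun _ => measurable_eval _

lemma rv_tr (x : E) (p : Pth E) : rv (tr x p) = tr (x + p.1 1) (rev p) := by
  apply pth_ext
  intro t
  simp only [rv_apply, tr_apply, rev_apply]
  abel

/-- infinitely many crossings before time `1` -/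
def Bad (F D : Set E) : Set (Pth E) := {p | ∀ j, crs F D j p < 1}

lemma measurableSet_Bad {F D : Set E} (hF : IsClosed F) (hD : IsOpen D) :
    MeasurableSet (Bad F D) := by
  have : Bad F D = ⋂ j, {p | crs F D j p < 1} := by
    ext p; simp [Bad]
  rw [this]
  exact MeasurableSet.iInter fun j => measurableSet_lt (isOpt_crs hF hD j).meas measurable_const

lemma bad_agree {F D : Set E} (hF : IsClosed F) (hD : IsOpen D) {p q : Pth E}
    (h : ∀ s ≤ 1, p.1 s = q.1 s) (hp : p ∈ Bad F D) : q ∈ Bad F D := by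
  intro j
  have h1 := (isOpt_crs hF hD j).gal p q 1 h (by exact_mod_cast hp j)
  rw [h1]
  exact hp j

lemma stop_mem_bad {F D : Set E} (hF : IsClosed F) (hD : IsOpen D) (p : Pth E) :
    stop 1 p ∈ Bad F D ↔ p ∈ Bad F D := by
  have h : ∀ s ≤ 1, p.1 s = (stop 1 p).1 s := by
    intro s hs
    rw [stop_apply, min_eq_left hs]
  exact ⟨fun h1 => bad_agree hF hD (fun s hs => (h s hs).symm) h1, fun h1 => bad_agree hF hD h h1⟩

section

variable {F D : Set E} (hF : IsClosed F) (hD : IsOpen D)
  (hnull : ∀ x : E, W {p | tr x p ∈ Bad F D} = 0)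

include hF hD hnull

lemma rv_null_ae (hW : IsWiener W) :
    ∀ᵐ x : E, W {p | rv (tr x p) ∈ Bad F D} = 0 := by
  have hprob := hW.prob
  have hB := measurableSet_Bad hF hD
  set H : Pth E → ℝ≥0∞ := (Bad F D).indicator 1 with hH
  have hHm : Measurable H := measurable_one.indicator hB
  have hWH : ∀ g : Pth E → Pth E, Measurable g → W {p | g p ∈ Bad F D} = ∫⁻ p, H (g p) ∂W := by
    intro g hg
    have : ∫⁻ p, H (g p) ∂W = W (g ⁻¹' Bad F D) := by
      rw [← lintegral_indicator_one (hg hB)]; rfl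
    exact this.symm
  have hmeas1 : Measurable (fun q : E × Pth E => H (rv (tr q.1 q.2))) :=
    hHm.comp (measurable_rv.comp measurable_tr2)
  have hzero : ∫⁻ x : E, W {p | rv (tr x p) ∈ Bad F D} = 0 := by
    calc ∫⁻ x : E, W {p | rv (tr x p) ∈ Bad F D} = ∫⁻ x : E, ∫⁻ p, H (rv (tr x p)) ∂W := by
          apply lintegral_congr
          intro x
          exact hWH _ (measurable_rv.comp (measurable_tr x))
      _ = ∫⁻ p, (∫⁻ x : E, H (rv (tr x p))) ∂W := lintegral_lintegral_swap hmeas1.aemeasurable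
      _ = ∫⁻ p, (∫⁻ x : E, H (tr x (rev p))) ∂W := by
          apply lintegral_congr
          intro p
          simp_rw [rv_tr]
          exact lintegral_add_right_eq_self (μ := volume) (fun x => H (tr x (rev p))) (p.1 1)
      _ = ∫⁻ x : E, ∫⁻ p, H (tr x (rev p)) ∂W := by
          apply (lintegral_lintegral_swap _)
          apply Measurable.aemeasurable
          exact hHm.comp (measurable_tr2.comp
            (measurable_snd.prodMk (measurable_rev.comp measurable_fst)))
      _ = ∫⁻ _ : E, 0 := by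
          apply lintegral_congr
          intro x
          have e1 : ∀ p : Pth E, H (tr x (stop 1 p)) = H (tr x p) := by
            intro p
            rw [← stop_tr, hH]
            by_cases h : tr x p ∈ Bad F D
            · rw [indicator_of_mem h, indicator_of_mem ((stop_mem_bad hF hD _).2 h)]
              rfl
            · rw [indicator_of_notMem h, indicator_of_notMem (mt (stop_mem_bad hF hD _).1 h)]
          have hm : Measurable (fun p => H (tr x p)) := hHm.comp (measurable_tr x)
          calc ∫⁻ p, H (tr x (rev p)) ∂W = ∫⁻ p, H (tr x (stop 1 (rev p))) ∂W := by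
                simp_rw [e1]
            _ = ∫⁻ r, H (tr x r) ∂(W.map (fun p => stop 1 (rev p))) := by
                rw [lintegral_map (g := fun p => stop 1 (rev p)) hm
                  ((measurable_stop 1).comp measurable_rev)]
            _ = ∫⁻ r, H (tr x r) ∂(W.map (stop 1)) := by rw [hW.rev]
            _ = ∫⁻ p, H (tr x (stop 1 p)) ∂W := by
                rw [lintegral_map hm (measurable_stop 1)]
            _ = ∫⁻ p, H (tr x p) ∂W := by simp_rw [e1]
            _ = 0 := by rw [← hWH _ (measurable_tr x)]; exact hnull x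
      _ = 0 := by simp
  have hm2 : Measurable (fun x : E => W {p | rv (tr x p) ∈ Bad F D}) := by
    have : (fun x : E => W {p | rv (tr x p) ∈ Bad F D}) = fun x => ∫⁻ p, H (rv (tr x p)) ∂W := by
      funext x
      exact hWH _ (measurable_rv.comp (measurable_tr x))
    rw [this]
    exact hmeas1.lintegral_prod_right'
  exact (lintegral_eq_zero_iff hm2).1 hzero

lemma rv_shift_null (hW : IsWiener W) (s : ℝ≥0) (hs : 0 < s) (x : E) :
    ∀ᵐ p ∂W, rv (shift s (tr x p)) ∉ Bad F D := by
  have hprob := hW.prob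
  have hB := measurableSet_Bad hF hD
  set H : Pth E → ℝ≥0∞ := fun p => (Bad F D).indicator 1 (rv p) with hH
  have hHm : Measurable H := (measurable_one.indicator hB).comp measurable_rv
  have h1 := markov hW s (G := fun _ => 1) measurable_const hHm x
  simp only [one_mul] at h1
  have h2 : Ex W (fun p => Ex W H (p.1 s)) x = 0 := by
    rw [Ex_eval hW hs (measurable_Ex hW hHm)]
    rw [lintegral_eq_zero_iff (by
      apply Measurable.mul
      · exact ((continuous_gk _).measurable.comp (measurable_id.sub_const x)).ennreal_ofReal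
      · exact measurable_Ex hW hHm)]
    filter_upwards [rv_null_ae hF hD hnull hW] with y hy
    have : Ex W H y = 0 := by
      have h5 : ∫⁻ p, H (tr y p) ∂W = W ((rv ∘ tr y) ⁻¹' Bad F D) := by
        rw [← lintegral_indicator_one ((measurable_rv.comp (measurable_tr y)) hB)]; rfl
      exact h5.trans hy
    simp [this]
  rw [h2] at h1
  have hm3 : Measurable (fun p : Pth E => H (shift s (tr x p))) :=
    hHm.comp ((measurable_shift s).comp (measurable_tr x))
  have h3 := (lintegral_eq_zero_iff hm3).1 h1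
  filter_upwards [h3] with p hp
  intro hcon
  simp only [hH, indicator_of_mem hcon] at hp
  exact one_ne_zero hp

end

/-- deterministic consequence of the reversed path being good -/
lemma lusc_of_rv {F D : Set E} {p : Pth E} {s u : ℝ≥0} (hsu : s < u) (hus : u ≤ s + 1)
    (hB : rv (shift s p) ∉ Bad F D) (hu : p.1 u ∈ F) : ∀ᶠ r in 𝓝[<] u, p.1 r ∉ D := by
  simp only [Bad, Set.mem_ofPred_eq, not_forall, not_lt] at hB
  obtain ⟨j, hj⟩ := hB
  have hus' : u - s ≤ 1 := by rwa [tsub_le_iff_left]
  set t : ℝ≥0 := 1 - (u - s) with ht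
  have ht1 : t < 1 := by
    rw [ht]
    exact tsub_lt_self one_pos (tsub_pos_of_lt hsu)
  have h1t : 1 - t = u - s := by rw [ht, tsub_tsub_cancel_of_le hus']
  have h1 : (rv (shift s p)).1 t ∈ F := by
    rw [rv_apply, shift_apply, h1t, add_tsub_cancel_of_le hsu.le]
    exact hu
  have h2 := rusc_of_lt_crs j (rv (shift s p)) t
    (lt_of_lt_of_le (by exact_mod_cast ht1) hj) h1
  have h3 : Tendsto (fun r : ℝ≥0 => 1 - (r - s)) (𝓝[<] u) (𝓝[>] t) := by
    apply tendsto_nhdsWithin_iff.2
    constructor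
    · have : Continuous (fun r : ℝ≥0 => 1 - (r - s)) := by fun_prop
      exact (this.tendsto u).mono_left nhdsWithin_le_nhds
    · have h4 : ∀ᶠ r in 𝓝[<] u, s < r := nhdsWithin_le_nhds (eventually_gt_nhds hsu)
      filter_upwards [self_mem_nhdsWithin, h4] with r hr hsr
      show t < 1 - (r - s)
      have h5 : r - s < u - s := (tsub_lt_tsub_iff_right hsr.le).2 hr
      exact (tsub_lt_tsub_iff_left_of_le hus').2 h5
  have h4 : ∀ᶠ r in 𝓝[<] u, s < r := nhdsWithin_le_nhds (eventually_gt_nhds hsu)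
  filter_upwards [h3.eventually h2, h4, self_mem_nhdsWithin] with r hr hsr hru
  have h5 : r - s ≤ 1 := (tsub_le_tsub_right (le_of_lt hru) s).trans hus'
  rwa [rv_apply, shift_apply, tsub_tsub_cancel_of_le h5, add_tsub_cancel_of_le hsr.le] at hr

/-- left upper semicontinuity of a function along a path, at all positive times -/
def Lu (f : E → ℝ≥0∞) (p : Pth E) : Prop :=
  ∀ u : ℝ≥0, 0 < u → ∀ q q' : ℝ≥0∞, q < q' → f (p.1 u) ≤ q → ∀ᶠ s in 𝓝[<] u, f (p.1 s) ≤ q'

lemma Lu.shift {f : E → ℝ≥0∞} {p : Pth E} (h : Lu f p) (s : ℝ≥0) : Lu f (shift s p) := by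
  intro u hu q q' hq hle
  have h1 := h (s + u) (by positivity) q q' hq hle
  have h2 : Tendsto (fun r : ℝ≥0 => s + r) (𝓝[<] u) (𝓝[<] (s + u)) := by
    apply tendsto_nhdsWithin_iff.2
    constructor
    · exact ((continuous_const.add continuous_id).tendsto u).mono_left nhdsWithin_le_nhds
    · filter_upwards [self_mem_nhdsWithin] with r hr
      exact add_lt_add_right hr s
  exact h2.eventually h1

/-- exceptional set for the left semicontinuity -/
def NLu (f : E → ℝ≥0∞) : Set (Pth E) :=
  ⋃ (r : ℚ) (r' : ℚ) (n : ℕ) (_ : (Real.toNNReal r : ℝ≥0∞) < Real.toNNReal r' ∧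
    0 < TopologicalSpace.denseSeq ℝ≥0 n),
    {p | rv (shift (TopologicalSpace.denseSeq ℝ≥0 n) p) ∈
      Bad {y | f y ≤ Real.toNNReal r} {y | (Real.toNNReal r' : ℝ≥0∞) < f y}}

lemma measurableSet_NLu {f : E → ℝ≥0∞} (hl : LowerSemicontinuous f) :
    MeasurableSet (NLu f) := by
  unfold NLu
  apply MeasurableSet.iUnion; intro r
  apply MeasurableSet.iUnion; intro r'
  apply MeasurableSet.iUnion; intro n
  apply MeasurableSet.iUnion; intro _
  have hF : IsClosed {y | f y ≤ Real.toNNReal r} := hl.isClosed_preimage _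
  have hD : IsOpen {y | (Real.toNNReal r' : ℝ≥0∞) < f y} := hl.isOpen_preimage _
  exact (measurable_rv.comp (measurable_shift _)) (measurableSet_Bad hF hD)

lemma NLu_null (hW : IsWiener W) {a : ℝ≥0} (ha : a ≠ 0) {f : E → ℝ≥0∞} (hf : SMed W a f)
    (hl : LowerSemicontinuous f) (x : E) : ∀ᵐ p ∂W, tr x p ∉ NLu f := by
  have hprob := hW.prob
  have key : ∀ (r r' : ℚ) (n : ℕ), (Real.toNNReal r : ℝ≥0∞) < Real.toNNReal r' →
      0 < TopologicalSpace.denseSeq ℝ≥0 n →
      ∀ᵐ p ∂W, rv (shift (TopologicalSpace.denseSeq ℝ≥0 n) (tr x p)) ∉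
        Bad {y | f y ≤ Real.toNNReal r} {y | (Real.toNNReal r' : ℝ≥0∞) < f y} := by
    intro r r' n hr hn
    have hF : IsClosed {y | f y ≤ Real.toNNReal r} := hl.isClosed_preimage _
    have hD : IsOpen {y | (Real.toNNReal r' : ℝ≥0∞) < f y} := hl.isOpen_preimage _
    apply rv_shift_null hF hD _ hW _ hn
    intro y
    have h1 := iSup_crs hW ha hf hF hD hr ENNReal.coe_ne_top (fun y hy => hy)
      (fun y hy => le_of_lt hy) y
    have h2 : {p | tr y p ∈ Bad {y | f y ≤ Real.toNNReal r}
        {y | (Real.toNNReal r' : ℝ≥0∞) < f y}} ⊆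
        {p | ¬ ⨆ j, crs {y | f y ≤ Real.toNNReal r}
          {y | (Real.toNNReal r' : ℝ≥0∞) < f y} j (tr y p) = ∞} := by
      intro p hp hcon
      have : ⨆ j, crs {y | f y ≤ Real.toNNReal r}
          {y | (Real.toNNReal r' : ℝ≥0∞) < f y} j (tr y p) ≤ 1 := iSup_le fun j => (hp j).le
      rw [hcon] at this
      exact absurd this (by simp)
    exact measure_mono_null h2 (ae_iff.1 h1)
  have hall : ∀ᵐ p ∂W, ∀ (r r' : ℚ) (n : ℕ), (Real.toNNReal r : ℝ≥0∞) < Real.toNNReal r' →
      0 < TopologicalSpace.denseSeq ℝ≥0 n →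
      rv (shift (TopologicalSpace.denseSeq ℝ≥0 n) (tr x p)) ∉
        Bad {y | f y ≤ Real.toNNReal r} {y | (Real.toNNReal r' : ℝ≥0∞) < f y} := by
    rw [ae_all_iff]; intro r
    rw [ae_all_iff]; intro r'
    rw [ae_all_iff]; intro n
    by_cases h1 : (Real.toNNReal r : ℝ≥0∞) < Real.toNNReal r'
    · by_cases h2 : 0 < TopologicalSpace.denseSeq ℝ≥0 n
      · filter_upwards [key r r' n h1 h2] with p hp _ _ using hp
      · exact Eventually.of_forall fun p _ h => absurd h h2
    · exact Eventually.of_forall fun p h => absurd h h1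
  filter_upwards [hall] with p hp hcon
  simp only [NLu, mem_iUnion] at hcon
  obtain ⟨r, r', n, h1, h2⟩ := hcon
  exact hp r r' n h1.1 h1.2 h2

lemma lu_of_notMem {f : E → ℝ≥0∞} {p : Pth E} (h : p ∉ NLu f) : Lu f p := by
  have hp : ∀ (r r' : ℚ) (n : ℕ), (Real.toNNReal r : ℝ≥0∞) < Real.toNNReal r' →
      0 < TopologicalSpace.denseSeq ℝ≥0 n →
      rv (shift (TopologicalSpace.denseSeq ℝ≥0 n) p) ∉
        Bad {y | f y ≤ Real.toNNReal r} {y | (Real.toNNReal r' : ℝ≥0∞) < f y} := by
    intro r r' n h1 h2 h3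
    apply h
    simp only [NLu, mem_iUnion]
    exact ⟨r, r', n, ⟨h1, h2⟩, h3⟩
  intro u hu q q' hq hle
  obtain ⟨r, _, hr1, hr2⟩ := ENNReal.lt_iff_exists_rat_btwn.1 hq
  obtain ⟨r', _, hr'1, hr'2⟩ := ENNReal.lt_iff_exists_rat_btwn.1 hr2
  have hO : IsOpen {s : ℝ≥0 | 0 < s ∧ s < u ∧ u < s + 1} :=
    (isOpen_lt continuous_const continuous_id).inter
      ((isOpen_lt continuous_id continuous_const).inter
        (isOpen_lt continuous_const (by fun_prop)))
  have hne : {s : ℝ≥0 | 0 < s ∧ s < u ∧ u < s + 1}.Nonempty := by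
    obtain ⟨s, hs1, hs2⟩ := exists_between (show max 0 (u - 1) < u by
      rw [max_eq_right zero_le]
      exact tsub_lt_self hu one_pos)
    refine ⟨s, (le_max_left _ _).trans_lt hs1, hs2, ?_⟩
    exact lt_add_of_tsub_lt_right ((le_max_right _ _).trans_lt hs1)
  obtain ⟨n, hn1, hn2, hn3⟩ := exists_dense_time hO hne
  have h1 := hp r r' n hr'1 hn1
  have h2 := lusc_of_rv hn2 hn3.le h1 (show f (p.1 u) ≤ Real.toNNReal r from
    hle.trans hr1.le)
  filter_upwards [h2] with s hs
  have h3 : ¬ ((Real.toNNReal r' : ℝ≥0∞) < f (p.1 s)) := hs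
  exact (not_lt.1 h3).trans hr'2.le

theorem lusc (hW : IsWiener W) {a : ℝ≥0} (ha : a ≠ 0) {f : E → ℝ≥0∞} (hf : SMed W a f)
    (hl : LowerSemicontinuous f) (x : E) : ∀ᵐ p ∂W, Lu f (tr x p) := by
  filter_upwards [NLu_null hW ha hf hl x] with p hp
  exact lu_of_notMem hp

end Pool.Agent.Lib.P07dee5
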