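import Mathlib
import Pool.Agent.Lib.P07dee5.Lusc

/-! # Nests: exhaustion by closed sets, exit times -/

open MeasureTheory Set Filter Topology ProbabilityTheory Module
open scoped ENNReal NNReal

set_option linter.unusedSectionVars false
set_option linter.unusedVariables false
set_option linter.unusedTactic false

namespace Pool.Agent.Lib.P07dee5

variable {E : Type*} [NormedAddCommGroup E] [InnerProductSpace ℝ E] [FiniteDimensional ℝ E]
  [MeasurableSpace E] [BorelSpace E] {W : Measure (Pth E)}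

/-- nests: decreasing sequences of open sets (complements of closed sets) such that the motion
started in the complement of `D k` stays for a positive time in the complement of `D (k+1)` -/
structure Nest (W : Measure (Pth E)) (D : ℕ → Set E) : Prop where
  isOpen : ∀ k, IsOpen (D k)
  anti : Antitone D
  reg : ∀ k, ∀ x ∉ D k, ∀ᵐ p ∂W, 0 < hitO (D (k + 1)) (tr x p)

/-- the union of the complements -/
def Vs (D : ℕ → Set E) : Set E := {x | ∃ k, x ∉ D k}

/-- limit of the hitting times -/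
noncomputable def TT (D : ℕ → Set E) (p : Pth E) : ℝ≥0∞ := ⨆ k, hitO (D k) p

lemma isOpt_TT {D : ℕ → Set E} (hD : ∀ k, IsOpen (D k)) : IsOpt (TT D) where
  meas := Measurable.iSup fun k => measurable_hitO (hD k)
  gal := by
    intro p q t h hlt
    unfold TT
    congr 1
    funext k
    exact (isOpt_hitO (hD k)).gal p q t h ((le_iSup (fun k => hitO (D k) p) k).trans_lt hlt)

lemma measurable_TT {D : ℕ → Set E} (hD : ∀ k, IsOpen (D k)) : Measurable (TT D) :=
  (isOpt_TT hD).meas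

lemma Nest.TT_pos {D : ℕ → Set E} (h : Nest W D) {x : E} (hx : x ∈ Vs D) :
    ∀ᵐ p ∂W, 0 < TT D (tr x p) := by
  obtain ⟨k, hk⟩ := hx
  filter_upwards [h.reg k x hk] with p hp
  exact hp.trans_le (le_iSup (fun k => hitO (D k) (tr x p)) (k + 1))

lemma mono_hitO {D : ℕ → Set E} (h : Antitone D) (p : Pth E) :
    Monotone (fun k => hitO (D k) p) := fun _ _ hkl => hitO_anti (h hkl) p

lemma TT_eq_of_le_hitO {D : ℕ → Set E} (hD : ∀ k, IsOpen (D k)) (ha : Antitone D) {p : Pth E}
    {s : ℝ≥0} {k : ℕ} (h : (s : ℝ≥0∞) ≤ hitO (D k) p) : TT D p = s + TT D (shift s p) := by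
  have h1 : ∀ q : Pth E, TT D q = ⨆ m, hitO (D (m + k)) q := fun q => by
    have := (mono_hitO ha q).iSup_nat_add k
    exact this.symm
  rw [h1, h1, ENNReal.add_iSup]
  congr 1
  funext m
  apply hitO_shift (hD _)
  exact h.trans (mono_hitO ha p (Nat.le_add_left k m))

lemma TT_shift {D : ℕ → Set E} (hD : ∀ k, IsOpen (D k)) (ha : Antitone D) {p : Pth E}
    {s : ℝ≥0} (h : (s : ℝ≥0∞) < TT D p) : TT D p = s + TT D (shift s p) := by
  obtain ⟨k, hk⟩ := lt_iSup_iff.1 h
  exact TT_eq_of_le_hitO hD ha hk.le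

lemma mem_Vs_of_lt {D : ℕ → Set E} {p : Pth E} {s : ℝ≥0} (hs : 0 < s)
    (h : (s : ℝ≥0∞) < TT D p) : p.1 s ∈ Vs D := by
  obtain ⟨k, hk⟩ := lt_iSup_iff.1 h
  exact ⟨k, notMem_of_lt_hitO hs hk⟩

/-- the function `u + TT (shift u p)` is nondecreasing -/
lemma mono_add_TT {D : ℕ → Set E} (hD : ∀ k, IsOpen (D k)) (ha : Antitone D) {p : Pth E}
    {u v : ℝ≥0} (h : u ≤ v) : u + TT D (shift u p) ≤ v + TT D (shift v p) := by
  by_cases h1 : ((v - u : ℝ≥0) : ℝ≥0∞) < TT D (shift u p)
  · rw [TT_shift hD ha h1]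
    have : shift (v - u) (shift u p) = shift v p := by
      apply pth_ext
      intro t
      simp only [shift_apply]
      congr 1
      rw [← add_assoc, add_tsub_cancel_of_le h]
    rw [this, ← add_assoc, ← ENNReal.coe_add, add_tsub_cancel_of_le h]
  · calc (u : ℝ≥0∞) + TT D (shift u p) ≤ u + ((v - u : ℝ≥0) : ℝ≥0∞) := by
          gcongr; exact not_lt.1 h1
      _ = v := by rw [← ENNReal.coe_add, add_tsub_cancel_of_le h]
      _ ≤ _ := le_self_add

/-- exit time from the union, looking at strictly positive times only -/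
noncomputable def T' (D : ℕ → Set E) (p : Pth E) : ℝ≥0∞ :=
  ⨅ (u : ℝ≥0) (_ : 0 < u), (u + TT D (shift u p) : ℝ≥0∞)

lemma T'_le {D : ℕ → Set E} {p : Pth E} {u : ℝ≥0} (hu : 0 < u) :
    T' D p ≤ u + TT D (shift u p) := iInf₂_le u hu

lemma T'_eq_TT {D : ℕ → Set E} (hD : ∀ k, IsOpen (D k)) (ha : Antitone D) {p : Pth E}
    (h : 0 < TT D p) : T' D p = TT D p := by
  apply le_antisymm
  · obtain ⟨u, hu0, hu⟩ : ∃ u : ℝ≥0, 0 < u ∧ (u : ℝ≥0∞) < TT D p := by
      obtain ⟨u, h1, h2⟩ := ENNReal.lt_iff_exists_nnreal_btwn.1 h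
      exact ⟨u, by exact_mod_cast h1, h2⟩
    rw [TT_shift hD ha hu]
    exact T'_le hu0
  · apply le_iInf₂
    intro u _
    have := mono_add_TT hD ha (p := p) (u := 0) (v := u) zero_le
    have h0 : shift 0 p = p := by apply pth_ext; intro t; simp
    rwa [h0, ENNReal.coe_zero, zero_add] at this

lemma T'_seq {D : ℕ → Set E} (hD : ∀ k, IsOpen (D k)) (ha : Antitone D) (p : Pth E) :
    T' D p = ⨅ n : ℕ, (((1 / (n + 1) : ℝ≥0) : ℝ≥0∞) + TT D (shift (1 / (n + 1)) p)) := by
  apply le_antisymm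
  · exact le_iInf fun n => T'_le (by positivity)
  · apply le_iInf₂
    intro u hu
    obtain ⟨n, hn⟩ := exists_nat_one_div_lt (K := ℝ) (show (0:ℝ) < u by exact_mod_cast hu)
    refine (iInf_le _ n).trans (mono_add_TT hD ha ?_)
    have : (1 / ((n : ℝ≥0) + 1) : ℝ≥0) < u := by
      rw [← NNReal.coe_lt_coe]; push_cast; exact hn
    exact this.le

lemma measurable_T' {D : ℕ → Set E} (hD : ∀ k, IsOpen (D k)) (ha : Antitone D) :
    Measurable (T' D) := by
  have : T' D = fun p => ⨅ n : ℕ, (((1 / (n + 1) : ℝ≥0) : ℝ≥0∞) +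
      TT D (shift (1 / (n + 1)) p)) := funext (T'_seq hD ha)
  rw [this]
  exact Measurable.iInf fun n => ((measurable_TT hD).comp (measurable_shift _)).const_add _

lemma mem_Vs_of_lt_T' {D : ℕ → Set E} {p : Pth E} {s : ℝ≥0} (hs : 0 < s)
    (h : (s : ℝ≥0∞) < T' D p) : p.1 s ∈ Vs D := by
  obtain ⟨u, hu0, hus⟩ := exists_between hs
  have h1 : (s : ℝ≥0∞) < u + TT D (shift u p) := h.trans_le (T'_le hu0)
  have h2 := sub_lt_of hus.le h1
  have h3 := mem_Vs_of_lt (tsub_pos_of_lt hus) h2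
  rwa [shift_apply, add_tsub_cancel_of_le hus.le] at h3

lemma shift_shift (s t : ℝ≥0) (p : Pth E) : shift t (shift s p) = shift (s + t) p := by
  apply pth_ext; intro u; simp [add_assoc]

lemma add_T'_shift {D : ℕ → Set E} (t : ℝ≥0) (p : Pth E) :
    t + T' D (shift t p) = ⨅ (u : ℝ≥0) (_ : 0 < u), (((t + u : ℝ≥0) : ℝ≥0∞) +
      TT D (shift (t + u) p)) := by
  unfold T'
  rw [ENNReal.add_iInf]
  congr 1
  funext u
  by_cases hu : 0 < u
  · simp only [hu, iInf_pos, shift_shift, ENNReal.coe_add, add_assoc]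
  · simp [hu]

lemma le_add_T'_shift {D : ℕ → Set E} (t : ℝ≥0) (p : Pth E) :
    T' D p ≤ t + T' D (shift t p) := by
  rw [add_T'_shift]
  apply le_iInf₂
  intro u hu
  exact T'_le (by positivity)

lemma add_T'_shift_le {D : ℕ → Set E} (hD : ∀ k, IsOpen (D k)) (ha : Antitone D) {t v : ℝ≥0}
    (h : t < v) (p : Pth E) : t + T' D (shift t p) ≤ v + TT D (shift v p) := by
  rw [add_T'_shift]
  have h1 := iInf₂_le (f := fun (u : ℝ≥0) (_ : 0 < u) => (((t + u : ℝ≥0) : ℝ≥0∞) +
      TT D (shift (t + u) p))) (v - t) (tsub_pos_of_lt h)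
  simpa [add_tsub_cancel_of_le h.le] using h1

lemma T'_shift {D : ℕ → Set E} (hD : ∀ k, IsOpen (D k)) (ha : Antitone D) {p : Pth E} {t : ℝ≥0}
    (h : (t : ℝ≥0∞) < T' D p) : T' D p = t + T' D (shift t p) := by
  apply le_antisymm (le_add_T'_shift t p)
  apply le_iInf₂
  intro u hu
  rcases lt_or_ge t u with h1 | h1
  · exact add_T'_shift_le hD ha h1 p
  · -- `u ≤ t < T'`
    have h2 : (t : ℝ≥0∞) < u + TT D (shift u p) := h.trans_le (T'_le hu)
    have h3 := sub_lt_of h1 h2
    have h4 := TT_shift hD ha h3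
    rw [shift_shift, add_tsub_cancel_of_le h1] at h4
    rw [h4, ← add_assoc, ← ENNReal.coe_add, add_tsub_cancel_of_le h1]
    gcongr
    -- `T' (shift t p) ≤ TT (shift t p)`
    by_cases h5 : 0 < TT D (shift t p)
    · rw [T'_eq_TT hD ha h5]
    · exfalso
      have h6 : TT D (shift t p) = 0 := le_antisymm (not_lt.1 h5) zero_le
      rw [h6, add_zero] at h4
      rw [h4] at h3
      exact lt_irrefl _ h3

lemma tendsto_add_T' {D : ℕ → Set E} (hD : ∀ k, IsOpen (D k)) (ha : Antitone D) (p : Pth E) :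
    ⨅ n : ℕ, (((1 / (n + 1) : ℝ≥0) : ℝ≥0∞) + T' D (shift (1 / (n + 1)) p)) = T' D p := by
  apply le_antisymm
  · apply le_iInf₂
    intro u hu
    obtain ⟨n, hn⟩ := exists_nat_one_div_lt (K := ℝ) (show (0:ℝ) < u by exact_mod_cast hu)
    refine (iInf_le _ n).trans (add_T'_shift_le hD ha ?_ p)
    rw [← NNReal.coe_lt_coe]; push_cast; exact hn
  · exact le_iInf fun n => le_add_T'_shift _ p

/-! ### the functions `e_a` -/

/-- expected discount at the exit time -/
noncomputable def ea (W : Measure (Pth E)) (D : ℕ → Set E) (a : ℝ≥0) : E → ℝ≥0∞ :=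
  Ex W (fun p => dsc a (T' D p))

lemma measurable_dscT' {D : ℕ → Set E} (hD : ∀ k, IsOpen (D k)) (ha : Antitone D) (a : ℝ≥0) :
    Measurable (fun p => dsc a (T' D p)) := (dsc_measurable a).comp (measurable_T' hD ha)

lemma ea_le_one (hW : IsWiener W) (D : ℕ → Set E) (a : ℝ≥0) (x : E) : ea W D a x ≤ 1 :=
  (Ex_mono (fun p => dsc_le_one a _) x).trans (Ex_const hW 1 x).le

lemma dsc_mul_ea (hW : IsWiener W) {D : ℕ → Set E} (hD : ∀ k, IsOpen (D k)) (ha : Antitone D)
    (a t : ℝ≥0) (x : E) : dsc a t * Ex W (fun p => ea W D a (p.1 t)) x =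
      Ex W (fun p => dsc a (t + T' D (shift t p))) x := by
  have h1 := markov hW t (G := fun _ => dsc a t) measurable_const (measurable_dscT' hD ha a) x
  have h2 : Measurable (fun p : Pth E => ea W D a (p.1 t)) :=
    (measurable_Ex hW (measurable_dscT' hD ha a)).comp (measurable_eval t)
  rw [← Ex_const_mul _ h2]
  refine h1.symm.trans ?_
  congr 1
  funext p
  rw [dsc_add]

lemma sMed_ea (hW : IsWiener W) {D : ℕ → Set E} (hD : ∀ k, IsOpen (D k)) (ha : Antitone D)
    (a : ℝ≥0) : SMed W a (ea W D a) where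
  meas := measurable_Ex hW (measurable_dscT' hD ha a)
  sup := by
    intro t x
    rw [dsc_mul_ea hW hD ha]
    exact Ex_mono (fun p => dsc_anti a (le_add_T'_shift t p)) x

lemma ea_eq_iSup (hW : IsWiener W) {D : ℕ → Set E} (hD : ∀ k, IsOpen (D k)) (ha : Antitone D)
    (a : ℝ≥0) (x : E) : ea W D a x = ⨆ n : ℕ, dsc a ((1 / (n + 1) : ℝ≥0) : ℝ≥0∞) *
      Ex W (fun p => ea W D a (p.1 (1 / (n + 1)))) x := by
  simp_rw [dsc_mul_ea hW hD ha]
  have hmono : Antitone (fun n : ℕ => (1 / (n + 1) : ℝ≥0)) := by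
    intro m n hmn
    dsimp only
    gcongr
  have hanti : ∀ p : Pth E, Antitone (fun n : ℕ => (((1 / (n + 1) : ℝ≥0) : ℝ≥0∞) +
      T' D (shift (1 / (n + 1)) p))) := by
    intro p m n hmn
    rcases (hmono hmn).lt_or_eq with h | h
    · -- strictly smaller time
      refine (add_T'_shift (D := D) _ p).le.trans ?_
      refine le_trans ?_ (add_T'_shift (D := D) _ p).ge
      apply le_iInf₂
      intro u hu
      have hlt : (1 / (n + 1) : ℝ≥0) < 1 / (m + 1) + u := h.trans_le le_self_add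
      have := add_T'_shift_le hD ha hlt p
      rwa [add_T'_shift] at this
    · simp only [h]; exact le_rfl
  have h1 : ∀ p : Pth E, dsc a (T' D p) = ⨆ n : ℕ, dsc a (((1 / (n + 1) : ℝ≥0) : ℝ≥0∞) +
      T' D (shift (1 / (n + 1)) p)) := by
    intro p
    rw [← tendsto_add_T' hD ha p]
    have hlim := tendsto_atTop_iInf (hanti p)
    have hlim2 := ((dsc_continuous a).tendsto _).comp hlim
    have hmono2 : Monotone (fun n : ℕ => dsc a (((1 / (n + 1) : ℝ≥0) : ℝ≥0∞) +
      T' D (shift (1 / (n + 1)) p))) := fun m n hmn => dsc_anti a (hanti p hmn)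
    exact tendsto_nhds_unique hlim2 (tendsto_atTop_iSup hmono2)
  have hm : ∀ n : ℕ, Measurable (fun p : Pth E => dsc a (((1 / (n + 1) : ℝ≥0) : ℝ≥0∞) +
      T' D (shift (1 / (n + 1)) p))) := fun n =>
    (dsc_measurable a).comp (((measurable_T' hD ha).comp (measurable_shift _)).const_add _)
  unfold ea Ex
  simp_rw [h1]
  exact lintegral_iSup (fun n => (hm n).comp (measurable_tr x))
    (fun m n hmn p => dsc_anti a (hanti (tr x p) hmn))

/-- transition kernels map functions to lower semicontinuous functions -/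
lemma lsc_eval (hW : IsWiener W) {t : ℝ≥0} (ht : 0 < t) {f : E → ℝ≥0∞} (hf : Measurable f) :
    LowerSemicontinuous (Ex W (fun p => f (p.1 t))) := by
  rw [lowerSemicontinuous_iff_isClosed_preimage]
  intro c
  apply IsSeqClosed.isClosed
  intro u x hu hx
  show Ex W (fun p => f (p.1 t)) x ≤ c
  rw [Ex_eval hW ht hf]
  have h1 : ∀ y, ENNReal.ofReal (gk t (y - x)) * f y =
      liminf (fun n => ENNReal.ofReal (gk t (y - u n)) * f y) atTop := by
    intro y
    have hlim : Tendsto (fun n => ENNReal.ofReal (gk t (y - u n)) * f y) atTop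
        (𝓝 (ENNReal.ofReal (gk t (y - x)) * f y)) := by
      apply ENNReal.Tendsto.mul_const
      · apply ENNReal.tendsto_ofReal
        exact ((continuous_gk t).tendsto _).comp (tendsto_const_nhds.sub hx)
      · left
        have := gk_pos (by exact_mod_cast ht : (0:ℝ) < t) (y - x)
        positivity
    exact hlim.liminf_eq.symm
  simp_rw [h1]
  refine (lintegral_liminf_le fun n => ?_).trans ?_
  · apply Measurable.mul _ hf
    exact ((continuous_gk _).measurable.comp (measurable_id.sub_const _)).ennreal_ofReal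
  · apply liminf_le_of_le (by isBoundedDefault)
    intro b hb
    obtain ⟨m, hm⟩ := hb.exists
    refine hm.trans ?_
    rw [← Ex_eval hW ht hf]
    exact hu m

lemma lsc_ea (hW : IsWiener W) {D : ℕ → Set E} (hD : ∀ k, IsOpen (D k)) (ha : Antitone D)
    (a : ℝ≥0) : LowerSemicontinuous (ea W D a) := by
  have : ea W D a = fun x => ⨆ n : ℕ, dsc a ((1 / (n + 1) : ℝ≥0) : ℝ≥0∞) *
      Ex W (fun p => ea W D a (p.1 (1 / (n + 1)))) x := funext (ea_eq_iSup hW hD ha a)
  rw [this]
  apply lowerSemicontinuous_iSup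
  intro n
  have h1 := lsc_eval hW (t := 1 / (n + 1)) (by positivity) (sMed_ea hW hD ha a).meas
  intro x c hc
  have hcont : Continuous (fun y : ℝ≥0∞ => dsc a ((1 / (n + 1) : ℝ≥0) : ℝ≥0∞) * y) :=
    ENNReal.continuous_const_mul (dsc_ne_top a _)
  have hmono : Monotone (fun y : ℝ≥0∞ => dsc a ((1 / (n + 1) : ℝ≥0) : ℝ≥0∞) * y) :=
    fun y z h => by dsimp only; gcongr
  exact (hcont.comp_lowerSemicontinuous h1 hmono) x c hc

end Pool.Agent.Lib.P07dee5
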