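import Mathlib
import Pool.Agent.Lib.P07dee5.Nest

/-! # Identification of the exit time -/

open MeasureTheory Set Filter Topology ProbabilityTheory Module
open scoped ENNReal NNReal

set_option linter.unusedSectionVars false
set_option linter.unusedVariables false

namespace Pool.Agent.Lib.P07dee5

variable {E : Type*} [NormedAddCommGroup E] [InnerProductSpace ℝ E] [FiniteDimensional ℝ E]
  [MeasurableSpace E] [BorelSpace E] {W : Measure (Pth E)}

lemma hitO_eval_notMem {D : Set E} (hD : IsOpen D) {p : Pth E} (h0 : 0 < hitO D p)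
    (h : hitO D p ≠ ∞) : p.1 (hitO D p).toNNReal ∉ D := by
  intro hcon
  have hpos : 0 < (hitO D p).toNNReal := ENNReal.toNNReal_pos h0.ne' h
  have hO : {s : ℝ≥0 | p.1 s ∈ D} ∈ 𝓝 (hitO D p).toNNReal := (hD.preimage p.2).mem_nhds hcon
  have : (𝓝[<] (hitO D p).toNNReal).NeBot := nhdsLT_neBot_of_exists_lt ⟨0, hpos⟩
  have h1 : ∀ᶠ s in 𝓝[<] (hitO D p).toNNReal, p.1 s ∈ D := nhdsWithin_le_nhds hO
  have h2 : ∀ᶠ s in 𝓝[<] (hitO D p).toNNReal, 0 < s :=
    nhdsWithin_le_nhds (eventually_gt_nhds hpos)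
  obtain ⟨s, hs1, hs2, hs3⟩ := (h1.and (h2.and self_mem_nhdsWithin)).exists
  have h3 := hitO_le hs2 hs1
  rw [← ENNReal.coe_toNNReal h, ENNReal.coe_le_coe] at h3
  exact absurd hs3 (not_lt.2 h3)

open Classical in
lemma isPre_eval {T : Pth E → ℝ≥0∞} (hT : IsOpt T) {g : E → ℝ≥0∞} (hg : Measurable g) :
    IsPre T (fun p => if T p = ∞ then 0 else g (p.1 (T p).toNNReal)) where
  meas := Measurable.ite (hT.meas (measurableSet_singleton ∞)) measurable_const
    (hg.comp (Measurable.eval hT.meas.ennreal_toNNReal measurable_id))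
  gal := by
    intro p q t h hlt
    have h1 := hT.gal p q t h hlt
    have hne : T p ≠ ∞ := ne_top_of_lt hlt
    have h2 : (T p).toNNReal ≤ t := by
      rw [← ENNReal.coe_le_coe, ENNReal.coe_toNNReal hne]; exact hlt.le
    simp only [h1]
    rw [h _ h2]
  top := fun p hp => by simp [hp]

/-- the strong Markov property for almost sure statements -/
lemma ae_after (hW : IsWiener W) {T : Pth E → ℝ≥0∞} (hT : IsOpt T) {A : Set E}
    (hA : MeasurableSet A) {N : Set (Pth E)} (hN : MeasurableSet N)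
    (h : ∀ y ∈ A, ∀ᵐ p ∂W, tr y p ∉ N) (x : E) :
    ∀ᵐ p ∂W, T (tr x p) ≠ ∞ → (tr x p).1 (T (tr x p)).toNNReal ∈ A →
      shift (T (tr x p)).toNNReal (tr x p) ∉ N := by
  classical
  have hΓ := isPre_eval hT (g := A.indicator 1) (measurable_one.indicator hA)
  have hF : Measurable (N.indicator (1 : Pth E → ℝ≥0∞)) := measurable_one.indicator hN
  have h1 := strong_markov hW hT hΓ hF x
  have h2 : Ex W (fun p => (if T p = ∞ then 0 else A.indicator (1 : E → ℝ≥0∞)
      (p.1 (T p).toNNReal)) * Ex W (N.indicator 1) (p.1 (T p).toNNReal)) x = 0 := by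
    have : (fun p => (if T p = ∞ then 0 else A.indicator (1 : E → ℝ≥0∞)
      (p.1 (T p).toNNReal)) * Ex W (N.indicator 1) (p.1 (T p).toNNReal)) = fun _ => 0 := by
      funext p
      by_cases hp : T p = ∞
      · simp [hp]
      · by_cases hpA : p.1 (T p).toNNReal ∈ A
        · have h3 : Ex W (N.indicator 1) (p.1 (T p).toNNReal) = 0 := by
            refine (lintegral_eq_zero_iff (hF.comp (measurable_tr _))).2 ?_
            filter_upwards [h _ hpA] with r hr
            simp [hr]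
          rw [h3, mul_zero]
        · simp [hp, hpA]
    rw [this]
    simp [Ex]
  rw [h2] at h1
  have hm : Measurable (fun p => (fun p => (if T p = ∞ then 0 else A.indicator (1 : E → ℝ≥0∞)
      (p.1 (T p).toNNReal)) * N.indicator 1 (shift (T p).toNNReal p)) (tr x p)) := by
    apply Measurable.comp (g := fun p => (if T p = ∞ then 0 else A.indicator (1 : E → ℝ≥0∞)
      (p.1 (T p).toNNReal)) * N.indicator 1 (shift (T p).toNNReal p)) _ (measurable_tr x)
    exact hΓ.meas.mul (hF.comp (measurable_shift2.comp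
      (hT.meas.ennreal_toNNReal.prodMk measurable_id)))
  have h3 := (lintegral_eq_zero_iff hm).1 h1
  filter_upwards [h3] with p hp hne hpA hcon
  simp [hne, hcon] at hp
  exact hp hpA

lemma step_pos (hW : IsWiener W) {D : ℕ → Set E} (hN : Nest W D) (k : ℕ) (x : E) :
    ∀ᵐ p ∂W, 0 < hitO (D k) (tr x p) → hitO (D k) (tr x p) ≠ ∞ →
      hitO (D k) (tr x p) < hitO (D (k + 1)) (tr x p) := by
  have h1 := ae_after hW (isOpt_hitO (hN.isOpen k)) (A := (D k)ᶜ)
    (hN.isOpen k).measurableSet.compl (N := {p | hitO (D (k + 1)) p = 0})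
    (measurable_hitO (hN.isOpen (k + 1)) (measurableSet_singleton 0)) (by
      intro y hy
      filter_upwards [hN.reg k y hy] with p hp
      exact hp.ne') x
  filter_upwards [h1] with p hp h0 hne
  have h2 := hp hne (hitO_eval_notMem (hN.isOpen k) h0 hne)
  have h3 : hitO (D (k + 1)) (shift (hitO (D k) (tr x p)).toNNReal (tr x p)) ≠ 0 := h2
  have h4 : hitO (D k) (tr x p) ≤ hitO (D (k + 1)) (tr x p) :=
    hitO_anti (hN.anti (Nat.le_succ k)) _
  have h5 := hitO_shift (hN.isOpen (k + 1)) (p := tr x p) (s := (hitO (D k) (tr x p)).toNNReal)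
    (by rw [ENNReal.coe_toNNReal hne]; exact h4)
  rw [h5, ENNReal.coe_toNNReal hne]
  exact ENNReal.lt_add_right hne h3

lemma lt_TT (hW : IsWiener W) {D : ℕ → Set E} (hN : Nest W D) (x : E) :
    ∀ᵐ p ∂W, ∀ k, 0 < hitO (D k) (tr x p) → hitO (D k) (tr x p) ≠ ∞ →
      hitO (D k) (tr x p) < TT D (tr x p) := by
  have : ∀ᵐ p ∂W, ∀ k, 0 < hitO (D k) (tr x p) → hitO (D k) (tr x p) ≠ ∞ →
      hitO (D k) (tr x p) < hitO (D (k + 1)) (tr x p) :=
    ae_all_iff.2 fun k => step_pos hW hN k x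
  filter_upwards [this] with p hp k h0 h1
  exact (hp k h0 h1).trans_le (le_iSup (fun k => hitO (D k) (tr x p)) (k + 1))

lemma tendsto_hitO {D : ℕ → Set E} (ha : Antitone D) (p : Pth E) :
    Tendsto (fun k => hitO (D k) p) atTop (𝓝 (TT D p)) := tendsto_atTop_iSup (mono_hitO ha p)

theorem ea_exit (hW : IsWiener W) {D : ℕ → Set E} (hN : Nest W D) {x : E} (hx : x ∈ Vs D) :
    ∀ᵐ p ∂W, TT D (tr x p) ≠ ∞ →
      ea W D 1 ((tr x p).1 (TT D (tr x p)).toNNReal) = 1 := by
  classical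
  have hprob := hW.prob
  obtain ⟨k0, hk0⟩ := hx
  have hD := hN.isOpen
  have ha := hN.anti
  set e := ea W D 1 with he
  have hem : Measurable e := measurable_Ex hW (measurable_dscT' hD ha 1)
  have hpos := hN.reg k0 x hk0
  have hlt := lt_TT hW hN x
  set K : ℕ → ℕ := fun k => k + (k0 + 1) with hK
  have hposK : ∀ᵐ p ∂W, ∀ k, 0 < hitO (D (K k)) (tr x p) := by
    filter_upwards [hpos] with p hp k
    exact hp.trans_le (mono_hitO ha _ (Nat.le_add_left _ _))
  -- the two sequences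
  set Y : ℕ → Pth E → ℝ≥0∞ := fun k p => dsc 1 (hitO (D (K k)) (tr x p)) with hY
  set X : ℕ → Pth E → ℝ≥0∞ := fun k p => dsc 1 (hitO (D (K k)) (tr x p)) *
    e ((tr x p).1 (hitO (D (K k)) (tr x p)).toNNReal) with hX
  have hYm : ∀ k, Measurable (Y k) := fun k =>
    (dsc_measurable 1).comp ((measurable_hitO (hD _)).comp (measurable_tr x))
  have hXm : ∀ k, Measurable (X k) := fun k =>
    (hYm k).mul (hem.comp (Measurable.eval
      ((measurable_hitO (hD _)).comp (measurable_tr x)).ennreal_toNNReal (measurable_tr x)))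
  have hXY : ∀ k p, X k p ≤ Y k p := by
    intro k p
    calc X k p ≤ Y k p * 1 := by
          simp only [hX, hY]
          gcongr
          exact ea_le_one hW D 1 _
      _ = Y k p := mul_one _
  have hXint : ∀ k, ∫⁻ p, X k p ∂W = ∫⁻ p, dsc 1 (TT D (tr x p)) ∂W := by
    intro k
    have h1 := strong_markov hW (isOpt_hitO (hD (K k))) (isPre_dsc (isOpt_hitO (hD (K k)))
      one_ne_zero) (measurable_dscT' hD ha 1) x
    refine h1.symm.trans ?_
    unfold Ex
    apply lintegral_congr_ae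
    filter_upwards [hposK, hlt] with p hp1 hp2
    by_cases h : hitO (D (K k)) (tr x p) = ∞
    · have h2 : TT D (tr x p) = ∞ := by
        rw [eq_top_iff, ← h]
        exact le_iSup (fun k => hitO (D k) (tr x p)) (K k)
      rw [h, h2, dsc_top one_ne_zero, zero_mul]
    · have h2 := hp2 (K k) (hp1 k) h
      have h3 : ((hitO (D (K k)) (tr x p)).toNNReal : ℝ≥0∞) = hitO (D (K k)) (tr x p) :=
        ENNReal.coe_toNNReal h
      have h4 := TT_shift hD ha (p := tr x p) (s := (hitO (D (K k)) (tr x p)).toNNReal)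
        (by rw [h3]; exact h2)
      have h5 : 0 < TT D (shift (hitO (D (K k)) (tr x p)).toNNReal (tr x p)) := by
        by_contra hcon
        rw [le_antisymm (not_lt.1 hcon) zero_le, add_zero, h3] at h4
        rw [h4] at h2
        exact lt_irrefl _ h2
      rw [T'_eq_TT hD ha h5, ← dsc_add, h4, h3]
  have hYlim : Tendsto (fun k => ∫⁻ p, Y k p ∂W) atTop
      (𝓝 (∫⁻ p, dsc 1 (TT D (tr x p)) ∂W)) := by
    apply tendsto_lintegral_of_dominated_convergence (bound := fun _ => 1)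
    · exact hYm
    · intro k; exact Eventually.of_forall fun p => dsc_le_one _ _
    · simp
    · apply Eventually.of_forall
      intro p
      apply ((dsc_continuous 1).tendsto _).comp
      exact (tendsto_hitO ha (tr x p)).comp (tendsto_add_atTop_nat (k0 + 1))
  have hfin : ∫⁻ p, dsc 1 (TT D (tr x p)) ∂W ≠ ∞ := by
    apply ne_top_of_le_ne_top (b := 1) (by simp)
    calc _ ≤ ∫⁻ p, 1 ∂W := lintegral_mono fun p => dsc_le_one _ _
      _ = 1 := by simp
  have hdiff : Tendsto (fun k => ∫⁻ p, (Y k p - X k p) ∂W) atTop (𝓝 0) := by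
    have h1 : ∀ k, ∫⁻ p, (Y k p - X k p) ∂W = ∫⁻ p, Y k p ∂W -
        ∫⁻ p, dsc 1 (TT D (tr x p)) ∂W := by
      intro k
      rw [← hXint k]
      apply lintegral_sub (hXm k) _ (Eventually.of_forall (hXY k))
      rw [hXint k]; exact hfin
    simp_rw [h1]
    have h2 := ENNReal.Tendsto.sub hYlim (tendsto_const_nhds
      (x := ∫⁻ p, dsc 1 (TT D (tr x p)) ∂W)) (Or.inl hfin)
    rwa [tsub_self] at h2
  have hliminf : ∀ᵐ p ∂W, liminf (fun k => Y k p - X k p) atTop = 0 := by
    have hm : Measurable (fun p => liminf (fun k => Y k p - X k p) atTop) :=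
      Measurable.liminf fun k => (hYm k).sub (hXm k)
    have h1 : ∫⁻ p, liminf (fun k => Y k p - X k p) atTop ∂W = 0 := by
      apply le_antisymm _ zero_le
      calc _ ≤ liminf (fun k => ∫⁻ p, (Y k p - X k p) ∂W) atTop :=
            lintegral_liminf_le fun k => (hYm k).sub (hXm k)
        _ = 0 := hdiff.liminf_eq
    exact (lintegral_eq_zero_iff hm).1 h1
  filter_upwards [hliminf, hposK, hlt, lusc hW (one_ne_zero) (sMed_ea hW hD ha 1)
    (lsc_ea hW hD ha 1) x] with p hp hp1 hp2 hLu hne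
  by_contra hcon
  have hez : e ((tr x p).1 (TT D (tr x p)).toNNReal) < 1 :=
    lt_of_le_of_ne (ea_le_one hW D 1 _) hcon
  obtain ⟨q', hq1, hq2⟩ := exists_between hez
  set u := (TT D (tr x p)).toNNReal with hu
  have huT : (u : ℝ≥0∞) = TT D (tr x p) := ENNReal.coe_toNNReal hne
  have hne' : ∀ k, hitO (D (K k)) (tr x p) ≠ ∞ := fun k =>
    ne_top_of_le_ne_top hne (le_iSup (fun k => hitO (D k) (tr x p)) (K k))
  have hu0 : 0 < u := by
    rw [← ENNReal.coe_lt_coe, huT]
    exact (hp1 0).trans (hp2 (K 0) (hp1 0) (hne' 0))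
  have hev := hLu u hu0 _ q' hq1 le_rfl
  have htend : Tendsto (fun k => (hitO (D (K k)) (tr x p)).toNNReal) atTop (𝓝[<] u) := by
    apply tendsto_nhdsWithin_iff.2
    constructor
    · have h1 : Tendsto (fun k => hitO (D (K k)) (tr x p)) atTop (𝓝 (TT D (tr x p))) :=
        (tendsto_hitO ha (tr x p)).comp (tendsto_add_atTop_nat (k0 + 1))
      exact (ENNReal.tendsto_toNNReal hne).comp h1
    · apply Eventually.of_forall
      intro k
      show _ < u
      rw [← ENNReal.coe_lt_coe, huT, ENNReal.coe_toNNReal (hne' k)]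
      exact hp2 (K k) (hp1 k) (hne' k)
  have hev2 := htend.eventually hev
  have hlow : dsc 1 (TT D (tr x p)) * (1 - q') ≤ liminf (fun k => Y k p - X k p) atTop := by
    apply le_liminf_of_le (by isBoundedDefault)
    filter_upwards [hev2] with k hk
    calc dsc 1 (TT D (tr x p)) * (1 - q') ≤ Y k p * (1 - q') := by
          gcongr
          exact dsc_anti 1 (le_iSup (fun k => hitO (D k) (tr x p)) (K k))
      _ = Y k p - Y k p * q' := by
          rw [ENNReal.mul_sub (fun _ _ => dsc_ne_top _ _), mul_one]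
      _ ≤ Y k p - X k p := by
          apply tsub_le_tsub_left
          simp only [hX, hY]
          gcongr
  rw [hp] at hlow
  have hposd : 0 < dsc 1 (TT D (tr x p)) := by rw [← huT]; exact dsc_coe_pos 1 u
  have h1 : 0 < dsc 1 (TT D (tr x p)) * (1 - q') :=
    ENNReal.mul_pos hposd.ne' (tsub_pos_of_lt hq2).ne'
  exact absurd (h1.trans_le hlow) (lt_irrefl _)

/-! ### Families of functions and their nests -/

/-- lower semicontinuous functions which are right upper semicontinuous at time `0` -/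
structure FineFn (W : Measure (Pth E)) (f : E → ℝ≥0∞) : Prop where
  lsc : LowerSemicontinuous f
  reg : ∀ (x : E) (q : ℝ≥0∞), f x < q → ∀ᵐ p ∂W, 0 < hitO {y | q < f y} (tr x p)

lemma fineFn_one : FineFn W (fun _ : E => (1 : ℝ≥0∞)) where
  lsc := lowerSemicontinuous_const
  reg := by
    intro x q hq
    apply Eventually.of_forall
    intro p
    have : {y : E | q < 1} = ∅ := by
      ext y; simpa using hq.le
    rw [this]
    simp [hitO]

/-- levels -/
noncomputable def lev (k : ℕ) : ℝ≥0∞ := ((k / (k + 1) : ℝ≥0) : ℝ≥0∞)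

lemma lev_strictMono : StrictMono lev := by
  apply strictMono_nat_of_lt_succ
  intro k
  unfold lev
  rw [ENNReal.coe_lt_coe, div_lt_div_iff₀ (by positivity) (by positivity)]
  push_cast
  rw [← NNReal.coe_lt_coe]
  push_cast
  nlinarith

lemma lev_lt_one (k : ℕ) : lev k < 1 := by
  unfold lev
  rw [← ENNReal.coe_one, ENNReal.coe_lt_coe, div_lt_one (by positivity)]
  exact lt_add_one _

lemma exists_lev {c : ℝ≥0∞} (hc : c < 1) (i : ℕ) : ∃ k, i < k ∧ c ≤ lev k := by
  have h1 : Tendsto (fun k : ℕ => ((k / (k + 1) : ℝ≥0))) atTop (𝓝 1) := by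
    rw [← NNReal.tendsto_coe]
    push_cast
    exact tendsto_natCast_div_add_atTop (1 : ℝ)
  have h2 : Tendsto lev atTop (𝓝 1) := by
    unfold lev
    rw [← ENNReal.coe_one, ENNReal.tendsto_coe]
    exact h1
  have h3 := (h2.eventually (lt_mem_nhds hc)).and (eventually_gt_atTop i)
  obtain ⟨k, hk1, hk2⟩ := h3.exists
  exact ⟨k, hk2, hk1.le⟩

/-- the nest of a family -/
def Dn (f : ℕ → E → ℝ≥0∞) (k : ℕ) : Set E := {y | ∀ i < k, lev k < f i y}

lemma nest_Dn {f : ℕ → E → ℝ≥0∞} (hf : ∀ i, FineFn W (f i)) : Nest W (Dn f) where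
  isOpen := by
    intro k
    have : Dn f k = ⋂ i ∈ Finset.range k, {y | lev k < f i y} := by
      ext y; simp [Dn]
    rw [this]
    exact isOpen_biInter_finset fun i _ => (hf i).lsc.isOpen_preimage _
  anti := by
    intro k m hkm y hy i hi
    exact (lev_strictMono.monotone hkm).trans_lt (hy i (hi.trans_le hkm))
  reg := by
    intro k x hx
    simp only [Dn, Set.mem_ofPred_eq, not_forall, not_lt] at hx
    obtain ⟨i, hi, hix⟩ := hx
    have h1 := (hf i).reg x (lev (k + 1)) (hix.trans_lt (lev_strictMono (Nat.lt_succ_self k)))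
    filter_upwards [h1] with p hp
    refine hp.trans_le (hitO_anti ?_ _)
    intro y hy
    exact hy i (hi.trans (Nat.lt_succ_self k))

lemma mem_Vs_Dn {f : ℕ → E → ℝ≥0∞} {x : E} : x ∈ Vs (Dn f) ↔ ∃ i, f i x < 1 := by
  constructor
  · rintro ⟨k, hk⟩
    simp only [Dn, Set.mem_ofPred_eq, not_forall, not_lt] at hk
    obtain ⟨i, hi, hix⟩ := hk
    exact ⟨i, hix.trans_lt (lev_lt_one k)⟩
  · rintro ⟨i, hi⟩
    obtain ⟨k, hk1, hk2⟩ := exists_lev hi i
    refine ⟨k, fun h => ?_⟩
    exact absurd (h i hk1) (not_lt.2 hk2)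

lemma TT_le_of_sub {f g : ℕ → E → ℝ≥0∞} (h : ∀ i, ∃ j, f i = g j) (p : Pth E) :
    TT (Dn f) p ≤ TT (Dn g) p := by
  apply iSup_le
  intro k
  choose j hj using h
  have hsub : Dn g (k + (Finset.range k).sup (fun i => j i + 1)) ⊆ Dn f k := by
    intro y hy i hi
    rw [hj i]
    have h1 : j i + 1 ≤ (Finset.range k).sup (fun i => j i + 1) :=
      Finset.le_sup (f := fun i => j i + 1) (Finset.mem_range.2 hi)
    exact (lev_strictMono.monotone (Nat.le_add_right _ _)).trans_lt (hy (j i) (by omega))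
  exact (hitO_anti hsub p).trans (le_iSup (fun k => hitO (Dn g k) p) _)

lemma T'_le_of_sub {f g : ℕ → E → ℝ≥0∞} (h : ∀ i, ∃ j, f i = g j) (p : Pth E) :
    T' (Dn f) p ≤ T' (Dn g) p := by
  apply le_iInf₂
  intro u hu
  refine (T'_le hu).trans ?_
  gcongr
  exact TT_le_of_sub h _

/-- quality of a nest -/
noncomputable def Iv (W : Measure (Pth E)) (D : ℕ → Set E) : ℝ≥0∞ :=
  Ex W (fun p => ea W D 1 (p.1 1)) 0

lemma Iv_le_one (hW : IsWiener W) (D : ℕ → Set E) : Iv W D ≤ 1 :=
  (Ex_mono (fun p => ea_le_one hW D 1 _) 0).trans (Ex_const hW 1 0).le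

lemma ea_eq_of_Iv_eq (hW : IsWiener W) {D D' : ℕ → Set E} (hD : ∀ k, IsOpen (D k))
    (ha : Antitone D) (hD' : ∀ k, IsOpen (D' k)) (ha' : Antitone D')
    (hle : ∀ x, ea W D' 1 x ≤ ea W D 1 x) (hI : Iv W D ≤ Iv W D') (x : E) :
    ea W D' 1 x = ea W D 1 x := by
  have hm := (sMed_ea hW hD ha 1).meas
  have hm' := (sMed_ea hW hD' ha' 1).meas
  have h1 : Iv W D = ∫⁻ y, ENNReal.ofReal (gk (1 : ℝ≥0) (y - (0 : E))) * ea W D 1 y :=
    Ex_eval hW one_pos hm 0
  have h2 : Iv W D' = ∫⁻ y, ENNReal.ofReal (gk (1 : ℝ≥0) (y - (0 : E))) * ea W D' 1 y :=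
    Ex_eval hW one_pos hm' 0
  have hgm : Measurable (fun y : E => ENNReal.ofReal (gk (1 : ℝ≥0) (y - (0 : E)))) :=
    ((continuous_gk _).measurable.comp (measurable_id.sub_const _)).ennreal_ofReal
  have hae : (fun y => ENNReal.ofReal (gk (1 : ℝ≥0) (y - (0 : E))) * ea W D' 1 y) =ᵐ[volume]
      (fun y => ENNReal.ofReal (gk (1 : ℝ≥0) (y - (0 : E))) * ea W D 1 y) := by
    apply ae_eq_of_ae_le_of_lintegral_le
    · apply Eventually.of_forall
      intro y
      dsimp only
      gcongr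
      exact hle y
    · rw [← h2]
      exact ne_top_of_le_ne_top ENNReal.one_ne_top (Iv_le_one hW D')
    · exact (hgm.mul hm).aemeasurable
    · rw [← h1, ← h2]; exact hI
  have hae2 : ea W D' 1 =ᵐ[volume] ea W D 1 := by
    filter_upwards [hae] with y hy
    have h3 : 0 < ENNReal.ofReal (gk (1 : ℝ≥0) (y - (0 : E))) := by
      rw [ENNReal.ofReal_pos]; exact gk_pos (by norm_num) _
    exact (ENNReal.mul_right_inj h3.ne' ENNReal.ofReal_ne_top).1 hy
  rw [ea_eq_iSup hW hD ha, ea_eq_iSup hW hD' ha']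
  congr 1
  funext n
  congr 1
  rw [Ex_eval hW (t := 1 / (n + 1)) (by positivity) hm,
    Ex_eval hW (t := 1 / (n + 1)) (by positivity) hm']
  apply lintegral_congr_ae
  filter_upwards [hae2] with y hy
  rw [hy]

lemma pos_TT_shift {D : ℕ → Set E} (hD : ∀ k, IsOpen (D k)) (ha : Antitone D) {p : Pth E}
    {s : ℝ≥0} (hs : 0 < s) (h : (s : ℝ≥0∞) < T' D p) : 0 < TT D (shift s p) := by
  obtain ⟨u, hu0, hus⟩ := exists_between hs
  have h1 : (s : ℝ≥0∞) < u + TT D (shift u p) := h.trans_le (T'_le hu0)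
  have h2 := sub_lt_of hus.le h1
  have h3 := TT_shift hD ha h2
  rw [shift_shift, add_tsub_cancel_of_le hus.le] at h3
  by_contra hcon
  rw [le_antisymm (not_lt.1 hcon) zero_le, add_zero] at h3
  rw [h3] at h2
  exact lt_irrefl _ h2

lemma measurableSet_Vs {D : ℕ → Set E} (hD : ∀ k, IsOpen (D k)) : MeasurableSet (Vs D) := by
  have : Vs D = ⋃ k, (D k)ᶜ := by ext x; simp [Vs]
  rw [this]
  exact MeasurableSet.iUnion fun k => (hD k).measurableSet.compl

lemma isOpt_const (c : ℝ≥0∞) : IsOpt (fun _ : Pth E => c) :=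
  ⟨measurable_const, fun _ _ _ _ _ => rfl⟩

/-- from almost sure statements at starting points in `Vs D` to all starting points from which
`T' > 0` -/
lemma ae_T' (hW : IsWiener W) {D : ℕ → Set E} (hN : Nest W D) {N : Set (Pth E)}
    (hNm : MeasurableSet N) (h : ∀ y ∈ Vs D, ∀ᵐ p ∂W, tr y p ∉ N) (x : E) :
    ∀ᵐ p ∂W, ∀ n : ℕ, ((1 / (n + 1) : ℝ≥0) : ℝ≥0∞) < T' D (tr x p) →
      shift (1 / (n + 1)) (tr x p) ∉ N := by
  rw [ae_all_iff]
  intro n
  have h1 := ae_after hW (isOpt_const ((1 / (n + 1) : ℝ≥0) : ℝ≥0∞)) (A := Vs D)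
    (measurableSet_Vs hN.isOpen) hNm h x
  filter_upwards [h1] with p hp hlt
  simp only [ENNReal.toNNReal_coe] at hp
  exact hp ENNReal.coe_ne_top (mem_Vs_of_lt_T' (by positivity) hlt)

/-- Identification theorem. -/
theorem ident (hW : IsWiener W) {U : Set E}
    (hU : ∀ x ∈ U, ∃ f : E → ℝ≥0∞, FineFn W f ∧ f x < 1 ∧ ∀ y, f y < 1 → y ∈ U) :
    ∃ D : ℕ → Set E, Nest W D ∧ Vs D ⊆ U ∧ ∀ x ∈ U, ∀ᵐ p ∂W, 0 < T' D (tr x p) ∧
      (T' D (tr x p) ≠ ∞ → (tr x p).1 (T' D (tr x p)).toNNReal ∉ U) := by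
  have hprob := hW.prob
  set Adm : Set (ℕ → E → ℝ≥0∞) := {f | ∀ i, FineFn W (f i) ∧ ∀ y, f i y < 1 → y ∈ U} with hAdm
  have hne : ((fun f => Iv W (Dn f)) '' Adm).Nonempty := by
    refine ⟨_, (fun _ _ => 1), ?_, rfl⟩
    intro i
    exact ⟨fineFn_one, fun y hy => absurd hy (lt_irrefl _)⟩
  obtain ⟨u, _, hu2, hu3⟩ := exists_seq_tendsto_sInf hne (OrderBot.bddBelow _)
  choose F hF1 hF2 using hu3
  set g : ℕ → E → ℝ≥0∞ := fun n => F n.unpair.1 n.unpair.2 with hg
  have hgA : g ∈ Adm := fun i => hF1 _ _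
  have hgmin : ∀ f ∈ Adm, Iv W (Dn g) ≤ Iv W (Dn f) := by
    intro f hf
    have h1 : Iv W (Dn g) ≤ sInf ((fun f => Iv W (Dn f)) '' Adm) := by
      refine ge_of_tendsto' hu2 fun m => ?_
      rw [← hF2 m]
      apply Ex_mono
      intro p
      apply Ex_mono
      intro r
      apply dsc_anti
      apply T'_le_of_sub
      intro i
      refine ⟨Nat.pair m i, ?_⟩
      simp [hg]
    exact h1.trans (csInf_le (OrderBot.bddBelow _) ⟨f, hf, rfl⟩)
  have hN : Nest W (Dn g) := nest_Dn fun i => (hgA i).1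
  have hD := hN.isOpen
  have ha := hN.anti
  -- comparison with the family enlarged by one function
  have hkey : ∀ x ∈ U, ea W (Dn g) 1 x < 1 ∧ ∀ᵐ p ∂W, 0 < T' (Dn g) (tr x p) := by
    intro x hx
    obtain ⟨f0, hf0, hf0x, hf0U⟩ := hU x hx
    set g' : ℕ → E → ℝ≥0∞ := fun n => Nat.casesOn n f0 g with hg'
    have hg'A : g' ∈ Adm := by
      intro i
      cases i with
      | zero => exact ⟨hf0, hf0U⟩
      | succ i => exact hgA i
    have hN' : Nest W (Dn g') := nest_Dn fun i => (hg'A i).1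
    have hsub : ∀ p, T' (Dn g) p ≤ T' (Dn g') p :=
      T'_le_of_sub fun i => ⟨i + 1, rfl⟩
    have heq := ea_eq_of_Iv_eq hW hD ha hN'.isOpen hN'.anti
      (fun y => Ex_mono (fun p => dsc_anti 1 (hsub p)) y) (hgmin g' hg'A) x
    have hxV : x ∈ Vs (Dn g') := mem_Vs_Dn.2 ⟨0, hf0x⟩
    have hTT := hN'.TT_pos hxV
    have hT' : ∀ᵐ p ∂W, 0 < T' (Dn g') (tr x p) := by
      filter_upwards [hTT] with p hp
      rw [T'_eq_TT hN'.isOpen hN'.anti hp]
      exact hp
    have hm := (measurable_dscT' hD ha 1).comp (measurable_tr x)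
    have hm' := (measurable_dscT' hN'.isOpen hN'.anti 1).comp (measurable_tr x)
    have hae : (fun p => dsc 1 (T' (Dn g') (tr x p))) =ᵐ[W] fun p => dsc 1 (T' (Dn g) (tr x p)) := by
      apply ae_eq_of_ae_le_of_lintegral_le
      · exact Eventually.of_forall fun p => dsc_anti 1 (hsub _)
      · exact ne_top_of_le_ne_top ENNReal.one_ne_top (ea_le_one hW (Dn g') 1 x)
      · exact hm.aemeasurable
      · exact heq.ge
    have hpos : ∀ᵐ p ∂W, 0 < T' (Dn g) (tr x p) := by
      filter_upwards [hae, hT'] with p hp1 hp2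
      by_contra hcon
      have h0 : T' (Dn g) (tr x p) = 0 := le_antisymm (not_lt.1 hcon) zero_le
      rw [h0, dsc_zero] at hp1
      exact absurd hp1 (dsc_lt_one one_ne_zero hp2).ne
    refine ⟨?_, hpos⟩
    apply lt_of_le_of_ne (ea_le_one hW _ 1 x)
    intro hcon
    have h1 : (fun p => dsc 1 (T' (Dn g) (tr x p))) =ᵐ[W] fun _ => 1 := by
      apply ae_eq_of_ae_le_of_lintegral_le
      · exact Eventually.of_forall fun p => dsc_le_one 1 _
      · exact ne_top_of_le_ne_top ENNReal.one_ne_top (ea_le_one hW (Dn g) 1 x)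
      · exact aemeasurable_const
      · rw [lintegral_const, measure_univ, mul_one]
        exact hcon.ge
    have h2 : ∀ᵐ p ∂W, False := by
      filter_upwards [h1, hpos] with p hp1 hp2
      exact absurd hp1 (dsc_lt_one one_ne_zero hp2).ne
    rw [eventually_false_iff_eq_bot] at h2
    have h3 : NeBot (ae W) := inferInstance
    exact h3.ne h2
  refine ⟨Dn g, hN, ?_, ?_⟩
  · intro x hx
    obtain ⟨i, hi⟩ := mem_Vs_Dn.1 hx
    exact (hgA i).2 x hi
  · intro x hx
    have hem : Measurable (ea W (Dn g) 1) := (sMed_ea hW hD ha 1).meas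
    have hTm := measurable_TT hD
    have hNm : MeasurableSet {p : Pth E | TT (Dn g) p ≠ ∞ ∧
        ea W (Dn g) 1 (p.1 (TT (Dn g) p).toNNReal) ≠ 1} := by
      apply MeasurableSet.inter
      · exact (hTm (measurableSet_singleton ∞)).compl
      · exact ((hem.comp (Measurable.eval hTm.ennreal_toNNReal measurable_id))
          (measurableSet_singleton 1)).compl
    have h1 := ae_T' hW hN hNm (fun y hy => by
      filter_upwards [ea_exit hW hN hy] with p hp hcon
      exact hcon.2 (hp hcon.1)) x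
    filter_upwards [(hkey x hx).2, h1] with p hp0 hp1
    refine ⟨hp0, fun hne hcon => ?_⟩
    have h0 : (0 : ℝ≥0∞) < T' (Dn g) (tr x p) := hp0
    obtain ⟨n, hn⟩ : ∃ n : ℕ, ((1 / (n + 1) : ℝ≥0) : ℝ≥0∞) < T' (Dn g) (tr x p) := by
      have hlim0 : Tendsto (fun n : ℕ => (1 / (n + 1) : ℝ≥0)) atTop (𝓝 0) := by
        rw [← NNReal.tendsto_coe]
        push_cast
        exact tendsto_one_div_add_atTop_nhds_zero_nat
      have := ENNReal.tendsto_coe.2 hlim0
      exact (this.eventually (eventually_lt_nhds h0)).exists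
    set s : ℝ≥0 := 1 / (n + 1) with hs
    have hs0 : 0 < s := by positivity
    have h2 := hp1 n hn
    simp only [Set.mem_ofPred_eq, not_and, not_not] at h2
    have h3 := T'_shift hD ha hn
    have h4 := T'_eq_TT hD ha (pos_TT_shift hD ha hs0 hn)
    rw [h4] at h3
    have h5 : TT (Dn g) (shift s (tr x p)) ≠ ∞ := by
      intro h; rw [h, add_top] at h3; exact hne h3
    have h6 := h2 h5
    have h7 : (T' (Dn g) (tr x p)).toNNReal = s + (TT (Dn g) (shift s (tr x p))).toNNReal := by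
      rw [h3, ENNReal.toNNReal_add ENNReal.coe_ne_top h5, ENNReal.toNNReal_coe]
    rw [h7] at hcon
    have h8 := (hkey _ hcon).1
    rw [shift_apply] at h6
    rw [h6] at h8
    exact lt_irrefl _ h8

end Pool.Agent.Lib.P07dee5
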