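import Mathlib
import Pool.Agent.Lib.P07dee5.Ident
import Pool.Agent.Lib.P07dee5.Exit

/-! # Walk on spheres: additive functionals and supersolutions -/

open MeasureTheory Set Filter Topology ProbabilityTheory Module
open scoped ENNReal NNReal

set_option linter.unusedSectionVars false
set_option linter.unusedVariables false

namespace Pool.Agent.Lib.P07dee5

variable {E : Type*} [NormedAddCommGroup E] [InnerProductSpace ℝ E] [FiniteDimensional ℝ E]
  [MeasurableSpace E] [BorelSpace E] {W : Measure (Pth E)}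

/-- probability that the limit time comes before (or at) the exit of the ball of radius `r` -/
noncomputable def phi (W : Measure (Pth E)) (D : ℕ → Set E) (r : ℝ) (x : E) : ℝ≥0∞ :=
  W {p | TT D (tr x p) ≤ ext r p}

/-- the segment from the starting point to the exit point of the ball of radius `r` meets all
the sets `D k` (after the starting point) -/
def badSeg (D : ℕ → Set E) (r : ℝ) : Set (Pth E) :=
  {p | ∀ k, ∃ s ∈ Ioc (0:ℝ) 1, p.1 0 + s • (p.1 (ext r p).toNNReal - p.1 0) ∈ D k}

/-- radii between `r / 2` and `r` -/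
noncomputable def gr (k : ℕ) (r : ℝ) : ℝ := if k = 0 then r / 2 else r * (1 / 2 + (1 / 2) ^ k)

/-! ### joint measurability of exit times -/

lemma ext_le_iff (r : ℝ) (p : Pth E) (t : ℝ≥0) :
    ext r p ≤ t ↔ ∃ s ≤ t, r ≤ dist (p.1 s) (p.1 0) := by
  rw [ext_eq, hitC_le_iff (isClosed_norm_ge r)]
  simp only [tr_apply, Set.mem_ofPred_eq, neg_add_eq_sub, ← dist_eq_norm]

lemma measurable_ext2 : Measurable (fun q : ℝ × Pth E => ext q.1 q.2) := by
  have key : ∀ t : ℝ≥0, MeasurableSet {q : ℝ × Pth E | ext q.1 q.2 ≤ t} := by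
    intro t
    have : {q : ℝ × Pth E | ext q.1 q.2 ≤ t} = ⋂ k : ℕ, ⋃ n : ℕ, {q : ℝ × Pth E |
        q.1 - 1 / (k + 1) < dist (q.2.1 (min (TopologicalSpace.denseSeq ℝ≥0 n) t)) (q.2.1 0)} := by
      ext ⟨r, p⟩
      simp only [Set.mem_ofPred_eq, mem_iInter, mem_iUnion]
      rw [ext_le_iff]
      constructor
      · rintro ⟨s, hs, h⟩ k
        have hO : IsOpen {u : ℝ≥0 | r - 1 / ((k : ℝ) + 1) < dist (p.1 (min u t)) (p.1 0)} :=
          isOpen_lt continuous_const ((p.2.comp
            (continuous_id.min continuous_const)).dist continuous_const)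
        refine exists_dense_time hO ⟨s, ?_⟩
        simp only [Set.mem_ofPred_eq, min_eq_left hs]
        have : (0:ℝ) < 1 / ((k : ℝ) + 1) := by positivity
        linarith
      · intro h
        have hcont : ContinuousOn (fun s => dist (p.1 s) (p.1 0)) (Icc (0:ℝ≥0) t) :=
          (p.2.dist continuous_const).continuousOn
        obtain ⟨s, hs, hmax⟩ := isCompact_Icc.exists_isMaxOn (nonempty_Icc.2 (zero_le)) hcont
        refine ⟨s, hs.2, ?_⟩
        apply le_of_forall_pos_lt_add
        intro ε hε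
        obtain ⟨k, hk⟩ := exists_nat_one_div_lt hε
        obtain ⟨n, hn⟩ := h k
        have h1 : dist (p.1 (min (TopologicalSpace.denseSeq ℝ≥0 n) t)) (p.1 0) ≤
            dist (p.1 s) (p.1 0) := hmax ⟨zero_le, min_le_right _ _⟩
        linarith
    rw [this]
    apply MeasurableSet.iInter
    intro k
    apply MeasurableSet.iUnion
    intro n
    apply measurableSet_lt (measurable_fst.sub_const _)
    exact ((measurable_eval _).comp measurable_snd).dist ((measurable_eval _).comp measurable_snd)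
  apply measurable_of_Iic
  intro c
  induction c with
  | top => simp
  | coe t => exact key t

/-- exit time from the ball around the starting point, the radius depending on the starting
point -/
noncomputable def exr (ρ : E → ℝ) (p : Pth E) : ℝ≥0∞ := ext (ρ (p.1 0)) p

lemma measurable_exr {ρ : E → ℝ} (hρ : Measurable ρ) : Measurable (exr ρ) :=
  measurable_ext2.comp ((hρ.comp (measurable_eval 0)).prodMk measurable_id)

lemma isOpt_exr {ρ : E → ℝ} (hρ : Measurable ρ) : IsOpt (exr ρ) where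
  meas := measurable_exr hρ
  gal := by
    intro p q t h hlt
    unfold exr at *
    rw [← h 0 zero_le]
    exact (isOpt_ext _).gal p q t h hlt

/-- end point of a step of the walk -/
noncomputable def stp (ρ : E → ℝ) (p : Pth E) : E := p.1 (exr ρ p).toNNReal

lemma measurable_stp {ρ : E → ℝ} (hρ : Measurable ρ) : Measurable (stp ρ) :=
  Measurable.eval (measurable_exr hρ).ennreal_toNNReal measurable_id

/-- path after a step of the walk -/
noncomputable def nxt (ρ : E → ℝ) (p : Pth E) : Pth E := shift (exr ρ p).toNNReal p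

lemma measurable_nxt {ρ : E → ℝ} (hρ : Measurable ρ) : Measurable (nxt ρ) :=
  measurable_shift2.comp ((measurable_exr hρ).ennreal_toNNReal.prodMk measurable_id)

@[simp] lemma nxt_zero (ρ : E → ℝ) (p : Pth E) : (nxt ρ p).1 0 = stp ρ p := by
  simp [nxt, stp]

open Classical in
/-- indicator that `T` is strictly before the limit time -/
noncomputable def bef (D : ℕ → Set E) (T : Pth E → ℝ≥0∞) (p : Pth E) : ℝ≥0∞ :=
  if T p < TT D p then 1 else 0

lemma bef_le_one (D : ℕ → Set E) (T : Pth E → ℝ≥0∞) (p : Pth E) : bef D T p ≤ 1 := by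
  unfold bef; split_ifs <;> simp

lemma bef_of_lt {D : ℕ → Set E} {T : Pth E → ℝ≥0∞} {p : Pth E} (h : T p < TT D p) :
    bef D T p = 1 := by simp [bef, h]

lemma bef_of_not {D : ℕ → Set E} {T : Pth E → ℝ≥0∞} {p : Pth E} (h : ¬ T p < TT D p) :
    bef D T p = 0 := by simp [bef, h]

lemma measurable_bef {D : ℕ → Set E} (hD : ∀ k, IsOpen (D k)) {T : Pth E → ℝ≥0∞}
    (hT : Measurable T) : Measurable (bef D T) := by
  classical
  exact Measurable.ite (measurableSet_lt hT (measurable_TT hD)) measurable_const measurable_const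

lemma isPre_bef {D : ℕ → Set E} (hD : ∀ k, IsOpen (D k)) {T : Pth E → ℝ≥0∞} (hT : IsOpt T) :
    IsPre T (bef D T) where
  meas := measurable_bef hD hT.meas
  gal := by
    intro p q t h hlt
    have h1 := hT.gal p q t h hlt
    have hiff : T q < TT D q ↔ T p < TT D p := by
      rw [h1]
      constructor
      · intro h2
        by_contra h3
        have h4 := (isOpt_TT hD).gal p q t h ((not_lt.1 h3).trans_lt hlt)
        rw [h4] at h2
        exact h3 h2
      · intro h2
        by_contra h3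
        have h4 := (isOpt_TT hD).gal q p t (fun s hs => (h s hs).symm) ((not_lt.1 h3).trans_lt hlt)
        rw [h4] at h2
        exact h3 h2
    unfold bef
    simp only [hiff]
  top := by
    intro p hp
    unfold bef
    simp [hp]

/-- additive functional of the walk with radius function `ρ`, stopped at the limit time, with
cost `c` of each step (a function of the path from the beginning of the step) -/
noncomputable def Af (D : ℕ → Set E) (ρ : E → ℝ) (c : Pth E → ℝ≥0∞) : ℕ → Pth E → ℝ≥0∞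
  | 0, _ => 0
  | j + 1, p => c p + bef D (exr ρ) p * Af D ρ c j (nxt ρ p)

lemma measurable_Af {D : ℕ → Set E} (hD : ∀ k, IsOpen (D k)) {ρ : E → ℝ} (hρ : Measurable ρ)
    {c : Pth E → ℝ≥0∞} (hc : Measurable c) (j : ℕ) : Measurable (Af D ρ c j) := by
  induction j with
  | zero => exact measurable_const
  | succ j ih =>
    exact hc.add ((measurable_bef hD (measurable_exr hρ)).mul (ih.comp (measurable_nxt hρ)))

lemma Af_mono (D : ℕ → Set E) (ρ : E → ℝ) (c : Pth E → ℝ≥0∞) (j : ℕ) (p : Pth E) :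
    Af D ρ c j p ≤ Af D ρ c (j + 1) p := by
  induction j generalizing p with
  | zero => exact zero_le
  | succ j ih =>
    show c p + _ ≤ c p + _
    gcongr
    exact ih _

lemma Ex_bef_mul (hW : IsWiener W) {D : ℕ → Set E} (hD : ∀ k, IsOpen (D k)) {ρ : E → ℝ}
    (hρ : Measurable ρ) {F : Pth E → ℝ≥0∞} (hF : Measurable F) (y : E) :
    Ex W (fun p => bef D (exr ρ) p * F (nxt ρ p)) y =
      Ex W (fun p => bef D (exr ρ) p * Ex W F (stp ρ p)) y :=
  strong_markov hW (isOpt_exr hρ) (isPre_bef hD (isOpt_exr hρ)) hF y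

lemma Ex_Af_succ (hW : IsWiener W) {D : ℕ → Set E} (hD : ∀ k, IsOpen (D k)) {ρ : E → ℝ}
    (hρ : Measurable ρ) {c : Pth E → ℝ≥0∞} (hc : Measurable c) (j : ℕ) (y : E) :
    Ex W (Af D ρ c (j + 1)) y = Ex W c y +
      Ex W (fun p => bef D (exr ρ) p * Ex W (Af D ρ c j) (stp ρ p)) y := by
  rw [← Ex_bef_mul hW hD hρ (measurable_Af hD hρ hc j)]
  exact Ex_add hc y

/-- Supersolution principle, for a set `S` of starting points invariant under the walk. -/
theorem Af_le (hW : IsWiener W) {D : ℕ → Set E} (hD : ∀ k, IsOpen (D k)) {ρ : E → ℝ}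
    (hρ : Measurable ρ) {c : Pth E → ℝ≥0∞} (hc : Measurable c) {S : Set E}
    (hS : ∀ p : Pth E, p.1 0 ∈ S → exr ρ p < TT D p → stp ρ p ∈ S) {V : E → ℝ≥0∞}
    (hV : ∀ y ∈ S, Ex W c y + Ex W (fun p => bef D (exr ρ) p * V (stp ρ p)) y ≤ V y) (j : ℕ) :
    ∀ y ∈ S, Ex W (Af D ρ c j) y ≤ V y := by
  induction j with
  | zero => intro y hy; simp [Af, Ex]
  | succ j ih =>
    intro y hy
    rw [Ex_Af_succ hW hD hρ hc]
    refine le_trans ?_ (hV y hy)
    gcongr
    unfold Ex
    apply lintegral_mono_ae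
    filter_upwards [hW.zero] with p hp
    by_cases h : exr ρ (tr y p) < TT D (tr y p)
    · have h1 : stp ρ (tr y p) ∈ S := hS (tr y p) (by simpa [hp] using hy) h
      exact mul_le_mul_right (ih _ h1) _
    · simp [bef_of_not h]

/-! ### walks inside a ball -/

/-- exit time from the ball with centre `x` and radius `R` -/
noncomputable def eB (x : E) (R : ℝ) (p : Pth E) : ℝ≥0∞ := hitC (Metric.ball x R)ᶜ p

/-- probability that the limit time comes before the exit of the ball -/
noncomputable def hB (W : Measure (Pth E)) (D : ℕ → Set E) (x : E) (R : ℝ) (y : E) : ℝ≥0∞ :=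
  W {p | TT D (tr y p) ≤ eB x R (tr y p)}

/-- The radius function `ρ` and the class `m` of a walk inside the ball of centre `x` and
radius `R`. -/
structure Walk (W : Measure (Pth E)) (D : ℕ → Set E) (x : E) (R ε δ : ℝ) (ρ : E → ℝ)
    (m : E → ℕ) : Prop where
  Rpos : 0 < R
  epos : 0 < ε
  dpos : 0 < δ
  meas : Measurable ρ
  measm : Measurable m
  lo : ∀ y ∈ Vs D, dist y x < R → R / 2 ^ (m y) / 2 ≤ ρ y
  hi : ∀ y ∈ Vs D, dist y x < R → ρ y ≤ R / 2 ^ (m y)
  small : ∀ y ∈ Vs D, dist y x < R → 16 * (R / 2 ^ (m y)) ≤ R - dist y x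
  alt : ∀ y ∈ Vs D, dist y x < R → 32 * (R / 2 ^ (m y)) ≤ R - dist y x →
    ENNReal.ofReal ε < phi W D (2 * (R / 2 ^ (m y))) y
  bad : ∀ y ∈ Vs D, dist y x < R →
    W {p | tr y p ∈ badSeg D (ρ y)} ≤ ENNReal.ofReal δ * phi W D (ρ y) y

open Classical in
/-- the cost counting the steps of class `k` limited by the risk -/
noncomputable def cL (x : E) (R : ℝ) (m : E → ℕ) (k : ℕ) (p : Pth E) : ℝ≥0∞ :=
  if m (p.1 0) = k ∧ 32 * (R / 2 ^ k) ≤ R - dist (p.1 0) x then 1 else 0

open Classical in
/-- the cost summing the lengths of the steps limited by the distance to the sphere -/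
noncomputable def cW (x : E) (R : ℝ) (ρ : E → ℝ) (m : E → ℕ) (p : Pth E) : ℝ≥0∞ :=
  if R - dist (p.1 0) x < 32 * (R / 2 ^ (m (p.1 0))) then ENNReal.ofReal (ρ (p.1 0)) else 0

/-- starting points for the walk -/
def SB (D : ℕ → Set E) (x : E) (R : ℝ) : Set E := {y | y ∈ Vs D ∧ dist y x < R}

section

variable {D : ℕ → Set E} {x : E} {R ε δ : ℝ} {ρ : E → ℝ} {m : E → ℕ}

lemma Walk.pos (h : Walk W D x R ε δ ρ m) {y : E} (hy : y ∈ SB D x R) : 0 < ρ y := by
  have h1 := h.lo y hy.1 hy.2
  have h2 := h.Rpos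
  have : 0 < R / 2 ^ (m y) / 2 := by positivity
  linarith

lemma Walk.le_dist (h : Walk W D x R ε δ ρ m) {y : E} (hy : y ∈ SB D x R) :
    16 * ρ y ≤ R - dist y x := by
  have h1 := h.hi y hy.1 hy.2
  have h2 := h.small y hy.1 hy.2
  linarith

lemma exr_pos {ρ : E → ℝ} {p : Pth E} (h : 0 < ρ (p.1 0)) : 0 < exr ρ p := ext_pos h p

lemma dist_stp {ρ : E → ℝ} {p : Pth E} (h : 0 < ρ (p.1 0)) (hne : exr ρ p ≠ ∞) :
    dist (stp ρ p) (p.1 0) = ρ (p.1 0) := dist_ext h hne

/-- the set of starting points is invariant -/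
lemma Walk.inv (h : Walk W D x R ε δ ρ m) (p : Pth E) (hp : p.1 0 ∈ SB D x R)
    (hlt : exr ρ p < TT D p) : stp ρ p ∈ SB D x R := by
  have hpos := h.pos hp
  have hne : exr ρ p ≠ ∞ := ne_top_of_lt hlt
  constructor
  · apply mem_Vs_of_lt
    · exact ENNReal.toNNReal_pos (exr_pos hpos).ne' hne
    · rw [ENNReal.coe_toNNReal hne]; exact hlt
  · have h1 := dist_stp hpos hne
    have h2 := h.le_dist hp
    have h3 := dist_triangle (stp ρ p) (p.1 0) x
    linarith

/-- the step ends before the exit of the ball -/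
lemma exr_le_eB {p : Pth E} (h : ρ (p.1 0) ≤ R - dist (p.1 0) x) : exr ρ p ≤ eB x R p := by
  unfold exr ext eB hitC
  apply le_iInf₂
  intro t ht
  apply iInf₂_le t
  have h1 : R ≤ dist (p.1 t) x := by simpa using ht
  have h2 := dist_triangle (p.1 t) (p.1 0) x
  linarith

lemma eB_nxt {p : Pth E} (h : ρ (p.1 0) ≤ R - dist (p.1 0) x) (hne : exr ρ p ≠ ∞) :
    eB x R p = exr ρ p + eB x R (nxt ρ p) := by
  have h1 := exr_le_eB (ρ := ρ) (x := x) (R := R) h
  have h2 := hitC_shift (F := (Metric.ball x R)ᶜ) (p := p) (s := (exr ρ p).toNNReal)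
    (by rw [ENNReal.coe_toNNReal hne]; exact h1)
  rw [ENNReal.coe_toNNReal hne] at h2
  exact h2

lemma TT_nxt (hD : ∀ k, IsOpen (D k)) (ha : Antitone D) {p : Pth E} (h : exr ρ p < TT D p) :
    TT D p = exr ρ p + TT D (nxt ρ p) := by
  have hne : exr ρ p ≠ ∞ := ne_top_of_lt h
  have := TT_shift hD ha (p := p) (s := (exr ρ p).toNNReal)
    (by rw [ENNReal.coe_toNNReal hne]; exact h)
  rw [ENNReal.coe_toNNReal hne] at this
  exact this

end

end Pool.Agent.Lib.P07dee5
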