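import Mathlib
import Pool.Agent.Lib.P07dee5.Exit

/-! # Radial projection estimate -/

open MeasureTheory Set Filter Topology ProbabilityTheory Module Metric
open scoped ENNReal NNReal RealInnerProductSpace

set_option linter.unusedSectionVars false

namespace Pool.Agent.Lib.P07dee5

variable {E : Type*} [NormedAddCommGroup E] [InnerProductSpace ℝ E] [FiniteDimensional ℝ E]
  [MeasurableSpace E] [BorelSpace E] {W : Measure (Pth E)}

/-- points of the rays from `x` in `D`, up to distance `R` -/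
def raySet (D : Set E) (x : E) (R : ℝ) : Set (E × ℝ) := {q | 0 < q.2 ∧ q.2 < R ∧ x + q.2 • q.1 ∈ D}

lemma isOpen_raySet {D : Set E} (hD : IsOpen D) (x : E) (R : ℝ) : IsOpen (raySet D x R) := by
  unfold raySet
  have h1 : IsOpen {q : E × ℝ | 0 < q.2} := isOpen_lt continuous_const continuous_snd
  have h2 : IsOpen {q : E × ℝ | q.2 < R} := isOpen_lt continuous_snd continuous_const
  have h3 : IsOpen {q : E × ℝ | x + q.2 • q.1 ∈ D} := hD.preimage (by fun_prop)
  exact h1.inter (h2.inter h3)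

/-- length of the intersection of the ray with `D` -/
noncomputable def ell (D : Set E) (x : E) (R : ℝ) (θ : E) : ℝ≥0∞ :=
  ∫⁻ ρ in Ioi (0:ℝ), (raySet D x R).indicator (fun _ => 1) (θ, ρ)

lemma measurable_ell {D : Set E} (hD : IsOpen D) (x : E) (R : ℝ) : Measurable (ell D x R) := by
  unfold ell
  exact Measurable.lintegral_prod_right'
    (f := fun q : E × ℝ => (raySet D x R).indicator (fun _ => (1:ℝ≥0∞)) q)
    (measurable_const.indicator (isOpen_raySet hD x R).measurableSet)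

lemma ell_eq {D : Set E} (x : E) (R : ℝ) (θ : E) (hD : IsOpen D) :
    ell D x R θ = volume {ρ : ℝ | (θ, ρ) ∈ raySet D x R} := by
  unfold ell
  have hm : MeasurableSet {ρ : ℝ | (θ, ρ) ∈ raySet D x R} :=
    ((isOpen_raySet hD x R).preimage (by fun_prop : Continuous fun ρ : ℝ => (θ, ρ))).measurableSet
  have h1 : (fun ρ : ℝ => (raySet D x R).indicator (fun _ => (1:ℝ≥0∞)) (θ, ρ)) =
      {ρ : ℝ | (θ, ρ) ∈ raySet D x R}.indicator (fun _ => 1) := by
    funext ρ
    simp [indicator]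
  rw [h1, lintegral_indicator hm, setLIntegral_const, one_mul, Measure.restrict_apply' measurableSet_Ioi,
    inter_eq_left.2]
  intro ρ hρ
  exact hρ.1

lemma ell_ne_top {D : Set E} (x : E) (R : ℝ) (θ : E) (hD : IsOpen D) : ell D x R θ ≠ ∞ := by
  rw [ell_eq x R θ hD]
  apply ne_top_of_le_ne_top (b := volume (Ioo 0 R))
  · simp
  · exact measure_mono fun ρ hρ => ⟨hρ.1, hρ.2.1⟩

lemma ell_ne_zero_iff {D : Set E} (x : E) (R : ℝ) (θ : E) (hD : IsOpen D) :
    ell D x R θ ≠ 0 ↔ ∃ ρ ∈ Ioc 0 R, x + ρ • θ ∈ D := by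
  rw [ell_eq x R θ hD]
  have hopen : IsOpen {ρ : ℝ | (θ, ρ) ∈ raySet D x R} :=
    (isOpen_raySet hD x R).preimage (by fun_prop : Continuous fun ρ : ℝ => (θ, ρ))
  constructor
  · intro h
    obtain ⟨ρ, hρ⟩ := nonempty_of_measure_ne_zero h
    exact ⟨ρ, ⟨hρ.1, hρ.2.1.le⟩, hρ.2.2⟩
  · rintro ⟨ρ, hρ, hD'⟩
    apply (hopen.measure_pos volume _).ne'
    -- move `ρ` down a little
    have hO : IsOpen {s : ℝ | 0 < s ∧ x + s • θ ∈ D} :=
      (isOpen_lt continuous_const continuous_id).inter (hD.preimage (by fun_prop))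
    have h1 : ∀ᶠ s in 𝓝[<] ρ, s ∈ {s : ℝ | 0 < s ∧ x + s • θ ∈ D} :=
      mem_nhdsWithin_of_mem_nhds (hO.mem_nhds ⟨hρ.1, hD'⟩)
    obtain ⟨s, hs, hs1⟩ := (h1.and self_mem_nhdsWithin).exists
    exact ⟨s, hs.1, lt_of_lt_of_le hs1 hρ.2, hs.2⟩

/-- indicator of the set of directions -/
noncomputable def dirI (D : Set E) (x : E) (R : ℝ) (θ : E) : ℝ≥0∞ := (ell D x R θ)⁻¹ * ell D x R θ

lemma dirI_eq {D : Set E} (x : E) (R : ℝ) (hD : IsOpen D) :
    dirI D x R = {θ | ∃ ρ ∈ Ioc 0 R, x + ρ • θ ∈ D}.indicator (fun _ => 1) := by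
  funext θ
  unfold dirI
  by_cases h : θ ∈ {θ | ∃ ρ ∈ Ioc 0 R, x + ρ • θ ∈ D}
  · rw [indicator_of_mem h]
    exact ENNReal.inv_mul_cancel ((ell_ne_zero_iff x R θ hD).2 h) (ell_ne_top x R θ hD)
  · rw [indicator_of_notMem h]
    have : ell D x R θ = 0 := by
      by_contra h1
      exact h ((ell_ne_zero_iff x R θ hD).1 h1)
    rw [this, mul_zero]

lemma measurable_dirI {D : Set E} (hD : IsOpen D) (x : E) (R : ℝ) : Measurable (dirI D x R) :=
  (measurable_ell hD x R).inv.mul (measurable_ell hD x R)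

lemma measurableSet_dir {D : Set E} (hD : IsOpen D) (x : E) (R : ℝ) :
    MeasurableSet {θ | ∃ ρ ∈ Ioc 0 R, x + ρ • θ ∈ D} := by
  have : {θ | ∃ ρ ∈ Ioc 0 R, x + ρ • θ ∈ D} = (ell D x R) ⁻¹' {0}ᶜ := by
    ext θ
    exact (ell_ne_zero_iff x R θ hD).symm
  rw [this]
  exact measurable_ell hD x R (measurableSet_singleton 0).compl

lemma lintegral_dirI {D : Set E} (hD : IsOpen D) (x : E) (R : ℝ) (ν : Measure E) :
    ∫⁻ θ, dirI D x R θ ∂ν = ν {θ | ∃ ρ ∈ Ioc 0 R, x + ρ • θ ∈ D} := by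
  rw [dirI_eq x R hD, lintegral_indicator (measurableSet_dir hD x R)]
  simp

/-- the mass distribution: on each ray that meets `D` the weighted mass is one -/
noncomputable def gD (D : Set E) (x : E) (R : ℝ) (z : E) : ℝ≥0∞ :=
  (D ∩ ball x R).indicator (fun _ => 1) z *
    ((ENNReal.ofReal ‖z - x‖)⁻¹ * (ell D x R (‖z - x‖⁻¹ • (z - x)))⁻¹)

lemma measurable_gD {D : Set E} (hD : IsOpen D) (x : E) (R : ℝ) : Measurable (gD D x R) := by
  unfold gD
  apply Measurable.mul
  · exact measurable_const.indicator (hD.inter isOpen_ball).measurableSet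
  · apply Measurable.mul
    · fun_prop
    · exact ((measurable_ell hD x R).comp (by fun_prop)).inv

lemma gD_zero {D : Set E} (x : E) (R : ℝ) {z : E} (hz : z ∉ D) : gD D x R z = 0 := by
  unfold gD
  rw [indicator_of_notMem (fun h => hz h.1), zero_mul]

lemma gD_ray {D : Set E} (x : E) (R : ℝ) {θ : E} (hθ : ‖θ‖ = 1) {ρ : ℝ} (hρ : 0 < ρ) :
    gD D x R (x + ρ • θ) = (raySet D x R).indicator (fun _ => 1) (θ, ρ) *
      ((ENNReal.ofReal ρ)⁻¹ * (ell D x R θ)⁻¹) := by
  unfold gD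
  have h1 : x + ρ • θ - x = ρ • θ := by abel
  have h2 : ‖ρ • θ‖ = ρ := by rw [norm_smul, hθ, mul_one, Real.norm_eq_abs, abs_of_pos hρ]
  rw [h1, h2, smul_smul, inv_mul_cancel₀ hρ.ne', one_smul]
  congr 1
  have h3 : x + ρ • θ ∈ D ∩ ball x R ↔ (θ, ρ) ∈ raySet D x R := by
    rw [mem_inter_iff, mem_ball, dist_eq_norm, h1, h2]
    constructor
    · rintro ⟨a, b⟩; exact ⟨hρ, b, a⟩
    · rintro ⟨_, b, a⟩; exact ⟨a, b⟩
  by_cases h : x + ρ • θ ∈ D ∩ ball x R
  · rw [indicator_of_mem h, indicator_of_mem (h3.1 h)]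
  · rw [indicator_of_notMem h, indicator_of_notMem (fun h' => h (h3.2 h'))]

/-- integration against the mass distribution -/
lemma lintegral_gD (hn : 3 ≤ finrank ℝ E) {ν : Measure E} (hν : IsSph ν) {D : Set E}
    (hD : IsOpen D) (x : E) (R : ℝ) {f : E → ℝ≥0∞} (hf : Measurable f) :
    ∫⁻ z, f z * gD D x R z = sfm E univ * ∫⁻ θ, (ell D x R θ)⁻¹ * (∫⁻ ρ in Ioi (0:ℝ),
      (raySet D x R).indicator (fun _ => 1) (θ, ρ) *
        (ENNReal.ofReal ρ ^ ((finrank ℝ E : ℝ) - 2) * f (x + ρ • θ))) ∂ν := by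
  have hnt : Nontrivial E := Module.nontrivial_of_finrank_pos (R := ℝ) (by omega)
  rw [← lintegral_add_left_eq_self (μ := volume) (fun z => f z * gD D x R z) x,
    hν.polar (f := fun v => f (x + v) * gD D x R (x + v))
      (((hf.mul (measurable_gD hD x R))).comp (measurable_const_add x))]
  congr 1
  apply lintegral_congr_ae
  filter_upwards [hν.norm] with θ hθ
  rw [← lintegral_const_mul]
  · apply setLIntegral_congr_fun measurableSet_Ioi
    intro ρ hρ
    rw [mem_Ioi] at hρ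
    simp only
    rw [gD_ray x R hθ hρ]
    have h1 : ENNReal.ofReal (ρ ^ (finrank ℝ E - 1)) =
        ENNReal.ofReal ρ ^ ((finrank ℝ E : ℝ) - 2) * ENNReal.ofReal ρ := by
      rw [ENNReal.ofReal_rpow_of_pos hρ, ← ENNReal.ofReal_mul (by positivity)]
      congr 1
      conv_rhs => rw [← Real.rpow_one ρ]
      rw [← Real.rpow_mul hρ.le, ← Real.rpow_add hρ, ← Real.rpow_natCast, Nat.cast_sub (by omega)]
      congr 1
      push_cast
      ring
    rw [h1]
    have h2 : ENNReal.ofReal ρ * (ENNReal.ofReal ρ)⁻¹ = 1 :=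
      ENNReal.mul_inv_cancel (ENNReal.ofReal_pos.2 hρ).ne' ENNReal.ofReal_ne_top
    calc ENNReal.ofReal ρ ^ ((finrank ℝ E : ℝ) - 2) * ENNReal.ofReal ρ * (f (x + ρ • θ) *
          ((raySet D x R).indicator (fun _ => 1) (θ, ρ) *
            ((ENNReal.ofReal ρ)⁻¹ * (ell D x R θ)⁻¹))) =
          (ENNReal.ofReal ρ * (ENNReal.ofReal ρ)⁻¹) * ((ell D x R θ)⁻¹ *
            ((raySet D x R).indicator (fun _ => 1) (θ, ρ) *
              (ENNReal.ofReal ρ ^ ((finrank ℝ E : ℝ) - 2) * f (x + ρ • θ)))) := by ring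
      _ = _ := by rw [h2, one_mul]
  · apply Measurable.mul
    · exact (measurable_const.indicator (isOpen_raySet hD x R).measurableSet).comp
        measurable_prodMk_left
    · apply Measurable.mul
      · fun_prop
      · exact hf.comp (by fun_prop)

lemma lintegral_gD_le (hn : 3 ≤ finrank ℝ E) {ν : Measure E} (hν : IsSph ν) {D : Set E}
    (hD : IsOpen D) (x : E) (R : ℝ) {f : E → ℝ≥0∞} (hf : Measurable f) {h : E → ℝ≥0∞}
    (hfh : ∀ θ : E, ‖θ‖ = 1 → ∀ ρ : ℝ, 0 < ρ → ρ < R →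
      ENNReal.ofReal ρ ^ ((finrank ℝ E : ℝ) - 2) * f (x + ρ • θ) ≤ h θ) :
    ∫⁻ z, f z * gD D x R z ≤ sfm E univ * ∫⁻ θ, dirI D x R θ * h θ ∂ν := by
  rw [lintegral_gD hn hν hD x R hf]
  refine mul_le_mul' le_rfl (lintegral_mono_ae ?_)
  filter_upwards [hν.norm] with θ hθ
  unfold dirI
  rw [mul_assoc]
  gcongr
  have hmχ : Measurable fun ρ : ℝ => (raySet D x R).indicator (fun _ => (1:ℝ≥0∞)) (θ, ρ) :=
    (measurable_const.indicator (isOpen_raySet hD x R).measurableSet).comp measurable_prodMk_left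
  unfold ell
  rw [← lintegral_mul_const _ hmχ]
  apply lintegral_mono
  intro ρ
  simp only
  by_cases hρ : (θ, ρ) ∈ raySet D x R
  · rw [indicator_of_mem hρ, one_mul, one_mul]
    exact hfh θ hθ ρ hρ.1 hρ.2.1
  · rw [indicator_of_notMem hρ, zero_mul, zero_mul]

lemma lintegral_gD_eq (hn : 3 ≤ finrank ℝ E) {ν : Measure E} (hν : IsSph ν) {D : Set E}
    (hD : IsOpen D) (x : E) (R : ℝ) {f : E → ℝ≥0∞} (hf : Measurable f) {c : ℝ≥0∞}
    (hfh : ∀ θ : E, ‖θ‖ = 1 → ∀ ρ : ℝ, 0 < ρ →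
      ENNReal.ofReal ρ ^ ((finrank ℝ E : ℝ) - 2) * f (x + ρ • θ) = c) :
    ∫⁻ z, f z * gD D x R z = sfm E univ * (c * ν {θ | ∃ ρ ∈ Ioc 0 R, x + ρ • θ ∈ D}) := by
  rw [lintegral_gD hn hν hD x R hf, ← lintegral_dirI hD x R, ← lintegral_const_mul _ (measurable_dirI hD x R)]
  congr 1
  apply lintegral_congr_ae
  filter_upwards [hν.norm] with θ hθ
  have hmχ : Measurable fun ρ : ℝ => (raySet D x R).indicator (fun _ => (1:ℝ≥0∞)) (θ, ρ) :=
    (measurable_const.indicator (isOpen_raySet hD x R).measurableSet).comp measurable_prodMk_left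
  have h1 : ∫⁻ ρ in Ioi (0:ℝ), (raySet D x R).indicator (fun _ => 1) (θ, ρ) *
        (ENNReal.ofReal ρ ^ ((finrank ℝ E : ℝ) - 2) * f (x + ρ • θ)) = ell D x R θ * c := by
    unfold ell
    rw [← lintegral_mul_const _ hmχ]
    apply setLIntegral_congr_fun measurableSet_Ioi
    intro ρ hρ
    simp only
    rw [hfh θ hθ ρ hρ]
  rw [h1, dirI]
  ring

/-- the radial projection estimate, before the final computation -/
lemma geo_aux (hn : 3 ≤ finrank ℝ E) (hW : IsWiener W) {D : Set E} (hD : IsOpen D)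
    {ν : Measure E} (hν : IsSph ν) (x : E) {R r : ℝ} (hR : 0 < R) (hr : R < r) {S : ℝ≥0∞}
    (hS : ∀ u : E, ‖u‖ = 1 → ∫⁻ θ, dirI D x R θ *
      ENNReal.ofReal (1 - ⟪u, θ⟫ ^ 2) ^ (-(((finrank ℝ E : ℝ) - 2) / 2)) ∂ν ≤ S) :
    ν {θ | ∃ ρ ∈ Ioc 0 R, x + ρ • θ ∈ D} ≤ S * W {p | hitO D (tr x p) ≤ ext r p} +
      ENNReal.ofReal (R / r) ^ ((finrank ℝ E : ℝ) - 2) *
        ν {θ | ∃ ρ ∈ Ioc 0 R, x + ρ • θ ∈ D} := by
  have hprob := hW.prob
  have hprobν := hν.prob
  have hnt : Nontrivial E := Module.nontrivial_of_finrank_pos (R := ℝ) (by omega)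
  set n := finrank ℝ E with hndef
  set b : ℝ := (n : ℝ) - 2 with hb
  have hb1 : 1 ≤ b := by
    have : (3:ℝ) ≤ n := by exact_mod_cast hn
    linarith
  set m := ν {θ | ∃ ρ ∈ Ioc 0 R, x + ρ • θ ∈ D} with hm
  set g := gD D x R with hg
  have hgm : Measurable g := measurable_gD hD x R
  set Ψ : E → ℝ≥0∞ := Ex W (occ g) with hΨ
  have hΨm : Measurable Ψ := measurable_Exocc hW hgm
  have hΨeq : ∀ y, Ψ y = ∫⁻ z, Nk (z - y) * g z := fun y => Ex_occ hW hgm y
  set κ := sfm E univ with hκ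
  have hκ0 : κ ≠ 0 := sfm_univ_ne_zero
  have hκ1 : κ ≠ ∞ := sfm_univ_ne_top
  have hc0 : cN n ≠ 0 := cN_ne_zero n
  have hc1 : cN n ≠ ∞ := cN_ne_top hn
  have hr0 : 0 < r := hR.trans hr
  have hcancel : ∀ ρ : ℝ, 0 < ρ → ENNReal.ofReal ρ ^ b * ENNReal.ofReal ρ ^ (-b) = 1 := by
    intro ρ hρ
    rw [← ENNReal.rpow_add _ _ (ENNReal.ofReal_pos.2 hρ).ne' ENNReal.ofReal_ne_top, add_neg_cancel,
      ENNReal.rpow_zero]
  -- (a)
  have ha : Ψ x = κ * (cN n * m) := by
    rw [hΨeq]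
    apply lintegral_gD_eq hn hν hD x R (measurable_Nk.comp (measurable_id.sub_const x))
    intro θ hθ ρ hρ
    have h2 : ‖ρ • θ‖ = ρ := by rw [norm_smul, hθ, mul_one, Real.norm_eq_abs, abs_of_pos hρ]
    have h3 : ρ • θ ≠ 0 := by
      rw [← norm_ne_zero_iff, h2]; exact hρ.ne'
    have h1 : (Nk ∘ fun z => z - x) (x + ρ • θ) = Nb n ρ := by
      simp only [Function.comp, add_sub_cancel_left]
      rw [Nk_eq h3, h2]
    have h4 : Nk (id (x + ρ • θ) - x) = Nb n ρ := h1
    show ENNReal.ofReal ρ ^ b * Nk (id (x + ρ • θ) - x) = cN n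
    rw [h4, Nb, ← mul_assoc, hcancel ρ hρ, one_mul]
  -- (b)
  have hbd : ∀ y, Ψ y ≤ κ * (cN n * S) := by
    intro y
    rw [hΨeq]
    obtain ⟨u, hu, hyu⟩ : ∃ u : E, ‖u‖ = 1 ∧ y - x = ‖y - x‖ • u := by
      rcases eq_or_ne (y - x) 0 with h | h
      · obtain ⟨u, hu⟩ := exists_norm_eq E (zero_le_one)
        exact ⟨u, hu, by rw [h]; simp⟩
      · exact ⟨‖y - x‖⁻¹ • (y - x), norm_smul_inv_norm h, by
          rw [smul_smul, mul_inv_cancel₀ (norm_ne_zero_iff.2 h), one_smul]⟩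
    have h1 := lintegral_gD_le hn hν hD x R (f := fun z => Nk (z - y))
      (measurable_Nk.comp (measurable_id.sub_const y))
      (h := fun θ => cN n * ENNReal.ofReal (1 - ⟪u, θ⟫ ^ 2) ^ (-(b / 2))) (by
        intro θ hθ ρ hρ _
        set s := ‖y - x‖ with hs
        have h2 : x + ρ • θ - y = ρ • θ - s • u := by
          rw [← hyu]; abel
        have h3 : ρ * Real.sqrt (1 - ⟪u, θ⟫ ^ 2) ≤ ‖ρ • θ - s • u‖ := by
          have h4 : ‖ρ • θ - s • u‖ ^ 2 = (s - ρ * ⟪u, θ⟫) ^ 2 + ρ ^ 2 * (1 - ⟪u, θ⟫ ^ 2) := by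
            rw [norm_sub_sq_real, norm_smul, norm_smul, hθ, hu, real_inner_smul_left,
              real_inner_smul_right, real_inner_comm, Real.norm_eq_abs, Real.norm_eq_abs, mul_one,
              mul_one, sq_abs, sq_abs]
            ring
          rw [show ρ * Real.sqrt (1 - ⟪u, θ⟫ ^ 2) = Real.sqrt (ρ ^ 2 * (1 - ⟪u, θ⟫ ^ 2)) by
            rw [Real.sqrt_mul (by positivity), Real.sqrt_sq hρ.le]]
          rw [Real.sqrt_le_left (norm_nonneg _), h4]
          nlinarith [sq_nonneg (s - ρ * ⟪u, θ⟫)]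
        have hq : 0 ≤ Real.sqrt (1 - ⟪u, θ⟫ ^ 2) := Real.sqrt_nonneg _
        have hq2 : ENNReal.ofReal (Real.sqrt (1 - ⟪u, θ⟫ ^ 2)) ^ (-b) =
            ENNReal.ofReal (1 - ⟪u, θ⟫ ^ 2) ^ (-(b / 2)) := by
          have hin : 0 ≤ 1 - ⟪u, θ⟫ ^ 2 := by
            have := abs_real_inner_le_norm u θ
            rw [hu, hθ, mul_one] at this
            have h5 := sq_abs ⟪u, θ⟫
            nlinarith [abs_nonneg ⟪u, θ⟫]
          rw [Real.sqrt_eq_rpow, ← ENNReal.ofReal_rpow_of_nonneg hin (by norm_num),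
            ← ENNReal.rpow_mul]
          congr 1; ring
        calc ENNReal.ofReal ρ ^ b * Nk (x + ρ • θ - y) ≤
              ENNReal.ofReal ρ ^ b * Nb n (ρ * Real.sqrt (1 - ⟪u, θ⟫ ^ 2)) := by
              gcongr
              rw [h2]
              exact (Nk_le hn _).trans (Nb_anti hn h3)
          _ = ENNReal.ofReal ρ ^ b * (ENNReal.ofReal ρ ^ (-b) *
                ENNReal.ofReal (Real.sqrt (1 - ⟪u, θ⟫ ^ 2)) ^ (-b) * cN n) := by
              rw [Nb, ENNReal.ofReal_mul hρ.le, ENNReal.mul_rpow_of_ne_top ENNReal.ofReal_ne_top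
                ENNReal.ofReal_ne_top]
          _ = (ENNReal.ofReal ρ ^ b * ENNReal.ofReal ρ ^ (-b)) *
                (cN n * ENNReal.ofReal (Real.sqrt (1 - ⟪u, θ⟫ ^ 2)) ^ (-b)) := by ring
          _ = cN n * ENNReal.ofReal (1 - ⟪u, θ⟫ ^ 2) ^ (-(b / 2)) := by
              rw [hcancel ρ hρ, one_mul, hq2])
    refine h1.trans ?_
    gcongr
    have h2 : ∀ θ, dirI D x R θ * (cN n * ENNReal.ofReal (1 - ⟪u, θ⟫ ^ 2) ^ (-(b / 2))) =
        cN n * (dirI D x R θ * ENNReal.ofReal (1 - ⟪u, θ⟫ ^ 2) ^ (-(b / 2))) := by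
      intro θ; ring
    simp_rw [h2]
    rw [lintegral_const_mul' _ _ hc1]
    gcongr
    exact hS u hu
  -- (c)
  have hcx : Ex W (fun p => {p | ext r p ≠ ∞}.indicator (fun _ => 1) p *
      Ψ (p.1 (ext r p).toNNReal)) x ≤
      κ * (cN n * (ENNReal.ofReal (R / r) ^ b * m)) := by
    rw [Ex_exit hW (by omega) hν hr0 hΨm]
    simp_rw [hΨeq]
    have hmm : Measurable (Function.uncurry fun (η z : E) => Nk (z - (x + r • η)) * g z) :=
      (measurable_Nk.comp (g := Nk) (f := fun q : E × E => q.2 - (x + r • q.1)) (by fun_prop)).mul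
        (hgm.comp measurable_snd)
    rw [lintegral_lintegral_swap hmm.aemeasurable]
    have h1 : ∀ z, ∫⁻ η, Nk (z - (x + r • η)) * g z ∂ν =
        (∫⁻ η, Nk (z - (x + r • η)) ∂ν) * g z := by
      intro z
      rw [lintegral_mul_const]
      exact measurable_Nk.comp (by fun_prop)
    simp_rw [h1]
    have hfm : Measurable fun z : E => ∫⁻ η, Nk (z - (x + r • η)) ∂ν :=
      Measurable.lintegral_prod_right' (f := fun q : E × E => Nk (q.1 - (x + r • q.2)))
        (measurable_Nk.comp (by fun_prop))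
    refine (lintegral_gD_le hn hν hD x R hfm
      (h := fun _ => ENNReal.ofReal R ^ b * Nb n r) ?_).trans ?_
    · intro θ hθ ρ hρ hρR
      apply mul_le_mul' (ENNReal.rpow_le_rpow (ENNReal.ofReal_le_ofReal hρR.le) (by linarith))
      refine le_trans (le_of_eq ?_) (newton_in hW hn hν hθ hρ (hρR.trans hr))
      apply lintegral_congr
      intro η
      congr 1
      abel
    · rw [lintegral_mul_const _ (measurable_dirI hD x R), lintegral_dirI hD x R]
      apply le_of_eq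
      unfold Nb
      rw [ENNReal.ofReal_div_of_pos hr0, ENNReal.div_rpow_of_nonneg _ _ (by linarith),
        ENNReal.rpow_neg, div_eq_mul_inv]
      ring
  -- the stopping argument
  set T : Pth E → ℝ≥0∞ := fun p => min (hitO D p) (ext r p) with hT
  have hTopt : IsOpt T := (isOpt_hitO hD).min (isOpt_ext r)
  have h1 : Ψ x = Ex W (fun p => {p | T p ≠ ∞}.indicator (fun _ => 1) p *
      Ψ (p.1 (T p).toNNReal)) x :=
    Ex_occ_T_eq hW hgm hTopt (fun z hz => gD_zero x R hz) (fun p => min_le_left _ _) x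
  have hmeasP : MeasurableSet {p : Pth E | hitO D p ≤ ext r p} :=
    measurableSet_le (measurable_hitO hD) (measurable_ext r)
  have h2 : Ψ x ≤ κ * (cN n * S) * W {p | hitO D (tr x p) ≤ ext r p} +
      κ * (cN n * (ENNReal.ofReal (R / r) ^ b * m)) := by
    rw [h1]
    calc Ex W (fun p => {p | T p ≠ ∞}.indicator (fun _ => 1) p * Ψ (p.1 (T p).toNNReal)) x ≤
          Ex W (fun p => κ * (cN n * S) * {p | hitO D p ≤ ext r p}.indicator (fun _ => 1) p +
            {p | ext r p ≠ ∞}.indicator (fun _ => 1) p * Ψ (p.1 (ext r p).toNNReal)) x := by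
          apply Ex_mono
          intro p
          by_cases hp : hitO D p ≤ ext r p
          · rw [indicator_of_mem (s := {p | hitO D p ≤ ext r p}) hp, mul_one]
            refine le_trans ?_ le_self_add
            calc {p | T p ≠ ∞}.indicator (fun _ => 1) p * Ψ (p.1 (T p).toNNReal) ≤
                  1 * (κ * (cN n * S)) :=
                  mul_le_mul' (indicator_le_self' (fun _ _ => zero_le) p) (hbd _)
              _ = κ * (cN n * S) := one_mul _
          · refine le_trans (le_of_eq ?_) le_add_self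
            have h3 : T p = ext r p := min_eq_right (not_le.1 hp).le
            have h4 : (p ∈ {p | T p ≠ ∞}) = (p ∈ {p : Pth E | ext r p ≠ ∞}) := by
              show (T p ≠ ∞) = (ext r p ≠ ∞)
              rw [h3]
            rw [h3]
            congr 1
            simp only [indicator, h4]
      _ = κ * (cN n * S) * W {p | hitO D (tr x p) ≤ ext r p} +
            Ex W (fun p => {p | ext r p ≠ ∞}.indicator (fun _ => 1) p *
              Ψ (p.1 (ext r p).toNNReal)) x := by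
          rw [Ex_add ((measurable_const.indicator hmeasP).const_mul _)]
          congr 1
          rw [Ex_const_mul _ (measurable_const.indicator hmeasP)]
          congr 1
          unfold Ex
          have h5 : (fun p : Pth E => {p : Pth E | hitO D p ≤ ext r p}.indicator
              (fun _ => (1:ℝ≥0∞)) (tr x p)) =
              {p : Pth E | hitO D (tr x p) ≤ ext r p}.indicator (fun _ => 1) := by
            funext p
            simp only [indicator, Set.mem_ofPred_eq, ext_tr]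
          rw [h5, lintegral_indicator]
          · simp
          · have : {p : Pth E | hitO D (tr x p) ≤ ext r p} =
                (tr x) ⁻¹' {p : Pth E | hitO D p ≤ ext r p} := by
              ext p
              simp only [mem_preimage, Set.mem_ofPred_eq, ext_tr]
            rw [this]
            exact measurable_tr x hmeasP
      _ ≤ _ := by gcongr
  rw [ha] at h2
  have h3 : κ * (cN n * S) * W {p | hitO D (tr x p) ≤ ext r p} +
      κ * (cN n * (ENNReal.ofReal (R / r) ^ b * m)) =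
      κ * (cN n * (S * W {p | hitO D (tr x p) ≤ ext r p} + ENNReal.ofReal (R / r) ^ b * m)) := by
    ring
  rw [h3] at h2
  exact (ENNReal.mul_le_mul_iff_right hc0 hc1).1 ((ENNReal.mul_le_mul_iff_right hκ0 hκ1).1 h2)

end Pool.Agent.Lib.P07dee5
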