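import Mathlib
import Pool.Agent.Lib.P07dee5.GeoA

/-! # Radial projection estimate: conclusion -/

open MeasureTheory Set Filter Topology ProbabilityTheory Module Metric
open scoped ENNReal NNReal RealInnerProductSpace

set_option linter.unusedSectionVars false

namespace Pool.Agent.Lib.P07dee5

lemma geo_num {b t : ℝ} (hb : 1 ≤ b) (ht0 : 0 < t) (ht1 : t < 1) {m P A : ℝ≥0∞} (hm : m ≤ 1)
    (hP : P ≤ 1) (hA : A ≠ ∞)
    (h : m ≤ m ^ (1 / (2 * b + 1)) * A * P + ENNReal.ofReal t ^ b * m) :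
    m ≤ (A * P / ENNReal.ofReal (1 - t)) ^ ((b + 1 / 2) / b) := by
  rcases eq_or_ne m 0 with rfl | hm0
  · exact zero_le
  have hmt : m ≠ ∞ := ne_top_of_le_ne_top ENNReal.one_ne_top hm
  have hPt : P ≠ ∞ := ne_top_of_le_ne_top ENNReal.one_ne_top hP
  lift m to ℝ≥0 using hmt
  lift P to ℝ≥0 using hPt
  lift A to ℝ≥0 using hA
  have hm0' : 0 < (m : ℝ) := by
    have : m ≠ 0 := by simpa using hm0
    positivity
  have hb0 : 0 < b := by linarith
  set q : ℝ := 1 / (2 * b + 1) with hq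
  have hq0 : 0 < q := by positivity
  have ht1' : 0 < 1 - t := by linarith
  -- real version of the hypothesis
  have h1 : (m : ℝ) ≤ (m : ℝ) ^ q * A * P + t ^ b * m := by
    have e1 : ((m : ℝ≥0∞)) ^ q = ((m ^ q : ℝ≥0) : ℝ≥0∞) := by
      rw [ENNReal.coe_rpow_of_nonneg _ hq0.le]
    have e2 : ENNReal.ofReal t ^ b = ENNReal.ofReal (t ^ b) := ENNReal.ofReal_rpow_of_pos ht0
    rw [e1, e2] at h
    have h2 := ENNReal.toReal_mono (by finiteness) h
    rw [ENNReal.toReal_add (by finiteness) (by finiteness)] at h2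
    simp only [ENNReal.toReal_mul, ENNReal.coe_toReal, NNReal.coe_rpow] at h2
    rwa [ENNReal.toReal_ofReal (by positivity)] at h2
  have h2 : t ^ b ≤ t := by
    have := Real.rpow_le_rpow_of_exponent_ge ht0 ht1.le hb
    rwa [Real.rpow_one] at this
  have h3 : (m : ℝ) * (1 - t) ≤ (m : ℝ) ^ q * (A * P) := by nlinarith
  have h4 : (m : ℝ) = (m : ℝ) ^ q * (m : ℝ) ^ (1 - q) := by
    rw [← Real.rpow_add hm0']
    simp
  have h5 : (m : ℝ) ^ (1 - q) * (1 - t) ≤ A * P := by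
    have hpos : 0 < (m : ℝ) ^ q := by positivity
    have : (m : ℝ) ^ q * ((m : ℝ) ^ (1 - q) * (1 - t)) ≤ (m : ℝ) ^ q * (A * P) := by
      rw [← mul_assoc, ← h4]; exact h3
    exact le_of_mul_le_mul_left this hpos
  have h6 : (m : ℝ) ^ (1 - q) ≤ A * P / (1 - t) := by
    rw [le_div_iff₀ ht1']; exact h5
  have hp : (1 - q) * ((b + 1 / 2) / b) = 1 := by
    rw [hq]; field_simp; ring
  have hp0 : 0 ≤ (b + 1 / 2) / b := by positivity
  have h7 : (m : ℝ) ≤ (A * P / (1 - t)) ^ ((b + 1 / 2) / b) := by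
    calc (m : ℝ) = ((m : ℝ) ^ (1 - q)) ^ ((b + 1 / 2) / b) := by
          rw [← Real.rpow_mul hm0'.le, hp, Real.rpow_one]
      _ ≤ _ := Real.rpow_le_rpow (by positivity) h6 hp0
  have e3 : (A : ℝ≥0∞) * P / ENNReal.ofReal (1 - t) = ENNReal.ofReal (A * P / (1 - t)) := by
    rw [ENNReal.ofReal_div_of_pos ht1', ENNReal.ofReal_mul (NNReal.coe_nonneg A), ENNReal.ofReal_coe_nnreal,
      ENNReal.ofReal_coe_nnreal]
  rw [e3, ENNReal.ofReal_rpow_of_nonneg (by positivity) hp0, ← ENNReal.ofReal_coe_nnreal]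
  exact ENNReal.ofReal_le_ofReal h7

variable {E : Type*} [NormedAddCommGroup E] [InnerProductSpace ℝ E] [FiniteDimensional ℝ E]
  [MeasurableSpace E] [BorelSpace E] {W : Measure (Pth E)}

lemma geo_of_sine (hn : 3 ≤ finrank ℝ E) (hW : IsWiener W)
    (hsine : ∃ C : ℝ≥0∞, C ≠ ∞ ∧ ∀ ν : Measure E, IsSph ν → ∀ u : E, ‖u‖ = 1 →
      ∫⁻ θ, ENNReal.ofReal (1 - ⟪u, θ⟫ ^ 2) ^ (-((finrank ℝ E : ℝ) / 2 - 3 / 4)) ∂ν ≤ C) :
    ∃ C : ℝ≥0∞, C ≠ ∞ ∧ ∀ D : Set E,
    IsOpen D → ∀ ν : Measure E, IsSph ν → ∀ (x : E) (r' r : ℝ), 0 < r' → r' < r →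
    ν {θ | ∃ ρ ∈ Ioc 0 r', x + ρ • θ ∈ D} ≤
      (C * W {p | hitO D (tr x p) ≤ ext r p} / ENNReal.ofReal (1 - r' / r)) ^
        (((finrank ℝ E : ℝ) - 3 / 2) / ((finrank ℝ E : ℝ) - 2)) := by
  obtain ⟨K, hK, hsine⟩ := hsine
  have hprob := hW.prob
  set n := finrank ℝ E with hndef
  set b : ℝ := (n : ℝ) - 2 with hb
  have hb1 : 1 ≤ b := by
    have : (3:ℝ) ≤ n := by exact_mod_cast hn
    linarith
  have hb0 : 0 < b := by linarith
  set p : ℝ := (b + 1 / 2) / b with hp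
  set q : ℝ := 2 * b + 1 with hq
  have hpq : q.HolderConjugate p := by
    rw [Real.holderConjugate_iff]
    constructor
    · rw [hq]; linarith
    · rw [hq, hp]; field_simp; ring
  refine ⟨K ^ (1 / p), ENNReal.rpow_ne_top_of_nonneg (by positivity) hK, ?_⟩
  intro D hD ν hν x r' r hr' hr
  have hprobν := hν.prob
  have hr0 : 0 < r := hr'.trans hr
  set m := ν {θ | ∃ ρ ∈ Ioc 0 r', x + ρ • θ ∈ D} with hm
  have hS : ∀ u : E, ‖u‖ = 1 → ∫⁻ θ, dirI D x r' θ *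
      ENNReal.ofReal (1 - ⟪u, θ⟫ ^ 2) ^ (-(b / 2)) ∂ν ≤ m ^ (1 / q) * K ^ (1 / p) := by
    intro u hu
    have h1 := ENNReal.lintegral_mul_le_Lp_mul_Lq ν hpq (f := dirI D x r')
      (g := fun θ => ENNReal.ofReal (1 - ⟪u, θ⟫ ^ 2) ^ (-(b / 2)))
      (measurable_dirI hD x r').aemeasurable (by fun_prop)
    refine h1.trans (mul_le_mul' (le_of_eq ?_) ?_)
    · congr 1
      rw [hm, ← lintegral_dirI hD x r']
      apply lintegral_congr
      intro θ
      rw [dirI_eq x r' hD]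
      by_cases hθ : θ ∈ {θ | ∃ ρ ∈ Ioc 0 r', x + ρ • θ ∈ D}
      · rw [indicator_of_mem hθ, ENNReal.one_rpow]
      · rw [indicator_of_notMem hθ, ENNReal.zero_rpow_of_pos (by positivity)]
    · gcongr
      refine le_trans (le_of_eq ?_) (hsine ν hν u hu)
      apply lintegral_congr
      intro θ
      rw [← ENNReal.rpow_mul]
      congr 1
      rw [hp, hb]
      have : (n:ℝ) - 2 ≠ 0 := by rw [← hb]; exact hb0.ne'
      field_simp
      ring
  have key := geo_aux hn hW hD hν x hr' hr hS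
  have ht0 : 0 < r' / r := by positivity
  have ht1 : r' / r < 1 := (div_lt_one hr0).2 hr
  have hfin := geo_num hb1 ht0 ht1 (m := m) (P := W {p | hitO D (tr x p) ≤ ext r p})
    (A := K ^ (1 / p)) prob_le_one prob_le_one
    (ENNReal.rpow_ne_top_of_nonneg (by positivity) hK) key
  have hexp : ((n : ℝ) - 3 / 2) / b = p := by rw [hp, hb]; congr 1; ring
  rw [hexp]
  exact hfin

end Pool.Agent.Lib.P07dee5
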