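import Pool.Agent.Lib.P07dee5.Sph

/-! # Integral of a power of the sine over the sphere -/

open MeasureTheory Set Filter Topology Module
open scoped ENNReal NNReal RealInnerProductSpace

set_option linter.unusedSectionVars false

namespace Pool.Agent.Lib.P07dee5

variable {E : Type*} [NormedAddCommGroup E] [InnerProductSpace ℝ E] [FiniteDimensional ℝ E]
  [MeasurableSpace E] [BorelSpace E]

/-- one dimensional factor -/
noncomputable def sinH (a : ℝ) (b : Prop) [Decidable b] (y : ℝ) : ℝ :=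
  (Metric.ball (0 : ℝ) 1).indicator (fun y => if b then 1 else ‖y‖ ^ (-(2 * a))) y

lemma sinH_nonneg (a : ℝ) (b : Prop) [Decidable b] (y : ℝ) : 0 ≤ sinH a b y := by
  unfold sinH
  apply indicator_nonneg
  intro x _
  split_ifs <;> positivity

lemma integrable_sinH {a : ℝ} (ha : a < 1 / 2) (b : Prop) [Decidable b] :
    Integrable (sinH a b) := by
  unfold sinH
  rw [integrable_indicator_iff Metric.isOpen_ball.measurableSet]
  by_cases hb : b
  · simp only [hb, if_true]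
    exact integrableOn_const measure_ball_lt_top.ne
  · simp only [hb, if_false]
    rw [integrableOn_fun_norm_addHaar (volume : Measure ℝ) (f := fun y => y ^ (-(2 * a)))]
    simp only [finrank_self, Nat.sub_self, pow_zero, one_smul]
    rw [intervalIntegral.integrableOn_Ioo_rpow_iff one_pos]
    linarith

/-- the constant -/
noncomputable def sinC (n : ℕ) (a : ℝ) : ℝ≥0∞ :=
  ∫⁻ x : Fin n → ℝ, ENNReal.ofReal (∏ i : Fin n, sinH a ((i : ℕ) = 0) (x i))

lemma sinC_ne_top (n : ℕ) {a : ℝ} (ha : a < 1 / 2) : sinC n a ≠ ∞ := by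
  have h : Integrable (fun x : Fin n → ℝ => ∏ i : Fin n, sinH a ((i : ℕ) = 0) (x i)) := by
    rw [volume_pi]
    exact Integrable.fintype_prod (f := fun i : Fin n => sinH a ((i : ℕ) = 0))
      (fun i => integrable_sinH ha _)
  exact (h.lintegral_lt_top).ne

/-- pointwise bound in coordinates -/
lemma sine_coord {n : ℕ} (hn : 3 ≤ n) {x : Fin n → ℝ} (hx : ∀ i, x i ≠ 0)
    (hx1 : ∀ i, |x i| < 1) {s : ℝ} (hs : 0 ≤ s) :
    ENNReal.ofReal (∑ i : Fin n, x i ^ 2 - x ⟨0, by omega⟩ ^ 2) ^ (-s) ≤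
      ENNReal.ofReal (∏ i : Fin n, sinH (s / (n - 1)) ((i : ℕ) = 0) (x i)) := by
  classical
  set i0 : Fin n := ⟨0, by omega⟩ with hi0
  have hsum : ∑ i, x i ^ 2 - x i0 ^ 2 = ∑ i ∈ Finset.univ.erase i0, x i ^ 2 := by
    rw [← Finset.add_sum_erase _ _ (Finset.mem_univ i0)]
    ring
  have hcard : (Finset.univ.erase i0).card = n - 1 := by
    rw [Finset.card_erase_of_mem (Finset.mem_univ _), Finset.card_univ, Fintype.card_fin]
  have hn1 : (0 : ℝ) < (n : ℝ) - 1 := by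
    have : (3 : ℝ) ≤ n := by exact_mod_cast hn
    linarith
  have hne : (Finset.univ.erase i0).Nonempty := by
    rw [← Finset.card_pos, hcard]; omega
  have hpos : 0 < ∑ i ∈ Finset.univ.erase i0, x i ^ 2 :=
    Finset.sum_pos (fun i _ => by have := hx i; positivity) hne
  rw [hsum, ENNReal.ofReal_rpow_of_pos hpos]
  apply ENNReal.ofReal_le_ofReal
  have hH : ∀ i : Fin n, sinH (s / (n - 1)) ((i : ℕ) = 0) (x i) =
      if (i : ℕ) = 0 then 1 else |x i| ^ (-(2 * (s / (n - 1)))) := by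
    intro i
    unfold sinH
    rw [indicator_of_mem (by simpa using hx1 i)]
    rfl
  simp only [hH]
  rw [← Finset.mul_prod_erase _ _ (Finset.mem_univ i0)]
  simp only [hi0, if_true, one_mul]
  rw [← hi0]
  have h1 : (∑ i ∈ Finset.univ.erase i0, x i ^ 2) ^ (-s) =
      ∏ j ∈ Finset.univ.erase i0, (∑ i ∈ Finset.univ.erase i0, x i ^ 2) ^ (-(s / (n - 1))) := by
    rw [Finset.prod_const, hcard, ← Real.rpow_natCast, ← Real.rpow_mul hpos.le]
    congr 1
    rw [Nat.cast_sub (by omega)]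
    push_cast
    field_simp
  rw [h1]
  apply Finset.prod_le_prod
  · intro i _
    positivity
  · intro i hi
    have hi' : (i : ℕ) ≠ 0 := by
      intro h
      exact (Finset.mem_erase.1 hi).1 (Fin.ext h)
    simp only [hi', if_false]
    have h2 : |x i| ^ (-(2 * (s / (n - 1)))) = (x i ^ 2) ^ (-(s / (n - 1))) := by
      rw [← sq_abs, ← Real.rpow_natCast, ← Real.rpow_mul (abs_nonneg _)]
      congr 1
      push_cast
      ring
    rw [h2]
    apply Real.rpow_le_rpow_of_nonpos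
    · have := hx i; positivity
    · exact Finset.single_le_sum (f := fun i => x i ^ 2) (fun i _ => by positivity) hi
    · have : 0 ≤ s / ((n : ℝ) - 1) := by positivity
      linarith

/-- bound of the integral over the unit ball -/
lemma sine_ball {n : ℕ} (hn : 3 ≤ n) (hfin : finrank ℝ E = n) {s : ℝ} (hs : 0 ≤ s) {θ : E}
    (hθ : ‖θ‖ = 1) :
    ∫⁻ z in Metric.ball (0 : E) 1, ENNReal.ofReal (‖z‖ ^ 2 - ⟪z, θ⟫ ^ 2) ^ (-s) ≤
      sinC n (s / (n - 1)) := by
  classical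
  set i0 : Fin n := ⟨0, by omega⟩ with hi0
  obtain ⟨b, hb⟩ := Orthonormal.exists_orthonormalBasis_extension_of_card_eq (𝕜 := ℝ) (E := E)
    (ι := Fin n) (by simp [hfin]) (v := fun _ => θ) (s := {i0}) (by
      constructor
      · intro i; simpa using hθ
      · intro i j hij
        exact absurd (Subsingleton.elim i j) hij)
  have hb0 : b i0 = θ := hb i0 rfl
  have hmp : MeasurePreserving (fun x : Fin n → ℝ => b.repr.symm (WithLp.toLp 2 x)) :=
    b.measurePreserving_repr_symm.comp (PiLp.volume_preserving_toLp (Fin n))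
  have hG : Measurable (fun z : E => (Metric.ball (0 : E) 1).indicator
      (fun z => ENNReal.ofReal (‖z‖ ^ 2 - ⟪z, θ⟫ ^ 2) ^ (-s)) z) := by
    apply Measurable.indicator _ Metric.isOpen_ball.measurableSet
    fun_prop
  rw [← lintegral_indicator Metric.isOpen_ball.measurableSet, ← hmp.lintegral_comp hG]
  unfold sinC
  have hnull : ∀ᵐ x : Fin n → ℝ, ∀ i, x i ≠ 0 := by
    rw [ae_all_iff]
    intro i
    have hq : Measure.QuasiMeasurePreserving (Function.eval i : (Fin n → ℝ) → ℝ) :=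
      Measure.quasiMeasurePreserving_eval (fun _ => volume) i
    exact hq.ae (Measure.ae_ne volume (0 : ℝ))
  apply lintegral_mono_ae
  filter_upwards [hnull] with x hx
  set z : E := b.repr.symm (WithLp.toLp 2 x) with hz
  have hzi : ∀ i, ⟪b i, z⟫ = x i := by
    intro i
    rw [← b.repr_apply_apply, hz, LinearIsometryEquiv.apply_symm_apply]
  by_cases hzb : z ∈ Metric.ball (0 : E) 1
  · rw [indicator_of_mem hzb]
    have hn2 : ‖z‖ ^ 2 = ∑ i, x i ^ 2 := by
      rw [← b.sum_sq_inner_right z]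
      simp only [hzi]
    have hzθ : ⟪z, θ⟫ = x i0 := by
      rw [real_inner_comm, ← hb0, hzi]
    rw [hn2, hzθ]
    apply sine_coord hn hx _ hs
    intro i
    rw [mem_ball_zero_iff] at hzb
    have h1 : x i ^ 2 ≤ ‖z‖ ^ 2 := by
      rw [hn2]
      exact Finset.single_le_sum (f := fun i => x i ^ 2) (fun i _ => by positivity)
        (Finset.mem_univ i)
    exact (abs_le_of_sq_le_sq h1 (norm_nonneg _)).trans_lt hzb
  · rw [indicator_of_notMem hzb]
    exact zero_le

lemma sine_indep {ν : Measure E} (hν : IsSph ν) (s : ℝ) {u v : E} (hu : ‖u‖ = 1) (hv : ‖v‖ = 1) :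
    ∫⁻ θ, ENNReal.ofReal (1 - ⟪u, θ⟫ ^ 2) ^ (-s) ∂ν =
      ∫⁻ θ, ENNReal.ofReal (1 - ⟪v, θ⟫ ^ 2) ^ (-s) ∂ν := by
  set Q := (ℝ ∙ (u - v))ᗮ.reflection with hQ
  have h1 : Q u = v := Submodule.reflection_sub (by rw [hu, hv])
  have hm : Measurable (fun θ : E => ENNReal.ofReal (1 - ⟪v, θ⟫ ^ 2) ^ (-s)) := by fun_prop
  conv_rhs => rw [← hν.rot Q]
  rw [lintegral_map hm Q.continuous.measurable]
  apply lintegral_congr
  intro θ
  rw [← h1, Q.inner_map_map]

theorem sine_bound (hn : 3 ≤ finrank ℝ E) : ∃ C : ℝ≥0∞, C ≠ ∞ ∧ ∀ ν : Measure E, IsSph ν →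
    ∀ u : E, ‖u‖ = 1 →
    ∫⁻ θ, ENNReal.ofReal (1 - ⟪u, θ⟫ ^ 2) ^ (-((finrank ℝ E : ℝ) / 2 - 3 / 4)) ∂ν ≤ C := by
  set n := finrank ℝ E with hfin
  set s : ℝ := (n : ℝ) / 2 - 3 / 4 with hs
  have hn3 : (3 : ℝ) ≤ n := by exact_mod_cast hn
  have hs0 : 0 ≤ s := by rw [hs]; linarith
  have ha : s / (n - 1) < 1 / 2 := by
    rw [div_lt_iff₀ (by linarith), hs]
    linarith
  have : Nontrivial E := Module.nontrivial_of_finrank_pos (R := ℝ) (by omega)
  set B : Set E := Metric.ball (0 : E) 1 with hB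
  have hvol0 : volume B ≠ 0 := (Metric.measure_ball_pos volume (0 : E) one_pos).ne'
  have hvolt : volume B ≠ ∞ := measure_ball_lt_top.ne
  refine ⟨(volume B)⁻¹ * sinC n (s / (n - 1)),
    ENNReal.mul_ne_top (ENNReal.inv_ne_top.2 hvol0) (sinC_ne_top n ha), ?_⟩
  intro ν hν u hu
  have := hν.prob
  set F : E → E → ℝ≥0∞ := fun z θ => ENNReal.ofReal (1 - ⟪‖z‖⁻¹ • z, θ⟫ ^ 2) ^ (-s) with hF
  have hFm : Measurable (Function.uncurry F) := by
    have : Measurable (fun q : E × E => ENNReal.ofReal (1 - ⟪‖q.1‖⁻¹ • q.1, q.2⟫ ^ 2) ^ (-s)) := by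
      apply Measurable.pow_const
      apply Measurable.ennreal_ofReal
      apply Measurable.const_sub
      apply Measurable.pow_const
      apply Measurable.inner _ measurable_snd
      exact (measurable_fst.norm.inv).smul measurable_fst
    exact this
  set I := ∫⁻ θ, ENNReal.ofReal (1 - ⟪u, θ⟫ ^ 2) ^ (-s) ∂ν with hI
  have e1 : volume B * I = ∫⁻ z in B, ∫⁻ θ, F z θ ∂ν := by
    rw [mul_comm, ← setLIntegral_const]
    apply lintegral_congr_ae
    have hne : ∀ᵐ z : E ∂(volume.restrict B), z ≠ 0 := ae_restrict_of_ae (Measure.ae_ne volume 0)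
    filter_upwards [hne] with z hz
    apply sine_indep hν s hu
    rw [norm_smul, norm_inv, norm_norm, inv_mul_cancel₀ (norm_ne_zero_iff.2 hz)]
  have e2 : ∫⁻ z in B, ∫⁻ θ, F z θ ∂ν = ∫⁻ θ, (∫⁻ z in B, F z θ) ∂ν :=
    lintegral_lintegral_swap hFm.aemeasurable
  have e3 : ∫⁻ θ, (∫⁻ z in B, F z θ) ∂ν ≤ ∫⁻ θ, sinC n (s / (n - 1)) ∂ν := by
    apply lintegral_mono_ae
    filter_upwards [hν.norm] with θ hθ
    refine le_trans ?_ (sine_ball hn hfin.symm hs0 hθ)
    apply setLIntegral_mono' Metric.isOpen_ball.measurableSet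
    intro z hz
    have hz1 : ‖z‖ < 1 := by simpa [hB] using hz
    show ENNReal.ofReal (1 - ⟪‖z‖⁻¹ • z, θ⟫ ^ 2) ^ (-s) ≤ _
    rw [ENNReal.rpow_neg, ENNReal.rpow_neg]
    apply ENNReal.inv_le_inv.2
    apply ENNReal.rpow_le_rpow _ hs0
    apply ENNReal.ofReal_le_ofReal
    by_cases hz0 : z = 0
    · simp [hz0]
    · have hzn : 0 < ‖z‖ := norm_pos_iff.2 hz0
      rw [inner_smul_left]
      simp only [map_inv₀, conj_trivial]
      have hcs : ⟪z, θ⟫ ^ 2 ≤ ‖z‖ ^ 2 := by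
        have := abs_real_inner_le_norm z θ
        rw [hθ, mul_one] at this
        exact sq_le_sq' (by linarith [neg_abs_le ⟪z, θ⟫]) (by linarith [le_abs_self ⟪z, θ⟫])
      have h1 : ‖z‖ ^ 2 - ⟪z, θ⟫ ^ 2 = ‖z‖ ^ 2 * (1 - (‖z‖⁻¹ * ⟪z, θ⟫) ^ 2) := by
        field_simp
      have h2 : 0 ≤ 1 - (‖z‖⁻¹ * ⟪z, θ⟫) ^ 2 := by
        have : 0 ≤ ‖z‖ ^ 2 * (1 - (‖z‖⁻¹ * ⟪z, θ⟫) ^ 2) := by rw [← h1]; linarith
        exact nonneg_of_mul_nonneg_right this (by positivity)
      rw [h1]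
      have h3 : ‖z‖ ^ 2 ≤ 1 := by nlinarith
      nlinarith
  rw [lintegral_const, measure_univ, mul_one] at e3
  have e4 : volume B * I ≤ sinC n (s / (n - 1)) := by rw [e1, e2]; exact e3
  calc I = (volume B)⁻¹ * (volume B * I) := by
        rw [← mul_assoc, ENNReal.inv_mul_cancel hvol0 hvolt, one_mul]
    _ ≤ (volume B)⁻¹ * sinC n (s / (n - 1)) := by gcongr

end Pool.Agent.Lib.P07dee5
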