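import Mathlib
import Pool.Agent.Lib.P07dee5.GeoB
import Pool.Agent.Lib.P07dee5.Sine

/-! # Radial projection estimate -/

open MeasureTheory Set Filter Topology ProbabilityTheory Module
open scoped ENNReal NNReal RealInnerProductSpace

set_option linter.unusedSectionVars false

namespace Pool.Agent.Lib.P07dee5

variable {E : Type*} [NormedAddCommGroup E] [InnerProductSpace ℝ E] [FiniteDimensional ℝ E]
  [MeasurableSpace E] [BorelSpace E] {W : Measure (Pth E)}

/-- Radial projection estimate: the measure of the set of directions from `x` in which an open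
set `D` is met before distance `r'` is controlled by the probability of hitting `D` before
distance `r`. -/
theorem geo (hn : 3 ≤ finrank ℝ E) (hW : IsWiener W) : ∃ C : ℝ≥0∞, C ≠ ∞ ∧ ∀ D : Set E,
    IsOpen D → ∀ ν : Measure E, IsSph ν → ∀ (x : E) (r' r : ℝ), 0 < r' → r' < r →
    ν {θ | ∃ ρ ∈ Ioc 0 r', x + ρ • θ ∈ D} ≤
      (C * W {p | hitO D (tr x p) ≤ ext r p} / ENNReal.ofReal (1 - r' / r)) ^
        (((finrank ℝ E : ℝ) - 3 / 2) / ((finrank ℝ E : ℝ) - 2)) :=
  geo_of_sine hn hW (sine_bound hn)

end Pool.Agent.Lib.P07dee5
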