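import Mathlib
import Pool.Agent.Lib.P07dee5.Chain
import Pool.Agent.Lib.P07dee5.Geo

/-! # Existence of good radii -/

open MeasureTheory Set Filter Topology ProbabilityTheory Module
open scoped ENNReal NNReal

set_option linter.unusedSectionVars false
set_option linter.unusedVariables false

namespace Pool.Agent.Lib.P07dee5

variable {E : Type*} [NormedAddCommGroup E] [InnerProductSpace ℝ E] [FiniteDimensional ℝ E]
  [MeasurableSpace E] [BorelSpace E] {W : Measure (Pth E)}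

lemma phi_le_one (hW : IsWiener W) (D : ℕ → Set E) (r : ℝ) (x : E) : phi W D r x ≤ 1 := by
  have := hW.prob
  exact prob_le_one

lemma phi_ne_top (hW : IsWiener W) (D : ℕ → Set E) (r : ℝ) (x : E) : phi W D r x ≠ ∞ :=
  ((phi_le_one hW D r x).trans_lt ENNReal.one_lt_top).ne

lemma tendsto_phi (hW : IsWiener W) {D : ℕ → Set E} (hD : ∀ k, IsOpen (D k)) (ha : Antitone D)
    (r : ℝ) (x : E) :
    Tendsto (fun k => W {p | hitO (D k) (tr x p) ≤ ext r p}) atTop (𝓝 (phi W D r x)) := by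
  have hprob := hW.prob
  have h1 : {p : Pth E | TT D (tr x p) ≤ ext r p} =
      ⋂ k, {p : Pth E | hitO (D k) (tr x p) ≤ ext r p} := by
    ext p
    simp only [TT, Set.mem_ofPred_eq, mem_iInter, iSup_le_iff]
  unfold phi
  rw [h1]
  apply tendsto_measure_iInter_atTop
  · intro k
    exact (measurableSet_le ((measurable_hitO (hD k)).comp (measurable_tr x))
      (measurable_ext r)).nullMeasurableSet
  · intro k l hkl p hp
    exact (mono_hitO ha (tr x p) hkl).trans hp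
  · exact ⟨0, measure_ne_top _ _⟩

/-- direction form of the bad event -/
lemma badSeg_le (hn : 3 ≤ finrank ℝ E) (hW : IsWiener W) (D : ℕ → Set E) (x : E) {r : ℝ}
    (hr : 0 < r) (k : ℕ) :
    W {p | tr x p ∈ badSeg D r} ≤ exl W r {θ | ∃ ρ ∈ Ioc 0 r, x + ρ • θ ∈ D k} := by
  unfold exl
  refine le_trans ?_ (Measure.le_map_apply (measurable_exit' r).aemeasurable _)
  apply measure_mono_ae
  filter_upwards [hW.zero] with p hp h
  obtain ⟨s, hs, h1⟩ := h k
  show ∃ ρ ∈ Ioc 0 r, x + ρ • (r⁻¹ • p.1 (ext r p).toNNReal) ∈ D k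
  refine ⟨s * r, ⟨mul_pos hs.1 hr, ?_⟩, ?_⟩
  · have := mul_le_mul_of_nonneg_right hs.2 hr.le
    rwa [one_mul] at this
  · rw [smul_smul, mul_assoc, mul_inv_cancel₀ hr.ne', mul_one]
    rw [ext_tr] at h1
    simp only [tr_apply, hp, add_zero, add_sub_cancel_left] at h1
    exact h1

/-- step (a) -/
lemma bad_le_phi (hn : 3 ≤ finrank ℝ E) (hW : IsWiener W) : ∃ C : ℝ, 0 ≤ C ∧ ∀ D : ℕ → Set E,
    (∀ k, IsOpen (D k)) → Antitone D → ∀ (x : E) (r' r : ℝ), 0 < r' → r' < r →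
    (W {p | tr x p ∈ badSeg D r'}).toReal ≤ (C * (phi W D r x).toReal / (1 - r' / r)) ^
      (((finrank ℝ E : ℝ) - 3 / 2) / ((finrank ℝ E : ℝ) - 2)) := by
  obtain ⟨C, hC, h⟩ := geo hn hW
  refine ⟨C.toReal, ENNReal.toReal_nonneg, ?_⟩
  intro D hD ha x r' r hr' hrr
  have hprob := hW.prob
  have hr : 0 < r := hr'.trans hrr
  have hn3 : (3:ℝ) ≤ finrank ℝ E := by exact_mod_cast hn
  set P : ℝ := ((finrank ℝ E : ℝ) - 3 / 2) / ((finrank ℝ E : ℝ) - 2) with hP
  have hPpos : 0 < P := by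
    rw [hP]; apply div_pos <;> linarith
  have hb : 0 < 1 - r' / r := by
    have : r' / r < 1 := (div_lt_one hr).2 hrr
    linarith
  have key : W {p | tr x p ∈ badSeg D r'} ≤
      (C * phi W D r x / ENNReal.ofReal (1 - r' / r)) ^ P := by
    have ht : Tendsto (fun k => (C * W {p | hitO (D k) (tr x p) ≤ ext r p} /
        ENNReal.ofReal (1 - r' / r)) ^ P) atTop
        (𝓝 ((C * phi W D r x / ENNReal.ofReal (1 - r' / r)) ^ P)) := by
      apply (ENNReal.continuous_rpow_const.tendsto _).comp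
      apply ENNReal.Tendsto.div_const _ (Or.inr (by simpa using hb))
      apply ENNReal.Tendsto.const_mul (tendsto_phi hW hD ha r x) (Or.inr hC)
    apply ge_of_tendsto' ht
    intro k
    exact (badSeg_le hn hW D x hr' k).trans
      (h (D k) (hD k) _ (isSph_exl hW (by omega) hr') x r' r hr' hrr)
  have hfin : (C * phi W D r x / ENNReal.ofReal (1 - r' / r)) ^ P ≠ ∞ := by
    apply ENNReal.rpow_ne_top_of_nonneg hPpos.le
    apply ENNReal.div_ne_top
    · exact ENNReal.mul_ne_top hC (phi_ne_top hW D r x)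
    · simpa using hb
  have h2 := ENNReal.toReal_mono hfin key
  rw [← ENNReal.toReal_rpow, ENNReal.toReal_div, ENNReal.toReal_mul,
    ENNReal.toReal_ofReal hb.le] at h2
  exact h2

/-- the numerical recursion -/
lemma recursion {C δ q : ℝ} (hC : 0 ≤ C) (hδ : 0 < δ) (hq : 0 < q) {s : ℝ}
    (hs : s = 1 / (4 * (C + 1) * 2 ^ q)) {a : ℕ → ℝ} (ha : ∀ j, 0 ≤ a j)
    (h0 : a 0 ≤ s ^ (q + 1) * δ ^ q)
    (hrec : ∀ j, δ * a (j + 1) ≤ (C * (2 ^ (j + 2) * a j)) ^ ((q + 1) / q)) (j : ℕ) :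
    C * (2 ^ (j + 2) * a j) ≤ (δ * s * (1 / 2) ^ (j + 1)) ^ q := by
  have hs0 : 0 < s := by rw [hs]; positivity
  have h2q : (0:ℝ) < 2 ^ q := by positivity
  have h4 : 4 * C * s ≤ (2 ^ q)⁻¹ := by
    rw [hs, mul_one_div, div_le_iff₀ (by positivity), inv_mul_eq_div, le_div_iff₀ h2q]
    nlinarith
  have main : ∀ j, a j ≤ δ ^ q * (s * (1 / 2) ^ j) ^ (q + 1) →
      C * (2 ^ (j + 2) * a j) ≤ (δ * s * (1 / 2) ^ (j + 1)) ^ q := by
    intro j hj
    set t : ℝ := s * (1 / 2) ^ j with ht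
    have ht0 : 0 < t := by positivity
    calc C * (2 ^ (j + 2) * a j) ≤ C * (2 ^ (j + 2) * (δ ^ q * t ^ (q + 1))) := by gcongr
      _ = (4 * C * s) * (δ ^ q * t ^ q) := by
          rw [Real.rpow_add_one ht0.ne']
          have : (2:ℝ) ^ (j + 2) * t = 4 * s := by
            rw [ht, pow_add]
            have : (2:ℝ) ^ j * (1 / 2) ^ j = 1 := by rw [← mul_pow]; norm_num
            calc (2:ℝ) ^ j * 2 ^ 2 * (s * (1 / 2) ^ j) = (2 ^ j * (1 / 2) ^ j) * (4 * s) := by ring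
              _ = 4 * s := by rw [this, one_mul]
          calc C * (2 ^ (j + 2) * (δ ^ q * (t ^ q * t))) = C * (δ ^ q * t ^ q) * (2 ^ (j + 2) * t) := by
                ring
            _ = _ := by rw [this]; ring
      _ ≤ (2 ^ q)⁻¹ * (δ ^ q * t ^ q) := by gcongr
      _ = (δ * s * (1 / 2) ^ (j + 1)) ^ q := by
          rw [← Real.mul_rpow hδ.le ht0.le, ← Real.inv_rpow (by norm_num),
            ← Real.mul_rpow (by norm_num) (by positivity)]
          congr 1
          rw [ht, pow_succ]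
          ring
  apply main
  induction j with
  | zero =>
    refine h0.trans (le_of_eq ?_)
    rw [pow_zero, mul_one, mul_comm]
  | succ j ih =>
    have h1 := main j ih
    have h2 := hrec j
    have h3 : (C * (2 ^ (j + 2) * a j)) ^ ((q + 1) / q) ≤ (δ * s * (1 / 2) ^ (j + 1)) ^ (q + 1) := by
      have h5 := Real.rpow_le_rpow (mul_nonneg hC (mul_nonneg (by positivity) (ha j))) h1
        (by positivity : 0 ≤ (q + 1) / q)
      rw [← Real.rpow_mul (by positivity), mul_div_cancel₀ _ hq.ne'] at h5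
      exact h5
    have h6 : (δ * s * (1 / 2) ^ (j + 1)) ^ (q + 1) =
        δ * (δ ^ q * (s * (1 / 2) ^ (j + 1)) ^ (q + 1)) := by
      rw [mul_assoc δ s, Real.mul_rpow hδ.le (by positivity), Real.rpow_add_one hδ.ne']
      ring
    rw [h6] at h3
    exact le_of_mul_le_mul_left (h2.trans h3) hδ


lemma gr_succ (k : ℕ) (r : ℝ) : gr (k + 1) r = r * (1 / 2 + (1 / 2) ^ (k + 1)) := by
  simp [gr]

lemma gr_zero (r : ℝ) : gr 0 r = r / 2 := by simp [gr]

lemma gr_pos (k : ℕ) {r : ℝ} (hr : 0 < r) : 0 < gr k r := by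
  cases k with
  | zero => rw [gr_zero]; positivity
  | succ k => rw [gr_succ]; positivity

/-- Existence of good radii. -/
theorem good_radius (hn : 3 ≤ finrank ℝ E) (hW : IsWiener W) : ∃ c : ℝ, 0 < c ∧ ∀ D : ℕ → Set E,
    (∀ k, IsOpen (D k)) → Antitone D → ∀ δ : ℝ, 0 < δ → δ ≤ 1 → ∀ (x : E) (r : ℝ), 0 < r →
    phi W D r x ≤ ENNReal.ofReal (c * δ ^ (2 * ((finrank ℝ E : ℝ) - 2))) →
    ∃ k, W {p | tr x p ∈ badSeg D (gr k r)} ≤ ENNReal.ofReal δ * phi W D (gr k r) x := by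
  obtain ⟨C, hC, h⟩ := bad_le_phi hn hW
  have hprob := hW.prob
  have hn3 : (3:ℝ) ≤ finrank ℝ E := by exact_mod_cast hn
  obtain ⟨q, hq⟩ : ∃ q : ℝ, q = 2 * ((finrank ℝ E : ℝ) - 2) := ⟨_, rfl⟩
  have hq0 : 0 < q := by rw [hq]; linarith
  have hP : ((finrank ℝ E : ℝ) - 3 / 2) / ((finrank ℝ E : ℝ) - 2) = (q + 1) / q := by
    have h1 : (finrank ℝ E : ℝ) - 2 ≠ 0 := by intro h2; linarith
    rw [div_eq_div_iff h1 hq0.ne', hq]
    ring
  rw [hP] at h
  have hP0 : 0 < (q + 1) / q := by positivity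
  obtain ⟨s, hs⟩ : ∃ s : ℝ, s = 1 / (4 * (C + 1) * 2 ^ q) := ⟨_, rfl⟩
  have hs0 : 0 < s := by rw [hs]; positivity
  refine ⟨s ^ (q + 1), by positivity, ?_⟩
  rw [← hq]
  intro D hD ha δ hδ hδ1 x r hr hphi
  by_contra hcon
  push Not at hcon
  obtain ⟨a, haa⟩ : ∃ a : ℕ → ℝ, a = fun j => (phi W D (gr (j + 1) r) x).toReal := ⟨_, rfl⟩
  have ha0 : ∀ j, 0 ≤ a j := fun j => by rw [haa]; exact ENNReal.toReal_nonneg
  have hlt : ∀ k, δ * (phi W D (gr k r) x).toReal ≤ (W {p | tr x p ∈ badSeg D (gr k r)}).toReal := by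
    intro k
    have h1 := ENNReal.toReal_mono (measure_ne_top _ _) (hcon k).le
    rwa [ENNReal.toReal_mul, ENNReal.toReal_ofReal hδ.le] at h1
  have hle1 : ∀ j : ℕ, (1 / 2 : ℝ) ^ (j + 1) ≤ 1 / 2 := by
    intro j
    rw [pow_succ]
    have : (1 / 2 : ℝ) ^ j ≤ 1 := pow_le_one₀ (by norm_num) (by norm_num)
    linarith
  -- the ratio estimate
  have hgen : ∀ (j : ℕ) (r' : ℝ), 0 < r' → r' ≤ r * (1 / 2 + (1 / 2) ^ (j + 2)) →
      (W {p | tr x p ∈ badSeg D r'}).toReal ≤ (C * (2 ^ (j + 2) * a j)) ^ ((q + 1) / q) := by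
    intro j r' hr' hle
    have hg : gr (j + 1) r = r * (1 / 2 + (1 / 2) ^ (j + 1)) := gr_succ j r
    have hgp := gr_pos (j + 1) hr
    have hpow : (0:ℝ) < (1 / 2) ^ (j + 2) := by positivity
    have hpow2 : (1 / 2 : ℝ) ^ (j + 1) = 2 * (1 / 2) ^ (j + 2) := by rw [pow_succ (1 / 2 : ℝ) (j + 1)]; ring
    have hgle : gr (j + 1) r ≤ r := by
      rw [hg]
      have := hle1 j
      nlinarith
    have hdiff : (1 / 2) ^ (j + 2) * gr (j + 1) r ≤ gr (j + 1) r - r' := by
      have h1 : gr (j + 1) r - r' ≥ r * (1 / 2) ^ (j + 2) := by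
        rw [hg, hpow2]; linarith
      have h2 : (1 / 2) ^ (j + 2) * gr (j + 1) r ≤ (1 / 2) ^ (j + 2) * r := by gcongr
      linarith
    have hlt' : r' < gr (j + 1) r := by
      have : 0 < (1 / 2) ^ (j + 2) * gr (j + 1) r := by positivity
      linarith
    have hratio : (1 / 2 : ℝ) ^ (j + 2) ≤ 1 - r' / gr (j + 1) r := by
      have : r' / gr (j + 1) r ≤ 1 - (1 / 2) ^ (j + 2) := by
        rw [div_le_iff₀ hgp]; linarith
      linarith
    refine (h D hD ha x r' (gr (j + 1) r) hr' hlt').trans ?_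
    apply Real.rpow_le_rpow _ _ hP0.le
    · apply div_nonneg (mul_nonneg hC ENNReal.toReal_nonneg)
      exact hpow.le.trans hratio
    · rw [mul_div_assoc]
      apply mul_le_mul_of_nonneg_left _ hC
      rw [div_le_iff₀ (hpow.trans_le hratio), haa]
      have h5 : (2:ℝ) ^ (j + 2) * (1 / 2) ^ (j + 2) = 1 := by rw [← mul_pow]; norm_num
      calc (phi W D (gr (j + 1) r) x).toReal = (2 ^ (j + 2) * (1 / 2) ^ (j + 2)) *
            (phi W D (gr (j + 1) r) x).toReal := by rw [h5, one_mul]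
        _ = 2 ^ (j + 2) * (phi W D (gr (j + 1) r) x).toReal * (1 / 2) ^ (j + 2) := by ring
        _ ≤ _ := by
            apply mul_le_mul_of_nonneg_left hratio
            have := ENNReal.toReal_nonneg (a := phi W D (gr (j + 1) r) x)
            positivity
  have hrec : ∀ j, δ * a (j + 1) ≤ (C * (2 ^ (j + 2) * a j)) ^ ((q + 1) / q) := by
    intro j
    have h1 := hlt (j + 2)
    have h2 := hgen j (gr (j + 2) r) (gr_pos _ hr) (gr_succ (j + 1) r).le
    refine le_trans ?_ (h1.trans h2)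
    rw [haa]
  have h0 : a 0 ≤ s ^ (q + 1) * δ ^ q := by
    rw [haa]
    have h1 : gr (0 + 1) r = r := by rw [gr_succ]; ring
    show (phi W D (gr (0 + 1) r) x).toReal ≤ _
    rw [h1]
    have h2 := ENNReal.toReal_mono ENNReal.ofReal_ne_top hphi
    rwa [ENNReal.toReal_ofReal (by positivity)] at h2
  have hmain := recursion hC hδ hq0 hs ha0 h0 hrec
  -- the event of radius `r / 2`
  have hb0 : 0 < (W {p | tr x p ∈ badSeg D (gr 0 r)}).toReal :=
    ENNReal.toReal_pos (zero_le.trans_lt (hcon 0)).ne' (measure_ne_top _ _)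
  have hb1 : ∀ j : ℕ, (W {p | tr x p ∈ badSeg D (gr 0 r)}).toReal ≤
      (δ * s * (1 / 2) ^ (j + 1)) ^ (q + 1) := by
    intro j
    have h2 := hgen j (gr 0 r) (gr_pos _ hr) (by
      rw [gr_zero]
      have : (0:ℝ) < (1 / 2) ^ (j + 2) := by positivity
      nlinarith)
    refine h2.trans ?_
    have h5 := Real.rpow_le_rpow (mul_nonneg hC (mul_nonneg (by positivity) (ha0 j))) (hmain j) hP0.le
    rw [← Real.rpow_mul (by positivity), mul_div_cancel₀ _ hq0.ne'] at h5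
    exact h5
  have hlim : Tendsto (fun j : ℕ => (δ * s * (1 / 2 : ℝ) ^ (j + 1)) ^ (q + 1)) atTop
      (𝓝 ((δ * s * 0) ^ (q + 1))) := by
    apply Tendsto.rpow_const
    · apply Tendsto.const_mul
      exact (tendsto_pow_atTop_nhds_zero_of_lt_one (by norm_num) (by norm_num)).comp
        (tendsto_add_atTop_nat 1)
    · right; positivity
  rw [mul_zero, Real.zero_rpow (by positivity)] at hlim
  have := ge_of_tendsto' hlim hb1
  linarith

end Pool.Agent.Lib.P07dee5
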