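import Mathlib
import Pool.Agent.Lib.P07dee5.Chain

/-! # Walk on spheres: the number of steps of a class limited by the risk -/

open MeasureTheory Set Filter Topology ProbabilityTheory Module
open scoped ENNReal NNReal RealInnerProductSpace

set_option linter.unusedSectionVars false
set_option linter.unusedVariables false

namespace Pool.Agent.Lib.P07dee5

variable {E : Type*} [NormedAddCommGroup E] [InnerProductSpace ℝ E] [FiniteDimensional ℝ E]
  [MeasurableSpace E] [BorelSpace E] {W : Measure (Pth E)}

namespace Limited

/-- spherical mean of `36 r² - ‖v + s θ‖²` -/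
lemma sph_mean {ν : Measure E} (hν : IsSph ν) {v : E} {s r : ℝ} (hs : 0 ≤ s)
    (h : ‖v‖ + s ≤ 6 * r) {c : ℝ} (hc : 0 ≤ c) :
    ∫⁻ θ, ENNReal.ofReal (c * (36 * r ^ 2 - ‖v + s • θ‖ ^ 2)) ∂ν
      = ENNReal.ofReal (c * (36 * r ^ 2 - ‖v‖ ^ 2 - s ^ 2)) := by
  have := hν.prob
  have hmeas : Measurable (fun θ : E => ENNReal.ofReal (c * (36 * r ^ 2 - ‖v + s • θ‖ ^ 2))) := by
    fun_prop
  have h1 := hν.lintegral_rot (LinearIsometryEquiv.neg ℝ) hmeas
  have h2 : ∫⁻ θ, ENNReal.ofReal (c * (36 * r ^ 2 - ‖v + s • θ‖ ^ 2)) ∂ν
      + ∫⁻ θ, ENNReal.ofReal (c * (36 * r ^ 2 - ‖v + s • θ‖ ^ 2)) ∂ν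
      = ENNReal.ofReal (c * (36 * r ^ 2 - ‖v‖ ^ 2 - s ^ 2))
        + ENNReal.ofReal (c * (36 * r ^ 2 - ‖v‖ ^ 2 - s ^ 2)) := by
    conv_lhs =>
      enter [1]
      rw [← h1]
    rw [← lintegral_add_right _ hmeas]
    have h3 : ∀ᵐ θ ∂ν, ENNReal.ofReal (c * (36 * r ^ 2 -
        ‖v + s • (LinearIsometryEquiv.neg ℝ : E ≃ₗᵢ[ℝ] E) θ‖ ^ 2))
        + ENNReal.ofReal (c * (36 * r ^ 2 - ‖v + s • θ‖ ^ 2))
        = ENNReal.ofReal (c * (36 * r ^ 2 - ‖v‖ ^ 2 - s ^ 2))
        + ENNReal.ofReal (c * (36 * r ^ 2 - ‖v‖ ^ 2 - s ^ 2)) := by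
      filter_upwards [hν.norm] with θ hθ
      have hb : ∀ w : E, ‖w‖ ≤ ‖v‖ + s → 0 ≤ c * (36 * r ^ 2 - ‖w‖ ^ 2) := by
        intro w hw
        apply mul_nonneg hc
        nlinarith [norm_nonneg w, norm_nonneg v]
      have e1 : ‖v + s • (LinearIsometryEquiv.neg ℝ : E ≃ₗᵢ[ℝ] E) θ‖ = ‖v - s • θ‖ := by
        simp [sub_eq_add_neg]
      have e2 : ‖s • θ‖ = s := by rw [norm_smul, hθ, mul_one, Real.norm_eq_abs, abs_of_nonneg hs]
      have n1 : ‖v + s • θ‖ ≤ ‖v‖ + s := by
        have := norm_add_le v (s • θ)
        rwa [e2] at this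
      have n2 : ‖v - s • θ‖ ≤ ‖v‖ + s := by
        have := norm_sub_le v (s • θ)
        rwa [e2] at this
      have hp := parallelogram_law_with_norm ℝ v (s • θ)
      rw [e2] at hp
      rw [e1, ← ENNReal.ofReal_add (hb _ n2) (hb _ n1), ← ENNReal.ofReal_add]
      · congr 1
        nlinarith
      · apply mul_nonneg hc
        nlinarith [norm_nonneg v]
      · apply mul_nonneg hc
        nlinarith [norm_nonneg v]
    rw [lintegral_congr_ae h3]
    simp
  -- halving
  have hne : ENNReal.ofReal (c * (36 * r ^ 2 - ‖v‖ ^ 2 - s ^ 2)) ≠ ∞ := ENNReal.ofReal_ne_top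
  have h4 : (2 : ℝ≥0∞) * ∫⁻ θ, ENNReal.ofReal (c * (36 * r ^ 2 - ‖v + s • θ‖ ^ 2)) ∂ν
      = 2 * ENNReal.ofReal (c * (36 * r ^ 2 - ‖v‖ ^ 2 - s ^ 2)) := by
    rw [two_mul, two_mul]
    exact h2
  exact (ENNReal.mul_right_inj (by norm_num) (by norm_num)).1 h4

open Classical in
/-- indicator of `TT ≤ eB` -/
noncomputable def I1 (D : ℕ → Set E) (x : E) (R : ℝ) (q : Pth E) : ℝ≥0∞ :=
  if TT D q ≤ eB x R q then 1 else 0

open Classical in
/-- indicator of `e_z < TT ≤ eB` -/
noncomputable def I2 (D : ℕ → Set E) (x z : E) (R s : ℝ) (q : Pth E) : ℝ≥0∞ :=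
  if eB z s q < TT D q ∧ TT D q ≤ eB x R q then 1 else 0

lemma isClosed_cb (x : E) (R : ℝ) : IsClosed (Metric.ball x R)ᶜ :=
  Metric.isOpen_ball.isClosed_compl

lemma measurable_eB (x : E) (R : ℝ) : Measurable (eB (E := E) x R) :=
  measurable_hitC (isClosed_cb x R)

lemma measurableSet_I1 {D : ℕ → Set E} (hD : ∀ k, IsOpen (D k)) (x : E) (R : ℝ) :
    MeasurableSet {q : Pth E | TT D q ≤ eB x R q} :=
  measurableSet_le (measurable_TT hD) (measurable_eB x R)

lemma measurableSet_I2 {D : ℕ → Set E} (hD : ∀ k, IsOpen (D k)) (x z : E) (R s : ℝ) :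
    MeasurableSet {q : Pth E | eB z s q < TT D q ∧ TT D q ≤ eB x R q} :=
  (measurableSet_lt (measurable_eB z s) (measurable_TT hD)).inter (measurableSet_I1 hD x R)

lemma measurable_I1 {D : ℕ → Set E} (hD : ∀ k, IsOpen (D k)) (x : E) (R : ℝ) :
    Measurable (I1 D x R) :=
  Measurable.ite (measurableSet_I1 hD x R) measurable_const measurable_const

lemma measurable_I2 {D : ℕ → Set E} (hD : ∀ k, IsOpen (D k)) (x z : E) (R s : ℝ) :
    Measurable (I2 D x z R s) :=
  Measurable.ite (measurableSet_I2 hD x z R s) measurable_const measurable_const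

lemma Ex_I1 {D : ℕ → Set E} (hD : ∀ k, IsOpen (D k)) (x : E) (R : ℝ) (y : E) :
    Ex W (I1 D x R) y = hB W D x R y := by
  unfold Ex hB
  have : (fun p => I1 D x R (tr y p))
      = {p | TT D (tr y p) ≤ eB x R (tr y p)}.indicator (fun _ => (1 : ℝ≥0∞)) := by
    funext p
    unfold I1
    by_cases h : TT D (tr y p) ≤ eB x R (tr y p)
    · rw [if_pos h, Set.indicator_of_mem (by exact h)]
    · rw [if_neg h, Set.indicator_of_notMem (by exact h)]
  rw [this]
  exact lintegral_indicator_one ((measurable_tr y) (measurableSet_I1 hD x R))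

section

variable {D : ℕ → Set E} {x : E} {R ε δ : ℝ} {ρ : E → ℝ} {m : E → ℕ}

/-- the risk is superharmonic along the walk -/
lemma hB_super (hW : IsWiener W) (hD : ∀ k, IsOpen (D k)) (ha : Antitone D)
    (h : Walk W D x R ε δ ρ m) {y : E} (hy : y ∈ SB D x R) :
    Ex W (fun p => bef D (exr ρ) p * hB W D x R (stp ρ p)) y ≤ hB W D x R y := by
  have e1 : (fun p : Pth E => bef D (exr ρ) p * hB W D x R (stp ρ p))
      = fun p => bef D (exr ρ) p * Ex W (I1 D x R) (stp ρ p) := by
    funext p
    rw [Ex_I1 hD]
  rw [e1, ← Ex_bef_mul hW hD h.meas (measurable_I1 hD x R), ← Ex_I1 hD]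
  apply lintegral_mono_ae
  filter_upwards [hW.zero] with p hp
  have hp0 : (tr y p).1 0 = y := by simp [hp]
  by_cases hb : exr ρ (tr y p) < TT D (tr y p)
  · rw [bef_of_lt hb, one_mul]
    unfold I1
    have hne : exr ρ (tr y p) ≠ ∞ := ne_top_of_lt hb
    have hle : ρ ((tr y p).1 0) ≤ R - dist ((tr y p).1 0) x := by
      rw [hp0]
      have h1 := h.le_dist hy
      have h2 := h.pos hy
      linarith
    by_cases hc : TT D (nxt ρ (tr y p)) ≤ eB x R (nxt ρ (tr y p))
    · rw [if_pos hc, if_pos]
      rw [TT_nxt hD ha hb, eB_nxt hle hne]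
      gcongr
    · rw [if_neg hc]
      exact zero_le
  · rw [bef_of_not hb, zero_mul]
    exact zero_le

lemma Ex_zero_of {c : Pth E → ℝ≥0∞} (hW : IsWiener W) {y : E}
    (h : ∀ q : Pth E, q.1 0 = y → c q = 0) : Ex W c y = 0 := by
  unfold Ex
  rw [lintegral_congr_ae (g := fun _ => 0)]
  · simp
  · filter_upwards [hW.zero] with p hp
    exact h _ (by simp [hp])

lemma measurable_cL (hm : Measurable m) (k : ℕ) : Measurable (cL x R m k) := by
  classical
  unfold cL
  apply Measurable.ite _ measurable_const measurable_const
  apply MeasurableSet.inter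
  · exact measurableSet_eq_fun (hm.comp (measurable_eval 0)) measurable_const
  · exact measurableSet_le measurable_const
      (measurable_const.sub ((measurable_eval 0).dist measurable_const))

lemma Af_mono' (D : ℕ → Set E) (ρ : E → ℝ) (c : Pth E → ℝ≥0∞) {i j : ℕ} (hij : i ≤ j)
    (p : Pth E) : Af D ρ c i p ≤ Af D ρ c j p :=
  monotone_nat_of_le_succ (fun n => Af_mono D ρ c n p) hij

open Classical in
/-- piecewise indicator -/
noncomputable def FF (D : ℕ → Set E) (x z : E) (R s : ℝ) (q : Pth E) : ℝ≥0∞ :=
  if dist (q.1 0) z < s then I2 D x z R s q else I1 D x R q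

lemma measurable_FF (hD : ∀ k, IsOpen (D k)) (x z : E) (R s : ℝ) :
    Measurable (FF D x z R s) := by
  classical
  exact Measurable.ite (measurableSet_lt ((measurable_eval 0).dist measurable_const)
    measurable_const) (measurable_I2 hD x z R s) (measurable_I1 hD x R)

lemma Ex_FF_in (hW : IsWiener W) {z w : E} {s : ℝ} (hw : dist w z < s) :
    Ex W (FF D x z R s) w = Ex W (I2 D x z R s) w := by
  unfold Ex
  apply lintegral_congr_ae
  filter_upwards [hW.zero] with p hp
  have hp0 : (tr w p).1 0 = w := by simp [hp]
  unfold FF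
  rw [hp0, if_pos hw]

lemma Ex_FF_out (hW : IsWiener W) {z w : E} {s : ℝ} (hw : ¬ dist w z < s) :
    Ex W (FF D x z R s) w = Ex W (I1 D x R) w := by
  unfold Ex
  apply lintegral_congr_ae
  filter_upwards [hW.zero] with p hp
  have hp0 : (tr w p).1 0 = w := by simp [hp]
  unfold FF
  rw [hp0, if_neg hw]

/-- the combined risk is superharmonic along the walk -/
lemma FF_super (hW : IsWiener W) (hD : ∀ k, IsOpen (D k)) (ha : Antitone D)
    (h : Walk W D x R ε δ ρ m) (z : E) (s : ℝ) {w : E} (hw : w ∈ SB D x R) :
    Ex W (fun p => bef D (exr ρ) p * Ex W (FF D x z R s) (stp ρ p)) w ≤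
      Ex W (I2 D x z R s) w := by
  rw [← Ex_bef_mul hW hD h.meas (measurable_FF hD x z R s)]
  apply lintegral_mono_ae
  filter_upwards [hW.zero] with p hp
  have hp0 : (tr w p).1 0 = w := by simp [hp]
  generalize tr w p = q at hp0
  by_cases hb : exr ρ q < TT D q
  swap
  · rw [bef_of_not hb, zero_mul]
    exact zero_le
  rw [bef_of_lt hb, one_mul]
  have hne : exr ρ q ≠ ∞ := ne_top_of_lt hb
  have hle : ρ (q.1 0) ≤ R - dist (q.1 0) x := by
    rw [hp0]
    have h1 := h.le_dist hw
    have h2 := h.pos hw
    linarith
  have hT := TT_nxt hD ha hb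
  have hE := eB_nxt hle hne
  have key : TT D (nxt ρ q) ≤ eB x R (nxt ρ q) → TT D q ≤ eB x R q := by
    intro hc
    rw [hT, hE]
    gcongr
  unfold FF
  by_cases hd : dist ((nxt ρ q).1 0) z < s
  · rw [if_pos hd]
    unfold I2
    by_cases hc : eB z s (nxt ρ q) < TT D (nxt ρ q) ∧ TT D (nxt ρ q) ≤ eB x R (nxt ρ q)
    · rw [if_pos hc, if_pos]
      refine ⟨?_, key hc.2⟩
      have h1 : eB z s q ≤ exr ρ q + eB z s (nxt ρ q) := by
        have := hitC_shift_le (F := (Metric.ball z s)ᶜ) (p := q) (exr ρ q).toNNReal
        rw [ENNReal.coe_toNNReal hne] at this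
        exact this
      refine h1.trans_lt ?_
      rw [hT]
      exact (ENNReal.add_lt_add_iff_left hne).2 hc.1
    · rw [if_neg hc]
      exact zero_le
  · rw [if_neg hd]
    unfold I1 I2
    by_cases hc : TT D (nxt ρ q) ≤ eB x R (nxt ρ q)
    · rw [if_pos hc, if_pos]
      refine ⟨?_, key hc⟩
      have h1 : eB z s q ≤ exr ρ q := by
        have : eB z s q ≤ ((exr ρ q).toNNReal : ℝ≥0∞) := by
          apply hitC_le
          rw [nxt_zero] at hd
          show stp ρ q ∈ (Metric.ball z s)ᶜ
          rw [Set.mem_compl_iff, Metric.mem_ball]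
          exact hd
        rwa [ENNReal.coe_toNNReal hne] at this
      exact h1.trans_lt hb
    · rw [if_neg hc]
      exact zero_le

/-- mean of the quadratic function after a step -/
lemma mean_step (hn : 3 ≤ finrank ℝ E) (hW : IsWiener W) (h : Walk W D x R ε δ ρ m) {w z : E}
    {r c : ℝ} (hw : w ∈ SB D x R) (hd : dist w z + ρ w ≤ 6 * r) (hc : 0 ≤ c) :
    Ex W (fun p => {p | exr ρ p ≠ ∞}.indicator (fun _ => 1) p
      * ENNReal.ofReal (c * (36 * r ^ 2 - dist (stp ρ p) z ^ 2))) w
      = ENNReal.ofReal (c * (36 * r ^ 2 - dist w z ^ 2 - ρ w ^ 2)) := by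
  have hρ : 0 < ρ w := h.pos hw
  have hν := isSph_exl hW (by omega : 0 < finrank ℝ E) hρ
  have hG : Measurable (fun y : E => ENNReal.ofReal (c * (36 * r ^ 2 - dist y z ^ 2))) := by
    fun_prop
  have h1 := Ex_exit hW (by omega : 0 < finrank ℝ E) hν hρ hG w
  have h2 : Ex W (fun p => {p | exr ρ p ≠ ∞}.indicator (fun _ => 1) p
      * ENNReal.ofReal (c * (36 * r ^ 2 - dist (stp ρ p) z ^ 2))) w
      = Ex W (fun p => {p | ext (ρ w) p ≠ ∞}.indicator (fun _ => 1) p
        * ENNReal.ofReal (c * (36 * r ^ 2 - dist (p.1 (ext (ρ w) p).toNNReal) z ^ 2))) w := by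
    unfold Ex
    apply lintegral_congr_ae
    filter_upwards [hW.zero] with p hp
    have hp0 : (tr w p).1 0 = w := by simp [hp]
    generalize tr w p = q at hp0
    have e1 : exr ρ q = ext (ρ w) q := by unfold exr; rw [hp0]
    unfold stp
    simp only [Set.indicator, Set.mem_ofPred_eq, e1]
  rw [h2, h1]
  have h3 := sph_mean hν (v := w - z) (r := r) hρ.le (by rw [← dist_eq_norm]; exact hd) hc
  rw [← dist_eq_norm] at h3
  rw [← h3]
  apply lintegral_congr
  intro θ
  rw [dist_eq_norm]
  congr 5
  abel

lemma phi_add_le (hW : IsWiener W) (hD : ∀ k, IsOpen (D k)) {z : E} {s : ℝ}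
    (hs : s + dist z x ≤ R) :
    phi W D s z + Ex W (I2 D x z R s) z ≤ hB W D x R z := by
  have hm1 : MeasurableSet {p : Pth E | TT D (tr z p) ≤ ext s p} :=
    measurableSet_le ((measurable_TT hD).comp (measurable_tr z)) (measurable_ext s)
  have e1 : phi W D s z = ∫⁻ p, {p : Pth E | TT D (tr z p) ≤ ext s p}.indicator 1 p ∂W :=
    (lintegral_indicator_one hm1).symm
  rw [← Ex_I1 hD, e1]
  unfold Ex
  rw [← lintegral_add_left (measurable_one.indicator hm1)]
  apply lintegral_mono_ae
  filter_upwards [hW.zero] with p hp
  have hext : ext s p = eB z s (tr z p) := by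
    rw [ext_eq]
    unfold eB hitC
    have hp' : tr (-p.1 0) p = p := by
      apply pth_ext
      intro t
      simp [hp]
    rw [hp']
    congr 1
    funext t
    have : p.1 t ∈ {y : E | s ≤ ‖y‖} ↔ (tr z p).1 t ∈ (Metric.ball z s)ᶜ := by
      rw [Set.mem_compl_iff, Metric.mem_ball, not_lt, tr_apply, dist_eq_norm,
        add_sub_cancel_left]
      exact Iff.rfl
    exact iInf_congr_Prop this (fun _ => rfl)
  have hee : eB z s (tr z p) ≤ eB x R (tr z p) := by
    unfold eB hitC
    apply le_iInf₂
    intro t ht
    apply iInf₂_le t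
    rw [Set.mem_compl_iff, Metric.mem_ball, not_lt] at ht ⊢
    have := dist_triangle ((tr z p).1 t) z x
    linarith
  unfold I1 I2
  by_cases h1 : TT D (tr z p) ≤ eB z s (tr z p)
  · have h2 : TT D (tr z p) ≤ eB x R (tr z p) := h1.trans hee
    rw [if_pos h2, if_neg (fun h3 => absurd h3.1 (not_lt.2 h1)), add_zero]
    by_cases h5 : p ∈ {p : Pth E | TT D (tr z p) ≤ ext s p}
    · rw [Set.indicator_of_mem h5]
      exact le_rfl
    · rw [Set.indicator_of_notMem h5]
      exact zero_le
  · rw [Set.indicator_of_notMem, zero_add]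
    · split_ifs with h3 h4 h4
      · exact le_rfl
      · exact absurd h3.2 h4
      · exact zero_le
      · exact le_rfl
    · rw [Set.mem_ofPred_eq, hext]
      exact h1

end

end Limited

open Limited

theorem limited_le (hn : 3 ≤ finrank ℝ E) (hW : IsWiener W) {D : ℕ → Set E}
    (hD : ∀ k, IsOpen (D k)) (ha : Antitone D)
    {x : E} {R ε δ : ℝ} {ρ : E → ℝ} {m : E → ℕ} (h : Walk W D x R ε δ ρ m) (k j : ℕ) :
    ∀ y ∈ SB D x R,
      ENNReal.ofReal ε * Ex W (Af D ρ (cL x R m k) j) y ≤ 144 * hB W D x R y := by
  classical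
  have hcm : Measurable (cL x R m k) := measurable_cL h.measm k
  set r : ℝ := R / 2 ^ k with hr
  have hr0 : 0 < r := by have := h.Rpos; positivity
  have hε := h.epos
  induction j with
  | zero =>
    intro y hy
    have : Ex W (Af D ρ (cL x R m k) 0) y = 0 := by
      apply Ex_zero_of hW
      intro q _
      rfl
    rw [this, mul_zero]
    exact zero_le
  | succ j ih =>
    intro y hy
    by_cases hK : m y = k ∧ 32 * r ≤ R - dist y x
    swap
    · -- no cost
      rw [Ex_Af_succ hW hD h.meas hcm, Ex_zero_of hW (c := cL x R m k), zero_add]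
      · calc ENNReal.ofReal ε
              * Ex W (fun p => bef D (exr ρ) p * Ex W (Af D ρ (cL x R m k) j) (stp ρ p)) y
            = Ex W (fun p => ENNReal.ofReal ε
              * (bef D (exr ρ) p * Ex W (Af D ρ (cL x R m k) j) (stp ρ p))) y := by
              rw [Ex_const_mul]
              exact (measurable_bef hD (measurable_exr h.meas)).mul
                ((measurable_Ex hW (measurable_Af hD h.meas hcm j)).comp (measurable_stp h.meas))
          _ ≤ Ex W (fun p => 144 * (bef D (exr ρ) p * hB W D x R (stp ρ p))) y := by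
              apply lintegral_mono_ae
              filter_upwards [hW.zero] with p hp
              by_cases hb : exr ρ (tr y p) < TT D (tr y p)
              · have h1 : stp ρ (tr y p) ∈ SB D x R := h.inv (tr y p) (by simpa [hp] using hy) hb
                simp only [bef_of_lt hb, one_mul]
                exact ih _ h1
              · simp [bef_of_not hb]
          _ = 144 * Ex W (fun p => bef D (exr ρ) p * hB W D x R (stp ρ p)) y := by
              apply Ex_const_mul
              have : hB W D x R = Ex W (I1 D x R) := by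
                funext w
                exact (Ex_I1 hD x R w).symm
              rw [this]
              exact (measurable_bef hD (measurable_exr h.meas)).mul
                ((measurable_Ex hW (measurable_I1 hD x R)).comp (measurable_stp h.meas))
          _ ≤ 144 * hB W D x R y := by
              gcongr
              exact hB_super hW hD ha h hy
      · intro q hq
        unfold cL
        rw [hq, if_neg hK]
    · -- a starting point of class `k`
      set c4 : ℝ := 4 * ε / r ^ 2 with hc4
      have hc40 : 0 ≤ c4 := by positivity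
      have inner : ∀ i ≤ j + 1, ∀ w ∈ SB D x R, dist w y < 2 * r →
          ENNReal.ofReal ε * Ex W (Af D ρ (cL x R m k) i) w ≤
            ENNReal.ofReal (c4 * (36 * r ^ 2 - dist w y ^ 2))
              + 144 * Ex W (I2 D x y R (2 * r)) w := by
        intro i
        induction i with
        | zero =>
          intro _ w _ _
          have : Ex W (Af D ρ (cL x R m k) 0) w = 0 := by
            apply Ex_zero_of hW
            intro q _
            rfl
          rw [this, mul_zero]
          exact zero_le
        | succ i ihi =>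
          intro hi w hw hd
          have ihi' := ihi (by omega)
          have hρw := h.pos hw
          -- the cost
          have hcost : ENNReal.ofReal ε * Ex W (cL x R m k) w
              ≤ ENNReal.ofReal (if m w = k ∧ 32 * r ≤ R - dist w x then ε else 0) := by
            split_ifs with hKw
            · calc ENNReal.ofReal ε * Ex W (cL x R m k) w ≤ ENNReal.ofReal ε * 1 := by
                    gcongr
                    calc Ex W (cL x R m k) w ≤ Ex W (fun _ => 1) w := by
                          apply Ex_mono
                          intro q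
                          unfold cL
                          split_ifs <;> simp
                      _ = 1 := Ex_const hW 1 w
                _ = ENNReal.ofReal ε := mul_one _
            · rw [Ex_zero_of hW, mul_zero]
              · exact zero_le
              · intro q hq
                unfold cL
                rw [hq, if_neg hKw]
          have hmeas1 : Measurable (fun p : Pth E => bef D (exr ρ) p
              * Ex W (Af D ρ (cL x R m k) i) (stp ρ p)) :=
            (measurable_bef hD (measurable_exr h.meas)).mul
              ((measurable_Ex hW (measurable_Af hD h.meas hcm i)).comp (measurable_stp h.meas))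
          have hmeas2 : Measurable (fun p : Pth E => bef D (exr ρ) p
              * Ex W (FF D x y R (2 * r)) (stp ρ p)) :=
            (measurable_bef hD (measurable_exr h.meas)).mul
              ((measurable_Ex hW (measurable_FF hD x y R (2 * r))).comp (measurable_stp h.meas))
          have hVi : ∀ w' ∈ SB D x R, ENNReal.ofReal ε * Ex W (Af D ρ (cL x R m k) i) w'
              ≤ 144 * hB W D x R w' := by
            intro w' hw'
            refine le_trans ?_ (ih w' hw')
            gcongr
            exact Ex_mono (fun p => Af_mono' D ρ (cL x R m k) (by omega) p) w'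
          have hsup := FF_super hW hD ha h y (2 * r) hw
          rw [Ex_Af_succ hW hD h.meas hcm, mul_add]
          by_cases hbig : 4 * r < ρ w
          · -- long step
            have hKw : ¬ (m w = k ∧ 32 * r ≤ R - dist w x) := by
              rintro ⟨h1, _⟩
              have h2 := h.hi w hw.1 hw.2
              rw [h1] at h2
              linarith
            rw [if_neg hKw, ENNReal.ofReal_zero] at hcost
            have h1 : ENNReal.ofReal ε * Ex W (fun p => bef D (exr ρ) p
                * Ex W (Af D ρ (cL x R m k) i) (stp ρ p)) w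
                ≤ 144 * Ex W (fun p => bef D (exr ρ) p
                  * Ex W (FF D x y R (2 * r)) (stp ρ p)) w := by
              rw [← Ex_const_mul _ hmeas1, ← Ex_const_mul _ hmeas2]
              apply lintegral_mono_ae
              filter_upwards [hW.zero] with p hp
              have hp0 : (tr w p).1 0 = w := by simp [hp]
              generalize tr w p = q at hp0
              by_cases hb : exr ρ q < TT D q
              · have hne : exr ρ q ≠ ∞ := ne_top_of_lt hb
                have h2 : stp ρ q ∈ SB D x R := h.inv q (by rw [hp0]; exact hw) hb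
                have h3 : dist (stp ρ q) w = ρ w := by
                  have := dist_stp (ρ := ρ) (p := q) (by rw [hp0]; exact hρw) hne
                  rwa [hp0] at this
                have h4 : ¬ dist (stp ρ q) y < 2 * r := by
                  have := dist_triangle (stp ρ q) y w
                  rw [dist_comm y w] at this
                  linarith
                simp only [bef_of_lt hb, one_mul]
                rw [Ex_FF_out hW h4, Ex_I1 hD]
                exact hVi _ h2
              · simp [bef_of_not hb]
            calc ENNReal.ofReal ε * Ex W (cL x R m k) w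
                  + ENNReal.ofReal ε * Ex W (fun p => bef D (exr ρ) p
                    * Ex W (Af D ρ (cL x R m k) i) (stp ρ p)) w
                ≤ 0 + 144 * Ex W (I2 D x y R (2 * r)) w :=
                  add_le_add hcost (h1.trans (by gcongr))
              _ ≤ _ := by gcongr; exact zero_le
          · -- short step
            push Not at hbig
            have hmeas3 : Measurable (fun p : Pth E => {p | exr ρ p ≠ ∞}.indicator (fun _ => 1) p
                * ENNReal.ofReal (c4 * (36 * r ^ 2 - dist (stp ρ p) y ^ 2))) := by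
              apply Measurable.mul
              · apply measurable_const.indicator
                exact (measurable_exr h.meas) (measurableSet_singleton ∞).compl
              · exact ENNReal.measurable_ofReal.comp
                  ((((measurable_stp h.meas).dist measurable_const).pow_const 2).const_sub _
                    |>.const_mul _)
            have h1 : ENNReal.ofReal ε * Ex W (fun p => bef D (exr ρ) p
                * Ex W (Af D ρ (cL x R m k) i) (stp ρ p)) w
                ≤ Ex W (fun p => {p | exr ρ p ≠ ∞}.indicator (fun _ => 1) p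
                    * ENNReal.ofReal (c4 * (36 * r ^ 2 - dist (stp ρ p) y ^ 2))) w
                  + 144 * Ex W (fun p => bef D (exr ρ) p
                  * Ex W (FF D x y R (2 * r)) (stp ρ p)) w := by
              rw [← Ex_const_mul _ hmeas1, ← Ex_const_mul _ hmeas2, ← Ex_add hmeas3]
              apply lintegral_mono_ae
              filter_upwards [hW.zero] with p hp
              have hp0 : (tr w p).1 0 = w := by simp [hp]
              generalize tr w p = q at hp0
              by_cases hb : exr ρ q < TT D q
              · have hne : exr ρ q ≠ ∞ := ne_top_of_lt hb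
                have h2 : stp ρ q ∈ SB D x R := h.inv q (by rw [hp0]; exact hw) hb
                have hind : ({p : Pth E | exr ρ p ≠ ∞}.indicator (fun _ => (1 : ℝ≥0∞)) q) = 1 :=
                  Set.indicator_of_mem (by exact hne) _
                simp only [bef_of_lt hb, one_mul, hind]
                by_cases h4 : dist (stp ρ q) y < 2 * r
                · rw [Ex_FF_in hW h4]
                  exact ihi' _ h2 h4
                · rw [Ex_FF_out hW h4, Ex_I1 hD]
                  exact (hVi _ h2).trans le_add_self
              · simp [bef_of_not hb]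
            rw [mean_step hn hW h hw (by linarith) hc40] at h1
            have hnn : 0 ≤ 36 * r ^ 2 - dist w y ^ 2 - ρ w ^ 2 := by
              have := dist_nonneg (x := w) (y := y)
              nlinarith
            have hsum : ENNReal.ofReal (if m w = k ∧ 32 * r ≤ R - dist w x then ε else 0)
                + ENNReal.ofReal (c4 * (36 * r ^ 2 - dist w y ^ 2 - ρ w ^ 2))
                ≤ ENNReal.ofReal (c4 * (36 * r ^ 2 - dist w y ^ 2)) := by
              rw [← ENNReal.ofReal_add (by split_ifs <;> linarith) (mul_nonneg hc40 hnn)]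
              apply ENNReal.ofReal_le_ofReal
              split_ifs with hKw
              · have h5 := h.lo w hw.1 hw.2
                rw [hKw.1, ← hr] at h5
                have h6 : r ^ 2 / 4 ≤ ρ w ^ 2 := by nlinarith
                have h7 : ε ≤ c4 * ρ w ^ 2 := by
                  calc ε = c4 * (r ^ 2 / 4) := by
                        rw [hc4]
                        field_simp
                    _ ≤ c4 * ρ w ^ 2 := mul_le_mul_of_nonneg_left h6 hc40
                nlinarith
              · have : 0 ≤ c4 * ρ w ^ 2 := by positivity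
                nlinarith
            calc ENNReal.ofReal ε * Ex W (cL x R m k) w
                  + ENNReal.ofReal ε * Ex W (fun p => bef D (exr ρ) p
                    * Ex W (Af D ρ (cL x R m k) i) (stp ρ p)) w
                ≤ ENNReal.ofReal (if m w = k ∧ 32 * r ≤ R - dist w x then ε else 0)
                  + (ENNReal.ofReal (c4 * (36 * r ^ 2 - dist w y ^ 2 - ρ w ^ 2))
                    + 144 * Ex W (I2 D x y R (2 * r)) w) := by
                  gcongr
                  exact h1.trans (by gcongr)
              _ ≤ _ := by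
                  rw [← add_assoc]
                  gcongr
      have hfin := inner (j + 1) le_rfl y hy (by rw [dist_self]; positivity)
      refine hfin.trans ?_
      have halt := h.alt y hy.1 hy.2 (by rw [hK.1]; exact hK.2)
      rw [hK.1, ← hr] at halt
      have hs : 2 * r + dist y x ≤ R := by linarith [hK.2]
      have e1 : ENNReal.ofReal (c4 * (36 * r ^ 2 - dist y y ^ 2)) = 144 * ENNReal.ofReal ε := by
        rw [dist_self]
        have : c4 * (36 * r ^ 2 - 0 ^ 2) = 144 * ε := by
          rw [hc4]
          field_simp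
          ring
        rw [this, ENNReal.ofReal_mul (by norm_num)]
        norm_num
      rw [e1, ← mul_add]
      gcongr
      calc ENNReal.ofReal ε + Ex W (I2 D x y R (2 * r)) y
          ≤ phi W D (2 * r) y + Ex W (I2 D x y R (2 * r)) y := by gcongr
        _ ≤ hB W D x R y := phi_add_le hW hD hs

end Pool.Agent.Lib.P07dee5
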