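import Mathlib
import Pool.Agent.Lib.P07dee5.Chain

/-! # Second moments of the uniform distribution on the sphere -/

open MeasureTheory Set Filter Topology ProbabilityTheory Module
open scoped ENNReal NNReal RealInnerProductSpace

set_option linter.unusedSectionVars false
set_option linter.unusedVariables false

namespace Pool.Agent.Lib.P07dee5

variable {E : Type*} [NormedAddCommGroup E] [InnerProductSpace ℝ E] [FiniteDimensional ℝ E]
  [MeasurableSpace E] [BorelSpace E] {W : Measure (Pth E)} {ν : Measure E}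

lemma IsSph.integral_rot (hν : IsSph ν) (Q : E ≃ₗᵢ[ℝ] E) (f : E → ℝ) :
    ∫ θ, f (Q θ) ∂ν = ∫ θ, f θ ∂ν := by
  conv_rhs => rw [← hν.rot Q]
  exact (Q.toHomeomorph.measurableEmbedding.integral_map f).symm

lemma IsSph.integrable_inner (hν : IsSph ν) (v : E) : Integrable (fun θ => ⟪v, θ⟫) ν := by
  have := hν.prob
  apply Integrable.of_bound (C := ‖v‖)
  · exact (continuous_const.inner continuous_id).aestronglyMeasurable
  · filter_upwards [hν.norm] with θ hθ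
    calc ‖⟪v, θ⟫‖ ≤ ‖v‖ * ‖θ‖ := norm_inner_le_norm v θ
      _ = ‖v‖ := by rw [hθ, mul_one]

lemma IsSph.integrable_inner_sq (hν : IsSph ν) (v : E) : Integrable (fun θ => ⟪v, θ⟫ ^ 2) ν := by
  have := hν.prob
  refine Integrable.of_bound ?_ (‖v‖ ^ 2) ?_
  · have : Continuous (fun θ : E => ⟪v, θ⟫ ^ 2) := by fun_prop
    exact this.aestronglyMeasurable
  · filter_upwards [hν.norm] with θ hθ
    rw [norm_pow]
    gcongr
    calc ‖⟪v, θ⟫‖ ≤ ‖v‖ * ‖θ‖ := norm_inner_le_norm v θ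
      _ = ‖v‖ := by rw [hθ, mul_one]

lemma IsSph.integral_inner (hν : IsSph ν) (v : E) : ∫ θ, ⟪v, θ⟫ ∂ν = 0 := by
  have h := hν.integral_rot (LinearIsometryEquiv.neg ℝ) (fun θ => ⟪v, θ⟫)
  simp only [LinearIsometryEquiv.coe_neg, inner_neg_right] at h
  rw [integral_neg] at h
  linarith

lemma IsSph.integral_inner_sq (hν : IsSph ν) (v : E) :
    ∫ θ, ⟪v, θ⟫ ^ 2 ∂ν = ‖v‖ ^ 2 / finrank ℝ E := by
  have hprob := hν.prob
  -- unit vectors all give the same value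
  have h1 : ∀ u w : E, ‖u‖ = ‖w‖ → ∫ θ, ⟪u, θ⟫ ^ 2 ∂ν = ∫ θ, ⟪w, θ⟫ ^ 2 ∂ν := by
    intro u w huw
    obtain ⟨Q, hQ⟩ := exists_rot huw
    rw [← hν.integral_rot Q (fun θ => ⟪w, θ⟫ ^ 2)]
    congr 1
    funext θ
    rw [← hQ, LinearIsometryEquiv.inner_map_map]
  rcases eq_or_ne v 0 with rfl | hv
  · simp
  set b := stdOrthonormalBasis ℝ E with hb
  have hvn : 0 < ‖v‖ := norm_pos_iff.2 hv
  have h2 : ∀ i, ∫ θ, ⟪b i, θ⟫ ^ 2 ∂ν = (∫ θ, ⟪v, θ⟫ ^ 2 ∂ν) / ‖v‖ ^ 2 := by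
    intro i
    have h3 : ∫ θ, ⟪‖v‖ • b i, θ⟫ ^ 2 ∂ν = ∫ θ, ⟪v, θ⟫ ^ 2 ∂ν := by
      apply h1
      rw [norm_smul, b.norm_eq_one i, mul_one, norm_norm]
    have h4 : ∀ θ : E, ⟪‖v‖ • b i, θ⟫ ^ 2 = ‖v‖ ^ 2 * ⟪b i, θ⟫ ^ 2 := by
      intro θ
      rw [real_inner_smul_left]; ring
    simp_rw [h4] at h3
    rw [integral_const_mul] at h3
    rw [← h3]
    field_simp
  have h5 : ∑ i, ∫ θ, ⟪b i, θ⟫ ^ 2 ∂ν = 1 := by
    rw [← integral_finsetSum _ (fun i _ => hν.integrable_inner_sq (b i))]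
    have h6 : ∀ᵐ θ ∂ν, ∑ i, ⟪b i, θ⟫ ^ 2 = 1 := by
      filter_upwards [hν.norm] with θ hθ
      rw [b.sum_sq_inner_right θ, hθ, one_pow]
    rw [integral_congr_ae h6]
    simp
  simp_rw [h2] at h5
  rw [Finset.sum_const, Finset.card_univ, Fintype.card_fin, nsmul_eq_mul] at h5
  have hn0 : (finrank ℝ E : ℝ) ≠ 0 := by
    intro h
    rw [h, zero_mul] at h5
    exact zero_ne_one h5
  field_simp at h5 ⊢
  linarith

lemma norm_add_smul_sq (v θ : E) (r : ℝ) (hθ : ‖θ‖ = 1) :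
    ‖v + r • θ‖ ^ 2 = ‖v‖ ^ 2 + r ^ 2 + 2 * r * ⟪v, θ⟫ := by
  rw [norm_add_sq_real, real_inner_smul_right, norm_smul, hθ, mul_one, Real.norm_eq_abs, sq_abs]
  ring

lemma IsSph.integrable_norm_sq (hν : IsSph ν) (v : E) (r : ℝ) :
    Integrable (fun θ => ‖v + r • θ‖ ^ 2) ν := by
  have := hν.prob
  have h : (fun θ => ‖v‖ ^ 2 + r ^ 2 + 2 * r * ⟪v, θ⟫) =ᵐ[ν] fun θ => ‖v + r • θ‖ ^ 2 := by
    filter_upwards [hν.norm] with θ hθ
    rw [norm_add_smul_sq v θ r hθ]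
  exact (((integrable_const _).add ((hν.integrable_inner v).const_mul _)).congr h)

lemma IsSph.integral_norm_sq (hν : IsSph ν) (v : E) (r : ℝ) :
    ∫ θ, ‖v + r • θ‖ ^ 2 ∂ν = ‖v‖ ^ 2 + r ^ 2 := by
  have := hν.prob
  have h : (fun θ => ‖v + r • θ‖ ^ 2) =ᵐ[ν] fun θ => ‖v‖ ^ 2 + r ^ 2 + 2 * r * ⟪v, θ⟫ := by
    filter_upwards [hν.norm] with θ hθ
    rw [norm_add_smul_sq v θ r hθ]
  rw [integral_congr_ae h, integral_add (integrable_const _) ((hν.integrable_inner v).const_mul _),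
    integral_const_mul, hν.integral_inner]
  simp

/-- the quadratic function decreases by `r ^ 2` in mean -/
lemma IsSph.lintegral_quad (hν : IsSph ν) {A : ℝ} {y x : E} {r : ℝ} (hr : 0 ≤ r)
    (hA : (dist y x + r) ^ 2 ≤ A) :
    ∫⁻ θ, ENNReal.ofReal (A - dist (y + r • θ) x ^ 2) ∂ν =
      ENNReal.ofReal (A - dist y x ^ 2 - r ^ 2) := by
  have hprob := hν.prob
  have h0 : ∀ θ : E, dist (y + r • θ) x = ‖(y - x) + r • θ‖ := by
    intro θ
    rw [dist_eq_norm]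
    congr 1
    abel
  have hint : Integrable (fun θ => A - dist (y + r • θ) x ^ 2) ν := by
    simp_rw [h0]
    exact (integrable_const _).sub (hν.integrable_norm_sq _ _)
  rw [← ofReal_integral_eq_lintegral_ofReal hint]
  · congr 1
    simp_rw [h0]
    rw [integral_sub (integrable_const _) (hν.integrable_norm_sq _ _), hν.integral_norm_sq]
    rw [dist_eq_norm]
    simp
    ring
  · filter_upwards [hν.norm] with θ hθ
    have h1 : dist (y + r • θ) x ≤ dist y x + r := by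
      calc dist (y + r • θ) x ≤ dist (y + r • θ) y + dist y x := dist_triangle _ _ _
        _ = r + dist y x := by
          rw [dist_eq_norm, add_sub_cancel_left, norm_smul, hθ, mul_one, Real.norm_eq_abs,
            abs_of_nonneg hr]
        _ = _ := add_comm _ _
    have h2 : dist (y + r • θ) x ^ 2 ≤ (dist y x + r) ^ 2 := by
      gcongr
    show (0:ℝ) ≤ _
    linarith

/-- distribution of the end point of a step -/
lemma Ex_stp (hW : IsWiener W) (hn : 0 < finrank ℝ E) (hν : IsSph ν) {ρ : E → ℝ} {y : E}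
    (hr : 0 < ρ y) {G : E → ℝ≥0∞} (hG : Measurable G) :
    Ex W (fun p => G (stp ρ p)) y = ∫⁻ θ, G (y + ρ y • θ) ∂ν := by
  rw [← Ex_exit hW hn hν hr hG y]
  unfold Ex
  apply lintegral_congr_ae
  filter_upwards [hW.zero, ext_ne_top hW hn (ρ y)] with p hp0 hp
  have h0 : (tr y p).1 0 = y := by simp [hp0]
  have h1 : tr y p ∈ {p : Pth E | ext (ρ y) p ≠ ∞} := by
    show ext (ρ y) (tr y p) ≠ ∞
    rwa [ext_tr]
  rw [indicator_of_mem h1, one_mul]
  simp only [stp, exr, h0]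

lemma Ex_bef_stp_le (hW : IsWiener W) (hn : 0 < finrank ℝ E) (hν : IsSph ν) {D : ℕ → Set E}
    {ρ : E → ℝ} {y : E} (hr : 0 < ρ y) {G : E → ℝ≥0∞} (hG : Measurable G) :
    Ex W (fun p => bef D (exr ρ) p * G (stp ρ p)) y ≤ ∫⁻ θ, G (y + ρ y • θ) ∂ν := by
  rw [← Ex_stp hW hn hν hr hG]
  apply Ex_mono
  intro p
  calc _ ≤ 1 * G (stp ρ p) := by gcongr; exact bef_le_one _ _ _
    _ = _ := one_mul _

/-- sum of the squares of the radii of the steps -/
theorem sq_sum_le (hn : 0 < finrank ℝ E) (hW : IsWiener W) {D : ℕ → Set E}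
    (hD : ∀ k, IsOpen (D k)) {x : E} {R ε δ : ℝ} {ρ : E → ℝ} {m : E → ℕ}
    (h : Walk W D x R ε δ ρ m) (j : ℕ) : ∀ y ∈ SB D x R,
    Ex W (Af D ρ (fun p => ENNReal.ofReal (ρ (p.1 0) ^ 2)) j) y ≤
      ENNReal.ofReal (R ^ 2 - dist y x ^ 2) := by
  have hν := isSph_exl hW hn (r := 1) one_pos
  apply Af_le hW hD h.meas
    (((h.meas.comp (measurable_eval 0)).pow_const 2).ennreal_ofReal) (fun p hp hlt => h.inv p hp hlt)
  intro y hy
  have hpos := h.pos hy
  have hle := h.le_dist hy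
  have hR : 0 < R := h.Rpos
  have hm : Measurable (fun z : E => ENNReal.ofReal (R ^ 2 - dist z x ^ 2)) := by fun_prop
  have h1 := Ex_bef_stp_le hW hn hν (D := D) hpos hm
  have hd : 0 ≤ dist y x := dist_nonneg
  rw [hν.lintegral_quad hpos.le (A := R ^ 2) (by
    apply pow_le_pow_left₀ (by positivity)
    linarith)] at h1
  have h2 : Ex W (fun p => ENNReal.ofReal (ρ (p.1 0) ^ 2)) y = ENNReal.ofReal (ρ y ^ 2) := by
    have : Ex W (fun p => ENNReal.ofReal (ρ (p.1 0) ^ 2)) y =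
        Ex W (fun _ => ENNReal.ofReal (ρ y ^ 2)) y := by
      unfold Ex
      apply lintegral_congr_ae
      filter_upwards [hW.zero] with p hp0
      have h0 : (tr y p).1 0 = y := by simp [hp0]
      rw [h0]
    rw [this, Ex_const hW]
  refine (add_le_add h2.le le_rfl).trans ?_
  calc ENNReal.ofReal (ρ y ^ 2) + _ ≤ ENNReal.ofReal (ρ y ^ 2) +
        ENNReal.ofReal (R ^ 2 - dist y x ^ 2 - ρ y ^ 2) := by gcongr
    _ = ENNReal.ofReal (R ^ 2 - dist y x ^ 2) := by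
        rw [← ENNReal.ofReal_add (by positivity) (by nlinarith)]
        congr 1
        ring

end Pool.Agent.Lib.P07dee5
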