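import Mathlib
import Pool.Agent.Lib.P07dee5.Limited
import Pool.Agent.Lib.P07dee5.GoodRadius
import Pool.Agent.Lib.P07dee5.Quad

/-! # Estimates for one generation of the walk -/

open MeasureTheory Set Filter Topology ProbabilityTheory Module
open scoped ENNReal NNReal

set_option linter.unusedSectionVars false
set_option linter.unusedVariables false

namespace Pool.Agent.Lib.P07dee5

open Limited

variable {E : Type*} [NormedAddCommGroup E] [InnerProductSpace ℝ E] [FiniteDimensional ℝ E]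
  [MeasurableSpace E] [BorelSpace E] {W : Measure (Pth E)}

/-- two path functionals which agree on paths starting at `y` -/
lemma Ex_congr_start (hW : IsWiener W) {F G : Pth E → ℝ≥0∞} {y : E}
    (h : ∀ q : Pth E, q.1 0 = y → F q = G q) : Ex W F y = Ex W G y := by
  unfold Ex
  apply lintegral_congr_ae
  filter_upwards [hW.zero] with p hp
  exact h _ (by simp [hp])

lemma Ex_le_start (hW : IsWiener W) {F G : Pth E → ℝ≥0∞} {y : E}
    (h : ∀ q : Pth E, q.1 0 = y → F q ≤ G q) : Ex W F y ≤ Ex W G y := by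
  unfold Ex
  apply lintegral_mono_ae
  filter_upwards [hW.zero] with p hp
  exact h _ (by simp [hp])

/-- `phi` as an expectation -/
lemma phi_eq_Ex {D : ℕ → Set E} (hD : ∀ k, IsOpen (D k)) (r : ℝ) (y : E) :
    phi W D r y = Ex W ({p | TT D p ≤ ext r p}.indicator 1) y := by
  have hm : MeasurableSet {p : Pth E | TT D p ≤ ext r p} :=
    measurableSet_le (measurable_TT hD) (measurable_ext r)
  unfold Ex phi
  have : (fun p : Pth E => {p : Pth E | TT D p ≤ ext r p}.indicator (1 : Pth E → ℝ≥0∞) (tr y p)) =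
      (tr y ⁻¹' {p : Pth E | TT D p ≤ ext r p}).indicator 1 := rfl
  rw [this, lintegral_indicator_one ((measurable_tr y) hm)]
  congr 1
  ext p
  show TT D (tr y p) ≤ ext r p ↔ TT D (tr y p) ≤ ext r (tr y p)
  rw [ext_tr]

lemma hB_center (hW : IsWiener W) (D : ℕ → Set E) (x : E) (R : ℝ) :
    hB W D x R x = phi W D R x := by
  unfold hB phi
  apply measure_congr
  filter_upwards [hW.zero] with p hp
  have h1 : eB x R (tr x p) = ext R p := by
    unfold eB hitC ext
    congr 1
    funext t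
    have : ((tr x p).1 t ∈ (Metric.ball x R)ᶜ) ↔ (R ≤ dist (p.1 t) (p.1 0)) := by
      rw [hp]
      simp [dist_eq_norm]
    simp only [this]
  show (TT D (tr x p) ≤ eB x R (tr x p)) = (TT D (tr x p) ≤ ext R p)
  rw [h1]

section

variable {D : ℕ → Set E} {x : E} {R ε δ : ℝ} {ρ : E → ℝ} {m : E → ℕ}

lemma phi_add_hB_le (hW : IsWiener W) (hD : ∀ k, IsOpen (D k)) (ha : Antitone D)
    (h : Walk W D x R ε δ ρ m) {y : E} (hy : y ∈ SB D x R) :
    phi W D (ρ y) y + Ex W (fun p => bef D (exr ρ) p * hB W D x R (stp ρ p)) y ≤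
      hB W D x R y := by
  have e1 : (fun p : Pth E => bef D (exr ρ) p * hB W D x R (stp ρ p))
      = fun p => bef D (exr ρ) p * Ex W (I1 D x R) (stp ρ p) := by
    funext p
    rw [Ex_I1 hD]
  have hm : MeasurableSet {p : Pth E | TT D p ≤ ext (ρ y) p} :=
    measurableSet_le (measurable_TT hD) (measurable_ext _)
  rw [e1, ← Ex_bef_mul hW hD h.meas (measurable_I1 hD x R), ← Ex_I1 hD, phi_eq_Ex hD,
    ← Ex_add (measurable_one.indicator hm)]
  apply Ex_le_start hW
  intro q hq
  have hle : ρ (q.1 0) ≤ R - dist (q.1 0) x := by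
    rw [hq]
    have h1 := h.le_dist hy
    have h2 := h.pos hy
    linarith
  by_cases hb : exr ρ q < TT D q
  · have hnot : q ∉ {p : Pth E | TT D p ≤ ext (ρ y) p} := by
      intro hcon
      have : TT D q ≤ exr ρ q := by
        unfold exr; rw [hq]; exact hcon
      exact absurd hb (not_lt.2 this)
    rw [indicator_of_notMem hnot, zero_add, bef_of_lt hb, one_mul]
    unfold I1
    have hne : exr ρ q ≠ ∞ := ne_top_of_lt hb
    by_cases hc : TT D (nxt ρ q) ≤ eB x R (nxt ρ q)
    · rw [if_pos hc, if_pos]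
      rw [TT_nxt hD ha hb, eB_nxt hle hne]
      gcongr
    · rw [if_neg hc]
      exact zero_le
  · rw [bef_of_not hb, zero_mul, add_zero]
    unfold I1
    have hTe : TT D q ≤ eB x R q := (not_lt.1 hb).trans (exr_le_eB hle)
    rw [if_pos hTe]
    exact indicator_le_self' (fun _ _ => zero_le) q

/-- costs controlled by `phi` -/
theorem Af_le_phi (hW : IsWiener W) (hD : ∀ k, IsOpen (D k)) (ha : Antitone D)
    (h : Walk W D x R ε δ ρ m) {c : Pth E → ℝ≥0∞} (hc : Measurable c) {β : ℝ≥0∞}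
    (hcb : ∀ y ∈ SB D x R, Ex W c y ≤ β * phi W D (ρ y) y) (j : ℕ) :
    ∀ y ∈ SB D x R, Ex W (Af D ρ c j) y ≤ β * hB W D x R y := by
  have hm1 : Measurable (fun q : Pth E => bef D (exr ρ) q * hB W D x R (stp ρ q)) := by
    have e1 : (fun p : Pth E => bef D (exr ρ) p * hB W D x R (stp ρ p))
        = fun p => bef D (exr ρ) p * Ex W (I1 D x R) (stp ρ p) := by
      funext p
      rw [Ex_I1 hD]
    rw [e1]
    exact (measurable_bef hD (measurable_exr h.meas)).mul
      ((measurable_Ex hW (measurable_I1 hD x R)).comp (measurable_stp h.meas))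
  apply Af_le hW hD h.meas hc (fun p hp hlt => h.inv p hp hlt)
  intro y hy
  have e2 : Ex W (fun p => bef D (exr ρ) p * (β * hB W D x R (stp ρ p))) y =
      β * Ex W (fun p => bef D (exr ρ) p * hB W D x R (stp ρ p)) y := by
    rw [← Ex_const_mul β hm1]
    congr 1
    funext p
    ring
  rw [e2]
  calc Ex W c y + β * Ex W (fun p => bef D (exr ρ) p * hB W D x R (stp ρ p)) y ≤
        β * phi W D (ρ y) y + β * Ex W (fun p => bef D (exr ρ) p * hB W D x R (stp ρ p)) y := by
        gcongr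
        exact hcb y hy
    _ ≤ β * hB W D x R y := by
        rw [← mul_add]
        gcongr
        exact phi_add_hB_le hW hD ha h hy

/-- `Af` is linear in the cost -/
lemma Af_tsum (D : ℕ → Set E) (ρ : E → ℝ) (c : ℕ → Pth E → ℝ≥0∞) (j : ℕ) (p : Pth E) :
    Af D ρ (fun q => ∑' k, c k q) j p = ∑' k, Af D ρ (c k) j p := by
  induction j generalizing p with
  | zero => simp [Af]
  | succ j ih =>
    show ∑' k, c k p + bef D (exr ρ) p * Af D ρ (fun q => ∑' k, c k q) j (nxt ρ p) =
      ∑' k, (c k p + bef D (exr ρ) p * Af D ρ (c k) j (nxt ρ p))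
    rw [ih, ENNReal.tsum_add, ENNReal.tsum_mul_left]

lemma Af_const_mul (D : ℕ → Set E) (ρ : E → ℝ) (a : ℝ≥0∞) (c : Pth E → ℝ≥0∞) (j : ℕ)
    (p : Pth E) : Af D ρ (fun q => a * c q) j p = a * Af D ρ c j p := by
  induction j generalizing p with
  | zero => simp [Af]
  | succ j ih =>
    show a * c p + bef D (exr ρ) p * Af D ρ (fun q => a * c q) j (nxt ρ p) =
      a * (c p + bef D (exr ρ) p * Af D ρ c j (nxt ρ p))
    rw [ih]
    ring

lemma Af_mono_cost {D : ℕ → Set E} {ρ : E → ℝ} {c c' : Pth E → ℝ≥0∞} (h : ∀ q, c q ≤ c' q)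
    (j : ℕ) (p : Pth E) : Af D ρ c j p ≤ Af D ρ c' j p := by
  induction j generalizing p with
  | zero => exact le_rfl
  | succ j ih =>
    show c p + _ ≤ c' p + _
    gcongr
    · exact h p
    · exact ih _

/-- costs controlled by the square of the radius -/
theorem Af_le_sq (hn : 0 < finrank ℝ E) (hW : IsWiener W) (hD : ∀ k, IsOpen (D k))
    (h : Walk W D x R ε δ ρ m) {c : Pth E → ℝ≥0∞} (hc : Measurable c) {b : ℝ≥0∞} (hb : b ≠ ∞)
    (hcb : ∀ y ∈ SB D x R, Ex W c y ≤ b * ENNReal.ofReal (ρ y ^ 2)) (j : ℕ) :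
    ∀ y ∈ SB D x R, Ex W (Af D ρ c j) y ≤ b * ENNReal.ofReal (R ^ 2 - dist y x ^ 2) := by
  have hν := isSph_exl hW hn (r := 1) one_pos
  have hR : 0 < R := h.Rpos
  apply Af_le hW hD h.meas hc (fun p hp hlt => h.inv p hp hlt)
  intro y hy
  have hpos := h.pos hy
  have hle := h.le_dist hy
  have hm : Measurable (fun z : E => b * ENNReal.ofReal (R ^ 2 - dist z x ^ 2)) := by fun_prop
  have hm' : Measurable (fun z : E => ENNReal.ofReal (R ^ 2 - dist z x ^ 2)) := by fun_prop
  have h1 := Ex_bef_stp_le hW hn hν (D := D) hpos hm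
  have hd : 0 ≤ dist y x := dist_nonneg
  rw [lintegral_const_mul b (f := fun θ : E => ENNReal.ofReal (R ^ 2 - dist (y + ρ y • θ) x ^ 2))
    (by fun_prop), hν.lintegral_quad hpos.le (A := R ^ 2) (by
      apply pow_le_pow_left₀ (by positivity)
      linarith)] at h1
  refine (add_le_add (hcb y hy) h1).trans ?_
  rw [← mul_add]
  gcongr
  rw [← ENNReal.ofReal_add (by positivity) (by nlinarith)]
  gcongr
  linarith

end

end Pool.Agent.Lib.P07dee5
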