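import Mathlib
import Pool.Agent.Lib.P07dee5.Gen

/-! # Joint measurability of the functionals of the walk -/

open MeasureTheory Set Filter Topology ProbabilityTheory Module
open scoped ENNReal NNReal

set_option linter.unusedSectionVars false
set_option linter.unusedVariables false

namespace Pool.Agent.Lib.P07dee5

open Limited

variable {E : Type*} [NormedAddCommGroup E] [InnerProductSpace ℝ E] [FiniteDimensional ℝ E]
  [MeasurableSpace E] [BorelSpace E] {W : Measure (Pth E)}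

lemma measurable_phi2 (hW : IsWiener W) {D : ℕ → Set E} (hD : ∀ k, IsOpen (D k)) :
    Measurable (fun q : ℝ × E => phi W D q.1 q.2) := by
  have hprob := hW.prob
  have hs : MeasurableSet {r : (ℝ × E) × Pth E | TT D (tr r.1.2 r.2) ≤ ext r.1.1 r.2} := by
    apply measurableSet_le
    · exact (measurable_TT hD).comp (measurable_tr2.comp
        ((measurable_snd.comp measurable_fst).prodMk measurable_snd))
    · exact measurable_ext2.comp ((measurable_fst.comp measurable_fst).prodMk measurable_snd)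
  exact measurable_measure_prodMk_left hs

lemma measurableSet_badSeg2 {D : ℕ → Set E} (hD : ∀ k, IsOpen (D k)) :
    MeasurableSet {q : ℝ × Pth E | q.2 ∈ badSeg D q.1} := by
  have hO : ∀ k, IsOpen {z : E × E | ∃ s ∈ Ioc (0:ℝ) 1, z.1 + s • (z.2 - z.1) ∈ D k} := by
    intro k
    have : {z : E × E | ∃ s ∈ Ioc (0:ℝ) 1, z.1 + s • (z.2 - z.1) ∈ D k} =
        ⋃ s ∈ Ioc (0:ℝ) 1, {z : E × E | z.1 + s • (z.2 - z.1) ∈ D k} := by
      ext z; simp
    rw [this]
    apply isOpen_biUnion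
    intro s hs
    exact (hD k).preimage (by fun_prop)
  have : {q : ℝ × Pth E | q.2 ∈ badSeg D q.1} = ⋂ k, {q : ℝ × Pth E |
      (q.2.1 0, q.2.1 (ext q.1 q.2).toNNReal) ∈
        {z : E × E | ∃ s ∈ Ioc (0:ℝ) 1, z.1 + s • (z.2 - z.1) ∈ D k}} := by
    ext q
    simp only [badSeg, Set.mem_ofPred_eq, mem_iInter]
  rw [this]
  apply MeasurableSet.iInter
  intro k
  have hm : Measurable (fun q : ℝ × Pth E => (q.2.1 0, q.2.1 (ext q.1 q.2).toNNReal)) :=
    ((measurable_eval 0).comp measurable_snd).prodMk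
      (Measurable.eval measurable_ext2.ennreal_toNNReal measurable_snd)
  exact hm (hO k).measurableSet

section

variable {D : ℕ → Set E} {ρ : ℝ → E → E → ℝ}
  (hD : ∀ k, IsOpen (D k)) (hρ : Measurable (fun q : ℝ × E × E => ρ q.1 q.2.1 q.2.2))

include hρ in
lemma measurable_rad : Measurable (fun q : ℝ × E × Pth E => ρ q.1 q.2.1 (q.2.2.1 0)) :=
  hρ.comp (measurable_fst.prodMk ((measurable_fst.comp measurable_snd).prodMk
    ((measurable_eval 0).comp (measurable_snd.comp measurable_snd))))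

include hρ in
lemma measurable_exrQ : Measurable (fun q : ℝ × E × Pth E => exr (ρ q.1 q.2.1) q.2.2) :=
  measurable_ext2.comp ((measurable_rad hρ).prodMk (measurable_snd.comp measurable_snd))

include hρ in
lemma measurable_nxtQ : Measurable (fun q : ℝ × E × Pth E => nxt (ρ q.1 q.2.1) q.2.2) :=
  measurable_shift2.comp ((measurable_exrQ hρ).ennreal_toNNReal.prodMk
    (measurable_snd.comp measurable_snd))

include hD hρ in
lemma measurable_befQ :
    Measurable (fun q : ℝ × E × Pth E => bef D (exr (ρ q.1 q.2.1)) q.2.2) := by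
  classical
  exact Measurable.ite (measurableSet_lt (measurable_exrQ hρ)
    ((measurable_TT hD).comp (measurable_snd.comp measurable_snd))) measurable_const
    measurable_const

include hD hρ in
lemma measurable_AfQ {c : ℝ → E → Pth E → ℝ≥0∞}
    (hc : Measurable (fun q : ℝ × E × Pth E => c q.1 q.2.1 q.2.2)) (j : ℕ) :
    Measurable (fun q : ℝ × E × Pth E => Af D (ρ q.1 q.2.1) (c q.1 q.2.1) j q.2.2) := by
  induction j with
  | zero => exact measurable_const
  | succ j ih =>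
    show Measurable (fun q : ℝ × E × Pth E => c q.1 q.2.1 q.2.2 +
      bef D (exr (ρ q.1 q.2.1)) q.2.2 * Af D (ρ q.1 q.2.1) (c q.1 q.2.1) j
        (nxt (ρ q.1 q.2.1) q.2.2))
    apply hc.add
    apply (measurable_befQ hD hρ).mul
    exact ih.comp (measurable_fst.prodMk ((measurable_fst.comp measurable_snd).prodMk
      (measurable_nxtQ hρ)))

/-- total value of the additive functional -/
noncomputable def Ai (D : ℕ → Set E) (ρ : E → ℝ) (c : Pth E → ℝ≥0∞) (p : Pth E) : ℝ≥0∞ :=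
  ⨆ j, Af D ρ c j p

lemma Ai_eq (D : ℕ → Set E) (ρ : E → ℝ) (c : Pth E → ℝ≥0∞) (p : Pth E) :
    Ai D ρ c p = c p + bef D (exr ρ) p * Ai D ρ c (nxt ρ p) := by
  have h1 : Ai D ρ c p = ⨆ j, Af D ρ c (j + 1) p := by
    have hmono : Monotone (fun j => Af D ρ c j p) :=
      monotone_nat_of_le_succ fun j => Af_mono D ρ c j p
    exact (hmono.iSup_nat_add 1).symm
  rw [h1]
  show ⨆ j, (c p + bef D (exr ρ) p * Af D ρ c j (nxt ρ p)) = _
  rw [← ENNReal.add_iSup, ← ENNReal.mul_iSup]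
  rfl

lemma le_Ai (D : ℕ → Set E) (ρ : E → ℝ) (c : Pth E → ℝ≥0∞) (p : Pth E) : c p ≤ Ai D ρ c p := by
  rw [Ai_eq]; exact le_self_add

lemma Ai_nxt_le {D : ℕ → Set E} {ρ : E → ℝ} {c : Pth E → ℝ≥0∞} {p : Pth E}
    (h : exr ρ p < TT D p) : Ai D ρ c (nxt ρ p) ≤ Ai D ρ c p := by
  rw [Ai_eq D ρ c p, bef_of_lt h, one_mul]
  exact le_add_self

include hD hρ in
lemma measurable_AiQ {c : ℝ → E → Pth E → ℝ≥0∞}
    (hc : Measurable (fun q : ℝ × E × Pth E => c q.1 q.2.1 q.2.2)) :
    Measurable (fun q : ℝ × E × Pth E => Ai D (ρ q.1 q.2.1) (c q.1 q.2.1) q.2.2) :=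
  Measurable.iSup fun j => measurable_AfQ hD hρ hc j

lemma Ex_Ai (hW : IsWiener W) {D : ℕ → Set E} (hD : ∀ k, IsOpen (D k)) {ρ : E → ℝ}
    (hρ : Measurable ρ) {c : Pth E → ℝ≥0∞} (hc : Measurable c) (y : E) :
    Ex W (Ai D ρ c) y = ⨆ j, Ex W (Af D ρ c j) y := by
  unfold Ex Ai
  apply lintegral_iSup
  · intro j
    exact (measurable_Af hD hρ hc j).comp (measurable_tr y)
  · intro i j hij p
    exact Af_mono' D ρ c hij _

lemma Ex_Ai_le (hW : IsWiener W) {D : ℕ → Set E} (hD : ∀ k, IsOpen (D k)) {ρ : E → ℝ}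
    (hρ : Measurable ρ) {c : Pth E → ℝ≥0∞} (hc : Measurable c) {y : E} {B : ℝ≥0∞}
    (h : ∀ j, Ex W (Af D ρ c j) y ≤ B) : Ex W (Ai D ρ c) y ≤ B := by
  rw [Ex_Ai hW hD hρ hc]
  exact iSup_le h

end

end Pool.Agent.Lib.P07dee5
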