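import Mathlib
import Pool.Agent.Lib.P07dee5.GenM

/-! # Failure functionals of the generations and their expectations -/

open MeasureTheory Set Filter Topology ProbabilityTheory Module
open scoped ENNReal NNReal

set_option linter.unusedSectionVars false
set_option linter.unusedVariables false

namespace Pool.Agent.Lib.P07dee5

open Limited

variable {E : Type*} [NormedAddCommGroup E] [InnerProductSpace ℝ E] [FiniteDimensional ℝ E]
  [MeasurableSpace E] [BorelSpace E] {W : Measure (Pth E)}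

open Classical in
/-- cost of a bad segment -/
noncomputable def cB (D : ℕ → Set E) (ρ : E → ℝ) (p : Pth E) : ℝ≥0∞ :=
  if p ∈ badSeg D (ρ (p.1 0)) then 1 else 0

open Classical in
/-- cost of a final window with small risk -/
noncomputable def cM (W : Measure (Pth E)) (D : ℕ → Set E) (η : ℝ → ℝ) (ρ : E → ℝ)
    (p : Pth E) : ℝ≥0∞ :=
  if TT D p ≤ exr ρ p ∧ phi W D (ρ (p.1 0)) (p.1 0) < ENNReal.ofReal (η (ρ (p.1 0))) then 1 else 0

/-- cost bounding the lengths of the steps limited by the risk -/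
noncomputable def cH (x : E) (R : ℝ) (m : E → ℕ) (p : Pth E) : ℝ≥0∞ :=
  ∑' k, ENNReal.ofReal (R / 2 ^ k) * cL x R m k p

open Classical in
/-- failure functional of one generation -/
noncomputable def F0 (W : Measure (Pth E)) (D : ℕ → Set E) (η lam : ℝ → ℝ) (ρ : ℝ → E → E → ℝ)
    (m : ℝ → E → E → ℕ) (R : ℝ) (p : Pth E) : ℝ≥0∞ :=
  if ENNReal.ofReal (η R) ≤ phi W D R (p.1 0) then
    Ai D (ρ R (p.1 0)) (cB D (ρ R (p.1 0))) p +
    Ai D (ρ R (p.1 0)) (cM W D η (ρ R (p.1 0))) p +
    Ai D (ρ R (p.1 0)) (cH (p.1 0) R (m R (p.1 0))) p / ENNReal.ofReal (lam R) +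
    (if ENNReal.ofReal (lam R) ≤ Ai D (ρ R (p.1 0)) (cW (p.1 0) R (ρ R (p.1 0)) (m R (p.1 0))) p
      then 1 else 0)
  else 0

/-- failure functional of the `g`-th generation -/
noncomputable def Fg (W : Measure (Pth E)) (D : ℕ → Set E) (η lam : ℝ → ℝ) (ρ : ℝ → E → E → ℝ)
    (m : ℝ → E → E → ℕ) : ℕ → ℝ → Pth E → ℝ≥0∞
  | 0, R, p => F0 W D η lam ρ m R p
  | g + 1, R, p => Ai D (ρ R (p.1 0)) (fun q => Fg W D η lam ρ m g (ρ R (p.1 0) (q.1 0)) q) p

section meas

attribute [local irreducible] phi Ai Af TT ext badSeg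

variable {D : ℕ → Set E} {ρ : ℝ → E → E → ℝ} {m : ℝ → E → E → ℕ} {η lam : ℝ → ℝ}

lemma measurable_cBQ (hD : ∀ k, IsOpen (D k))
    (hρ : Measurable (fun q : ℝ × E × E => ρ q.1 q.2.1 q.2.2)) :
    Measurable (fun q : ℝ × E × Pth E => cB D (ρ q.1 q.2.1) q.2.2) := by
  classical
  apply Measurable.ite _ measurable_const measurable_const
  exact ((measurable_rad hρ).prodMk (measurable_snd.comp measurable_snd))
    (measurableSet_badSeg2 hD)

lemma measurable_cMQ (hW : IsWiener W) (hD : ∀ k, IsOpen (D k)) (hη : Measurable η)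
    (hρ : Measurable (fun q : ℝ × E × E => ρ q.1 q.2.1 q.2.2)) :
    Measurable (fun q : ℝ × E × Pth E => cM W D η (ρ q.1 q.2.1) q.2.2) := by
  classical
  apply Measurable.ite _ measurable_const measurable_const
  apply MeasurableSet.inter
  · exact measurableSet_le ((measurable_TT hD).comp (measurable_snd.comp measurable_snd))
      (measurable_exrQ hρ)
  · exact (measurableSet_lt ((measurable_phi2 hW hD).comp ((measurable_rad hρ).prodMk
        ((measurable_eval 0).comp (measurable_snd.comp measurable_snd))))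
      (hη.comp (measurable_rad hρ)).ennreal_ofReal : MeasurableSet {q : ℝ × E × Pth E |
        phi W D (ρ q.1 q.2.1 (q.2.2.1 0)) (q.2.2.1 0) <
          ENNReal.ofReal (η (ρ q.1 q.2.1 (q.2.2.1 0)))})

lemma measurable_clsQ (hm : Measurable (fun q : ℝ × E × E => m q.1 q.2.1 q.2.2)) :
    Measurable (fun q : ℝ × E × Pth E => m q.1 q.2.1 (q.2.2.1 0)) :=
  hm.comp (measurable_fst.prodMk ((measurable_fst.comp measurable_snd).prodMk
    ((measurable_eval 0).comp (measurable_snd.comp measurable_snd))))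

lemma measurable_cLQ (hm : Measurable (fun q : ℝ × E × E => m q.1 q.2.1 q.2.2)) (k : ℕ) :
    Measurable (fun q : ℝ × E × Pth E => cL q.2.1 q.1 (m q.1 q.2.1) k q.2.2) := by
  classical
  apply Measurable.ite _ measurable_const measurable_const
  apply MeasurableSet.inter
  · exact (measurable_clsQ hm) (measurableSet_singleton k)
  · exact (measurableSet_le ((measurable_fst.div_const _).const_mul _) (measurable_fst.sub
        (((measurable_eval 0).comp (measurable_snd.comp measurable_snd)).dist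
          (measurable_fst.comp measurable_snd))) : MeasurableSet {a : ℝ × E × Pth E |
          32 * (a.1 / 2 ^ k) ≤ a.1 - dist (a.2.2.1 0) a.2.1})

lemma measurable_cHQ (hm : Measurable (fun q : ℝ × E × E => m q.1 q.2.1 q.2.2)) :
    Measurable (fun q : ℝ × E × Pth E => cH q.2.1 q.1 (m q.1 q.2.1) q.2.2) := by
  apply Measurable.tsum
  intro k
  exact (measurable_fst.div_const _).ennreal_ofReal.mul (measurable_cLQ hm k)

lemma measurable_cWQ (hρ : Measurable (fun q : ℝ × E × E => ρ q.1 q.2.1 q.2.2))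
    (hm : Measurable (fun q : ℝ × E × E => m q.1 q.2.1 q.2.2)) :
    Measurable (fun q : ℝ × E × Pth E => cW q.2.1 q.1 (ρ q.1 q.2.1) (m q.1 q.2.1) q.2.2) := by
  classical
  apply Measurable.ite _ (measurable_rad hρ).ennreal_ofReal measurable_const
  apply measurableSet_lt
  · exact measurable_fst.sub
      (((measurable_eval 0).comp (measurable_snd.comp measurable_snd)).dist
        (measurable_fst.comp measurable_snd))
  · apply Measurable.const_mul
    apply measurable_fst.div
    exact (measurable_from_top (f := fun n : ℕ => (2:ℝ) ^ n)).comp (measurable_clsQ hm)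

/-- restriction of the parameters: the centre is the starting point -/
lemma measurable_diag {H : ℝ × E × Pth E → ℝ≥0∞} (h : Measurable H) :
    Measurable (fun q : ℝ × Pth E => H (q.1, q.2.1 0, q.2)) :=
  h.comp (measurable_fst.prodMk (((measurable_eval 0).comp measurable_snd).prodMk measurable_snd))

lemma measurable_F0 (hW : IsWiener W) (hD : ∀ k, IsOpen (D k)) (hη : Measurable η)
    (hlam : Measurable lam)
    (hρ : Measurable (fun q : ℝ × E × E => ρ q.1 q.2.1 q.2.2))
    (hm : Measurable (fun q : ℝ × E × E => m q.1 q.2.1 q.2.2)) :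
    Measurable (fun q : ℝ × Pth E => F0 W D η lam ρ m q.1 q.2) := by
  classical
  have h1 : Measurable (fun q : ℝ × Pth E =>
      Ai D (ρ q.1 (q.2.1 0)) (cB D (ρ q.1 (q.2.1 0))) q.2) :=
    measurable_diag (measurable_AiQ hD hρ (c := fun R x => cB D (ρ R x)) (measurable_cBQ hD hρ))
  have h2 : Measurable (fun q : ℝ × Pth E =>
      Ai D (ρ q.1 (q.2.1 0)) (cM W D η (ρ q.1 (q.2.1 0))) q.2) :=
    measurable_diag (measurable_AiQ hD hρ (c := fun R x => cM W D η (ρ R x))
      (measurable_cMQ hW hD hη hρ))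
  have h3 : Measurable (fun q : ℝ × Pth E =>
      Ai D (ρ q.1 (q.2.1 0)) (cH (q.2.1 0) q.1 (m q.1 (q.2.1 0))) q.2) :=
    measurable_diag (measurable_AiQ hD hρ (c := fun R x => cH x R (m R x)) (measurable_cHQ hm))
  have h4 : Measurable (fun q : ℝ × Pth E =>
      Ai D (ρ q.1 (q.2.1 0)) (cW (q.2.1 0) q.1 (ρ q.1 (q.2.1 0)) (m q.1 (q.2.1 0))) q.2) :=
    measurable_diag (measurable_AiQ hD hρ (c := fun R x => cW x R (ρ R x) (m R x))
      (measurable_cWQ hρ hm))
  have hl : Measurable (fun q : ℝ × Pth E => ENNReal.ofReal (lam q.1)) :=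
    (hlam.comp measurable_fst).ennreal_ofReal
  have hs1 : MeasurableSet {q : ℝ × Pth E | ENNReal.ofReal (η q.1) ≤ phi W D q.1 (q.2.1 0)} :=
    measurableSet_le (hη.comp measurable_fst).ennreal_ofReal
      ((measurable_phi2 hW hD).comp (measurable_fst.prodMk
        ((measurable_eval 0).comp measurable_snd)))
  have hs2 : MeasurableSet {q : ℝ × Pth E | ENNReal.ofReal (lam q.1) ≤
      Ai D (ρ q.1 (q.2.1 0)) (cW (q.2.1 0) q.1 (ρ q.1 (q.2.1 0)) (m q.1 (q.2.1 0))) q.2} :=
    measurableSet_le hl h4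
  unfold F0
  refine Measurable.ite hs1 ?_ measurable_const
  refine Measurable.add ((h1.add h2).add (h3.div hl)) ?_
  exact Measurable.ite hs2 measurable_const measurable_const

lemma measurable_Fg (hW : IsWiener W) (hD : ∀ k, IsOpen (D k)) (hη : Measurable η)
    (hlam : Measurable lam)
    (hρ : Measurable (fun q : ℝ × E × E => ρ q.1 q.2.1 q.2.2))
    (hm : Measurable (fun q : ℝ × E × E => m q.1 q.2.1 q.2.2)) (g : ℕ) :
    Measurable (fun q : ℝ × Pth E => Fg W D η lam ρ m g q.1 q.2) := by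
  induction g with
  | zero => exact measurable_F0 hW hD hη hlam hρ hm
  | succ g ih =>
    apply measurable_diag (H := fun q : ℝ × E × Pth E => Ai D (ρ q.1 q.2.1)
      (fun r => Fg W D η lam ρ m g (ρ q.1 q.2.1 (r.1 0)) r) q.2.2)
    apply measurable_AiQ hD hρ (c := fun R x r => Fg W D η lam ρ m g (ρ R x (r.1 0)) r)
    exact ih.comp ((measurable_rad hρ).prodMk (measurable_snd.comp measurable_snd))

end meas

/-! ### expectations -/

section

variable {D : ℕ → Set E} {x : E} {R ε δ : ℝ} {ρ : E → ℝ} {m : E → ℕ}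

/-- slice measurability -/
lemma measurable_sliceQ {c : ℝ → E → Pth E → ℝ≥0∞}
    (hc : Measurable (fun q : ℝ × E × Pth E => c q.1 q.2.1 q.2.2)) (R : ℝ) (x : E) :
    Measurable (c R x) :=
  hc.comp (measurable_const.prodMk (measurable_const.prodMk measurable_id))

lemma Ex_cB_le (hW : IsWiener W) (hD : ∀ k, IsOpen (D k)) (ha : Antitone D)
    (h : Walk W D x R ε δ ρ m) (hcm : Measurable (cB D ρ)) (hx : x ∈ SB D x R) :
    Ex W (Ai D ρ (cB D ρ)) x ≤ ENNReal.ofReal δ * phi W D R x := by
  classical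
  apply Ex_Ai_le hW hD h.meas hcm
  intro j
  rw [← hB_center hW]
  apply Af_le_phi hW hD ha h hcm _ j x hx
  intro y hy
  refine le_trans ?_ (h.bad y hy.1 hy.2)
  have hm : MeasurableSet {p : Pth E | p ∈ badSeg D (ρ y)} :=
    (measurable_const.prodMk measurable_id : Measurable (fun p : Pth E => (ρ y, p)))
      (measurableSet_badSeg2 hD)
  have : W {p | tr y p ∈ badSeg D (ρ y)} = Ex W ((badSeg D (ρ y)).indicator 1) y := by
    unfold Ex
    exact (lintegral_indicator_one (μ := W) ((measurable_tr y) hm)).symm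
  rw [this]
  apply Ex_le_start hW
  intro q hq
  unfold cB
  rw [hq]
  by_cases hb : q ∈ badSeg D (ρ y)
  · rw [if_pos hb, indicator_of_mem hb]; rfl
  · rw [if_neg hb]; exact zero_le

lemma Ex_cM_le (hn : 0 < finrank ℝ E) (hW : IsWiener W) (hD : ∀ k, IsOpen (D k))
    (h : Walk W D x R ε δ ρ m) {η : ℝ → ℝ} (hcm : Measurable (cM W D η ρ)) (hx : x ∈ SB D x R)
    {K : ℝ} (hK0 : 0 ≤ K) (hK : ∀ r, 0 < r → r ≤ R / 16 → η r ≤ K * r ^ 2) :
    Ex W (Ai D ρ (cM W D η ρ)) x ≤ ENNReal.ofReal (K * R ^ 2) := by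
  classical
  apply Ex_Ai_le hW hD h.meas hcm
  intro j
  have hmain := Af_le_sq hn hW hD h hcm (b := ENNReal.ofReal K) ENNReal.ofReal_ne_top (by
    intro y hy
    have hpos := h.pos hy
    have hle := h.le_dist hy
    have hd : 0 ≤ dist y x := dist_nonneg
    rw [← ENNReal.ofReal_mul hK0]
    refine le_trans ?_ (ENNReal.ofReal_le_ofReal (hK (ρ y) hpos (by linarith)))
    -- `cM ≤ indicator` of `TT ≤ ext (ρ y)` and the risk is small
    by_cases hs : phi W D (ρ y) y < ENNReal.ofReal (η (ρ y))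
    · refine le_trans ?_ hs.le
      rw [phi_eq_Ex hD]
      apply Ex_le_start hW
      intro q hq
      unfold cM exr
      rw [hq]
      by_cases hb : TT D q ≤ ext (ρ y) q
      · rw [indicator_of_mem (by exact hb)]
        split_ifs <;> simp
      · rw [if_neg (fun hh => hb hh.1)]; exact zero_le
    · have : Ex W (cM W D η ρ) y = 0 := by
        apply Ex_zero_of hW
        intro q hq
        unfold cM
        rw [hq, if_neg (fun hh => hs hh.2)]
      rw [this]; exact zero_le) j x hx
  refine hmain.trans ?_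
  rw [dist_self, ← ENNReal.ofReal_mul hK0]
  apply ENNReal.ofReal_le_ofReal
  nlinarith

lemma Ex_cH_le (hn : 3 ≤ finrank ℝ E) (hW : IsWiener W) (hD : ∀ k, IsOpen (D k))
    (ha : Antitone D) (h : Walk W D x R ε δ ρ m) (hcm : Measurable (cH x R m))
    (hx : x ∈ SB D x R) :
    Ex W (Ai D ρ (cH x R m)) x ≤ ENNReal.ofReal (288 * R / ε) * phi W D R x := by
  have hR := h.Rpos
  have hε := h.epos
  apply Ex_Ai_le hW hD h.meas hcm
  intro j
  have h1 : Ex W (Af D ρ (cH x R m) j) x =
      ∑' k, ENNReal.ofReal (R / 2 ^ k) * Ex W (Af D ρ (cL x R m k) j) x := by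
    have e1 : Af D ρ (cH x R m) j = fun p => ∑' k, ENNReal.ofReal (R / 2 ^ k) *
        Af D ρ (cL x R m k) j p := by
      funext p
      unfold cH
      rw [Af_tsum]
      congr 1
      funext k
      exact Af_const_mul D ρ _ _ j p
    rw [e1]
    unfold Ex
    rw [lintegral_tsum]
    · congr 1
      funext k
      exact lintegral_const_mul _ ((measurable_Af hD h.meas (measurable_cL h.measm k) j).comp
        (measurable_tr x))
    · intro k
      exact (((measurable_Af hD h.meas (measurable_cL h.measm k) j).comp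
        (measurable_tr x)).const_mul _).aemeasurable
  rw [h1]
  have hεt : ENNReal.ofReal ε ≠ 0 := by rw [ne_eq, ENNReal.ofReal_eq_zero, not_le]; exact hε
  have h2 : ∀ k, Ex W (Af D ρ (cL x R m k) j) x ≤ ENNReal.ofReal (144 / ε) * phi W D R x := by
    intro k
    have h3 := limited_le hn hW hD ha h k j x hx
    rw [hB_center hW] at h3
    have h4 : ENNReal.ofReal (144 / ε) = 144 / ENNReal.ofReal ε := by
      rw [ENNReal.ofReal_div_of_pos hε]
      norm_num
    rw [h4, ENNReal.div_eq_inv_mul, mul_assoc]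
    calc Ex W (Af D ρ (cL x R m k) j) x =
          (ENNReal.ofReal ε)⁻¹ * (ENNReal.ofReal ε * Ex W (Af D ρ (cL x R m k) j) x) := by
          rw [← mul_assoc, ENNReal.inv_mul_cancel hεt ENNReal.ofReal_ne_top, one_mul]
      _ ≤ (ENNReal.ofReal ε)⁻¹ * (144 * phi W D R x) := by gcongr
  calc ∑' k, ENNReal.ofReal (R / 2 ^ k) * Ex W (Af D ρ (cL x R m k) j) x ≤
        ∑' k, ENNReal.ofReal (R / 2 ^ k) * (ENNReal.ofReal (144 / ε) * phi W D R x) := by
        apply ENNReal.tsum_le_tsum
        intro k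
        gcongr
        exact h2 k
    _ = (∑' k, ENNReal.ofReal (R / 2 ^ k)) * (ENNReal.ofReal (144 / ε) * phi W D R x) :=
        ENNReal.tsum_mul_right
    _ = ENNReal.ofReal (2 * R) * (ENNReal.ofReal (144 / ε) * phi W D R x) := by
        congr 1
        have hs : Summable (fun k : ℕ => R / 2 ^ k) := by
          have := summable_geometric_two.mul_left R
          refine this.congr fun k => ?_
          rw [one_div_pow]; ring
        rw [← ENNReal.ofReal_tsum_of_nonneg (fun k => by positivity) hs]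
        congr 1
        have : (∑' k : ℕ, R / 2 ^ k) = R * ∑' k : ℕ, (1 / 2 : ℝ) ^ k := by
          rw [← tsum_mul_left]
          congr 1
          funext k
          rw [one_div_pow]; ring
        rw [this, tsum_geometric_two]
        ring
    _ = ENNReal.ofReal (288 * R / ε) * phi W D R x := by
        rw [← mul_assoc, ← ENNReal.ofReal_mul (by positivity)]
        congr 2
        ring

lemma W_cW_le (hW : IsWiener W) (hD : ∀ k, IsOpen (D k)) (h : Walk W D x R ε δ ρ m)
    {κ : ℝ} (hκ : ∀ (j : ℕ) (t : ℝ), 0 ≤ t →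
      W {p | ENNReal.ofReal t ≤ Af D ρ (cW x R ρ m) j (tr x p)} ≤
        ENNReal.ofReal (2 * Real.exp (-κ * t / R))) {lam : ℝ} (hlam : 0 < lam) :
    W {p | ENNReal.ofReal lam ≤ Ai D ρ (cW x R ρ m) (tr x p)} ≤
      ENNReal.ofReal (2 * Real.exp (-κ * (lam / 2) / R)) := by
  have hsub : {p | ENNReal.ofReal lam ≤ Ai D ρ (cW x R ρ m) (tr x p)} ⊆
      ⋃ j, {p | ENNReal.ofReal (lam / 2) ≤ Af D ρ (cW x R ρ m) j (tr x p)} := by
    intro p hp
    have h1 : ENNReal.ofReal (lam / 2) < Ai D ρ (cW x R ρ m) (tr x p) := by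
      refine lt_of_lt_of_le ?_ hp
      rw [ENNReal.ofReal_lt_ofReal_iff hlam]
      linarith
    obtain ⟨j, hj⟩ := lt_iSup_iff.1 h1
    exact mem_iUnion.2 ⟨j, hj.le⟩
  refine (measure_mono hsub).trans ?_
  have hmono : Monotone (fun j => {p | ENNReal.ofReal (lam / 2) ≤
      Af D ρ (cW x R ρ m) j (tr x p)}) := by
    intro i j hij p hp
    exact le_trans hp (Af_mono' D ρ _ hij _)
  rw [hmono.measure_iUnion]
  exact iSup_le fun j => hκ j (lam / 2) (by positivity)

end

end Pool.Agent.Lib.P07dee5
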