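import Mathlib

/-! # Numerical estimates for the choice of the parameters -/

open Set Filter Topology

namespace Pool.Agent.Lib.P07dee5

/-- risk threshold -/
noncomputable def etaf (R : ℝ) : ℝ := Real.exp (-R ^ (-(1 / 4 : ℝ)))

lemma etaf_pos (R : ℝ) : 0 < etaf R := Real.exp_pos _

lemma measurable_etaf : Measurable etaf := by unfold etaf; fun_prop

lemma pow8_exp {s : ℝ} (hs : 0 ≤ s) : s ^ 8 ≤ 4 ^ 8 * 40320 * Real.exp (s / 4) := by
  have h := Real.pow_div_factorial_le_exp (s / 4) (by positivity) 8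
  have h8 : ((8 : ℕ).factorial : ℝ) = 40320 := by norm_num [Nat.factorial]
  rw [h8, div_pow, div_div, div_le_iff₀ (by positivity)] at h
  linarith

/-- `η r ≤ K r²` for `r ≤ R / 16` -/
lemma etaf_le {R r : ℝ} (hr : 0 < r) (hrR : r ≤ R / 16) :
    etaf r ≤ (4 ^ 8 * 40320 * Real.exp (-(3 / 2) * R ^ (-(1 / 4 : ℝ)))) * r ^ 2 := by
  have hR : 0 < R := by linarith
  set s := r ^ (-(1 / 4 : ℝ)) with hs
  set t := R ^ (-(1 / 4 : ℝ)) with ht
  have hs0 : 0 < s := Real.rpow_pos_of_pos hr _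
  have ht0 : 0 < t := Real.rpow_pos_of_pos hR _
  have hst : 2 * t ≤ s := by
    have h1 : (R / 16) ^ (-(1 / 4 : ℝ)) ≤ s :=
      Real.rpow_le_rpow_of_nonpos hr hrR (by norm_num)
    have h2 : (R / 16) ^ (-(1 / 4 : ℝ)) = 2 * t := by
      rw [Real.div_rpow hR.le (by norm_num), ← ht]
      have : (16 : ℝ) ^ (-(1 / 4 : ℝ)) = 1 / 2 := by
        have h16 : (16 : ℝ) = 2 ^ (4 : ℝ) := by norm_num
        rw [h16, ← Real.rpow_mul (by norm_num)]
        norm_num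
      rw [this]
      ring
    linarith
  have hs8 : s ^ 8 * r ^ 2 = 1 := by
    have h1 : s ^ 8 = r ^ (-(2:ℝ)) := by
      rw [hs, ← Real.rpow_natCast, ← Real.rpow_mul hr.le]
      norm_num
    rw [h1, Real.rpow_neg hr.le]
    have : r ^ (2:ℝ) = r ^ 2 := by norm_cast
    rw [this]
    field_simp
  have h8 := pow8_exp hs0.le
  unfold etaf
  rw [← hs]
  have hexp : Real.exp (-s) ≤ Real.exp (-(3 / 2) * t) * Real.exp (-(s / 4)) := by
    rw [← Real.exp_add]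
    apply Real.exp_le_exp.2
    linarith
  calc Real.exp (-s) ≤ Real.exp (-(3 / 2) * t) * Real.exp (-(s / 4)) := hexp
    _ = Real.exp (-(3 / 2) * t) * Real.exp (-(s / 4)) * (s ^ 8 * r ^ 2) := by rw [hs8, mul_one]
    _ ≤ Real.exp (-(3 / 2) * t) * Real.exp (-(s / 4)) *
        ((4 ^ 8 * 40320 * Real.exp (s / 4)) * r ^ 2) := by gcongr
    _ = (4 ^ 8 * 40320 * Real.exp (-(3 / 2) * t)) * r ^ 2 *
        (Real.exp (-(s / 4)) * Real.exp (s / 4)) := by ring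
    _ = _ := by rw [← Real.exp_add]; simp

lemma term2 {R a : ℝ} (hR : 0 < R) (hR1 : R ≤ 1) (ha1 : a ≤ 2) :
    (4 ^ 8 * 40320 * Real.exp (-(3 / 2) * R ^ (-(1 / 4 : ℝ)))) * R ^ 2 / etaf R ≤
      (4 ^ 8 * 40320) * R ^ a := by
  set t := R ^ (-(1 / 4 : ℝ)) with ht
  have ht0 : 0 < t := Real.rpow_pos_of_pos hR _
  unfold etaf
  rw [← ht, div_le_iff₀ (Real.exp_pos _)]
  have h1 : R ^ 2 ≤ R ^ a := by
    have : R ^ (2:ℝ) ≤ R ^ a := Real.rpow_le_rpow_of_exponent_ge hR hR1 ha1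
    calc R ^ 2 = R ^ (2:ℝ) := by norm_cast
      _ ≤ _ := this
  have h2 : Real.exp (-(3 / 2) * t) ≤ Real.exp (-t) := by
    apply Real.exp_le_exp.2; linarith
  have h3 : 0 < R ^ a := Real.rpow_pos_of_pos hR _
  calc (4 ^ 8 * 40320 * Real.exp (-(3 / 2) * t)) * R ^ 2 ≤
        (4 ^ 8 * 40320 * Real.exp (-t)) * R ^ a := by gcongr
    _ = _ := by ring

lemma term3 {R a c : ℝ} (hR : 0 < R) (hR1 : R ≤ 1) (hc : 0 < c) (ha1 : a ≤ 1 / 4) :
    288 * R / (c * R ^ (1 / 4 : ℝ)) / R ^ (1 / 2 : ℝ) ≤ 288 / c * R ^ a := by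
  have h1 : R / R ^ (1 / 4 : ℝ) / R ^ (1 / 2 : ℝ) = R ^ (1 / 4 : ℝ) := by
    have e1 : R = R ^ (1 : ℝ) := (Real.rpow_one R).symm
    conv_lhs => rw [e1]
    rw [Real.rpow_one]
    nth_rw 1 [e1]
    rw [← Real.rpow_sub hR, ← Real.rpow_sub hR]
    norm_num
  have h2 : R ^ (1 / 4 : ℝ) ≤ R ^ a := Real.rpow_le_rpow_of_exponent_ge hR hR1 ha1
  calc 288 * R / (c * R ^ (1 / 4 : ℝ)) / R ^ (1 / 2 : ℝ) =
        288 / c * (R / R ^ (1 / 4 : ℝ) / R ^ (1 / 2 : ℝ)) := by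
        field_simp
    _ = 288 / c * R ^ (1 / 4 : ℝ) := by rw [h1]
    _ ≤ _ := by gcongr

lemma term4 {R a κ : ℝ} (hR : 0 < R) (hR1 : R ≤ 1) (hκ : 0 < κ) (ha1 : a ≤ 1 / 4) :
    2 * Real.exp (-κ * (R ^ (1 / 2 : ℝ) / 2) / R) / etaf R ≤
      2 * Real.exp (2 / κ) * R ^ a := by
  set t := R ^ (-(1 / 4 : ℝ)) with ht
  have ht0 : 0 < t := Real.rpow_pos_of_pos hR _
  have h1 : R ^ (1 / 2 : ℝ) / R = t ^ 2 := by
    have e1 : R ^ (1 / 2 : ℝ) / R = R ^ (-(1 / 2 : ℝ)) := by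
      have : R ^ (1 / 2 : ℝ) / R ^ (1:ℝ) = R ^ (1 / 2 - 1 : ℝ) := (Real.rpow_sub hR _ _).symm
      rw [Real.rpow_one] at this
      rw [this]
      norm_num
    rw [e1, ht, ← Real.rpow_natCast, ← Real.rpow_mul hR.le]
    norm_num
  have h2 : -κ * (R ^ (1 / 2 : ℝ) / 2) / R = -(κ / 2) * t ^ 2 := by
    rw [← h1]; ring
  have h3 : R ^ (1 / 4 : ℝ) ≤ R ^ a := Real.rpow_le_rpow_of_exponent_ge hR hR1 ha1
  have h4 : R ^ (1 / 4 : ℝ) * t = 1 := by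
    rw [ht, ← Real.rpow_add hR]; norm_num
  unfold etaf
  rw [← ht, h2, div_le_iff₀ (Real.exp_pos _)]
  have h5 : Real.exp (-(κ / 2) * t ^ 2) * t ≤ Real.exp (2 / κ) * Real.exp (-t) := by
    have h6 : t ≤ Real.exp t := by
      have := Real.add_one_le_exp t
      linarith
    calc Real.exp (-(κ / 2) * t ^ 2) * t ≤ Real.exp (-(κ / 2) * t ^ 2) * Real.exp t := by gcongr
      _ = Real.exp (-(κ / 2) * t ^ 2 + t) := (Real.exp_add _ _).symm
      _ ≤ Real.exp (2 / κ + -t) := by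
          apply Real.exp_le_exp.2
          have h7 : 0 ≤ (κ / 2) * (t - 2 / κ) ^ 2 := by positivity
          have h8 : (κ / 2) * (t - 2 / κ) ^ 2 = (κ / 2) * t ^ 2 - 2 * t + 2 / κ := by
            field_simp
            ring
          linarith
      _ = Real.exp (2 / κ) * Real.exp (-t) := Real.exp_add _ _
  calc 2 * Real.exp (-(κ / 2) * t ^ 2) = 2 * (Real.exp (-(κ / 2) * t ^ 2) * t) *
        R ^ (1 / 4 : ℝ) := by
        have : (Real.exp (-(κ / 2) * t ^ 2) * t) * R ^ (1 / 4 : ℝ) =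
          Real.exp (-(κ / 2) * t ^ 2) * (R ^ (1 / 4 : ℝ) * t) := by ring
        rw [mul_assoc, this, h4, mul_one]
    _ ≤ 2 * (Real.exp (2 / κ) * Real.exp (-t)) * R ^ a := by gcongr
    _ = 2 * Real.exp (2 / κ) * R ^ a * Real.exp (-t) := by ring

end Pool.Agent.Lib.P07dee5
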