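import Mathlib
import Pool.Agent.Lib.P07dee5.Chain

/-! # Measurable radius functions -/

open MeasureTheory Set Filter Topology ProbabilityTheory Module
open scoped ENNReal NNReal

set_option linter.unusedSectionVars false
set_option linter.unusedVariables false

namespace Pool.Agent.Lib.P07dee5

variable {E : Type*} [NormedAddCommGroup E] [InnerProductSpace ℝ E] [FiniteDimensional ℝ E]
  [MeasurableSpace E] [BorelSpace E] {W : Measure (Pth E)}

namespace Rad

lemma measurableSet_badSeg2 {D : ℕ → Set E} (hD : ∀ k, IsOpen (D k)) :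
    MeasurableSet {q : ℝ × Pth E | q.2 ∈ badSeg D q.1} := by
  have h : {q : ℝ × Pth E | q.2 ∈ badSeg D q.1} = ⋂ k,
      (fun q : ℝ × Pth E => (q.2.1 0, q.2.1 (ext q.1 q.2).toNNReal)) ⁻¹'
        (⋃ s ∈ Ioc (0:ℝ) 1, {z : E × E | z.1 + s • (z.2 - z.1) ∈ D k}) := by
    ext q
    simp only [badSeg, Set.mem_ofPred_eq, mem_iInter, mem_preimage, mem_iUnion, exists_prop]
  rw [h]
  refine MeasurableSet.iInter fun k => ?_
  have h1 : Measurable (fun q : ℝ × Pth E => (q.2.1 0, q.2.1 (ext q.1 q.2).toNNReal)) :=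
    ((measurable_eval 0).comp measurable_snd).prodMk
      (Measurable.eval measurable_ext2.ennreal_toNNReal measurable_snd)
  refine h1 (IsOpen.measurableSet (isOpen_biUnion fun s _ => ?_))
  exact (hD k).preimage (by fun_prop)

lemma measurable_phi2 (hW : IsWiener W) {D : ℕ → Set E} (hD : ∀ k, IsOpen (D k)) :
    Measurable (fun q : ℝ × E => phi W D q.1 q.2) := by
  have := hW.prob
  have hS : MeasurableSet {z : (ℝ × E) × Pth E | TT D (tr z.1.2 z.2) ≤ ext z.1.1 z.2} := by
    apply measurableSet_le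
    · exact (measurable_TT hD).comp
        (measurable_tr2.comp ((measurable_snd.comp measurable_fst).prodMk measurable_snd))
    · exact measurable_ext2.comp ((measurable_fst.comp measurable_fst).prodMk measurable_snd)
  exact measurable_measure_prodMk_left (ν := W) hS

lemma measurable_bad2 (hW : IsWiener W) {D : ℕ → Set E} (hD : ∀ k, IsOpen (D k)) :
    Measurable (fun q : ℝ × E => W {p | tr q.2 p ∈ badSeg D q.1}) := by
  have := hW.prob
  have hS : MeasurableSet {z : (ℝ × E) × Pth E | tr z.1.2 z.2 ∈ badSeg D z.1.1} := by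
    have h1 : Measurable (fun z : (ℝ × E) × Pth E => (z.1.1, tr z.1.2 z.2)) :=
      (measurable_fst.comp measurable_fst).prodMk
        (measurable_tr2.comp ((measurable_snd.comp measurable_fst).prodMk measurable_snd))
    exact h1 (measurableSet_badSeg2 hD)
  exact measurable_measure_prodMk_left (ν := W) hS

lemma measurable_phi_comp (hW : IsWiener W) {D : ℕ → Set E} (hD : ∀ k, IsOpen (D k))
    {α : Type*} [MeasurableSpace α] {f : α → ℝ} {g : α → E} (hf : Measurable f)
    (hg : Measurable g) : Measurable (fun q : α => phi W D (f q) (g q)) := by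
  have h := (measurable_phi2 hW hD).comp (hf.prodMk hg)
  exact h

lemma measurable_bad_comp (hW : IsWiener W) {D : ℕ → Set E} (hD : ∀ k, IsOpen (D k))
    {α : Type*} [MeasurableSpace α] {f : α → ℝ} {g : α → E} (hf : Measurable f)
    (hg : Measurable g) : Measurable (fun q : α => W {p | tr (g q) p ∈ badSeg D (f q)}) := by
  have h := (measurable_bad2 hW hD).comp (hf.prodMk hg)
  exact h

lemma ae_ne_zero (hn : 3 ≤ finrank ℝ E) (hW : IsWiener W) {t : ℝ≥0} (ht : 0 < t) :
    ∀ᵐ p ∂W, p.1 t ≠ 0 := by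
  have hnt : Nontrivial E := Module.nontrivial_of_finrank_pos (R := ℝ) (by omega)
  rw [ae_iff]
  simp only [ne_eq, not_not]
  have h1 : W {p : Pth E | p.1 t = 0} =
      Ex W (fun p => ({0} : Set E).indicator (fun _ => 1) (p.1 t)) 0 := by
    unfold Ex
    have h2 : (fun p : Pth E => ({0} : Set E).indicator (fun _ => (1:ℝ≥0∞)) ((tr 0 p).1 t)) =
        {p : Pth E | p.1 t = 0}.indicator (fun _ => 1) := by
      funext p
      by_cases h : p.1 t = 0
      · rw [indicator_of_mem (show p ∈ {p : Pth E | p.1 t = 0} from h),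
          indicator_of_mem (by simp [h])]
      · rw [indicator_of_notMem (show p ∉ {p : Pth E | p.1 t = 0} from h),
          indicator_of_notMem (by simp [h])]
    rw [h2, lintegral_indicator]
    · simp
    · exact (measurable_eval t) (measurableSet_singleton 0)
  rw [h1, Ex_eval hW ht (f := ({0} : Set E).indicator (fun _ => 1))
    (measurable_const.indicator (measurableSet_singleton 0))]
  have h3 : ∀ᵐ y : E ∂volume, y ≠ 0 := by
    rw [ae_iff]; simp
  rw [lintegral_congr_ae (g := fun _ => 0)]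
  · simp
  · filter_upwards [h3] with y hy
    rw [indicator_of_notMem (by simpa using hy), mul_zero]

lemma tendsto_phi (hn : 3 ≤ finrank ℝ E) (hW : IsWiener W) {D : ℕ → Set E} (hN : Nest W D)
    {y : E} (hy : y ∈ Vs D) {R : ℝ} (hR : 0 < R) :
    Tendsto (fun k : ℕ => phi W D (R / 2 ^ k) y) atTop (𝓝 0) := by
  have := hW.prob
  have hmeas : ∀ k : ℕ, MeasurableSet {p : Pth E | TT D (tr y p) ≤ ext (R / 2 ^ k) p} := fun k =>
    measurableSet_le ((measurable_TT hN.isOpen).comp (measurable_tr y)) (measurable_ext _)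
  have hanti : Antitone (fun k : ℕ => {p : Pth E | TT D (tr y p) ≤ ext (R / 2 ^ k) p}) := by
    intro k l hkl p hp
    have hp' : TT D (tr y p) ≤ ext (R / 2 ^ l) p := hp
    show TT D (tr y p) ≤ ext (R / 2 ^ k) p
    refine hp'.trans (ext_mono ?_ p)
    apply div_le_div_of_nonneg_left hR.le (by positivity)
    exact pow_le_pow_right₀ (by norm_num) hkl
  have h1 := tendsto_measure_iInter_atTop (μ := W) (fun k => (hmeas k).nullMeasurableSet) hanti
    ⟨0, measure_ne_top _ _⟩
  have h2 : W (⋂ k : ℕ, {p : Pth E | TT D (tr y p) ≤ ext (R / 2 ^ k) p}) = 0 := by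
    have h3 : ∀ᵐ p ∂W, ∀ n : ℕ, p.1 (1 / (n + 1) : ℝ≥0) ≠ 0 := by
      rw [ae_all_iff]
      intro n
      exact ae_ne_zero hn hW (by positivity)
    have h4 : ∀ᵐ p ∂W, p ∉ ⋂ k : ℕ, {p : Pth E | TT D (tr y p) ≤ ext (R / 2 ^ k) p} := by
      filter_upwards [h3, hN.TT_pos hy, hW.zero] with p hp1 hp2 hp3 hp4
      rw [mem_iInter] at hp4
      have h5 : ∀ n : ℕ, TT D (tr y p) ≤ ((1 / (n + 1) : ℝ≥0) : ℝ≥0∞) := by
        intro n
        have h6 : 0 < dist (p.1 (1 / (n + 1) : ℝ≥0)) (p.1 0) := by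
          rw [hp3, dist_zero_right]
          exact norm_pos_iff.2 (hp1 n)
        have h7 : Tendsto (fun k : ℕ => R / 2 ^ k) atTop (𝓝 0) := by
          have h8 := (tendsto_pow_atTop_nhds_zero_of_lt_one (r := (1/2 : ℝ)) (by norm_num)
            (by norm_num)).const_mul R
          rw [mul_zero] at h8
          refine h8.congr fun k => ?_
          rw [one_div, inv_pow, div_eq_mul_inv]
        obtain ⟨k, hk⟩ := (h7.eventually (gt_mem_nhds h6)).exists
        have h9 : TT D (tr y p) ≤ ext (R / 2 ^ k) p := hp4 k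
        exact h9.trans (ext_le hk.le)
      have h10 : TT D (tr y p) ≤ 0 := by
        refine ENNReal.le_of_forall_pos_le_add ?_
        intro ε hε _
        obtain ⟨n, hn⟩ := exists_nat_one_div_lt (K := ℝ≥0) hε
        rw [zero_add]
        refine (h5 n).trans ?_
        exact_mod_cast hn.le
      exact absurd hp2 (not_lt.2 h10)
    rw [measure_eq_zero_iff_ae_notMem]
    exact h4
  rw [h2] at h1
  exact h1

section Sel

/-- admissible classes -/
def clP (W : Measure (Pth E)) (D : ℕ → Set E) (ε : ℝ → ℝ) (q : ℝ × E × E) (k : ℕ) : Prop :=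
  16 * (q.1 / 2 ^ k) ≤ q.1 - dist q.2.2 q.2.1 ∧
    phi W D (q.1 / 2 ^ k) q.2.2 ≤ ENNReal.ofReal (ε q.1)

lemma measurableSet_clP (hW : IsWiener W) {D : ℕ → Set E} (hD : ∀ k, IsOpen (D k)) {ε : ℝ → ℝ}
    (hε : Measurable ε) (k : ℕ) : MeasurableSet {q | clP W D ε q k} := by
  have h1 : MeasurableSet {q : ℝ × E × E | 16 * (q.1 / 2 ^ k) ≤ q.1 - dist q.2.2 q.2.1} := by
    apply measurableSet_le
    · exact (measurable_fst.div_const _).const_mul _
    · exact measurable_fst.sub
        ((measurable_snd.comp measurable_snd).dist (measurable_fst.comp measurable_snd))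
  have h4 : Measurable (fun q : ℝ × E × E => phi W D (q.1 / 2 ^ k) q.2.2) :=
    measurable_phi_comp hW hD (measurable_fst.div_const _) (measurable_snd.comp measurable_snd)
  have h5 : Measurable (fun q : ℝ × E × E => ENNReal.ofReal (ε q.1)) :=
    (hε.comp measurable_fst).ennreal_ofReal
  have h6 : {q | clP W D ε q k} = {q : ℝ × E × E | 16 * (q.1 / 2 ^ k) ≤ q.1 - dist q.2.2 q.2.1} ∩
      {q : ℝ × E × E | phi W D (q.1 / 2 ^ k) q.2.2 ≤ ENNReal.ofReal (ε q.1)} := by
    ext q
    simp only [clP, Set.mem_ofPred_eq, mem_inter_iff]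
  rw [h6]
  exact h1.inter (measurableSet_le h4 h5)

lemma exists_or {α : Type*} (P : α → ℕ → Prop) (q : α) : ∃ k, P q k ∨ ∀ j, ¬ P q j := by
  by_cases h : ∃ k, P q k
  · obtain ⟨k, hk⟩ := h; exact ⟨k, Or.inl hk⟩
  · exact ⟨0, Or.inr (not_exists.1 h)⟩

open Classical in
/-- least number with a property (`0` if there is none) -/
noncomputable def least {α : Type*} (P : α → ℕ → Prop) (q : α) : ℕ := Nat.find (exists_or P q)

lemma least_spec {α : Type*} {P : α → ℕ → Prop} {q : α} (h : ∃ k, P q k) : P q (least P q) := by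
  classical
  have h3 := Nat.find_spec (exists_or P q)
  rcases h3 with h3 | h3
  · exact h3
  · obtain ⟨k, hk⟩ := h
    exact absurd hk (h3 k)

lemma least_min {α : Type*} {P : α → ℕ → Prop} {q : α} {k : ℕ} (hk : k < least P q) : ¬ P q k := by
  classical
  intro h
  exact Nat.find_min (exists_or P q) hk (Or.inl h)

lemma measurable_least {α : Type*} [MeasurableSpace α] {P : α → ℕ → Prop}
    (h : ∀ k, MeasurableSet {q | P q k}) : Measurable (least P) := by
  classical
  apply measurable_find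
  intro k
  have : {q | P q k ∨ ∀ j, ¬ P q j} = {q | P q k} ∪ ⋂ j, {q | P q j}ᶜ := by
    ext q; simp
  rw [this]
  exact (h k).union (MeasurableSet.iInter fun j => (h j).compl)

/-- the basic radius -/
noncomputable def rd (W : Measure (Pth E)) (D : ℕ → Set E) (ε : ℝ → ℝ) (q : ℝ × E × E) : ℝ :=
  q.1 / 2 ^ least (clP W D ε) q

lemma measurable_rd (hW : IsWiener W) {D : ℕ → Set E} (hD : ∀ k, IsOpen (D k)) {ε : ℝ → ℝ}
    (hε : Measurable ε) : Measurable (rd W D ε) := by
  unfold rd
  apply measurable_fst.div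
  exact (measurable_from_nat (f := fun n => (2:ℝ) ^ n)).comp
    (measurable_least (measurableSet_clP hW hD hε))

lemma measurable_gr (k : ℕ) : Measurable (gr k) := by
  by_cases hk : k = 0
  · have : gr k = fun r => r / 2 := by funext r; simp [gr, hk]
    rw [this]; exact measurable_id.div_const 2
  · have : gr k = fun r => r * (1 / 2 + (1 / 2) ^ k) := by funext r; simp [gr, hk]
    rw [this]; exact measurable_id.mul_const _

lemma measurable_gr2 : Measurable (fun q : ℕ × ℝ => gr q.1 q.2) :=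
  measurable_from_prod_countable_right measurable_gr

/-- good radii -/
def grP (W : Measure (Pth E)) (D : ℕ → Set E) (ε δ : ℝ → ℝ) (q : ℝ × E × E) (k : ℕ) : Prop :=
  W {p | tr q.2.2 p ∈ badSeg D (gr k (rd W D ε q))} ≤
      ENNReal.ofReal (δ q.1) * phi W D (gr k (rd W D ε q)) q.2.2

lemma measurableSet_grP (hW : IsWiener W) {D : ℕ → Set E} (hD : ∀ k, IsOpen (D k)) {ε δ : ℝ → ℝ}
    (hε : Measurable ε) (hδ : Measurable δ) (k : ℕ) : MeasurableSet {q | grP W D ε δ q k} := by
  have h0 : Measurable (fun q : ℝ × E × E => gr k (rd W D ε q)) :=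
    (measurable_gr k).comp (measurable_rd hW hD hε)
  have h4 : Measurable (fun q : ℝ × E × E => phi W D (gr k (rd W D ε q)) q.2.2) :=
    measurable_phi_comp hW hD h0 (measurable_snd.comp measurable_snd)
  have h5 : Measurable (fun q : ℝ × E × E =>
      W {p | tr q.2.2 p ∈ badSeg D (gr k (rd W D ε q))}) :=
    measurable_bad_comp hW hD h0 (measurable_snd.comp measurable_snd)
  have h6 : Measurable (fun q : ℝ × E × E => ENNReal.ofReal (δ q.1)) :=
    (hδ.comp measurable_fst).ennreal_ofReal
  exact measurableSet_le h5 (h6.mul h4)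

lemma gr_bounds (k : ℕ) {r : ℝ} (hr : 0 < r) : r / 2 ≤ gr k r ∧ gr k r ≤ r := by
  unfold gr
  split_ifs with h
  · constructor <;> linarith
  · have h1 : ((1:ℝ) / 2) ^ k ≤ 1 / 2 := by
      calc ((1:ℝ) / 2) ^ k ≤ (1 / 2) ^ 1 :=
            pow_le_pow_of_le_one (by norm_num) (by norm_num) (by omega)
        _ = 1 / 2 := pow_one _
    have h2 : (0:ℝ) < (1 / 2) ^ k := by positivity
    constructor <;> nlinarith

lemma clP_least (hn : 3 ≤ finrank ℝ E) (hW : IsWiener W) {D : ℕ → Set E} (hN : Nest W D)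
    {ε : ℝ → ℝ} (hε : ∀ R, 0 < R → 0 < ε R) {R : ℝ} (hR : 0 < R) {x y : E} (hy : y ∈ Vs D)
    (hd : dist y x < R) : clP W D ε (R, x, y) (least (clP W D ε) (R, x, y)) := by
  apply least_spec
  have h1 := (tendsto_phi hn hW hN hy hR).eventually
    (gt_mem_nhds (show (0:ℝ≥0∞) < ENNReal.ofReal (ε R) from ENNReal.ofReal_pos.2 (hε R hR)))
  have h7 : Tendsto (fun k : ℕ => 16 * (R / 2 ^ k)) atTop (𝓝 0) := by
    have h8 := (tendsto_pow_atTop_nhds_zero_of_lt_one (r := (1/2 : ℝ)) (by norm_num)
      (by norm_num)).const_mul (16 * R)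
    rw [mul_zero] at h8
    refine h8.congr fun k => ?_
    rw [one_div, inv_pow, div_eq_mul_inv, mul_assoc]
  have h2 := h7.eventually (gt_mem_nhds (show 0 < R - dist y x by linarith))
  obtain ⟨k, hk1, hk2⟩ := (h1.and h2).exists
  exact ⟨k, hk2.le, hk1.le⟩

end Sel

end Rad

open Rad

/-- Existence of measurable radius functions. -/
theorem exists_walk (hn : 3 ≤ finrank ℝ E) (hW : IsWiener W) {D : ℕ → Set E} (hN : Nest W D)
    {ε δ : ℝ → ℝ} (hε : ∀ R, 0 < R → 0 < ε R) (hδ : ∀ R, 0 < R → 0 < δ R)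
    (hg : ∀ R, 0 < R → ∀ (y : E) (r : ℝ), 0 < r → r ≤ R → phi W D r y ≤ ENNReal.ofReal (ε R) →
      ∃ k, W {p | tr y p ∈ badSeg D (gr k r)} ≤ ENNReal.ofReal (δ R) * phi W D (gr k r) y)
    (hεm : Measurable ε) (hδm : Measurable δ) :
    ∃ (ρ : ℝ → E → E → ℝ) (m : ℝ → E → E → ℕ),
      Measurable (fun q : ℝ × E × E => ρ q.1 q.2.1 q.2.2) ∧
      Measurable (fun q : ℝ × E × E => m q.1 q.2.1 q.2.2) ∧
      ∀ R, 0 < R → ∀ x, Walk W D x R (ε R) (δ R) (ρ R x) (m R x) := by
  have hD := hN.isOpen
  have hMm : Measurable (least (clP W D ε)) := measurable_least (measurableSet_clP hW hD hεm)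
  have hKm : Measurable (least (grP W D ε δ)) :=
    measurable_least (measurableSet_grP hW hD hεm hδm)
  have hρm : Measurable (fun q : ℝ × E × E => gr (least (grP W D ε δ) q) (rd W D ε q)) :=
    measurable_gr2.comp (hKm.prodMk (measurable_rd hW hD hεm))
  refine ⟨fun R x y => gr (least (grP W D ε δ) (R, x, y)) (rd W D ε (R, x, y)),
    fun R x y => least (clP W D ε) (R, x, y), hρm, hMm, fun R hR x => ?_⟩
  have hrd : ∀ y, 0 < rd W D ε (R, x, y) := fun y => by
    show 0 < R / 2 ^ _
    positivity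
  have hsec : Measurable (fun y : E => (R, x, y)) :=
    measurable_const.prodMk (measurable_const.prodMk measurable_id)
  refine
    { Rpos := hR
      epos := hε R hR
      dpos := hδ R hR
      meas := hρm.comp hsec
      measm := hMm.comp hsec
      lo := fun y hy hd => (gr_bounds _ (hrd y)).1
      hi := fun y hy hd => (gr_bounds _ (hrd y)).2
      small := fun y hy hd => (clP_least hn hW hN hε hR hy hd).1
      alt := ?_
      bad := ?_ }
  · intro y hy hd h32
    have h1 := (clP_least hn hW hN hε hR hy hd).1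
    have h2 : ∀ k < least (clP W D ε) (R, x, y), ¬ clP W D ε (R, x, y) k :=
      fun k hk => least_min hk
    show ENNReal.ofReal (ε R) < phi W D (2 * (R / 2 ^ least (clP W D ε) (R, x, y))) y
    have h32 : 32 * (R / 2 ^ least (clP W D ε) (R, x, y)) ≤ R - dist y x := h32
    generalize least (clP W D ε) (R, x, y) = M at h1 h2 h32 ⊢
    rcases M with _ | k
    · simp only [pow_zero, div_one] at h1
      have : (0:ℝ) ≤ dist y x := dist_nonneg
      linarith
    · have h3 : 2 * (R / 2 ^ (k + 1)) = R / 2 ^ k := by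
        rw [pow_succ]; field_simp
      rw [h3]
      by_contra h4
      apply h2 k (Nat.lt_succ_self k)
      refine ⟨?_, not_lt.1 h4⟩
      show 16 * (R / 2 ^ k) ≤ R - dist y x
      rw [← h3]
      linarith
  · intro y hy hd
    have h1 := (clP_least hn hW hN hε hR hy hd).2
    have h2 : ∃ k, grP W D ε δ (R, x, y) k := by
      apply hg R hR y (R / 2 ^ least (clP W D ε) (R, x, y)) (by positivity) _ h1
      apply div_le_self hR.le
      exact one_le_pow₀ (by norm_num)
    exact least_spec h2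

end Pool.Agent.Lib.P07dee5
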