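import Mathlib
import Pool.Agent.Lib.P07dee5.Chain
import Pool.Agent.Lib.P07dee5.Quad

/-! # Walk on spheres: the steps limited by the distance to the sphere -/

open MeasureTheory Set Filter Topology ProbabilityTheory Module
open scoped ENNReal NNReal RealInnerProductSpace

set_option linter.unusedSectionVars false
set_option linter.unusedVariables false

namespace Pool.Agent.Lib.P07dee5

variable {E : Type*} [NormedAddCommGroup E] [InnerProductSpace ℝ E] [FiniteDimensional ℝ E]
  [MeasurableSpace E] [BorelSpace E] {W : Measure (Pth E)}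

namespace Whit

lemma sqrt_le {u : ℝ} (h1 : -1 ≤ u) (h2 : u ≤ 1) :
    Real.sqrt (1 - u) ≤ 1 - u / 2 - u ^ 2 / 16 := by
  have h3 : u ^ 2 ≤ 1 := by nlinarith
  have h4 : 0 ≤ 1 - u / 2 - u ^ 2 / 16 := by linarith
  rw [Real.sqrt_le_left h4]
  have h5 : 0 ≤ u ^ 2 * (1 / 8 + u / 16 + u ^ 2 / 256) := by
    apply mul_nonneg (sq_nonneg u)
    have := sq_nonneg u
    linarith
  nlinarith [h5]

/-- the supersolution -/
noncomputable def psi (x : E) (R : ℝ) (y : E) : ℝ := 1 + Real.sqrt (R ^ 2 - dist y x ^ 2) / R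

lemma one_le_psi {x y : E} {R : ℝ} (hR : 0 < R) : 1 ≤ psi x R y := by
  unfold psi
  have : 0 ≤ Real.sqrt (R ^ 2 - dist y x ^ 2) / R := by positivity
  linarith

lemma psi_le_two {x y : E} {R : ℝ} (hR : 0 < R) : psi x R y ≤ 2 := by
  unfold psi
  have h1 : Real.sqrt (R ^ 2 - dist y x ^ 2) ≤ R := by
    rw [Real.sqrt_le_left hR.le]
    nlinarith [sq_nonneg (dist y x)]
  have h2 : Real.sqrt (R ^ 2 - dist y x ^ 2) / R ≤ 1 := by
    rw [div_le_one hR]; exact h1
  linarith

lemma measurable_psi (x : E) (R : ℝ) : Measurable (psi x R) := by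
  unfold psi
  fun_prop

/-- the decrement of the supersolution -/
noncomputable def dec (n : ℕ) (R r v σ : ℝ) : ℝ :=
  σ / R * (r ^ 2 / (2 * σ ^ 2) + r ^ 4 / (16 * σ ^ 4) + r ^ 2 * v ^ 2 / (4 * n * σ ^ 4))

lemma mean_psi {ν : Measure E} (hν : IsSph ν) {x y : E} {R r : ℝ} (hR : 0 < R) (hr : 0 < r)
    (h : 16 * r ≤ R - dist y x) :
    ∫⁻ θ, ENNReal.ofReal (psi x R (y + r • θ)) ∂ν ≤ ENNReal.ofReal (psi x R y -
      dec (finrank ℝ E) R r (dist y x) (Real.sqrt (R ^ 2 - dist y x ^ 2))) := by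
  have hprob := hν.prob
  set v : E := y - x with hv
  have hd : dist y x = ‖v‖ := by rw [dist_eq_norm]
  have hd0 : 0 ≤ dist y x := dist_nonneg
  set s : ℝ := R ^ 2 - dist y x ^ 2 with hs
  have hs1 : 16 * r * R ≤ s := by
    have : s = (R - dist y x) * (R + dist y x) := by rw [hs]; ring
    rw [this]
    nlinarith
  have hspos : 0 < s := by
    have : 0 < 16 * r * R := by positivity
    linarith
  set σ : ℝ := Real.sqrt s with hσ
  have hσpos : 0 < σ := Real.sqrt_pos.2 hspos
  have hσs : σ ^ 2 = s := Real.sq_sqrt hspos.le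
  have hrR : r ≤ R := by linarith
  -- pointwise bound
  set a : ℝ := 1 + σ / R * (1 - r ^ 2 / (2 * s) - r ^ 4 / (16 * s ^ 2)) with ha
  set b : ℝ := σ / R * (-r / s - r ^ 3 / (4 * s ^ 2)) with hb
  set c : ℝ := - (σ / R * (r ^ 2 / (4 * s ^ 2))) with hc
  have hpt : ∀ᵐ θ ∂ν, psi x R (y + r • θ) ≤ a + b * ⟪v, θ⟫ + c * ⟪v, θ⟫ ^ 2 := by
    filter_upwards [hν.norm] with θ hθ
    have h1 : dist (y + r • θ) x ^ 2 = dist y x ^ 2 + r ^ 2 + 2 * r * ⟪v, θ⟫ := by
      rw [hd, dist_eq_norm, ← norm_add_smul_sq v θ r hθ]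
      congr 2
      rw [hv]; abel
    set u : ℝ := (r ^ 2 + 2 * r * ⟪v, θ⟫) / s with hu
    have h2 : R ^ 2 - dist (y + r • θ) x ^ 2 = s * (1 - u) := by
      rw [h1, hu]
      field_simp
      rw [hs]; ring
    have h3 : |⟪v, θ⟫| ≤ R := by
      calc |⟪v, θ⟫| ≤ ‖v‖ * ‖θ‖ := abs_real_inner_le_norm v θ
        _ = ‖v‖ := by rw [hθ, mul_one]
        _ ≤ R := by rw [← hd]; linarith
    have h4 := abs_le.1 h3
    have h5 : u ≤ 1 := by
      rw [hu, div_le_one hspos]
      nlinarith
    have h6 : -1 ≤ u := by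
      rw [hu, le_div_iff₀ hspos]
      nlinarith
    have h7 : psi x R (y + r • θ) ≤ 1 + σ / R * (1 - u / 2 - u ^ 2 / 16) := by
      unfold psi
      rw [h2, Real.sqrt_mul hspos.le]
      have h8 := sqrt_le h6 h5
      have h9 : Real.sqrt s * Real.sqrt (1 - u) / R = σ / R * Real.sqrt (1 - u) := by
        rw [hσ]; ring
      rw [h9]
      have h10 : 0 ≤ σ / R := by positivity
      have := mul_le_mul_of_nonneg_left h8 h10
      linarith
    refine h7.trans (le_of_eq ?_)
    rw [ha, hb, hc, hu]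
    field_simp
    ring
  have hint : Integrable (fun θ => a + b * ⟪v, θ⟫ + c * ⟪v, θ⟫ ^ 2) ν :=
    ((integrable_const _).add ((hν.integrable_inner v).const_mul _)).add
      ((hν.integrable_inner_sq v).const_mul _)
  have hval : ∫ θ, (a + b * ⟪v, θ⟫ + c * ⟪v, θ⟫ ^ 2) ∂ν = a + c * (‖v‖ ^ 2 / finrank ℝ E) := by
    have i1 : Integrable (fun θ => a + b * ⟪v, θ⟫) ν :=
      (integrable_const _).add ((hν.integrable_inner v).const_mul _)
    have i2 : Integrable (fun θ => c * ⟪v, θ⟫ ^ 2) ν := (hν.integrable_inner_sq v).const_mul _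
    have i3 : Integrable (fun θ => b * ⟪v, θ⟫) ν := (hν.integrable_inner v).const_mul _
    rw [integral_add i1 i2, integral_add (integrable_const _) i3, integral_const_mul,
      integral_const_mul, hν.integral_inner, hν.integral_inner_sq]
    simp
  calc ∫⁻ θ, ENNReal.ofReal (psi x R (y + r • θ)) ∂ν ≤
        ∫⁻ θ, ENNReal.ofReal (a + b * ⟪v, θ⟫ + c * ⟪v, θ⟫ ^ 2) ∂ν := by
        apply lintegral_mono_ae
        filter_upwards [hpt] with θ hθ
        exact ENNReal.ofReal_le_ofReal hθ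
    _ = ENNReal.ofReal (∫ θ, (a + b * ⟪v, θ⟫ + c * ⟪v, θ⟫ ^ 2) ∂ν) := by
        rw [ofReal_integral_eq_lintegral_ofReal hint]
        filter_upwards [hpt] with θ hθ
        have := one_le_psi (x := x) (y := y + r • θ) hR
        show (0:ℝ) ≤ _
        linarith
    _ = ENNReal.ofReal (psi x R y - dec (finrank ℝ E) R r (dist y x) σ) := by
        rw [hval]
        congr 1
        unfold psi dec
        rw [← hs, ← hσ, ← hd, ha, hc]
        have h4 : σ ^ 4 = s ^ 2 := by rw [← hσs]; ring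
        rw [h4, hσs]
        ring_nf

lemma dec_nonneg {n : ℕ} {R r v σ : ℝ} (hR : 0 < R) (hσ : 0 < σ) : 0 ≤ dec n R r v σ := by
  unfold dec; positivity

/-- lower bound of the decrement for limited steps -/
lemma le_dec {n : ℕ} (hn : 3 ≤ n) {R r v : ℝ} (hR : 0 < R) (hr : 0 < r) (hv : 0 ≤ v)
    (h : 16 * r ≤ R - v) (h' : R - v ≤ 64 * r) :
    r / (2048 * n * R) ≤ dec n R r v (Real.sqrt (R ^ 2 - v ^ 2)) := by
  have hn' : (3:ℝ) ≤ n := by exact_mod_cast hn
  have hnpos : (0:ℝ) < n := by linarith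
  set s : ℝ := R ^ 2 - v ^ 2 with hs
  have hspos : 0 < s := by nlinarith
  set σ : ℝ := Real.sqrt s with hσ
  have hσpos : 0 < σ := Real.sqrt_pos.2 hspos
  have hσs : σ ^ 2 = s := Real.sq_sqrt hspos.le
  have hσR : σ ≤ R := by
    rw [hσ, Real.sqrt_le_left hR.le]
    nlinarith
  have e0 : 0 ≤ σ / R * (r ^ 4 / (16 * σ ^ 4)) := by positivity
  have e1 : 0 ≤ σ / R * (r ^ 2 * v ^ 2 / (4 * n * σ ^ 4)) := by positivity
  have e2 : 0 ≤ σ / R * (r ^ 2 / (2 * σ ^ 2)) := by positivity
  have hdec : dec n R r v σ = σ / R * (r ^ 2 / (2 * σ ^ 2)) + σ / R * (r ^ 4 / (16 * σ ^ 4)) +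
      σ / R * (r ^ 2 * v ^ 2 / (4 * n * σ ^ 4)) := by
    unfold dec; ring
  rcases le_total v (R / 2) with hv2 | hv2
  · -- case A
    have h1 : r / (2048 * n * R) ≤ r / R * (1 / 256) := by
      rw [div_mul_div_comm, mul_one]
      apply div_le_div_of_nonneg_left hr.le (by positivity)
      nlinarith
    have h2 : r / R * (1 / 256) ≤ σ / R * (r ^ 2 / (2 * σ ^ 2)) := by
      have h3 : σ / R * (r ^ 2 / (2 * σ ^ 2)) = r / R * (r / (2 * σ)) := by
        field_simp
      rw [h3]
      apply mul_le_mul_of_nonneg_left _ (by positivity)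
      rw [div_le_div_iff₀ (by norm_num) (by positivity)]
      nlinarith
    linarith
  · -- case B
    have h3 : σ / R * (r ^ 2 * v ^ 2 / (4 * n * σ ^ 4)) = r ^ 2 * v ^ 2 / (4 * n * R * σ ^ 3) := by
      field_simp
    have h4 : σ ^ 3 ≤ 2 * R ^ 2 * (64 * r) := by
      have h5 : s ≤ 2 * R * (64 * r) := by
        have : s = (R - v) * (R + v) := by rw [hs]; ring
        rw [this]
        have h6 : 0 < R - v := by linarith
        nlinarith
      calc σ ^ 3 = σ * s := by rw [← hσs]; ring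
        _ ≤ R * (2 * R * (64 * r)) := by
          apply mul_le_mul hσR h5 hspos.le hR.le
        _ = _ := by ring
    have h5 : r / (2048 * n * R) ≤ r ^ 2 * v ^ 2 / (4 * n * R * σ ^ 3) := by
      rw [div_le_div_iff₀ (by positivity) (by positivity)]
      have h6 : R ^ 2 / 4 ≤ v ^ 2 := by nlinarith
      have h7 : 4 * σ ^ 3 ≤ 2048 * r * v ^ 2 := by nlinarith
      have h8 : r * (4 * n * R * σ ^ 3) = (r * n * R) * (4 * σ ^ 3) := by ring
      have h9 : r ^ 2 * v ^ 2 * (2048 * n * R) = (r * n * R) * (2048 * r * v ^ 2) := by ring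
      rw [h8, h9]
      apply mul_le_mul_of_nonneg_left h7 (by positivity)
    linarith

/-- the weight of a step -/
noncomputable def wt (κ : ℝ) (x : E) (R : ℝ) (ρ : E → ℝ) (m : E → ℕ) (p : Pth E) : ℝ :=
  Real.exp (κ * (cW x R ρ m p).toReal / R)

lemma measurable_cW {x : E} {R : ℝ} {ρ : E → ℝ} {m : E → ℕ} (hρ : Measurable ρ)
    (hm : Measurable m) : Measurable (cW x R ρ m) := by
  unfold cW
  have h0 := measurable_eval (E := E) 0
  apply Measurable.ite
  · apply measurableSet_lt
    · exact (measurable_const.sub (h0.dist measurable_const))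
    · have h1 : Measurable (fun n : ℕ => 32 * (R / 2 ^ n)) := measurable_from_nat
      exact h1.comp (hm.comp h0)
  · exact (hρ.comp h0).ennreal_ofReal
  · exact measurable_const

/-- the multiplicative functional -/
noncomputable def Mf (κ : ℝ) (D : ℕ → Set E) (x : E) (R : ℝ) (ρ : E → ℝ) (m : E → ℕ) :
    ℕ → Pth E → ℝ≥0∞
  | 0, _ => 1
  | j + 1, p => ENNReal.ofReal (wt κ x R ρ m p) *
      (bef D (exr ρ) p * Mf κ D x R ρ m j (nxt ρ p) + (1 - bef D (exr ρ) p))

lemma measurable_wt (κ : ℝ) {x : E} {R : ℝ} {ρ : E → ℝ} {m : E → ℕ} (hρ : Measurable ρ)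
    (hm : Measurable m) : Measurable (wt κ x R ρ m) := by
  unfold wt
  exact Real.measurable_exp.comp
    (((measurable_cW hρ hm).ennreal_toReal.const_mul κ).div_const R)

lemma measurable_Mf (κ : ℝ) {D : ℕ → Set E} (hD : ∀ k, IsOpen (D k)) {x : E} {R : ℝ}
    {ρ : E → ℝ} {m : E → ℕ} (hρ : Measurable ρ) (hm : Measurable m) (j : ℕ) :
    Measurable (Mf κ D x R ρ m j) := by
  induction j with
  | zero => exact measurable_const
  | succ j ih =>
    have hb := measurable_bef hD (measurable_exr hρ)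
    exact (measurable_wt κ hρ hm).ennreal_ofReal.mul
      ((hb.mul (ih.comp (measurable_nxt hρ))).add (measurable_const.sub hb))

lemma cW_ne_top {x : E} {R : ℝ} {ρ : E → ℝ} {m : E → ℕ} (p : Pth E) : cW x R ρ m p ≠ ∞ := by
  unfold cW
  split_ifs
  · exact ENNReal.ofReal_ne_top
  · exact ENNReal.zero_ne_top

lemma one_le_wt {κ : ℝ} (hκ : 0 ≤ κ) {x : E} {R : ℝ} (hR : 0 < R) {ρ : E → ℝ} {m : E → ℕ}
    (p : Pth E) : 1 ≤ wt κ x R ρ m p := by
  unfold wt
  rw [← Real.exp_zero]
  apply Real.exp_le_exp.2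
  have : 0 ≤ (cW x R ρ m p).toReal := ENNReal.toReal_nonneg
  positivity

/-- the multiplicative functional dominates the exponential of the additive functional -/
lemma le_Mf {κ : ℝ} (hκ : 0 ≤ κ) {D : ℕ → Set E} {x : E} {R : ℝ} (hR : 0 < R)
    {ρ : E → ℝ} {m : E → ℕ} (j : ℕ) : ∀ (p : Pth E) (t : ℝ), 0 ≤ t →
    ENNReal.ofReal t ≤ Af D ρ (cW x R ρ m) j p →
    ENNReal.ofReal (Real.exp (κ * t / R)) ≤ Mf κ D x R ρ m j p := by
  induction j with
  | zero =>
    intro p t ht h
    have h1 : ENNReal.ofReal t ≤ 0 := h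
    have h2 : t ≤ 0 := by
      rw [nonpos_iff_eq_zero, ENNReal.ofReal_eq_zero] at h1
      exact h1
    have h3 : t = 0 := le_antisymm h2 ht
    rw [h3]
    simp [Mf]
  | succ j ih =>
    intro p t ht h
    have h1 : ENNReal.ofReal t ≤
        cW x R ρ m p + bef D (exr ρ) p * Af D ρ (cW x R ρ m) j (nxt ρ p) := h
    set c : ℝ := (cW x R ρ m p).toReal with hc
    have hc0 : 0 ≤ c := ENNReal.toReal_nonneg
    have hcc : cW x R ρ m p = ENNReal.ofReal c := (ENNReal.ofReal_toReal (cW_ne_top p)).symm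
    show ENNReal.ofReal (Real.exp (κ * t / R)) ≤ ENNReal.ofReal (wt κ x R ρ m p) *
      (bef D (exr ρ) p * Mf κ D x R ρ m j (nxt ρ p) + (1 - bef D (exr ρ) p))
    have hw : wt κ x R ρ m p = Real.exp (κ * c / R) := rfl
    rw [hw]
    by_cases hb : exr ρ p < TT D p
    · rw [bef_of_lt hb] at h1 ⊢
      rw [one_mul, hcc] at h1
      rw [one_mul, tsub_self, add_zero]
      have h2 : ENNReal.ofReal (max (t - c) 0) ≤ Af D ρ (cW x R ρ m) j (nxt ρ p) := by
        rw [ENNReal.ofReal_max, ENNReal.ofReal_zero, max_eq_left zero_le, ENNReal.ofReal_sub _ hc0]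
        exact tsub_le_iff_left.2 h1
      have h3 := ih (nxt ρ p) (max (t - c) 0) (le_max_right _ _) h2
      calc ENNReal.ofReal (Real.exp (κ * t / R)) ≤
            ENNReal.ofReal (Real.exp (κ * c / R) * Real.exp (κ * max (t - c) 0 / R)) := by
            apply ENNReal.ofReal_le_ofReal
            rw [← Real.exp_add]
            apply Real.exp_le_exp.2
            rw [← add_div]
            apply div_le_div_of_nonneg_right _ hR.le
            rw [← mul_add]
            apply mul_le_mul_of_nonneg_left _ hκ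
            have := le_max_left (t - c) 0
            linarith
        _ = ENNReal.ofReal (Real.exp (κ * c / R)) *
            ENNReal.ofReal (Real.exp (κ * max (t - c) 0 / R)) :=
            ENNReal.ofReal_mul (Real.exp_pos _).le
        _ ≤ _ := by gcongr
    · rw [bef_of_not hb] at h1 ⊢
      rw [zero_mul, add_zero, hcc] at h1
      rw [zero_mul, zero_add, tsub_zero, mul_one]
      apply ENNReal.ofReal_le_ofReal
      apply Real.exp_le_exp.2
      apply div_le_div_of_nonneg_right _ hR.le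
      apply mul_le_mul_of_nonneg_left _ hκ
      exact (ENNReal.ofReal_le_ofReal_iff hc0).1 h1

/-- the multiplicative functional is dominated by the supersolution -/
lemma Ex_Mf_le (hn : 3 ≤ finrank ℝ E) (hW : IsWiener W) {D : ℕ → Set E}
    (hD : ∀ k, IsOpen (D k)) {x : E} {R ε δ : ℝ} {ρ : E → ℝ} {m : E → ℕ}
    (h : Walk W D x R ε δ ρ m) (j : ℕ) : ∀ y ∈ SB D x R,
    Ex W (Mf (1 / (4096 * finrank ℝ E)) D x R ρ m j) y ≤ ENNReal.ofReal (psi x R y) := by
  have hR := h.Rpos
  have hn' : (0:ℝ) < finrank ℝ E := by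
    have : (3:ℝ) ≤ finrank ℝ E := by exact_mod_cast hn
    linarith
  set κ : ℝ := 1 / (4096 * finrank ℝ E) with hκ
  have hκ0 : 0 < κ := by rw [hκ]; positivity
  have hν := isSph_exl hW (by omega : 0 < finrank ℝ E) (r := 1) one_pos
  induction j with
  | zero =>
    intro y hy
    have h1 : Ex W (Mf κ D x R ρ m 0) y = 1 := Ex_const hW 1 y
    rw [h1, ← ENNReal.ofReal_one]
    exact ENNReal.ofReal_le_ofReal (one_le_psi hR)
  | succ j ih =>
    intro y hy
    have hpos := h.pos hy
    have hle := h.le_dist hy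
    -- the weight at `y`
    set q : Pth E := ⟨fun _ => y, continuous_const⟩ with hq
    set w : ℝ := wt κ x R ρ m q with hw
    have hw0 : ∀ᵐ p ∂W, wt κ x R ρ m (tr y p) = w := by
      filter_upwards [hW.zero] with p hp
      have h0 : (tr y p).1 0 = y := by simp [hp]
      rw [hw]
      unfold wt cW
      rw [h0]
    have hb := measurable_bef hD (measurable_exr h.meas)
    have hM := measurable_Mf κ hD (x := x) (R := R) h.meas h.measm j
    have hBM : Measurable (fun p => bef D (exr ρ) p * Mf κ D x R ρ m j (nxt ρ p)) :=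
      hb.mul (hM.comp (measurable_nxt h.meas))
    have h1 : Ex W (Mf κ D x R ρ m (j + 1)) y = ENNReal.ofReal w *
        Ex W (fun p => bef D (exr ρ) p * Mf κ D x R ρ m j (nxt ρ p) + (1 - bef D (exr ρ) p)) y := by
      rw [← Ex_const_mul (F := fun p => bef D (exr ρ) p * Mf κ D x R ρ m j (nxt ρ p) +
        (1 - bef D (exr ρ) p)) _ (hBM.add (measurable_const.sub hb))]
      unfold Ex
      apply lintegral_congr_ae
      filter_upwards [hw0] with p hp
      show ENNReal.ofReal (wt κ x R ρ m (tr y p)) * _ = _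
      rw [hp]
    have hpsi : Measurable (fun z : E => ENNReal.ofReal (psi x R z)) :=
      (measurable_psi x R).ennreal_ofReal
    have h2 : Ex W (fun p => bef D (exr ρ) p * Mf κ D x R ρ m j (nxt ρ p) +
        (1 - bef D (exr ρ) p)) y ≤ Ex W (fun p => ENNReal.ofReal (psi x R (stp ρ p))) y := by
      rw [Ex_add hBM, Ex_bef_mul hW hD h.meas hM, ← Ex_add
        (F := fun p => bef D (exr ρ) p * Ex W (Mf κ D x R ρ m j) (stp ρ p))
        (G := fun p => 1 - bef D (exr ρ) p)
        (hb.mul ((measurable_Ex hW hM).comp (measurable_stp h.meas)))]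
      unfold Ex
      apply lintegral_mono_ae
      filter_upwards [hW.zero] with p hp
      have h0 : (tr y p).1 0 = y := by simp [hp]
      by_cases hlt : exr ρ (tr y p) < TT D (tr y p)
      · have h3 : stp ρ (tr y p) ∈ SB D x R := h.inv (tr y p) (by rwa [h0]) hlt
        rw [bef_of_lt hlt, one_mul, tsub_self, add_zero]
        exact ih _ h3
      · rw [bef_of_not hlt, zero_mul, zero_add, tsub_zero, ← ENNReal.ofReal_one]
        exact ENNReal.ofReal_le_ofReal (one_le_psi hR)
    have h3 : Ex W (fun p => ENNReal.ofReal (psi x R (stp ρ p))) y ≤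
        ENNReal.ofReal (psi x R y -
          dec (finrank ℝ E) R (ρ y) (dist y x) (Real.sqrt (R ^ 2 - dist y x ^ 2))) := by
      rw [Ex_stp hW (by omega) hν hpos hpsi]
      exact mean_psi hν hR hpos hle
    rw [h1]
    refine (mul_le_mul_right (h2.trans h3) _).trans ?_
    rw [← ENNReal.ofReal_mul (by rw [hw]; exact (Real.exp_pos _).le)]
    apply ENNReal.ofReal_le_ofReal
    have hsq : 0 < Real.sqrt (R ^ 2 - dist y x ^ 2) := by
      apply Real.sqrt_pos.2
      have : 0 ≤ dist y x := dist_nonneg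
      nlinarith
    have hd0 := dec_nonneg (n := finrank ℝ E) (r := ρ y) (v := dist y x) hR hsq
    have hp1 := one_le_psi (x := x) (y := y) hR
    have hp2 := psi_le_two (x := x) (y := y) hR
    by_cases hlim : R - dist y x < 32 * (R / 2 ^ (m y))
    · have h4 : cW x R ρ m q = ENNReal.ofReal (ρ y) := by
        unfold cW
        exact if_pos hlim
      have h5 : w = Real.exp (κ * ρ y / R) := by
        rw [hw]; unfold wt
        rw [h4, ENNReal.toReal_ofReal hpos.le]
      have h6 := le_dec hn hR hpos dist_nonneg hle (by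
        have := h.lo y hy.1 hy.2
        linarith)
      have h7 : psi x R y - dec (finrank ℝ E) R (ρ y) (dist y x)
          (Real.sqrt (R ^ 2 - dist y x ^ 2)) ≤ psi x R y * Real.exp (-(κ * ρ y / R)) := by
        have h8 := Real.add_one_le_exp (-(κ * ρ y / R))
        have h9 : psi x R y * (-(κ * ρ y / R) + 1) ≤ psi x R y * Real.exp (-(κ * ρ y / R)) :=
          mul_le_mul_of_nonneg_left h8 (by linarith)
        have h10 : 2 * (κ * ρ y / R) = ρ y / (2048 * finrank ℝ E * R) := by
          rw [hκ]; field_simp; norm_num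
        have h11 : 0 ≤ κ * ρ y / R := by positivity
        nlinarith
      calc w * (psi x R y - _) ≤ w * (psi x R y * Real.exp (-(κ * ρ y / R))) :=
            mul_le_mul_of_nonneg_left h7 (by rw [h5]; exact (Real.exp_pos _).le)
        _ = psi x R y := by
            rw [h5, mul_comm (psi x R y), ← mul_assoc, ← Real.exp_add, add_neg_cancel,
              Real.exp_zero, one_mul]
    · have h4 : cW x R ρ m q = 0 := by
        unfold cW
        exact if_neg hlim
      have h5 : w = 1 := by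
        rw [hw]; unfold wt
        rw [h4]; simp
      rw [h5, one_mul]
      linarith

end Whit

open Whit

/-- the total length of the steps limited by the distance to the sphere has exponential tails -/
theorem whitney_tail (hn : 3 ≤ finrank ℝ E) (hW : IsWiener W) : ∃ κ : ℝ, 0 < κ ∧
    ∀ D : ℕ → Set E, (∀ k, IsOpen (D k)) → Antitone D →
    ∀ (x : E) (R ε δ : ℝ) (ρ : E → ℝ) (m : E → ℕ), Walk W D x R ε δ ρ m → x ∈ Vs D →
    ∀ (j : ℕ) (t : ℝ), 0 ≤ t →
    W {p | ENNReal.ofReal t ≤ Af D ρ (cW x R ρ m) j (tr x p)} ≤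
      ENNReal.ofReal (2 * Real.exp (-κ * t / R)) := by
  have hn' : (0:ℝ) < finrank ℝ E := by
    have : (3:ℝ) ≤ finrank ℝ E := by exact_mod_cast hn
    linarith
  refine ⟨1 / (4096 * finrank ℝ E), by positivity, ?_⟩
  intro D hD ha x R ε δ ρ m h hx j t ht
  set κ : ℝ := 1 / (4096 * finrank ℝ E) with hκ
  have hκ0 : 0 < κ := by rw [hκ]; positivity
  have hR := h.Rpos
  have h1 := Ex_Mf_le hn hW hD h j x ⟨hx, by simpa using hR⟩
  rw [← hκ] at h1
  have h2 : psi x R x ≤ 2 := psi_le_two hR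
  have hM := measurable_Mf κ hD (x := x) (R := R) h.meas h.measm j
  have h3 : W {p | ENNReal.ofReal t ≤ Af D ρ (cW x R ρ m) j (tr x p)} ≤
      W {p | ENNReal.ofReal (Real.exp (κ * t / R)) ≤ Mf κ D x R ρ m j (tr x p)} := by
    apply measure_mono
    intro p hp
    exact le_Mf hκ0.le hR j (tr x p) t ht hp
  refine h3.trans ?_
  have hpos : 0 < Real.exp (κ * t / R) := Real.exp_pos _
  have h4 := meas_ge_le_lintegral_div (μ := W) (f := fun p => Mf κ D x R ρ m j (tr x p))
    (hM.comp (measurable_tr x)).aemeasurable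
    (ε := ENNReal.ofReal (Real.exp (κ * t / R))) (ENNReal.ofReal_pos.2 hpos).ne'
    ENNReal.ofReal_ne_top
  refine h4.trans ?_
  have h5 : ∫⁻ p, Mf κ D x R ρ m j (tr x p) ∂W ≤ ENNReal.ofReal 2 :=
    h1.trans (ENNReal.ofReal_le_ofReal h2)
  refine (ENNReal.div_le_div_right h5 _).trans ?_
  rw [← ENNReal.ofReal_div_of_pos hpos]
  apply ENNReal.ofReal_le_ofReal
  rw [div_eq_mul_inv, ← Real.exp_neg]
  apply le_of_eq
  congr 2
  ring

end Pool.Agent.Lib.P07dee5
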