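import Mathlib
import Pool.Agent.Lib.P07dee5.GenF
import Pool.Agent.Lib.P07dee5.Num
import Pool.Agent.Lib.P07dee5.Radius
import Pool.Agent.Lib.P07dee5.Whitney

/-! # Choice of the parameters and expectation bounds -/

open MeasureTheory Set Filter Topology ProbabilityTheory Module
open scoped ENNReal NNReal

set_option linter.unusedSectionVars false
set_option linter.unusedVariables false

namespace Pool.Agent.Lib.P07dee5

open Limited

variable {E : Type*} [NormedAddCommGroup E] [InnerProductSpace ℝ E] [FiniteDimensional ℝ E]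
  [MeasurableSpace E] [BorelSpace E] {W : Measure (Pth E)}

/-- length scale of a generation -/
noncomputable def lamf (R : ℝ) : ℝ := R ^ (1 / 2 : ℝ)

lemma measurable_lamf : Measurable lamf := by unfold lamf; fun_prop

section

variable {D : ℕ → Set E} {ρ : ℝ → E → E → ℝ} {m : ℝ → E → E → ℕ} {ε δ : ℝ → ℝ}

/-- expectation of the failure functional of the first generation -/
lemma Ex_F0_le (hn : 3 ≤ finrank ℝ E) (hW : IsWiener W) (hD : ∀ k, IsOpen (D k))
    (ha : Antitone D) (hρ : Measurable (fun q : ℝ × E × E => ρ q.1 q.2.1 q.2.2))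
    (hm : Measurable (fun q : ℝ × E × E => m q.1 q.2.1 q.2.2)) {R : ℝ} (hR : 0 < R) {x : E}
    (hx : x ∈ Vs D) (h : Walk W D x R (ε R) (δ R) (ρ R x) (m R x)) {κ : ℝ}
    (hκ : ∀ (j : ℕ) (t : ℝ), 0 ≤ t →
      W {p | ENNReal.ofReal t ≤ Af D (ρ R x) (cW x R (ρ R x) (m R x)) j (tr x p)} ≤
        ENNReal.ofReal (2 * Real.exp (-κ * t / R))) :
    Ex W (F0 W D etaf lamf ρ m R) x ≤
      ENNReal.ofReal (δ R + (4 ^ 8 * 40320 * Real.exp (-(3 / 2) * R ^ (-(1 / 4 : ℝ)))) * R ^ 2 /
        etaf R + 288 * R / ε R / lamf R + 2 * Real.exp (-κ * (lamf R / 2) / R) / etaf R) *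
        phi W D R x := by
  classical
  have hprob := hW.prob
  have hε := h.epos
  have hδ := h.dpos
  have hη := etaf_pos R
  have hlam : 0 < lamf R := Real.rpow_pos_of_pos hR _
  have hxS : x ∈ SB D x R := ⟨hx, by rw [dist_self]; exact hR⟩
  by_cases hphi : ENNReal.ofReal (etaf R) ≤ phi W D R x
  swap
  · have h0 : Ex W (F0 W D etaf lamf ρ m R) x = 0 := by
      apply Ex_zero_of hW
      intro q hq
      unfold F0
      rw [hq, if_neg hphi]
    rw [h0]; exact zero_le
  -- measurability of the four parts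
  have hcB := measurable_sliceQ (c := fun R x => cB D (ρ R x)) (measurable_cBQ hD hρ) R x
  have hcM := measurable_sliceQ (c := fun R x => cM W D etaf (ρ R x))
    (measurable_cMQ hW hD measurable_etaf hρ) R x
  have hcH := measurable_sliceQ (c := fun R x => cH x R (m R x)) (measurable_cHQ hm) R x
  have hcW := measurable_sliceQ (c := fun R x => cW x R (ρ R x) (m R x))
    (measurable_cWQ hρ hm) R x
  have hAm : ∀ {c : Pth E → ℝ≥0∞}, Measurable c → Measurable (Ai D (ρ R x) c) := fun hc =>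
    Measurable.iSup fun j => measurable_Af hD h.meas hc j
  have e1 : Ex W (F0 W D etaf lamf ρ m R) x =
      Ex W (fun p => Ai D (ρ R x) (cB D (ρ R x)) p + Ai D (ρ R x) (cM W D etaf (ρ R x)) p +
        Ai D (ρ R x) (cH x R (m R x)) p / ENNReal.ofReal (lamf R) +
        (if ENNReal.ofReal (lamf R) ≤ Ai D (ρ R x) (cW x R (ρ R x) (m R x)) p then 1 else 0)) x := by
    apply Ex_congr_start hW
    intro q hq
    unfold F0
    rw [hq, if_pos hphi]
  rw [e1]
  have hm1 := hAm hcB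
  have hm2 := hAm hcM
  have hm3 : Measurable (fun p => Ai D (ρ R x) (cH x R (m R x)) p / ENNReal.ofReal (lamf R)) :=
    (hAm hcH).div_const _
  have hm12 : Measurable (fun p => Ai D (ρ R x) (cB D (ρ R x)) p +
    Ai D (ρ R x) (cM W D etaf (ρ R x)) p) := hm1.add hm2
  have hm123 : Measurable (fun p => Ai D (ρ R x) (cB D (ρ R x)) p +
    Ai D (ρ R x) (cM W D etaf (ρ R x)) p +
      Ai D (ρ R x) (cH x R (m R x)) p / ENNReal.ofReal (lamf R)) := hm12.add hm3
  refine (Ex_add hm123 x).le.trans ?_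
  refine (add_le_add (Ex_add hm12 x).le le_rfl).trans ?_
  refine (add_le_add (add_le_add (Ex_add hm1 x).le le_rfl) le_rfl).trans ?_
  -- the four bounds
  have b1 : Ex W (fun p => Ai D (ρ R x) (cB D (ρ R x)) p) x ≤
      ENNReal.ofReal (δ R) * phi W D R x := Ex_cB_le hW hD ha h hcB hxS
  have hconv : ∀ A : ℝ, 0 ≤ A → ENNReal.ofReal A ≤ ENNReal.ofReal (A / etaf R) * phi W D R x := by
    intro A hA
    calc ENNReal.ofReal A = ENNReal.ofReal (A / etaf R) * ENNReal.ofReal (etaf R) := by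
          rw [← ENNReal.ofReal_mul (by positivity), div_mul_cancel₀ _ hη.ne']
      _ ≤ _ := by gcongr
  have b2 : Ex W (fun p => Ai D (ρ R x) (cM W D etaf (ρ R x)) p) x ≤
      ENNReal.ofReal ((4 ^ 8 * 40320 * Real.exp (-(3 / 2) * R ^ (-(1 / 4 : ℝ)))) * R ^ 2 /
        etaf R) * phi W D R x := by
    refine (Ex_cM_le (by omega) hW hD h hcM hxS
      (K := 4 ^ 8 * 40320 * Real.exp (-(3 / 2) * R ^ (-(1 / 4 : ℝ)))) (by positivity)
      (fun r hr hrR => etaf_le hr hrR)).trans ?_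
    exact hconv _ (by positivity)
  have b3 : Ex W (fun p => Ai D (ρ R x) (cH x R (m R x)) p / ENNReal.ofReal (lamf R)) x ≤
      ENNReal.ofReal (288 * R / ε R / lamf R) * phi W D R x := by
    have e2 : Ex W (fun p => Ai D (ρ R x) (cH x R (m R x)) p / ENNReal.ofReal (lamf R)) x =
        (ENNReal.ofReal (lamf R))⁻¹ * Ex W (Ai D (ρ R x) (cH x R (m R x))) x := by
      rw [← Ex_const_mul _ (hAm hcH)]
      congr 1
      funext p
      rw [ENNReal.div_eq_inv_mul]
    rw [e2, ENNReal.ofReal_div_of_pos hlam, ENNReal.div_eq_inv_mul, mul_assoc]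
    gcongr
    exact Ex_cH_le hn hW hD ha h hcH hxS
  have b4 : Ex W (fun p => if ENNReal.ofReal (lamf R) ≤
      Ai D (ρ R x) (cW x R (ρ R x) (m R x)) p then (1:ℝ≥0∞) else 0) x ≤
      ENNReal.ofReal (2 * Real.exp (-κ * (lamf R / 2) / R) / etaf R) * phi W D R x := by
    refine le_trans ?_ (hconv _ (by positivity))
    refine le_trans ?_ (W_cW_le hW hD h hκ hlam)
    have hs : MeasurableSet {p : Pth E | ENNReal.ofReal (lamf R) ≤
        Ai D (ρ R x) (cW x R (ρ R x) (m R x)) (tr x p)} :=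
      measurableSet_le measurable_const ((hAm hcW).comp (measurable_tr x))
    rw [← lintegral_indicator_one hs]
    apply lintegral_mono
    intro p
    by_cases hp : ENNReal.ofReal (lamf R) ≤ Ai D (ρ R x) (cW x R (ρ R x) (m R x)) (tr x p)
    · rw [indicator_of_mem (by exact hp)]
      show (if _ then _ else _) ≤ (1:ℝ≥0∞)
      split_ifs <;> simp
    · show (if ENNReal.ofReal (lamf R) ≤ Ai D (ρ R x) (cW x R (ρ R x) (m R x)) (tr x p)
        then (1:ℝ≥0∞) else 0) ≤ _
      rw [if_neg hp]; exact zero_le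
  refine (add_le_add (add_le_add (add_le_add b1 b2) b3) b4).trans ?_
  rw [← add_mul, ← add_mul, ← add_mul, ← ENNReal.ofReal_add hδ.le (by positivity),
    ← ENNReal.ofReal_add (by positivity) (by positivity),
    ← ENNReal.ofReal_add (by positivity) (by positivity)]

lemma Ex_Fg_le (hW : IsWiener W) (hD : ∀ k, IsOpen (D k)) (ha : Antitone D)
    (hρ : Measurable (fun q : ℝ × E × E => ρ q.1 q.2.1 q.2.2))
    (hm : Measurable (fun q : ℝ × E × E => m q.1 q.2.1 q.2.2))
    (hwalk : ∀ R, 0 < R → ∀ x, Walk W D x R (ε R) (δ R) (ρ R x) (m R x)) {C a : ℝ} (hC : 0 ≤ C)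
    (ha0 : 0 < a)
    (hF0 : ∀ R, 0 < R → R ≤ 1 → ∀ x ∈ Vs D, Ex W (F0 W D etaf lamf ρ m R) x ≤
      ENNReal.ofReal (C * R ^ a) * phi W D R x) (g : ℕ) :
    ∀ R, 0 < R → R ≤ 1 → ∀ x ∈ Vs D, Ex W (Fg W D etaf lamf ρ m g R) x ≤
      ENNReal.ofReal (C * (R / 16 ^ g) ^ a) * phi W D R x := by
  induction g with
  | zero =>
    intro R hR hR1 x hx
    rw [pow_zero, div_one]
    exact hF0 R hR hR1 x hx
  | succ g ih =>
    intro R hR hR1 x hx
    have h := hwalk R hR x
    have hxS : x ∈ SB D x R := ⟨hx, by rw [dist_self]; exact hR⟩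
    have hFm := measurable_Fg hW hD measurable_etaf measurable_lamf hρ hm g
    have hcm : Measurable (fun q : Pth E => Fg W D etaf lamf ρ m g (ρ R x (q.1 0)) q) := by
      have h1 : Measurable (fun q : Pth E => (ρ R x (q.1 0), q)) :=
        (h.meas.comp (measurable_eval 0)).prodMk measurable_id
      exact hFm.comp h1
    have e1 : Ex W (Fg W D etaf lamf ρ m (g + 1) R) x =
        Ex W (Ai D (ρ R x) (fun q => Fg W D etaf lamf ρ m g (ρ R x (q.1 0)) q)) x := by
      apply Ex_congr_start hW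
      intro q hq
      show Ai D (ρ R (q.1 0)) (fun r => Fg W D etaf lamf ρ m g (ρ R (q.1 0) (r.1 0)) r) q = _
      rw [hq]
    rw [e1]
    apply Ex_Ai_le hW hD h.meas hcm
    intro j
    rw [← hB_center hW]
    apply Af_le_phi hW hD ha h hcm _ j x hxS
    intro y hy
    have hpos := h.pos hy
    have hle := h.le_dist hy
    have hd : 0 ≤ dist y x := dist_nonneg
    have e2 : Ex W (fun q => Fg W D etaf lamf ρ m g (ρ R x (q.1 0)) q) y =
        Ex W (Fg W D etaf lamf ρ m g (ρ R x y)) y := by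
      apply Ex_congr_start hW
      intro q hq
      rw [hq]
    rw [e2]
    refine (ih (ρ R x y) hpos (by linarith) y hy.1).trans ?_
    have key : ρ R x y / 16 ^ g ≤ R / 16 ^ (g + 1) := by
      calc ρ R x y / 16 ^ g ≤ (R / 16) / 16 ^ g := by
            gcongr
            linarith
        _ = R / 16 ^ (g + 1) := by rw [div_div, pow_succ, mul_comm]
    apply mul_le_mul' _ le_rfl
    apply ENNReal.ofReal_le_ofReal
    apply mul_le_mul_of_nonneg_left _ hC
    exact Real.rpow_le_rpow (by positivity) key ha0.le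

end

/-- Existence of radius functions with all expectation bounds. -/
theorem gen_bound (hn : 3 ≤ finrank ℝ E) (hW : IsWiener W) {D : ℕ → Set E} (hN : Nest W D) :
    ∃ (ρ : ℝ → E → E → ℝ) (m : ℝ → E → E → ℕ) (ε δ : ℝ → ℝ) (C a : ℝ), 0 ≤ C ∧ 0 < a ∧
      Measurable (fun q : ℝ × E × E => ρ q.1 q.2.1 q.2.2) ∧
      Measurable (fun q : ℝ × E × E => m q.1 q.2.1 q.2.2) ∧
      (∀ R, 0 < R → ∀ x, Walk W D x R (ε R) (δ R) (ρ R x) (m R x)) ∧
      ∀ g R, 0 < R → R ≤ 1 → ∀ x ∈ Vs D, Ex W (Fg W D etaf lamf ρ m g R) x ≤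
        ENNReal.ofReal (C * (R / 16 ^ g) ^ a) * phi W D R x := by
  obtain ⟨c, hc, hgood⟩ := good_radius hn hW
  obtain ⟨κ, hκ, hwhit⟩ := whitney_tail hn hW
  have hn3 : (3:ℝ) ≤ finrank ℝ E := by exact_mod_cast hn
  set q : ℝ := 2 * ((finrank ℝ E : ℝ) - 2) with hq
  have hq2 : 2 ≤ q := by rw [hq]; linarith
  set a : ℝ := 1 / (4 * q) with ha
  have ha0 : 0 < a := by positivity
  have ha1 : a ≤ 1 / 4 := by
    rw [ha]
    apply one_div_le_one_div_of_le (by norm_num)
    linarith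
  have haq : a * q = 1 / 4 := by rw [ha]; field_simp
  set δ : ℝ → ℝ := fun R => (min R 1) ^ a with hδ
  set ε : ℝ → ℝ := fun R => c * (δ R) ^ q with hε
  have hδpos : ∀ R, 0 < R → 0 < δ R := fun R hR => Real.rpow_pos_of_pos (lt_min hR one_pos) _
  have hδle : ∀ R, 0 < R → δ R ≤ 1 := fun R hR =>
    Real.rpow_le_one (lt_min hR one_pos).le (min_le_right _ _) ha0.le
  have hεpos : ∀ R, 0 < R → 0 < ε R := fun R hR =>
    mul_pos hc (Real.rpow_pos_of_pos (hδpos R hR) _)
  have hδm : Measurable δ := by simp only [hδ]; fun_prop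
  have hεm : Measurable ε := by simp only [hε]; fun_prop
  obtain ⟨ρ, m, hρ, hm, hwalk⟩ := exists_walk hn hW hN (ε := ε) (δ := δ) hεpos hδpos
    (fun R hR y r hr hrR hphi => hgood D hN.isOpen hN.anti (δ R) (hδpos R hR) (hδle R hR) y r hr
      hphi) hεm hδm
  refine ⟨ρ, m, ε, δ, 1 + 4 ^ 8 * 40320 + 288 / c + 2 * Real.exp (2 / κ), a, by positivity, ha0,
    hρ, hm, hwalk, fun g R hR hR1 x hx => ?_⟩
  refine Ex_Fg_le hW hN.isOpen hN.anti hρ hm hwalk (by positivity) ha0 ?_ g R hR hR1 x hx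
  intro R hR hR1 x hx
  have h := hwalk R hR x
  refine (Ex_F0_le hn hW hN.isOpen hN.anti hρ hm hR hx h (κ := κ) (fun j t ht =>
    hwhit D hN.isOpen hN.anti x R (ε R) (δ R) (ρ R x) (m R x) h hx j t ht)).trans ?_
  gcongr
  have hδR : δ R = R ^ a := by simp only [hδ]; rw [min_eq_left hR1]
  have hεR : ε R = c * R ^ (1 / 4 : ℝ) := by
    simp only [hε]
    rw [hδR, ← Real.rpow_mul hR.le, haq]
  have t2 := term2 (R := R) (a := a) hR hR1 (by linarith)
  have t3 := term3 (R := R) (a := a) (c := c) hR hR1 hc ha1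
  have t4 := term4 (R := R) (a := a) (κ := κ) hR hR1 hκ ha1
  rw [hδR, hεR]
  unfold lamf
  have : (1 + 4 ^ 8 * 40320 + 288 / c + 2 * Real.exp (2 / κ)) * R ^ a =
      R ^ a + (4 ^ 8 * 40320) * R ^ a + 288 / c * R ^ a + 2 * Real.exp (2 / κ) * R ^ a := by ring
  rw [this]
  gcongr

end Pool.Agent.Lib.P07dee5
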