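import Mathlib

/-! # Rectifiable paths (module M6 of MP_07dee5_an) -/

open MeasureTheory Set Filter Topology
open scoped ENNReal NNReal

set_option linter.unusedSectionVars false

namespace Pool.Agent.Lib.P07dee5

variable {E : Type*} [NormedAddCommGroup E] [NormedSpace ℝ E]

/-- there is a path from `x` to `y` in `V` of length at most `l` -/
def Reach (V : Set E) (l : ℝ≥0∞) (x y : E) : Prop :=
  ∃ γ : ℝ → E, ContinuousOn γ (Icc 0 1) ∧ γ 0 = x ∧ γ 1 = y ∧ (∀ t ∈ Icc (0:ℝ) 1, γ t ∈ V) ∧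
    eVariationOn γ (Icc 0 1) ≤ l

lemma Reach.refl {V : Set E} {x : E} (h : x ∈ V) : Reach V 0 x x := by
  refine ⟨fun _ => x, continuousOn_const, rfl, rfl, fun _ _ => h, ?_⟩
  rw [eVariationOn.constant_on]
  rintro _ ⟨_, _, rfl⟩ _ ⟨_, _, rfl⟩
  rfl

lemma Reach.mono {V : Set E} {l l' : ℝ≥0∞} {x y : E} (h : Reach V l x y) (h' : l ≤ l') :
    Reach V l' x y := by
  obtain ⟨γ, h1, h2, h3, h4, h5⟩ := h
  exact ⟨γ, h1, h2, h3, h4, h5.trans h'⟩

lemma continuousOn_Icc_glue {γ : ℝ → E} {a b c : ℝ} (hab : a ≤ b) (hbc : b ≤ c)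
    (h1 : ContinuousOn γ (Icc a b)) (h2 : ContinuousOn γ (Icc b c)) :
    ContinuousOn γ (Icc a c) := by
  rw [← Icc_union_Icc_eq_Icc hab hbc]
  exact h1.union_of_isClosed h2 isClosed_Icc isClosed_Icc

lemma eVariationOn_Icc_glue (γ : ℝ → E) {a b c : ℝ} (hab : a ≤ b) (hbc : b ≤ c) :
    eVariationOn γ (Icc a c) = eVariationOn γ (Icc a b) + eVariationOn γ (Icc b c) := by
  have := eVariationOn.Icc_add_Icc γ (s := Set.univ) hab hbc (mem_univ _)
  simpa using this.symm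

/-- reparametrisation of a path on `[a,b]` -/
lemma Reach.of_Icc {V : Set E} {l : ℝ≥0∞} {a b : ℝ} (hab : a ≤ b) {γ : ℝ → E}
    (hc : ContinuousOn γ (Icc a b)) (hV : ∀ t ∈ Icc a b, γ t ∈ V)
    (hl : eVariationOn γ (Icc a b) ≤ l) : Reach V l (γ a) (γ b) := by
  have hmap : MapsTo (fun t : ℝ => a + t * (b - a)) (Icc 0 1) (Icc a b) := by
    rintro t ⟨h0, h1⟩
    constructor
    · have := mul_nonneg h0 (sub_nonneg.2 hab)
      dsimp only; linarith
    · have := mul_le_mul_of_nonneg_right h1 (sub_nonneg.2 hab)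
      dsimp only; linarith
  refine ⟨γ ∘ fun t => a + t * (b - a), ?_, by simp, by simp, ?_, ?_⟩
  · exact hc.comp (by fun_prop) hmap
  · intro t ht
    exact hV _ (hmap ht)
  · refine le_trans ?_ hl
    apply eVariationOn.comp_le_of_monotoneOn _ _ _ hmap
    intro s _ t _ hst
    have := mul_le_mul_of_nonneg_right hst (sub_nonneg.2 hab)
    dsimp only; linarith

/-- the infinite concatenation on `[0,∞)` -/
noncomputable def concat (γ : ℕ → ℝ → E) (s : ℝ) : E := γ ⌊s⌋₊ (s - ⌊s⌋₊)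

lemma concat_eqOn {γ : ℕ → ℝ → E} (h : ∀ n, γ n 1 = γ (n + 1) 0) (n : ℕ) :
    EqOn (concat γ) (fun s => γ n (s - n)) (Icc (n : ℝ) (n + 1)) := by
  rintro s ⟨h1, h2⟩
  rcases h2.eq_or_lt with rfl | h3
  · have : ⌊(n : ℝ) + 1⌋₊ = n + 1 := by
      rw [← Nat.cast_succ, Nat.floor_natCast]
    simp only [concat, this]
    push_cast
    simp [h n]
  · have : ⌊s⌋₊ = n := by
      rw [Nat.floor_eq_iff (le_trans (Nat.cast_nonneg n) h1)]
      exact ⟨h1, h3⟩
    simp only [concat, this]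

lemma concat_natCast {γ : ℕ → ℝ → E} (n : ℕ) : concat γ n = γ n 0 := by
  simp [concat]

lemma concat_piece {V : Set E} {l : ℕ → ℝ≥0∞} {γ : ℕ → ℝ → E} (h : ∀ n, γ n 1 = γ (n + 1) 0)
    (hc : ∀ n, ContinuousOn (γ n) (Icc 0 1)) (hV : ∀ n, ∀ t ∈ Icc (0:ℝ) 1, γ n t ∈ V)
    (hl : ∀ n, eVariationOn (γ n) (Icc 0 1) ≤ l n) (n : ℕ) :
    ContinuousOn (concat γ) (Icc (n : ℝ) (n + 1)) ∧
      (∀ t ∈ Icc (n : ℝ) (n + 1), concat γ t ∈ V) ∧
      eVariationOn (concat γ) (Icc (n : ℝ) (n + 1)) ≤ l n := by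
  have hmap : MapsTo (fun t : ℝ => t - n) (Icc (n : ℝ) (n + 1)) (Icc 0 1) := by
    rintro t ⟨h0, h1⟩
    constructor <;> dsimp only <;> linarith
  have heq := concat_eqOn h n
  refine ⟨?_, ?_, ?_⟩
  · refine ContinuousOn.congr ?_ heq
    exact (hc n).comp (by fun_prop) hmap
  · intro t ht
    rw [heq ht]
    exact hV n _ (hmap ht)
  · rw [eVariationOn.eq_of_eqOn heq]
    refine le_trans ?_ (hl n)
    apply eVariationOn.comp_le_of_monotoneOn (γ n) (fun t : ℝ => t - n) _ hmap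
    intro s _ t _ hst
    dsimp only; linarith

lemma concat_prefix {V : Set E} {l : ℕ → ℝ≥0∞} {γ : ℕ → ℝ → E} (h : ∀ n, γ n 1 = γ (n + 1) 0)
    (hc : ∀ n, ContinuousOn (γ n) (Icc 0 1)) (hV : ∀ n, ∀ t ∈ Icc (0:ℝ) 1, γ n t ∈ V)
    (hl : ∀ n, eVariationOn (γ n) (Icc 0 1) ≤ l n) (n : ℕ) :
    ContinuousOn (concat γ) (Icc (0 : ℝ) n) ∧
      (∀ t ∈ Icc (0 : ℝ) n, concat γ t ∈ V) ∧
      eVariationOn (concat γ) (Icc (0 : ℝ) n) ≤ ∑ i ∈ Finset.range n, l i := by
  induction n with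
  | zero =>
    refine ⟨?_, ?_, ?_⟩
    · simp
    · intro t ht
      have : t = ((0 : ℕ) : ℝ) := by
        simp only [Nat.cast_zero, Icc_self, mem_singleton_iff] at ht
        simp [ht]
      rw [this, concat_natCast]
      exact hV 0 0 (by simp)
    · simp
  | succ n ih =>
    obtain ⟨i1, i2, i3⟩ := ih
    obtain ⟨j1, j2, j3⟩ := concat_piece h hc hV hl n
    have hn : (0 : ℝ) ≤ n := Nat.cast_nonneg n
    have hn' : (n : ℝ) ≤ n + 1 := by linarith
    push_cast
    refine ⟨continuousOn_Icc_glue hn hn' i1 j1, ?_, ?_⟩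
    · rintro t ⟨h0, h1⟩
      rcases le_total t n with h2 | h2
      · exact i2 t ⟨h0, h2⟩
      · exact j2 t ⟨h2, h1⟩
    · rw [eVariationOn_Icc_glue _ hn hn', Finset.sum_range_succ]
      exact add_le_add i3 j3

lemma Reach.trans {V : Set E} {l l' : ℝ≥0∞} {x y z : E} (h : Reach V l x y)
    (h' : Reach V l' y z) : Reach V (l + l') x z := by
  obtain ⟨γ, h1, h2, h3, h4, h5⟩ := h
  obtain ⟨γ', h1', h2', h3', h4', h5'⟩ := h'
  have hz : z ∈ V := h3' ▸ h4' 1 (by simp)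
  let Γ : ℕ → ℝ → E := fun n => if n = 0 then γ else if n = 1 then γ' else fun _ => z
  let L : ℕ → ℝ≥0∞ := fun n => if n = 0 then l else if n = 1 then l' else 0
  have H := concat_prefix (V := V) (l := L) (γ := Γ) ?_ ?_ ?_ ?_ 2
  · obtain ⟨i1, i2, i3⟩ := H
    have h0 : concat Γ 0 = x := by
      have := concat_natCast (γ := Γ) 0
      simp only [Nat.cast_zero] at this
      rw [this]
      simp [Γ, h2]
    have hx2 : concat Γ ((2 : ℕ) : ℝ) = z := by
      rw [concat_natCast]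
      simp [Γ]
    have hL : ∑ i ∈ Finset.range 2, L i = l + l' := by
      simp [Finset.sum_range_succ, L]
    rw [hL] at i3
    have := Reach.of_Icc (by norm_num) i1 i2 i3
    rwa [h0, hx2] at this
  · intro n
    rcases n with _ | _ | n
    · simp [Γ, h3, h2']
    · simp [Γ, h3']
    · simp [Γ]
  · intro n
    rcases n with _ | _ | n
    · simpa [Γ] using h1
    · simpa [Γ] using h1'
    · simpa [Γ] using continuousOn_const
  · intro n t ht
    rcases n with _ | _ | n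
    · simpa [Γ] using h4 t ht
    · simpa [Γ] using h4' t ht
    · simpa [Γ] using hz
  · intro n
    rcases n with _ | _ | n
    · simpa [Γ, L] using h5
    · simpa [Γ, L] using h5'
    · simp only [Γ, L]
      simp only [Nat.add_eq_zero_iff, one_ne_zero, and_false, ↓reduceIte]
      rw [if_neg (by omega), eVariationOn.constant_on]
      · exact bot_le
      rintro _ ⟨_, _, rfl⟩ _ ⟨_, _, rfl⟩
      rfl

lemma Reach.segment {V : Set E} {x y : E} (h : segment ℝ x y ⊆ V) : Reach V (edist x y) x y := by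
  refine ⟨fun t => AffineMap.lineMap x y t, ?_, by simp, by simp, ?_, ?_⟩
  · exact (AffineMap.lineMap_continuous).continuousOn
  · intro t ht
    apply h
    rw [segment_eq_image_lineMap]
    exact ⟨t, ht, rfl⟩
  · have hL : LipschitzOnWith (nndist x y) (fun t : ℝ => AffineMap.lineMap x y t) Set.univ := by
      apply LipschitzWith.lipschitzOnWith
      apply LipschitzWith.of_dist_le_mul
      intro s t
      rw [dist_lineMap_lineMap, coe_nndist, mul_comm]
    have := hL.comp_eVariationOn_le (g := (id : ℝ → ℝ)) (s := Icc (0:ℝ) 1) (mapsTo_univ _ _)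
    refine le_trans this ?_
    have h2 : eVariationOn (id : ℝ → ℝ) (Icc 0 1) ≤ ENNReal.ofReal (1 - 0) := by
      have := (monotone_id (α := ℝ)).monotoneOn (Icc (0:ℝ) 1)
      have h3 := this.eVariationOn_eq (a := 0) (b := 1) (by simp) (by simp)
      rw [inter_self] at h3
      exact h3.le
    calc (nndist x y : ℝ≥0∞) * eVariationOn (id : ℝ → ℝ) (Icc 0 1)
        ≤ (nndist x y : ℝ≥0∞) * ENNReal.ofReal (1 - 0) := by gcongr
      _ = edist x y := by rw [sub_zero, ENNReal.ofReal_one, mul_one, edist_nndist]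

theorem Reach.limit {V : Set E} {l : ℕ → ℝ≥0∞} {y : ℕ → E} {w : E}
    (h : ∀ g, Reach V (l g) (y g) (y (g + 1))) (hl : ∑' g, l g ≠ ∞)
    (hy : Tendsto y atTop (𝓝 w)) :
    ∃ γ : ℝ → E, ContinuousOn γ (Icc 0 1) ∧ eVariationOn γ (Icc 0 1) ≠ ∞ ∧
      (∀ t ∈ Ico (0:ℝ) 1, γ t ∈ V) ∧ γ 1 = w := by
  choose Γ h1 h2 h3 h4 h5 using h
  have hglue : ∀ n, Γ n 1 = Γ (n + 1) 0 := fun n => by rw [h3, h2]
  have hpre := concat_prefix (V := V) hglue h1 h4 h5
  -- continuity on `[0,∞)`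
  have hcont : ContinuousOn (concat Γ) (Ici 0) := by
    intro s hs
    obtain ⟨N, hN⟩ := exists_nat_gt s
    have := (hpre N).1 s ⟨hs, hN.le⟩
    refine this.mono_of_mem_nhdsWithin ?_
    have h6 : Iio (N : ℝ) ∈ 𝓝 s := Iio_mem_nhds hN
    filter_upwards [self_mem_nhdsWithin, mem_nhdsWithin_of_mem_nhds h6] with t ht ht'
    exact ⟨ht, le_of_lt ht'⟩
  have hV' : ∀ s ∈ Ici (0:ℝ), concat Γ s ∈ V := by
    intro s hs
    obtain ⟨N, hN⟩ := exists_nat_gt s
    exact (hpre N).2.1 s ⟨hs, hN.le⟩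
  -- limit at infinity
  have hlim : Tendsto (concat Γ) atTop (𝓝 w) := by
    have ha : Tendsto (fun s : ℝ => y ⌊s⌋₊) atTop (𝓝 w) :=
      hy.comp tendsto_nat_floor_atTop
    have hb : Tendsto (fun s : ℝ => l ⌊s⌋₊) atTop (𝓝 0) :=
      (ENNReal.tendsto_atTop_zero_of_tsum_ne_top hl).comp tendsto_nat_floor_atTop
    rw [tendsto_iff_edist_tendsto_0] at ha ⊢
    have hab : Tendsto (fun s : ℝ => l ⌊s⌋₊ + edist (y ⌊s⌋₊) w) atTop (𝓝 0) := by
      simpa using hb.add ha
    refine tendsto_of_tendsto_of_tendsto_of_le_of_le' tendsto_const_nhds hab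
      (Eventually.of_forall fun _ => bot_le) ?_
    filter_upwards [eventually_ge_atTop (0:ℝ)] with s hs
    refine (edist_triangle _ (y ⌊s⌋₊) _).trans ?_
    gcongr
    have hmem1 : s - ⌊s⌋₊ ∈ Icc (0:ℝ) 1 := by
      constructor
      · have := Nat.floor_le hs
        linarith
      · have := (Nat.lt_floor_add_one s).le
        linarith
    rw [← h2 ⌊s⌋₊]
    exact (eVariationOn.edist_le (Γ ⌊s⌋₊) hmem1 (by simp)).trans (h5 ⌊s⌋₊)
  -- reparametrise
  let φ : ℝ → ℝ := fun t => t / (1 - t)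
  have hφ0 : MapsTo φ (Ico 0 1) (Ici 0) := by
    rintro t ⟨ht0, ht1⟩
    exact div_nonneg ht0 (by linarith)
  have hφc : ContinuousOn φ (Ico 0 1) := by
    apply ContinuousOn.div continuousOn_id (by fun_prop)
    rintro t ⟨_, ht1⟩
    linarith
  have hφm : MonotoneOn φ (Ico 0 1) := by
    rintro s ⟨hs0, hs1⟩ t ⟨ht0, ht1⟩ hst
    simp only [φ]
    rw [div_le_div_iff₀ (by linarith) (by linarith)]
    nlinarith
  have hφlim : Tendsto φ (𝓝[<] 1) atTop := by
    have h6 : Tendsto (fun t : ℝ => (1 - t)⁻¹) (𝓝[<] 1) atTop := by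
      apply tendsto_inv_nhdsGT_zero.comp
      rw [tendsto_nhdsWithin_iff]
      constructor
      · have : Tendsto (fun t : ℝ => 1 - t) (𝓝 1) (𝓝 (1 - 1)) := by
          exact (continuous_const.sub continuous_id).tendsto 1
        rw [sub_self] at this
        exact this.mono_left nhdsWithin_le_nhds
      · filter_upwards [self_mem_nhdsWithin] with t ht
        simp only [mem_Ioi, mem_Iio] at ht ⊢
        linarith
    have h7 : Tendsto (fun t : ℝ => (1 - t)⁻¹ + (-1)) (𝓝[<] 1) atTop :=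
      tendsto_atTop_add_const_right _ _ h6
    refine h7.congr' ?_
    filter_upwards [self_mem_nhdsWithin] with t ht
    simp only [mem_Iio] at ht
    simp only [φ]
    have : 1 - t ≠ 0 := by linarith
    field_simp
    ring
  let γ : ℝ → E := fun t => if t < 1 then concat Γ (φ t) else w
  have hγ : EqOn γ (concat Γ ∘ φ) (Ico 0 1) := by
    rintro t ⟨_, ht⟩
    simp only [γ, ht, ↓reduceIte, Function.comp]
  have hγ1 : γ 1 = w := by simp [γ]
  have hγc : ContinuousOn γ (Ico 0 1) := (hcont.comp hφc hφ0).congr hγ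
  have hγlim : Tendsto γ (𝓝[<] 1) (𝓝 (γ 1)) := by
    rw [hγ1]
    refine (hlim.comp hφlim).congr' ?_
    filter_upwards [self_mem_nhdsWithin] with t ht
    simp only [mem_Iio] at ht
    simp only [γ, ht, ↓reduceIte, Function.comp]
  have hγ1c : ContinuousWithinAt γ (Iic 1) 1 := by
    rw [← continuousWithinAt_Iio_iff_Iic]
    exact hγlim
  refine ⟨γ, ?_, ?_, ?_, hγ1⟩
  · rintro t ⟨ht0, ht1⟩
    rcases ht1.eq_or_lt with rfl | ht1
    · exact hγ1c.mono Icc_subset_Iic_self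
    · have := hγc t ⟨ht0, ht1⟩
      refine this.mono_of_mem_nhdsWithin ?_
      filter_upwards [self_mem_nhdsWithin, mem_nhdsWithin_of_mem_nhds (Iio_mem_nhds ht1)] with
        s hs hs'
      exact ⟨hs.1, hs'⟩
  · rw [← eVariationOn.eVariationOn_Ico_eq_Icc_of_continuousWithinAt hγ1c,
      eVariationOn.eq_of_eqOn hγ]
    have hle : eVariationOn (concat Γ ∘ φ) (Ico 0 1) ≤ eVariationOn (concat Γ) (Ici 0) :=
      eVariationOn.comp_le_of_monotoneOn _ _ hφm hφ0
    refine ne_top_of_le_ne_top hl (hle.trans ?_)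
    rw [eVariationOn.eq_biSup_inter_Icc]
    refine iSup_le fun a => iSup_le fun _ => ?_
    obtain ⟨N, hN⟩ := exists_nat_gt a.2
    refine (eVariationOn.mono _ ?_).trans (((hpre N).2.2).trans (ENNReal.sum_le_tsum _))
    rintro t ⟨ht0, ht1, ht2⟩
    exact ⟨ht0, ht2.trans hN.le⟩
  · intro t ht
    rw [hγ ht]
    exact hV' _ (hφ0 ht)

end Pool.Agent.Lib.P07dee5
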