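import Mathlib
import Pool.Agent.Lib.P07dee5.Quad
import Pool.Agent.Lib.P07dee5.Lusc
import Pool.Agent.Lib.P07dee5.Radius
import Pool.Agent.Lib.P07dee5.AccDef

/-! # No accumulation of the steps of the walk before the limit time -/

open MeasureTheory Set Filter Topology ProbabilityTheory Module
open scoped ENNReal NNReal RealInnerProductSpace

set_option linter.unusedSectionVars false

namespace Pool.Agent.Lib.P07dee5

variable {E : Type*} [NormedAddCommGroup E] [InnerProductSpace ℝ E] [FiniteDimensional ℝ E]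
  [MeasurableSpace E] [BorelSpace E] {W : Measure (Pth E)}

lemma tendsto_lt_ext (hn : 3 ≤ finrank ℝ E) (hW : IsWiener W) {t : ℝ≥0} (ht : 0 < t) :
    Tendsto (fun k : ℕ => W {p : Pth E | (t : ℝ≥0∞) < ext (1 / 2 ^ k) p}) atTop (𝓝 0) := by
  have := hW.prob
  have hmeas : ∀ k : ℕ, MeasurableSet {p : Pth E | (t : ℝ≥0∞) < ext (1 / 2 ^ k) p} := fun k =>
    measurableSet_lt measurable_const (measurable_ext _)
  have hanti : Antitone (fun k : ℕ => {p : Pth E | (t : ℝ≥0∞) < ext (1 / 2 ^ k) p}) := by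
    intro k l hkl p hp
    have hp' : (t : ℝ≥0∞) < ext (1 / 2 ^ l) p := hp
    show (t : ℝ≥0∞) < ext (1 / 2 ^ k) p
    refine hp'.trans_le (ext_mono ?_ p)
    apply div_le_div_of_nonneg_left zero_le_one (by positivity)
    exact pow_le_pow_right₀ (by norm_num) hkl
  have h1 := tendsto_measure_iInter_atTop (μ := W) (fun k => (hmeas k).nullMeasurableSet) hanti
    ⟨0, measure_ne_top _ _⟩
  have h2 : W (⋂ k : ℕ, {p : Pth E | (t : ℝ≥0∞) < ext (1 / 2 ^ k) p}) = 0 := by
    rw [measure_eq_zero_iff_ae_notMem]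
    filter_upwards [Rad.ae_ne_zero hn hW ht, hW.zero] with p hp1 hp3 hp4
    rw [mem_iInter] at hp4
    have h6 : 0 < dist (p.1 t) (p.1 0) := by
      rw [hp3, dist_zero_right]
      exact norm_pos_iff.2 hp1
    have h7 : Tendsto (fun k : ℕ => (1 : ℝ) / 2 ^ k) atTop (𝓝 0) := by
      have h8 := (tendsto_pow_atTop_nhds_zero_of_lt_one (r := (1/2 : ℝ)) (by norm_num)
        (by norm_num))
      refine h8.congr fun k => ?_
      rw [one_div, inv_pow, one_div]
    obtain ⟨k, hk⟩ := (h7.eventually (gt_mem_nhds h6)).exists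
    have h9 : (t : ℝ≥0∞) < ext (1 / 2 ^ k) p := hp4 k
    exact absurd (ext_le hk.le) (not_le.2 h9)
  rw [h2] at h1
  exact h1

lemma zeno_phi_mono {D : ℕ → Set E} {r r' : ℝ} (h : r ≤ r') (y : E) : phi W D r y ≤ phi W D r' y :=
  measure_mono fun p hp => le_trans (show TT D (tr y p) ≤ ext r p from hp) (ext_mono h p)

lemma ea_ge (hW : IsWiener W) {D : ℕ → Set E} (hN : Nest W D) {y : E} (hy : y ∈ Vs D)
    (a t : ℝ≥0) (r : ℝ) :
    dsc a t * (phi W D r y - W {p : Pth E | (t : ℝ≥0∞) < ext r p}) ≤ ea W D a y := by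
  have hprob := hW.prob
  have h1 : phi W D r y ≤ W {p : Pth E | TT D (tr y p) ≤ t} +
      W {p : Pth E | (t : ℝ≥0∞) < ext r p} := by
    refine le_trans (measure_mono ?_) (measure_union_le _ _)
    intro p hp
    have hp' : TT D (tr y p) ≤ ext r p := hp
    rcases le_or_gt (ext r p) (t : ℝ≥0∞) with h | h
    · left; exact hp'.trans h
    · right; exact h
  have h2 : phi W D r y - W {p : Pth E | (t : ℝ≥0∞) < ext r p} ≤
      W {p : Pth E | TT D (tr y p) ≤ t} := tsub_le_iff_right.2 h1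
  have hm : Measurable (fun p : Pth E => dsc a (T' D (tr y p))) :=
    (measurable_dscT' hN.isOpen hN.anti a).comp (measurable_tr y)
  have h3 : W {p : Pth E | TT D (tr y p) ≤ t} ≤
      W {p : Pth E | dsc a t ≤ dsc a (T' D (tr y p))} := by
    apply measure_mono_ae
    filter_upwards [hN.TT_pos hy] with p hp hp2
    have h4 : T' D (tr y p) = TT D (tr y p) := T'_eq_TT hN.isOpen hN.anti hp
    show dsc a t ≤ dsc a (T' D (tr y p))
    rw [h4]
    exact dsc_anti a hp2
  calc dsc a t * (phi W D r y - W {p : Pth E | (t : ℝ≥0∞) < ext r p})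
      ≤ dsc a t * W {p : Pth E | dsc a t ≤ dsc a (T' D (tr y p))} := by
        gcongr
        exact h2.trans h3
    _ ≤ ∫⁻ p, dsc a (T' D (tr y p)) ∂W := mul_meas_ge_le_lintegral hm _
    _ = ea W D a y := rfl

lemma tendsto_dsc_nat {T : ℝ≥0∞} (hT : 0 < T) :
    Tendsto (fun a : ℕ => dsc (a + 1) T) atTop (𝓝 0) := by
  by_cases htop : T = ∞
  · rw [htop]
    refine tendsto_const_nhds.congr fun a => ?_
    exact (dsc_top (by positivity)).symm
  · have ht : 0 < T.toNNReal := ENNReal.toNNReal_pos hT.ne' htop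
    rw [← ENNReal.coe_toNNReal htop]
    set t := T.toNNReal with htdef
    simp_rw [dsc_coe]
    rw [← ENNReal.ofReal_zero]
    apply (ENNReal.continuous_ofReal.tendsto 0).comp
    have h1 : Tendsto (fun a : ℕ => (((a + 1 : ℝ≥0) : ℝ) * t)) atTop atTop := by
      apply Tendsto.atTop_mul_const (by exact_mod_cast ht)
      push_cast
      exact tendsto_atTop_add_const_right _ _ tendsto_natCast_atTop_atTop
    exact Real.tendsto_exp_atBot.comp (tendsto_neg_atTop_atBot.comp h1)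

lemma tendsto_ea (hW : IsWiener W) {D : ℕ → Set E} (hN : Nest W D) {z : E} (hz : z ∈ Vs D) :
    Tendsto (fun a : ℕ => ea W D (a + 1) z) atTop (𝓝 0) := by
  have hprob := hW.prob
  have h1 : Tendsto (fun a : ℕ => ∫⁻ p, dsc (a + 1) (T' D (tr z p)) ∂W) atTop
      (𝓝 (∫⁻ _p : Pth E, 0 ∂W)) := by
    apply tendsto_lintegral_of_dominated_convergence (bound := fun _ => 1)
    · intro a
      exact (measurable_dscT' hN.isOpen hN.anti _).comp (measurable_tr z)
    · intro a
      exact Eventually.of_forall fun p => dsc_le_one _ _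
    · simp
    · filter_upwards [hN.TT_pos hz] with p hp
      apply tendsto_dsc_nat
      rw [T'_eq_TT hN.isOpen hN.anti hp]
      exact hp
  rw [lintegral_zero] at h1
  exact h1

theorem zeno (hn : 3 ≤ finrank ℝ E) (hW : IsWiener W) {D : ℕ → Set E} (hN : Nest W D) {x : E}
    {R ε δ : ℝ} {ρ : E → ℝ} {m : E → ℕ} (h : Walk W D x R ε δ ρ m) {p : Pth E}
    (hp0 : p.1 0 = x) (hx : x ∈ Vs D) (hLu : ∀ a : ℕ, Lu (ea W D (a + 1)) p)
    (hT : TT D p ≠ ∞) (hTe : TT D p ≤ ext R p)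
    (hall : ∀ j, exr ρ ((nxt ρ)^[j] p) < TT D ((nxt ρ)^[j] p))
    (hsum : ∑' j, ENNReal.ofReal (ρ (((nxt ρ)^[j] p).1 0)) ≠ ∞) :
    Tendsto (fun j => ((nxt ρ)^[j] p).1 0) atTop (𝓝 (p.1 (TT D p).toNNReal)) := by
  have hprob := hW.prob
  set it : ℕ → Pth E := fun j => (nxt ρ)^[j] p with hit
  have hit1 : ∀ j, it (j + 1) = nxt ρ (it j) := fun j => Function.iterate_succ_apply' _ _ _
  -- times
  set S : ℕ → ℝ≥0 := fun j => ∑ i ∈ Finset.range j, (exr ρ (it i)).toNNReal with hS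
  have hS1 : ∀ j, S (j + 1) = S j + (exr ρ (it j)).toNNReal := fun j =>
    Finset.sum_range_succ _ _
  have hitS : ∀ j, it j = shift (S j) p := by
    intro j
    induction j with
    | zero => simp only [hit, hS]; apply pth_ext; intro t; simp
    | succ j ih =>
      rw [hit1]
      show shift (exr ρ (it j)).toNNReal (it j) = _
      conv_lhs => rw [ih]
      rw [shift_shift, hS1, ← ih]
  have hy : ∀ j, (it j).1 0 = p.1 (S j) := by
    intro j; rw [hitS, shift_apply, add_zero]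
  have hSB : ∀ j, (it j).1 0 ∈ SB D x R := by
    intro j
    induction j with
    | zero =>
      show p.1 0 ∈ SB D x R
      rw [hp0]
      exact ⟨hx, by rw [dist_self]; exact h.Rpos⟩
    | succ j ih =>
      rw [hit1, nxt_zero]
      exact h.inv _ ih (hall j)
  have hexpos : ∀ j, 0 < (exr ρ (it j)).toNNReal := fun j =>
    ENNReal.toNNReal_pos (exr_pos (h.pos (hSB j))).ne' (ne_top_of_lt (hall j))
  have hSmono : StrictMono S := by
    apply strictMono_nat_of_lt_succ
    intro j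
    rw [hS1]
    exact lt_add_of_pos_right _ (hexpos j)
  have hTTS : ∀ j, TT D p = S j + TT D (it j) := by
    intro j
    induction j with
    | zero => simp [hS, hit]
    | succ j ih =>
      rw [ih, TT_nxt hN.isOpen hN.anti (hall j), hit1, hS1]
      push_cast
      rw [ENNReal.coe_toNNReal (ne_top_of_lt (hall j)), add_assoc]
  have hSlt : ∀ j, (S j : ℝ≥0∞) < TT D p := by
    intro j
    rw [hTTS j]
    exact ENNReal.lt_add_right ENNReal.coe_ne_top (zero_le.trans_lt (hall j)).ne'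
  set τ : ℝ≥0 := (TT D p).toNNReal with hτ
  have hτc : (τ : ℝ≥0∞) = TT D p := ENNReal.coe_toNNReal hT
  have hSτ : ∀ j, S j < τ := by
    intro j
    have := hSlt j
    rw [← hτc] at this
    exact_mod_cast this
  have hbdd : BddAbove (range S) := ⟨τ, by rintro _ ⟨j, rfl⟩; exact (hSτ j).le⟩
  set σ : ℝ≥0 := ⨆ j, S j with hσ
  have hSσ : Tendsto S atTop (𝓝 σ) := tendsto_atTop_ciSup hSmono.monotone hbdd
  have hSltσ : ∀ j, S j < σ := fun j => (hSmono (Nat.lt_succ_self j)).trans_le (le_ciSup hbdd (j + 1))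
  have hστ : σ ≤ τ := ciSup_le fun j => (hSτ j).le
  have hyz : Tendsto (fun j => (it j).1 0) atTop (𝓝 (p.1 σ)) := by
    have := (p.2.tendsto σ).comp hSσ
    refine this.congr fun j => ?_
    rw [hy]; rfl
  rcases hστ.eq_or_lt with heq | hlt
  · rw [heq] at hyz
    exact hyz
  exfalso
  have hσpos : 0 < σ := zero_le.trans_lt (hSltσ 0)
  have hσT : (σ : ℝ≥0∞) < TT D p := by
    rw [← hτc]; exact_mod_cast hlt
  set z : E := p.1 σ with hz
  have hzV : z ∈ Vs D := mem_Vs_of_lt hσpos hσT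
  have hzR : dist z x < R := by
    rw [← hp0]
    exact dist_lt_of_lt_ext (hσT.trans_le hTe)
  -- radii tend to zero
  have hρ0 : Tendsto (fun j => ρ ((it j).1 0)) atTop (𝓝 0) := by
    have h1 : Tendsto (fun j => ENNReal.ofReal (ρ ((it j).1 0))) atTop (𝓝 0) :=
      ENNReal.tendsto_atTop_zero_of_tsum_ne_top hsum
    have h2 := (ENNReal.tendsto_toReal ENNReal.zero_ne_top).comp h1
    rw [ENNReal.toReal_zero] at h2
    refine h2.congr fun j => ?_
    exact ENNReal.toReal_ofReal (h.pos (hSB j)).le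
  have hm0 : Tendsto (fun j => R / 2 ^ (m ((it j).1 0))) atTop (𝓝 0) := by
    have h1 : Tendsto (fun j => 2 * ρ ((it j).1 0)) atTop (𝓝 0) := by
      simpa using hρ0.const_mul 2
    refine squeeze_zero (fun j => ?_) (fun j => ?_) h1
    · have := h.Rpos; positivity
    · have := h.lo _ (hSB j).1 (hSB j).2
      linarith
  have hgap : Tendsto (fun j => R - dist ((it j).1 0) x) atTop (𝓝 (R - dist z x)) :=
    tendsto_const_nhds.sub (hyz.dist tendsto_const_nhds)
  have hev1 : ∀ᶠ j in atTop, 32 * (R / 2 ^ (m ((it j).1 0))) ≤ R - dist ((it j).1 0) x := by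
    have h1 : ∀ᶠ j in atTop, (R - dist z x) / 2 < R - dist ((it j).1 0) x :=
      hgap.eventually (lt_mem_nhds (by linarith))
    have h2 : ∀ᶠ j in atTop, R / 2 ^ (m ((it j).1 0)) < (R - dist z x) / 64 :=
      hm0.eventually (gt_mem_nhds (by linarith))
    filter_upwards [h1, h2] with j h1 h2
    linarith
  have hphi : ∀ r : ℝ, 0 < r → ∀ᶠ j in atTop, ENNReal.ofReal ε < phi W D r ((it j).1 0) := by
    intro r hr
    have h2 : ∀ᶠ j in atTop, R / 2 ^ (m ((it j).1 0)) < r / 2 :=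
      hm0.eventually (gt_mem_nhds (by linarith))
    filter_upwards [hev1, h2] with j h1 h2
    refine (h.alt _ (hSB j).1 (hSB j).2 h1).trans_le (zeno_phi_mono (by linarith) _)
  -- lower bound of `ea`
  have hεpos : 0 < ENNReal.ofReal ε := ENNReal.ofReal_pos.2 h.epos
  set e0 : ℝ≥0∞ := ENNReal.ofReal ε / 4 with he0
  have he0pos : 0 < e0 := ENNReal.div_pos hεpos.ne' (by norm_num)
  have hea : ∀ a : ℕ, ∀ᶠ j in atTop, e0 ≤ ea W D (a + 1) ((it j).1 0) := by
    intro a
    -- the time `t`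
    obtain ⟨t, ht0, ht⟩ : ∃ t : ℝ≥0, 0 < t ∧ (1 / 2 : ℝ≥0∞) ≤ dsc (a + 1) t := by
      have h1 : ∀ᶠ t : ℝ≥0 in 𝓝 0, (1 / 2 : ℝ≥0∞) < dsc (a + 1) t :=
        (tendsto_dsc_zero (a + 1)).eventually (lt_mem_nhds (by norm_num))
      have h2 : ∀ᶠ t : ℝ≥0 in 𝓝[>] 0, (1 / 2 : ℝ≥0∞) < dsc (a + 1) t :=
        nhdsWithin_le_nhds h1
      obtain ⟨t, ht1, ht2⟩ := (h2.and self_mem_nhdsWithin).exists
      exact ⟨t, ht2, ht1.le⟩
    obtain ⟨k, hk⟩ : ∃ k : ℕ, W {p : Pth E | (t : ℝ≥0∞) < ext (1 / 2 ^ k) p} <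
        ENNReal.ofReal ε / 2 :=
      ((tendsto_lt_ext hn hW ht0).eventually
        (gt_mem_nhds (ENNReal.div_pos hεpos.ne' (by norm_num)))).exists
    filter_upwards [hphi (1 / 2 ^ k) (by positivity)] with j hj
    refine le_trans ?_ (ea_ge hW hN (hSB j).1 (a + 1) t (1 / 2 ^ k))
    have h3 : ENNReal.ofReal ε / 2 ≤ phi W D (1 / 2 ^ k) ((it j).1 0) -
        W {p : Pth E | (t : ℝ≥0∞) < ext (1 / 2 ^ k) p} := by
      calc ENNReal.ofReal ε / 2 = ENNReal.ofReal ε - ENNReal.ofReal ε / 2 :=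
            (ENNReal.sub_half ENNReal.ofReal_ne_top).symm
        _ ≤ _ := tsub_le_tsub hj.le hk.le
    calc e0 = (1 / 2 : ℝ≥0∞) * (ENNReal.ofReal ε / 2) := by
          rw [he0, one_div, ENNReal.div_eq_inv_mul, ENNReal.div_eq_inv_mul, ← mul_assoc,
            ← ENNReal.mul_inv (by simp) (by simp)]
          norm_num
      _ ≤ _ := by gcongr
  -- left lower semicontinuity
  have hSleft : Tendsto S atTop (𝓝[<] σ) :=
    tendsto_nhdsWithin_iff.2 ⟨hSσ, Eventually.of_forall hSltσ⟩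
  have heaz : ∀ a : ℕ, e0 ≤ ea W D (a + 1) z := by
    intro a
    by_contra hcon
    rw [not_le] at hcon
    obtain ⟨q', hq1, hq2⟩ := exists_between hcon
    have h1 := hSleft.eventually (hLu a σ hσpos (ea W D (a + 1) z) q' hq1 le_rfl)
    obtain ⟨j, hj1, hj2⟩ := (h1.and (hea a)).exists
    rw [hy j] at hj2
    exact absurd (hj2.trans hj1) (not_le.2 hq2)
  have h1 := ge_of_tendsto' (tendsto_ea hW hN hzV) heaz
  exact absurd he0pos (not_lt.2 h1)

end Pool.Agent.Lib.P07dee5
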