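import Mathlib
import Pool.Agent.Lib.P07dee5.Bound
import Pool.Agent.Lib.P07dee5.Rect
import Pool.Agent.Lib.P07dee5.Zeno

/-! # Iteration of the generations: accessibility of the exit point, deterministic part -/

open MeasureTheory Set Filter Topology ProbabilityTheory Module
open scoped ENNReal NNReal

set_option linter.unusedSectionVars false
set_option linter.unusedVariables false

namespace Pool.Agent.Lib.P07dee5

open Limited

variable {E : Type*} [NormedAddCommGroup E] [InnerProductSpace ℝ E] [FiniteDimensional ℝ E]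
  [MeasurableSpace E] [BorelSpace E] {W : Measure (Pth E)}

/-! ### accessibility by sequences of finite pieces -/

/-- `w` is reached from `x` by countably many pieces in `V` of finite total length -/
def AccFrom (V : Set E) (x w : E) : Prop :=
  ∃ (y : ℕ → E) (l : ℕ → ℝ≥0∞), y 0 = x ∧ (∀ g, Reach V (l g) (y g) (y (g + 1))) ∧
    ∑' g, l g ≠ ∞ ∧ Tendsto y atTop (𝓝 w)

lemma AccFrom.acc {V : Set E} {x w : E} (h : AccFrom V x w) : Acc V w := by
  obtain ⟨y, l, _, h1, h2, h3⟩ := h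
  exact Reach.limit h1 h2 h3

lemma AccFrom.cons {V : Set E} {l : ℝ≥0∞} {x x' w : E} (h : Reach V l x' x) (hl : l ≠ ∞)
    (h2 : AccFrom V x w) : AccFrom V x' w := by
  obtain ⟨y, l', h0, h1, hs, ht⟩ := h2
  refine ⟨fun g => Nat.casesOn g x' y, fun g => Nat.casesOn g l l', rfl, ?_, ?_, ?_⟩
  · intro g
    cases g with
    | zero => show Reach V l x' (y 0); rw [h0]; exact h
    | succ g => exact h1 g
  · rw [tsum_eq_zero_add' ENNReal.summable]
    exact ENNReal.add_ne_top.2 ⟨hl, hs⟩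
  · rw [← tendsto_add_atTop_iff_nat 1]
    exact ht

/-! ### iterates of the walk -/

section

variable {D : ℕ → Set E} {ρ : E → ℝ}

/-- sum of the costs of the visited states -/
lemma sum_le_Af {c : Pth E → ℝ≥0∞} (J : ℕ) (p : Pth E)
    (h : ∀ i < J, exr ρ ((nxt ρ)^[i] p) < TT D ((nxt ρ)^[i] p)) :
    ∑ i ∈ Finset.range (J + 1), c ((nxt ρ)^[i] p) = Af D ρ c (J + 1) p := by
  induction J generalizing p with
  | zero => simp [Af]
  | succ J ih =>
    rw [Finset.sum_range_succ']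
    show _ = c p + bef D (exr ρ) p * Af D ρ c (J + 1) (nxt ρ p)
    have h0 := h 0 (Nat.succ_pos J)
    simp only [Function.iterate_zero, id_eq] at h0
    rw [bef_of_lt h0, one_mul, add_comm, ← ih (nxt ρ p)]
    · simp only [Function.iterate_succ_apply, Function.iterate_zero, id_eq]
    · intro i hi
      rw [← Function.iterate_succ_apply]
      exact h (i + 1) (by omega)

lemma sum_le_Ai {c : Pth E → ℝ≥0∞} (J : ℕ) (p : Pth E)
    (h : ∀ i < J, exr ρ ((nxt ρ)^[i] p) < TT D ((nxt ρ)^[i] p)) :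
    ∑ i ∈ Finset.range (J + 1), c ((nxt ρ)^[i] p) ≤ Ai D ρ c p := by
  rw [sum_le_Af J p h]
  exact le_iSup (fun j => Af D ρ c j p) (J + 1)

lemma cost_le_Ai {c : Pth E → ℝ≥0∞} (J : ℕ) (p : Pth E)
    (h : ∀ i < J, exr ρ ((nxt ρ)^[i] p) < TT D ((nxt ρ)^[i] p)) :
    c ((nxt ρ)^[J] p) ≤ Ai D ρ c p := by
  refine le_trans ?_ (sum_le_Ai J p h)
  exact Finset.single_le_sum (f := fun i => c ((nxt ρ)^[i] p)) (fun _ _ => zero_le)
    (Finset.mem_range.2 (Nat.lt_succ_self J))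

/-- the limit time of an iterate, and the position at the limit time -/
lemma TT_iter (hD : ∀ k, IsOpen (D k)) (ha : Antitone D) {p : Pth E} (hT : TT D p ≠ ∞) (J : ℕ)
    (h : ∀ i < J, exr ρ ((nxt ρ)^[i] p) < TT D ((nxt ρ)^[i] p)) :
    TT D ((nxt ρ)^[J] p) ≠ ∞ ∧
      ((nxt ρ)^[J] p).1 (TT D ((nxt ρ)^[J] p)).toNNReal = p.1 (TT D p).toNNReal := by
  induction J with
  | zero => exact ⟨hT, rfl⟩
  | succ J ih =>
    obtain ⟨h1, h2⟩ := ih (fun i hi => h i (by omega))
    set q := (nxt ρ)^[J] p with hq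
    have hlt := h J (Nat.lt_succ_self J)
    rw [← hq] at hlt
    have h3 := TT_nxt hD ha hlt
    have hne : exr ρ q ≠ ∞ := ne_top_of_lt hlt
    rw [Function.iterate_succ_apply', ← hq]
    have h4 : TT D (nxt ρ q) ≠ ∞ := by
      intro hcon
      rw [hcon, add_top] at h3
      exact h1 h3
    refine ⟨h4, ?_⟩
    rw [← h2, h3, ENNReal.toNNReal_add hne h4]
    rfl

lemma iter_mem {x : E} {R ε δ : ℝ} {m : E → ℕ} (hw : Walk W D x R ε δ ρ m) {p : Pth E}
    (hp : p.1 0 ∈ SB D x R) (J : ℕ)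
    (h : ∀ i < J, exr ρ ((nxt ρ)^[i] p) < TT D ((nxt ρ)^[i] p)) :
    ((nxt ρ)^[J] p).1 0 ∈ SB D x R := by
  induction J with
  | zero => exact hp
  | succ J ih =>
    rw [Function.iterate_succ_apply', nxt_zero]
    exact hw.inv _ (ih fun i hi => h i (by omega)) (h J (Nat.lt_succ_self J))

lemma iter_lu {a : ℝ≥0} {p : Pth E} (h : Lu (ea W D a) p) (J : ℕ) :
    Lu (ea W D a) ((nxt ρ)^[J] p) := by
  induction J with
  | zero => exact h
  | succ J ih =>
    rw [Function.iterate_succ_apply']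
    exact ih.shift _

/-- a step which is not bad gives a segment -/
lemma reach_step {q : Pth E} (hpos : 0 < ρ (q.1 0)) (hq : q.1 0 ∈ Vs D) (hne : exr ρ q ≠ ∞)
    (hbad : q ∉ badSeg D (ρ (q.1 0))) :
    Reach (Vs D) (ENNReal.ofReal (ρ (q.1 0))) (q.1 0) (stp ρ q) := by
  have h1 : edist (q.1 0) (stp ρ q) = ENNReal.ofReal (ρ (q.1 0)) := by
    rw [edist_dist, dist_comm, dist_stp hpos hne]
  rw [← h1]
  apply Reach.segment
  simp only [badSeg, Set.mem_ofPred_eq, not_forall, not_exists, not_and] at hbad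
  obtain ⟨k, hk⟩ := hbad
  intro z hz
  rw [segment_eq_image'] at hz
  obtain ⟨s, hs, rfl⟩ := hz
  rcases hs.1.eq_or_lt with h0 | h0
  · rw [← h0]; simpa using hq
  · exact ⟨k, hk s ⟨h0, hs.2⟩⟩

/-- concatenation of good steps -/
lemma reach_iter {x : E} {R ε δ : ℝ} {m : E → ℕ} (hw : Walk W D x R ε δ ρ m) {p : Pth E}
    (hp : p.1 0 ∈ SB D x R) (J : ℕ)
    (h : ∀ i < J, exr ρ ((nxt ρ)^[i] p) < TT D ((nxt ρ)^[i] p))
    (hbad : ∀ i < J, (nxt ρ)^[i] p ∉ badSeg D (ρ (((nxt ρ)^[i] p).1 0))) :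
    Reach (Vs D) (∑ i ∈ Finset.range J, ENNReal.ofReal (ρ (((nxt ρ)^[i] p).1 0))) (p.1 0)
      (((nxt ρ)^[J] p).1 0) := by
  induction J with
  | zero =>
    simp only [Finset.range_zero, Finset.sum_empty, Function.iterate_zero, id_eq]
    exact Reach.refl hp.1
  | succ J ih =>
    rw [Finset.sum_range_succ]
    refine (ih (fun i hi => h i (by omega)) (fun i hi => hbad i (by omega))).trans ?_
    have hmem := iter_mem hw hp J (fun i hi => h i (by omega))
    rw [Function.iterate_succ_apply', nxt_zero]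
    exact reach_step (hw.pos hmem) hmem.1 (ne_top_of_lt (h J (Nat.lt_succ_self J)))
      (hbad J (Nat.lt_succ_self J))

end

/-! ### one generation -/

section

variable {D : ℕ → Set E} {ρ : ℝ → E → E → ℝ} {m : ℝ → E → E → ℕ} {ε δ : ℝ → ℝ}

/-- the states of the iteration -/
structure St (W : Measure (Pth E)) (D : ℕ → Set E) (ρ : ℝ → E → E → ℝ) (m : ℝ → E → E → ℕ)
    (R : ℝ) (p : Pth E) : Prop where
  pos : 0 < R
  le_one : R ≤ 1
  start : p.1 0 ∈ Vs D
  fin : TT D p ≠ ∞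
  le_ext : TT D p ≤ ext R p
  risk : ENNReal.ofReal (etaf R) ≤ phi W D R (p.1 0)
  fail : ∑' g, Fg W D etaf lamf ρ m g R p < 1
  lu : ∀ a : ℕ, Lu (ea W D (a + 1)) p

lemma length_le {x : E} {R : ℝ} {ρ' : E → ℝ} {m' : E → ℕ} {ε' δ' : ℝ}
    (hw : Walk W D x R ε' δ' ρ' m') {q : Pth E} (hq : q.1 0 ∈ SB D x R) :
    ENNReal.ofReal (ρ' (q.1 0)) ≤ cW x R ρ' m' q + cH x R m' q := by
  by_cases h : R - dist (q.1 0) x < 32 * (R / 2 ^ (m' (q.1 0)))
  · unfold cW
    rw [if_pos h]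
    exact le_self_add
  · refine le_trans ?_ le_add_self
    unfold cH
    refine le_trans ?_ (ENNReal.le_tsum (m' (q.1 0)))
    unfold cL
    rw [if_pos ⟨rfl, not_lt.1 h⟩, mul_one]
    exact ENNReal.ofReal_le_ofReal (hw.hi _ hq.1 hq.2)

theorem gen_step (hn : 3 ≤ finrank ℝ E) (hW : IsWiener W) (hN : Nest W D)
    (hwalk : ∀ R, 0 < R → ∀ x, Walk W D x R (ε R) (δ R) (ρ R x) (m R x)) {R : ℝ} {p : Pth E}
    (hs : St W D ρ m R p) :
    AccFrom (Vs D) (p.1 0) (p.1 (TT D p).toNNReal) ∨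
      ∃ (R' : ℝ) (q : Pth E), St W D ρ m R' q ∧ R' ≤ R / 16 ∧
        Reach (Vs D) (2 * ENNReal.ofReal (lamf R)) (p.1 0) (q.1 0) ∧
        q.1 (TT D q).toNNReal = p.1 (TT D p).toNNReal := by
  classical
  have hD := hN.isOpen
  have ha := hN.anti
  set x := p.1 0 with hx
  have hw := hwalk R hs.pos x
  have hxS : p.1 0 ∈ SB D x R := ⟨hs.start, by rw [← hx, dist_self]; exact hs.pos⟩
  -- the first generation does not fail
  have hF0 : F0 W D etaf lamf ρ m R p < 1 :=
    (ENNReal.le_tsum (f := fun g => Fg W D etaf lamf ρ m g R p) 0).trans_lt hs.fail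
  unfold F0 at hF0
  rw [if_pos hs.risk, ← hx] at hF0
  have hcB : Ai D (ρ R x) (cB D (ρ R x)) p < 1 :=
    lt_of_le_of_lt (le_self_add.trans (le_self_add.trans le_self_add)) hF0
  have hcM : Ai D (ρ R x) (cM W D etaf (ρ R x)) p < 1 :=
    lt_of_le_of_lt (le_add_self.trans (le_self_add.trans le_self_add)) hF0
  have hlam : ENNReal.ofReal (lamf R) ≠ 0 := by
    rw [ne_eq, ENNReal.ofReal_eq_zero, not_le]
    exact Real.rpow_pos_of_pos hs.pos _
  have hcH : Ai D (ρ R x) (cH x R (m R x)) p ≤ ENNReal.ofReal (lamf R) := by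
    have h1 : Ai D (ρ R x) (cH x R (m R x)) p / ENNReal.ofReal (lamf R) < 1 :=
      lt_of_le_of_lt (le_add_self.trans le_self_add) hF0
    rw [ENNReal.div_lt_iff (Or.inl hlam) (Or.inl ENNReal.ofReal_ne_top), one_mul] at h1
    exact h1.le
  have hcW : Ai D (ρ R x) (cW x R (ρ R x) (m R x)) p ≤ ENNReal.ofReal (lamf R) := by
    by_contra hcon
    have h1 : (if ENNReal.ofReal (lamf R) ≤ Ai D (ρ R x) (cW x R (ρ R x) (m R x)) p
      then (1:ℝ≥0∞) else 0) < 1 := lt_of_le_of_lt le_add_self hF0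
    rw [if_pos (not_le.1 hcon).le] at h1
    exact lt_irrefl _ h1
  -- good segments and lengths
  have hgood : ∀ J, (∀ i < J, exr (ρ R x) ((nxt (ρ R x))^[i] p) <
      TT D ((nxt (ρ R x))^[i] p)) → ∀ i < J,
      (nxt (ρ R x))^[i] p ∉ badSeg D (ρ R x (((nxt (ρ R x))^[i] p).1 0)) := by
    intro J hJ i hi hcon
    have h1 := cost_le_Ai (D := D) (ρ := ρ R x) (c := cB D (ρ R x)) i p
      (fun k hk => hJ k (by omega))
    have h2 : cB D (ρ R x) ((nxt (ρ R x))^[i] p) = 1 := by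
      unfold cB; rw [if_pos hcon]
    rw [h2] at h1
    exact absurd hcB (not_lt.2 h1)
  have hlen : ∀ J, (∀ i < J, exr (ρ R x) ((nxt (ρ R x))^[i] p) <
      TT D ((nxt (ρ R x))^[i] p)) →
      ∑ i ∈ Finset.range (J + 1), ENNReal.ofReal (ρ R x (((nxt (ρ R x))^[i] p).1 0)) ≤
        2 * ENNReal.ofReal (lamf R) := by
    intro J hJ
    calc ∑ i ∈ Finset.range (J + 1), ENNReal.ofReal (ρ R x (((nxt (ρ R x))^[i] p).1 0)) ≤
          ∑ i ∈ Finset.range (J + 1), (cW x R (ρ R x) (m R x) ((nxt (ρ R x))^[i] p) +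
            cH x R (m R x) ((nxt (ρ R x))^[i] p)) := by
          apply Finset.sum_le_sum
          intro i hi
          apply length_le hw
          exact iter_mem hw hxS i (fun k hk => hJ k (by
            have := Finset.mem_range.1 hi
            omega))
      _ = ∑ i ∈ Finset.range (J + 1), cW x R (ρ R x) (m R x) ((nxt (ρ R x))^[i] p) +
          ∑ i ∈ Finset.range (J + 1), cH x R (m R x) ((nxt (ρ R x))^[i] p) :=
          Finset.sum_add_distrib
      _ ≤ ENNReal.ofReal (lamf R) + ENNReal.ofReal (lamf R) :=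
          add_le_add ((sum_le_Ai J p hJ).trans hcW) ((sum_le_Ai J p hJ).trans hcH)
      _ = _ := (two_mul _).symm
  by_cases hall : ∀ j, exr (ρ R x) ((nxt (ρ R x))^[j] p) < TT D ((nxt (ρ R x))^[j] p)
  · -- the walk does not reach the limit time in finitely many steps
    left
    have htsum : ∑' j, ENNReal.ofReal (ρ R x (((nxt (ρ R x))^[j] p).1 0)) ≤
        2 * ENNReal.ofReal (lamf R) := by
      apply ENNReal.tsum_le_of_sum_range_le
      intro J
      refine le_trans ?_ (hlen J (fun i _ => hall i))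
      exact Finset.sum_le_sum_of_subset (Finset.range_subset_range.2 (Nat.le_succ J))
    have hsum : ∑' j, ENNReal.ofReal (ρ R x (((nxt (ρ R x))^[j] p).1 0)) ≠ ∞ :=
      ne_top_of_le_ne_top (ENNReal.mul_ne_top (by simp) ENNReal.ofReal_ne_top) htsum
    refine ⟨fun j => ((nxt (ρ R x))^[j] p).1 0,
      fun j => ENNReal.ofReal (ρ R x (((nxt (ρ R x))^[j] p).1 0)), rfl, ?_, hsum, ?_⟩
    · intro j
      have hmem := iter_mem hw hxS j (fun i _ => hall i)
      show Reach _ _ _ (((nxt (ρ R x))^[j + 1] p).1 0)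
      rw [Function.iterate_succ_apply', nxt_zero]
      exact reach_step (hw.pos hmem) hmem.1 (ne_top_of_lt (hall j))
        (hgood (j + 1) (fun i _ => hall i) j (Nat.lt_succ_self j))
    · exact zeno hn hW hN hw hx.symm (by rw [hx]; exact hs.start) hs.lu hs.fin hs.le_ext hall hsum
  · right
    push Not at hall
    obtain ⟨J, hJ1, hJ2⟩ : ∃ J, TT D ((nxt (ρ R x))^[J] p) ≤ exr (ρ R x) ((nxt (ρ R x))^[J] p) ∧
        ∀ i < J, exr (ρ R x) ((nxt (ρ R x))^[i] p) < TT D ((nxt (ρ R x))^[i] p) := by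
      refine ⟨Nat.find hall, Nat.find_spec hall, fun i hi => ?_⟩
      exact not_le.1 (Nat.find_min hall hi)
    set q := (nxt (ρ R x))^[J] p with hq
    have hmem := iter_mem hw hxS J hJ2
    rw [← hq] at hmem
    obtain ⟨hfin, hpos⟩ := TT_iter (ρ := ρ R x) hD ha hs.fin J hJ2
    rw [← hq] at hfin hpos
    have hrpos := hw.pos hmem
    have hrle := hw.le_dist hmem
    have hd : 0 ≤ dist (q.1 0) x := dist_nonneg
    refine ⟨ρ R x (q.1 0), q, ?_, by linarith, ?_, hpos⟩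
    · refine ⟨hrpos, by linarith [hs.le_one, hs.pos], hmem.1, hfin, hJ1, ?_, ?_, ?_⟩
      · -- the risk of the window is not small
        by_contra hcon
        have h1 := cost_le_Ai (D := D) (ρ := ρ R x) (c := cM W D etaf (ρ R x)) J p hJ2
        rw [← hq] at h1
        have h2 : cM W D etaf (ρ R x) q = 1 := by
          unfold cM
          rw [if_pos ⟨hJ1, not_le.1 hcon⟩]
        rw [h2] at h1
        exact absurd hcM (not_lt.2 h1)
      · -- later generations
        refine lt_of_le_of_lt ?_ hs.fail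
        have h1 : ∀ g, Fg W D etaf lamf ρ m g (ρ R x (q.1 0)) q ≤
            Fg W D etaf lamf ρ m (g + 1) R p := by
          intro g
          have h2 := cost_le_Ai (D := D) (ρ := ρ R x)
            (c := fun r => Fg W D etaf lamf ρ m g (ρ R x (r.1 0)) r) J p hJ2
          rw [← hq] at h2
          exact h2
        calc ∑' g, Fg W D etaf lamf ρ m g (ρ R x (q.1 0)) q ≤
              ∑' g, Fg W D etaf lamf ρ m (g + 1) R p := ENNReal.tsum_le_tsum h1
          _ ≤ ∑' g, Fg W D etaf lamf ρ m g R p := by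
              rw [tsum_eq_zero_add' (f := fun g => Fg W D etaf lamf ρ m g R p) ENNReal.summable]
              exact le_add_self
      · intro a
        exact iter_lu (hs.lu a) J
    · refine (reach_iter hw hxS J hJ2 (hgood J hJ2)).mono ?_
      refine le_trans ?_ (hlen J hJ2)
      exact Finset.sum_le_sum_of_subset (Finset.range_subset_range.2 (Nat.le_succ J))

lemma dist_le_of_le_ext {R : ℝ} (hR : 0 < R) {p : Pth E} (hT : TT D p ≠ ∞)
    (h : TT D p ≤ ext R p) : dist (p.1 (TT D p).toNNReal) (p.1 0) ≤ R := by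
  rcases h.lt_or_eq with h1 | h1
  · apply (dist_lt_of_lt_ext _).le
    rw [ENNReal.coe_toNNReal hT]
    exact h1
  · rw [h1]
    exact (dist_ext hR (by rw [← h1]; exact hT)).le

lemma lamf_le {R R0 : ℝ} (hR : 0 ≤ R) {n : ℕ} (h : R ≤ R0 / 16 ^ n) (hR0 : 0 ≤ R0) :
    lamf R ≤ lamf R0 * (1 / 4) ^ n := by
  unfold lamf
  calc R ^ (1 / 2 : ℝ) ≤ (R0 / 16 ^ n) ^ (1 / 2 : ℝ) := Real.rpow_le_rpow hR h (by norm_num)
    _ = R0 ^ (1 / 2 : ℝ) / (16 ^ n) ^ (1 / 2 : ℝ) := Real.div_rpow hR0 (by positivity) _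
    _ = R0 ^ (1 / 2 : ℝ) * (1 / 4) ^ n := by
        have h1 : ((16 : ℝ) ^ n) ^ (1 / 2 : ℝ) = 4 ^ n := by
          rw [← Real.sqrt_eq_rpow]
          rw [show (16 : ℝ) ^ n = (4 ^ n) ^ 2 by rw [← pow_mul, mul_comm, pow_mul]; norm_num]
          exact Real.sqrt_sq (by positivity)
        rw [h1, one_div_pow]
        ring

theorem accFrom_of_st (hn : 3 ≤ finrank ℝ E) (hW : IsWiener W) (hN : Nest W D)
    (hwalk : ∀ R, 0 < R → ∀ x, Walk W D x R (ε R) (δ R) (ρ R x) (m R x)) {R : ℝ} {p : Pth E}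
    (hs : St W D ρ m R p) : AccFrom (Vs D) (p.1 0) (p.1 (TT D p).toNNReal) := by
  by_contra hcon
  set w := p.1 (TT D p).toNNReal with hw
  -- the type of non accessible states
  let Q := {s : ℝ × Pth E // St W D ρ m s.1 s.2 ∧ s.2.1 (TT D s.2).toNNReal = w ∧
    ¬ AccFrom (Vs D) (s.2.1 0) w}
  have hstep : ∀ s : Q, ∃ s' : Q, s'.1.1 ≤ s.1.1 / 16 ∧
      Reach (Vs D) (2 * ENNReal.ofReal (lamf s.1.1)) (s.1.2.1 0) (s'.1.2.1 0) := by
    rintro ⟨⟨R, p⟩, h1, h2, h3⟩
    rcases gen_step hn hW hN hwalk h1 with h4 | ⟨R', q, h4, h5, h6, h7⟩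
    · rw [h2] at h4
      exact absurd h4 h3
    · refine ⟨⟨⟨R', q⟩, h4, h7.trans h2, fun h8 => h3 ?_⟩, h5, h6⟩
      exact AccFrom.cons h6 (ENNReal.mul_ne_top (by simp) ENNReal.ofReal_ne_top) h8
  choose nx hnx1 hnx2 using hstep
  let s0 : Q := ⟨⟨R, p⟩, hs, rfl, hcon⟩
  let s : ℕ → Q := fun n => nx^[n] s0
  have hsucc : ∀ n, s (n + 1) = nx (s n) := fun n => Function.iterate_succ_apply' nx n s0
  have hRn : ∀ n, (s n).1.1 ≤ R / 16 ^ n := by
    intro n
    induction n with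
    | zero => simp only [pow_zero, div_one]; exact le_rfl
    | succ n ih =>
      rw [hsucc]
      calc (nx (s n)).1.1 ≤ (s n).1.1 / 16 := hnx1 _
        _ ≤ (R / 16 ^ n) / 16 := by gcongr
        _ = R / 16 ^ (n + 1) := by rw [div_div, pow_succ]
  apply hcon
  refine ⟨fun n => (s n).1.2.1 0, fun n => 2 * ENNReal.ofReal (lamf (s n).1.1), rfl, ?_, ?_, ?_⟩
  · intro n
    show Reach _ _ _ ((s (n + 1)).1.2.1 0)
    rw [hsucc]
    exact hnx2 _
  · have h1 : ∀ n, 2 * ENNReal.ofReal (lamf (s n).1.1) ≤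
        2 * (ENNReal.ofReal (lamf R) * (ENNReal.ofReal (1 / 4)) ^ n) := by
      intro n
      gcongr
      have hl : 0 ≤ lamf R := Real.rpow_nonneg hs.pos.le _
      rw [← ENNReal.ofReal_pow (by norm_num), ← ENNReal.ofReal_mul hl]
      exact ENNReal.ofReal_le_ofReal (lamf_le (s n).2.1.pos.le (hRn n) hs.pos.le)
    apply ne_top_of_le_ne_top _ (ENNReal.tsum_le_tsum h1)
    rw [ENNReal.tsum_mul_left, ENNReal.tsum_mul_left, ENNReal.tsum_geometric]
    apply ENNReal.mul_ne_top (by simp)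
    apply ENNReal.mul_ne_top ENNReal.ofReal_ne_top
    apply ENNReal.inv_ne_top.2
    apply (tsub_pos_of_lt _).ne'
    rw [ENNReal.ofReal_lt_one]
    norm_num
  · rw [tendsto_iff_dist_tendsto_zero]
    have hz : Tendsto (fun n : ℕ => R / 16 ^ n) atTop (𝓝 0) := by
      have := tendsto_pow_atTop_nhds_zero_of_lt_one (r := (1/16 : ℝ)) (by norm_num) (by norm_num)
      have h2 := this.const_mul R
      rw [mul_zero] at h2
      refine h2.congr fun n => ?_
      rw [one_div_pow]; ring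
    refine squeeze_zero (fun n => dist_nonneg) (fun n => ?_) hz
    have h1 := (s n).2.1
    have h2 := dist_le_of_le_ext h1.pos h1.fin h1.le_ext
    rw [(s n).2.2.1, dist_comm] at h2
    exact h2.trans (hRn n)

end

end Pool.Agent.Lib.P07dee5
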