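import Mathlib
import Pool.Agent.Lib.P07dee5.Iter

/-! # Accessibility of the exit point from a bounded set -/

open MeasureTheory Set Filter Topology ProbabilityTheory Module
open scoped ENNReal NNReal

set_option linter.unusedSectionVars false
set_option linter.unusedVariables false

namespace Pool.Agent.Lib.P07dee5

open Limited

variable {E : Type*} [NormedAddCommGroup E] [InnerProductSpace ℝ E] [FiniteDimensional ℝ E]
  [MeasurableSpace E] [BorelSpace E] {W : Measure (Pth E)}

/-! ### the walk with constant radius -/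

section

variable {D : ℕ → Set E}

/-- iterates of a walk are shifted paths -/
lemma iter_shift (hD : ∀ k, IsOpen (D k)) (ha : Antitone D) {ρ : E → ℝ} {p : Pth E}
    (h : ∀ j, exr ρ ((nxt ρ)^[j] p) < TT D ((nxt ρ)^[j] p)) :
    ∃ τ : ℕ → ℝ≥0, Monotone τ ∧ (∀ j, (nxt ρ)^[j] p = shift (τ j) p) ∧
      ∀ j, TT D p = τ j + TT D ((nxt ρ)^[j] p) := by
  refine ⟨fun j => ∑ i ∈ Finset.range j, (exr ρ ((nxt ρ)^[i] p)).toNNReal, ?_, ?_, ?_⟩
  · intro i j hij
    exact Finset.sum_le_sum_of_subset (Finset.range_subset_range.2 hij)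
  · intro j
    induction j with
    | zero =>
      apply pth_ext
      intro t
      simp
    | succ j ih =>
      rw [Function.iterate_succ_apply']
      simp only [Finset.sum_range_succ] at ih ⊢
      apply pth_ext
      intro t
      show ((nxt ρ)^[j] p).1 ((exr ρ ((nxt ρ)^[j] p)).toNNReal + t) = _
      conv_lhs => rw [ih]
      rw [shift_apply, shift_apply, ← ih, add_assoc]
  · intro j
    induction j with
    | zero => simp
    | succ j ih =>
      have h1 := TT_nxt hD ha (h j)
      have hne : exr ρ ((nxt ρ)^[j] p) ≠ ∞ := ne_top_of_lt (h j)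
      rw [Function.iterate_succ_apply']
      simp only [Finset.sum_range_succ] at ih ⊢
      rw [ih, h1, ENNReal.coe_add, ENNReal.coe_toNNReal hne, add_assoc]

/-- the walk with constant radius reaches the limit time after finitely many steps -/
lemma const_walk_stops (hD : ∀ k, IsOpen (D k)) (ha : Antitone D) {R : ℝ} (hR : 0 < R) {p : Pth E}
    (hT : TT D p ≠ ∞) :
    ∃ J, TT D ((nxt (fun _ => R))^[J] p) ≤ ext R ((nxt (fun _ => R))^[J] p) ∧
      ∀ i < J, ext R ((nxt (fun _ => R))^[i] p) < TT D ((nxt (fun _ => R))^[i] p) := by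
  classical
  by_cases hall : ∀ j, exr (fun _ => R) ((nxt (fun _ => R))^[j] p) <
      TT D ((nxt (fun _ => R))^[j] p)
  · exfalso
    obtain ⟨τ, hτ, hs, hTT⟩ := iter_shift hD ha hall
    have hbdd : BddAbove (range τ) := by
      refine ⟨(TT D p).toNNReal, ?_⟩
      rintro _ ⟨j, rfl⟩
      rw [← ENNReal.coe_le_coe, ENNReal.coe_toNNReal hT, hTT j]
      exact le_self_add
    have hlim := tendsto_atTop_ciSup hτ hbdd
    have hpos : Tendsto (fun j => p.1 (τ j)) atTop (𝓝 (p.1 (⨆ j, τ j))) :=
      (p.2.tendsto _).comp hlim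
    have h0 : ∀ j, ((nxt (fun _ => R))^[j] p).1 0 = p.1 (τ j) := by
      intro j
      rw [hs j, shift_apply, add_zero]
    have hd : ∀ j, dist (p.1 (τ (j + 1))) (p.1 (τ j)) = R := by
      intro j
      rw [← h0, ← h0, Function.iterate_succ_apply', nxt_zero]
      exact dist_stp (ρ := fun _ => R) hR (ne_top_of_lt (hall j))
    have h1 : Tendsto (fun j => dist (p.1 (τ (j + 1))) (p.1 (τ j))) atTop (𝓝 0) := by
      have := (hpos.comp (tendsto_add_atTop_nat 1)).dist hpos
      rw [dist_self] at this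
      exact this
    simp only [hd] at h1
    exact hR.ne' (tendsto_nhds_unique tendsto_const_nhds h1)
  · push Not at hall
    refine ⟨Nat.find hall, Nat.find_spec hall, fun i hi => ?_⟩
    exact not_le.1 (Nat.find_min hall hi)

lemma iter_mem_Vs {R : ℝ} (hR : 0 < R) {p : Pth E} (hp : p.1 0 ∈ Vs D) (J : ℕ)
    (h : ∀ i < J, ext R ((nxt (fun _ => R))^[i] p) < TT D ((nxt (fun _ => R))^[i] p)) :
    ((nxt (fun _ => R))^[J] p).1 0 ∈ Vs D := by
  cases J with
  | zero => exact hp
  | succ J =>
    have h1 := h J (Nat.lt_succ_self J)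
    rw [Function.iterate_succ_apply', nxt_zero]
    set q := (nxt (fun _ : E => R))^[J] p with hq
    have hne : ext R q ≠ ∞ := ne_top_of_lt h1
    show q.1 (ext R q).toNNReal ∈ Vs D
    apply mem_Vs_of_lt
    · exact ENNReal.toNNReal_pos (ext_pos hR q).ne' hne
    · rw [ENNReal.coe_toNNReal hne]; exact h1

end

/-! ### the initial cost -/

section

variable {D : ℕ → Set E} {ρ : ℝ → E → E → ℝ} {m : ℝ → E → E → ℕ} {ε δ : ℝ → ℝ}

/-- cost of the walk with constant radius -/
noncomputable def c0 (W : Measure (Pth E)) (D : ℕ → Set E) (ρ : ℝ → E → E → ℝ)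
    (m : ℝ → E → E → ℕ) (R : ℝ) (p : Pth E) : ℝ≥0∞ :=
  cM W D etaf (fun _ => R) p + ∑' g, Fg W D etaf lamf ρ m g R p

lemma measurable_cMc (hW : IsWiener W) (hD : ∀ k, IsOpen (D k)) (R : ℝ) :
    Measurable (cM W D etaf (fun _ : E => R)) := by
  have h := measurable_cMQ hW hD measurable_etaf (ρ := fun R _ _ => R)
    (by fun_prop : Measurable (fun q : ℝ × E × E => q.1))
  exact measurable_sliceQ (c := fun R _ => cM W D etaf (fun _ : E => R)) h R 0

lemma measurable_Fg_slice (hW : IsWiener W) (hD : ∀ k, IsOpen (D k))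
    (hρ : Measurable (fun q : ℝ × E × E => ρ q.1 q.2.1 q.2.2))
    (hm : Measurable (fun q : ℝ × E × E => m q.1 q.2.1 q.2.2)) (g : ℕ) (R : ℝ) :
    Measurable (Fg W D etaf lamf ρ m g R) :=
  (measurable_Fg hW hD measurable_etaf measurable_lamf hρ hm g).comp measurable_prodMk_left

lemma measurable_c0 (hW : IsWiener W) (hD : ∀ k, IsOpen (D k))
    (hρ : Measurable (fun q : ℝ × E × E => ρ q.1 q.2.1 q.2.2))
    (hm : Measurable (fun q : ℝ × E × E => m q.1 q.2.1 q.2.2)) (R : ℝ) :
    Measurable (c0 W D ρ m R) :=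
  (measurable_cMc hW hD R).add (Measurable.tsum fun g => measurable_Fg_slice hW hD hρ hm g R)

lemma Ex_cMc_le (hW : IsWiener W) (hD : ∀ k, IsOpen (D k)) (R : ℝ) (y : E) :
    Ex W (cM W D etaf (fun _ => R)) y ≤ ENNReal.ofReal (etaf R) := by
  classical
  by_cases hs : phi W D R y < ENNReal.ofReal (etaf R)
  · refine le_trans ?_ hs.le
    rw [phi_eq_Ex hD]
    apply Ex_le_start hW
    intro q hq
    unfold cM exr
    by_cases hb : TT D q ≤ ext R q
    · rw [indicator_of_mem (by exact hb)]
      split_ifs <;> simp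
    · rw [if_neg (fun hh => hb hh.1)]; exact zero_le
  · have : Ex W (cM W D etaf (fun _ => R)) y = 0 := by
      apply Ex_zero_of hW
      intro q hq
      unfold cM
      rw [hq, if_neg (fun hh => hs hh.2)]
    rw [this]; exact zero_le

/-- sum of the bounds of the generations -/
noncomputable def bb (C a R : ℝ) : ℝ≥0∞ := ∑' g : ℕ, ENNReal.ofReal (C * (R / 16 ^ g) ^ a)

lemma Ex_tsum_Fg_le (hW : IsWiener W) (hD : ∀ k, IsOpen (D k))
    (hρ : Measurable (fun q : ℝ × E × E => ρ q.1 q.2.1 q.2.2))
    (hm : Measurable (fun q : ℝ × E × E => m q.1 q.2.1 q.2.2)) {C a R : ℝ} {x : E}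
    (hF : ∀ g, Ex W (Fg W D etaf lamf ρ m g R) x ≤
        ENNReal.ofReal (C * (R / 16 ^ g) ^ a) * phi W D R x) :
    Ex W (fun p => ∑' g, Fg W D etaf lamf ρ m g R p) x ≤ bb C a R * phi W D R x := by
  have h1 : Ex W (fun p => ∑' g, Fg W D etaf lamf ρ m g R p) x =
      ∑' g, Ex W (Fg W D etaf lamf ρ m g R) x := by
    unfold Ex
    exact lintegral_tsum (fun g => ((measurable_Fg_slice hW hD hρ hm g R).comp
      (measurable_tr x)).aemeasurable)
  rw [h1]
  unfold bb
  rw [← ENNReal.tsum_mul_right]
  exact ENNReal.tsum_le_tsum hF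

lemma phi_add_bef (hW : IsWiener W) (hD : ∀ k, IsOpen (D k)) (R : ℝ) (y : E) :
    phi W D R y + Ex W (bef D (exr (fun _ => R))) y = 1 := by
  have hm : MeasurableSet {p : Pth E | TT D p ≤ ext R p} :=
    measurableSet_le (measurable_TT hD) (measurable_ext _)
  rw [phi_eq_Ex hD, ← Ex_add (measurable_one.indicator hm), ← Ex_const hW 1 y]
  congr 1
  funext p
  by_cases h : TT D p ≤ ext R p
  · have h1 : bef D (exr (fun _ => R)) p = 0 := bef_of_not (not_lt.2 h)
    rw [indicator_of_mem (by exact h), h1, add_zero]; rfl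
  · have h1 : bef D (exr (fun _ => R)) p = 1 := bef_of_lt (not_le.1 h)
    rw [indicator_of_notMem (by exact h), h1, zero_add]

/-- expectation of the failure of the walk with constant radius -/
theorem Ex_Ai_c0_le (hn : 0 < finrank ℝ E) (hW : IsWiener W) (hN : Nest W D)
    (hρ : Measurable (fun q : ℝ × E × E => ρ q.1 q.2.1 q.2.2))
    (hm : Measurable (fun q : ℝ × E × E => m q.1 q.2.1 q.2.2)) {C a R M : ℝ} (hR : 0 < R)
    (hM : Vs D ⊆ Metric.ball 0 M)
    (hF : ∀ x ∈ Vs D, ∀ g, Ex W (Fg W D etaf lamf ρ m g R) x ≤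
        ENNReal.ofReal (C * (R / 16 ^ g) ^ a) * phi W D R x) {x : E} (hx : x ∈ Vs D) :
    Ex W (Ai D (fun _ => R) (c0 W D ρ m R)) x ≤
      ENNReal.ofReal (etaf R / R ^ 2) * ENNReal.ofReal ((M + R) ^ 2) + bb C a R := by
  have hD := hN.isOpen
  have hprob := hW.prob
  have hν := isSph_exl hW hn (r := 1) one_pos
  have hcm := measurable_c0 hW hD hρ hm R
  have hρc : Measurable (fun _ : E => R) := measurable_const
  apply Ex_Ai_le hW hD hρc hcm
  intro j
  have hMpos : 0 < M := by
    have := hM hx
    rw [Metric.mem_ball] at this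
    exact dist_nonneg.trans_lt this
  have key : ∀ y ∈ Vs D, Ex W (Af D (fun _ => R) (c0 W D ρ m R) j) y ≤
      ENNReal.ofReal (etaf R / R ^ 2) * ENNReal.ofReal ((M + R) ^ 2 - dist y 0 ^ 2) +
        bb C a R := by
    apply Af_le hW hD hρc hcm (S := Vs D)
    · intro p hp hlt
      have := iter_mem_Vs (D := D) hR hp 1 (by
        intro i hi
        have : i = 0 := by omega
        subst this
        exact hlt)
      rw [Function.iterate_one, nxt_zero] at this
      exact this
    · intro y hy
      have hyM : dist y 0 < M := hM hy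
      have hd : 0 ≤ dist y (0:E) := dist_nonneg
      have hq : Measurable (fun z : E => ENNReal.ofReal ((M + R) ^ 2 - dist z 0 ^ 2)) := by
        fun_prop
      have hbm : Measurable (bef D (exr (fun _ : E => R))) := measurable_bef hD (measurable_exr hρc)
      have hm1 : Measurable (fun p : Pth E => bef D (exr (fun _ => R)) p *
          ENNReal.ofReal ((M + R) ^ 2 - dist (stp (fun _ => R) p) 0 ^ 2)) :=
        hbm.mul (hq.comp (measurable_stp hρc))
      have e1 : Ex W (fun p => bef D (exr (fun _ => R)) p *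
          (ENNReal.ofReal (etaf R / R ^ 2) *
            ENNReal.ofReal ((M + R) ^ 2 - dist (stp (fun _ => R) p) 0 ^ 2) + bb C a R)) y =
          ENNReal.ofReal (etaf R / R ^ 2) * Ex W (fun p => bef D (exr (fun _ => R)) p *
            ENNReal.ofReal ((M + R) ^ 2 - dist (stp (fun _ => R) p) 0 ^ 2)) y +
          bb C a R * Ex W (bef D (exr (fun _ => R))) y := by
        rw [← Ex_const_mul _ hm1, ← Ex_const_mul _ hbm, ← Ex_add (hm1.const_mul _)]
        congr 1
        funext p
        ring
      rw [e1]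
      have h1 := Ex_bef_stp_le hW hn hν (D := D) (ρ := fun _ => R) (y := y) hR hq
      rw [hν.lintegral_quad hR.le (A := (M + R) ^ 2) (by gcongr)] at h1
      have h2 : Ex W (c0 W D ρ m R) y ≤ ENNReal.ofReal (etaf R) + bb C a R * phi W D R y := by
        unfold c0
        rw [Ex_add (measurable_cMc hW hD R)]
        exact add_le_add (Ex_cMc_le hW hD R y) (Ex_tsum_Fg_le hW hD hρ hm (hF y hy))
      calc Ex W (c0 W D ρ m R) y + (ENNReal.ofReal (etaf R / R ^ 2) *
            Ex W (fun p => bef D (exr (fun _ => R)) p *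
              ENNReal.ofReal ((M + R) ^ 2 - dist (stp (fun _ => R) p) 0 ^ 2)) y +
            bb C a R * Ex W (bef D (exr (fun _ => R))) y) ≤
            (ENNReal.ofReal (etaf R) + bb C a R * phi W D R y) +
            (ENNReal.ofReal (etaf R / R ^ 2) *
              ENNReal.ofReal ((M + R) ^ 2 - dist y 0 ^ 2 - R ^ 2) +
            bb C a R * Ex W (bef D (exr (fun _ => R))) y) := by gcongr
        _ = (ENNReal.ofReal (etaf R) + ENNReal.ofReal (etaf R / R ^ 2) *
              ENNReal.ofReal ((M + R) ^ 2 - dist y 0 ^ 2 - R ^ 2)) +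
            bb C a R * (phi W D R y + Ex W (bef D (exr (fun _ => R))) y) := by ring
        _ = ENNReal.ofReal (etaf R / R ^ 2) * ENNReal.ofReal ((M + R) ^ 2 - dist y 0 ^ 2) +
            bb C a R := by
            rw [phi_add_bef hW hD, mul_one]
            congr 1
            have hη := etaf_pos R
            have e2 : ENNReal.ofReal (etaf R) =
                ENNReal.ofReal (etaf R / R ^ 2) * ENNReal.ofReal (R ^ 2) := by
              rw [← ENNReal.ofReal_mul (by positivity)]
              congr 1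
              field_simp
            rw [e2, ← mul_add, ← ENNReal.ofReal_add (by positivity) (by nlinarith)]
            congr 2
            ring
  refine (key x hx).trans ?_
  gcongr
  nlinarith [sq_nonneg (dist x (0:E))]

end

end Pool.Agent.Lib.P07dee5
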