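import Mathlib
import Pool.Agent.Lib.P07dee5.AccessB

/-! # Accessibility of the exit point from a bounded set: end of the proof -/

open MeasureTheory Set Filter Topology ProbabilityTheory Module
open scoped ENNReal NNReal

set_option linter.unusedSectionVars false
set_option linter.unusedVariables false

namespace Pool.Agent.Lib.P07dee5

open Limited

variable {E : Type*} [NormedAddCommGroup E] [InnerProductSpace ℝ E] [FiniteDimensional ℝ E]
  [MeasurableSpace E] [BorelSpace E] {W : Measure (Pth E)}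

lemma etaf_div_le {R : ℝ} (hR : 0 < R) :
    etaf R / R ^ 2 ≤ (4 ^ 8 * 40320) * (16 * R) ^ (1 / 4 : ℝ) := by
  have h1 := etaf_le (R := 16 * R) (r := R) hR (by linarith)
  have hs : 0 < (16 * R) ^ (-(1 / 4 : ℝ)) := Real.rpow_pos_of_pos (by positivity) _
  set s := (16 * R) ^ (-(1 / 4 : ℝ)) with hs'
  have h2 : (16 * R) ^ (1 / 4 : ℝ) = s⁻¹ := by
    rw [hs', Real.rpow_neg (by positivity), inv_inv]
  have h3 : Real.exp (-(3 / 2) * s) ≤ s⁻¹ := by
    have h4 := Real.add_one_le_exp (3 / 2 * s)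
    have h5 : Real.exp (-(3 / 2) * s) = (Real.exp (3 / 2 * s))⁻¹ := by
      rw [← Real.exp_neg]; congr 1; ring
    rw [h5]
    apply inv_anti₀ hs
    linarith
  rw [div_le_iff₀ (by positivity), h2]
  refine h1.trans ?_
  gcongr

lemma bb_eq {C a R : ℝ} (hC : 0 ≤ C) (hR : 0 < R) :
    bb C a R = ENNReal.ofReal (C * R ^ a) * (1 - ENNReal.ofReal ((1 / 16 : ℝ) ^ a))⁻¹ := by
  unfold bb
  rw [← ENNReal.tsum_geometric, ← ENNReal.tsum_mul_left]
  congr 1
  funext g
  rw [← ENNReal.ofReal_pow (by positivity), ← ENNReal.ofReal_mul (by positivity)]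
  congr 1
  have h1 : R / 16 ^ g = R * (1 / 16) ^ g := by rw [one_div_pow]; ring
  rw [h1, Real.mul_rpow hR.le (by positivity), mul_assoc]
  congr 2
  rw [← Real.rpow_natCast, ← Real.rpow_natCast, ← Real.rpow_mul (by norm_num),
    ← Real.rpow_mul (by norm_num), mul_comm]

/-- the radii -/
noncomputable def Rn (n : ℕ) : ℝ := 1 / (n + 1)

lemma Rn_pos (n : ℕ) : 0 < Rn n := by unfold Rn; positivity

lemma Rn_le (n : ℕ) : Rn n ≤ 1 := by
  unfold Rn
  rw [div_le_one (by positivity)]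
  have : (0:ℝ) ≤ n := by positivity
  linarith

lemma tendsto_Rn : Tendsto Rn atTop (𝓝 0) := tendsto_one_div_add_atTop_nhds_zero_nat

lemma tendsto_bound {C a M : ℝ} (hC : 0 ≤ C) (ha : 0 < a) :
    Tendsto (fun n => ENNReal.ofReal (etaf (Rn n) / Rn n ^ 2) * ENNReal.ofReal ((M + Rn n) ^ 2) +
      bb C a (Rn n)) atTop (𝓝 0) := by
  have hq : ENNReal.ofReal ((1 / 16 : ℝ) ^ a) < 1 := by
    rw [ENNReal.ofReal_lt_one]
    exact Real.rpow_lt_one (by norm_num) (by norm_num) ha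
  have hK : (1 - ENNReal.ofReal ((1 / 16 : ℝ) ^ a))⁻¹ ≠ ∞ :=
    ENNReal.inv_ne_top.2 (tsub_pos_of_lt hq).ne'
  have h1 : Tendsto (fun n => ENNReal.ofReal ((4 ^ 8 * 40320) * (16 * Rn n) ^ (1 / 4 : ℝ)) *
      ENNReal.ofReal ((M + Rn n) ^ 2) +
      ENNReal.ofReal (C * Rn n ^ a) * (1 - ENNReal.ofReal ((1 / 16 : ℝ) ^ a))⁻¹) atTop (𝓝 0) := by
    have t1 : Tendsto (fun n => (4 ^ 8 * 40320) * (16 * Rn n) ^ (1 / 4 : ℝ)) atTop (𝓝 0) := by
      have h := ((tendsto_Rn.const_mul 16).rpow_const (p := (1 / 4 : ℝ))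
        (Or.inr (by norm_num))).const_mul (4 ^ 8 * 40320)
      rw [mul_zero, Real.zero_rpow (by norm_num), mul_zero] at h
      exact h
    have t2 : Tendsto (fun n => (M + Rn n) ^ 2) atTop (𝓝 ((M + 0) ^ 2)) :=
      (tendsto_Rn.const_add M).pow 2
    have t3 : Tendsto (fun n => C * Rn n ^ a) atTop (𝓝 0) := by
      have h := (tendsto_Rn.rpow_const (p := a) (Or.inr ha.le)).const_mul C
      rw [Real.zero_rpow ha.ne', mul_zero] at h
      exact h
    have e1 := (ENNReal.continuous_ofReal.tendsto _).comp t1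
    have e2 := (ENNReal.continuous_ofReal.tendsto _).comp t2
    have e3 := (ENNReal.continuous_ofReal.tendsto _).comp t3
    rw [ENNReal.ofReal_zero] at e1 e3
    have e4 := ENNReal.Tendsto.mul e1 (Or.inr ENNReal.ofReal_ne_top) e2 (Or.inr (by simp))
    have e5 := ENNReal.Tendsto.mul_const (b := (1 - ENNReal.ofReal ((1 / 16 : ℝ) ^ a))⁻¹) e3
      (Or.inr hK)
    have e6 := e4.add e5
    rw [zero_mul, zero_mul, zero_add] at e6
    exact e6
  refine tendsto_of_tendsto_of_tendsto_of_le_of_le tendsto_const_nhds h1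
    (fun _ => zero_le) (fun n => ?_)
  have hR := Rn_pos n
  show _ + _ ≤ _ + _
  rw [bb_eq hC hR]
  gcongr
  exact etaf_div_le hR

theorem access_bounded (hn : 3 ≤ finrank ℝ E) (hW : IsWiener W) {D : ℕ → Set E} (hN : Nest W D)
    {M : ℝ} (hM : Vs D ⊆ Metric.ball 0 M) :
    ∃ N : Set (Pth E), MeasurableSet N ∧ (∀ x ∈ Vs D, ∀ᵐ p ∂W, tr x p ∉ N) ∧
      ∀ p ∉ N, p.1 0 ∈ Vs D → TT D p ≠ ∞ → Acc (Vs D) (p.1 (TT D p).toNNReal) := by
  have hD := hN.isOpen
  have ha' := hN.anti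
  have hprob := hW.prob
  obtain ⟨ρ, m, ε, δ, C, a, hC, ha, hρ, hm, hwalk, hF⟩ := gen_bound hn hW hN
  have hc : ∀ R, Measurable (c0 W D ρ m R) := measurable_c0 hW hD hρ hm
  have hAm : ∀ R, Measurable (Ai D (fun _ : E => R) (c0 W D ρ m R)) := fun R =>
    Measurable.iSup fun j => measurable_Af hD measurable_const (hc R) j
  refine ⟨(⋂ n, {p | 1 ≤ Ai D (fun _ : E => Rn n) (c0 W D ρ m (Rn n)) p}) ∪
    ⋃ k : ℕ, NLu (ea W D (k + 1)), ?_, ?_, ?_⟩
  · apply MeasurableSet.union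
    · exact MeasurableSet.iInter fun n => measurableSet_le measurable_const (hAm _)
    · exact MeasurableSet.iUnion fun k => measurableSet_NLu (lsc_ea hW hD ha' _)
  · intro x hx
    have h1 : ∀ᵐ p ∂W, ∀ k : ℕ, tr x p ∉ NLu (ea W D (k + 1)) := by
      rw [ae_all_iff]
      intro k
      exact NLu_null hW (by positivity) (sMed_ea hW hD ha' _) (lsc_ea hW hD ha' _) x
    have h2 : ∀ᵐ p ∂W, tr x p ∉ ⋂ n, {p | 1 ≤ Ai D (fun _ : E => Rn n) (c0 W D ρ m (Rn n)) p} := by
      rw [ae_iff]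
      simp only [not_not]
      apply le_antisymm _ zero_le
      refine ge_of_tendsto (tendsto_bound (C := C) (a := a) (M := M) hC ha)
        (Eventually.of_forall fun n => ?_)
      have h3 := Ex_Ai_c0_le (by omega) hW hN hρ hm (C := C) (a := a) (Rn_pos n) hM
        (fun x hx g => hF g (Rn n) (Rn_pos n) (Rn_le n) x hx) hx
      refine le_trans ?_ h3
      have h4 : W {p | 1 ≤ Ai D (fun _ : E => Rn n) (c0 W D ρ m (Rn n)) (tr x p)} ≤
          Ex W (Ai D (fun _ : E => Rn n) (c0 W D ρ m (Rn n))) x := by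
        have h5 := mul_meas_ge_le_lintegral (μ := W) ((hAm (Rn n)).comp (measurable_tr x)) 1
        rw [one_mul] at h5
        exact h5
      refine le_trans (measure_mono ?_) h4
      intro p hp
      exact mem_iInter.1 hp n
    filter_upwards [h1, h2] with p hp1 hp2 hcon
    rcases hcon with hcon | hcon
    · exact hp2 hcon
    · obtain ⟨k, hk⟩ := mem_iUnion.1 hcon
      exact hp1 k hk
  · intro p hp hp0 hT
    rw [mem_union, not_or, mem_iInter, mem_iUnion] at hp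
    obtain ⟨hp1, hp2⟩ := hp
    push Not at hp1 hp2
    obtain ⟨n, hn1⟩ := hp1
    have hlt : Ai D (fun _ : E => Rn n) (c0 W D ρ m (Rn n)) p < 1 := not_le.1 hn1
    obtain ⟨J, hJ1, hJ2⟩ := const_walk_stops hD ha' (Rn_pos n) hT
    have hmem := iter_mem_Vs (Rn_pos n) hp0 J hJ2
    obtain ⟨hfin, hpos⟩ := TT_iter (ρ := fun _ => Rn n) hD ha' hT J hJ2
    have hcost := cost_le_Ai (D := D) (ρ := fun _ => Rn n) (c := c0 W D ρ m (Rn n)) J p hJ2
    set q := (nxt (fun _ : E => Rn n))^[J] p with hq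
    have hc1 : cM W D etaf (fun _ => Rn n) q + ∑' g, Fg W D etaf lamf ρ m g (Rn n) q < 1 :=
      hcost.trans_lt hlt
    rw [← hpos]
    apply AccFrom.acc
    apply accFrom_of_st hn hW hN hwalk (R := Rn n)
    refine ⟨Rn_pos n, Rn_le n, hmem, hfin, hJ1, ?_, lt_of_le_of_lt le_add_self hc1, ?_⟩
    · by_contra hcon
      have h2 : cM W D etaf (fun _ => Rn n) q = 1 := by
        unfold cM
        rw [if_pos ⟨hJ1, not_le.1 hcon⟩]
      rw [h2] at hc1
      exact absurd hc1 (not_lt.2 le_self_add)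
    · intro k
      exact iter_lu (lu_of_notMem (hp2 k)) J

end Pool.Agent.Lib.P07dee5
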