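import Mathlib
import Pool.Agent.Lib.P07dee5.Ident
import Pool.Agent.Lib.P07dee5.AccDef

/-! # Reduction of the accessibility statement to bounded nests -/

open MeasureTheory Set Filter Topology ProbabilityTheory Module
open scoped ENNReal NNReal RealInnerProductSpace

namespace Pool.Agent.Lib.P07dee5

variable {E : Type*} [NormedAddCommGroup E] [InnerProductSpace ℝ E] [FiniteDimensional ℝ E]
  [MeasurableSpace E] [BorelSpace E] {W : Measure (Pth E)}

/-- the accessibility statement for a nest -/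
def AccStmt (W : Measure (Pth E)) (D : ℕ → Set E) : Prop :=
  ∃ N : Set (Pth E), MeasurableSet N ∧ (∀ x ∈ Vs D, ∀ᵐ p ∂W, tr x p ∉ N) ∧
      ∀ p ∉ N, p.1 0 ∈ Vs D → TT D p ≠ ∞ → Acc (Vs D) (p.1 (TT D p).toNNReal)

/-- truncation of a nest to the ball of radius `M` -/
def truncD (D : ℕ → Set E) (M : ℕ) (k : ℕ) : Set E :=
  D k ∪ {y | (M : ℝ) - 1 / ((k : ℝ) + 1) < ‖y‖}

omit [InnerProductSpace ℝ E] [FiniteDimensional ℝ E] [MeasurableSpace E] [BorelSpace E] in
lemma notMem_truncD {D : ℕ → Set E} {M k : ℕ} {x : E} :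
    x ∉ truncD D M k ↔ x ∉ D k ∧ ‖x‖ ≤ (M : ℝ) - 1 / ((k : ℝ) + 1) := by
  unfold truncD
  rw [mem_union, not_or, mem_ofPred_eq, not_lt]

lemma truncD_nest (hW : IsWiener W) {D : ℕ → Set E} (hN : Nest W D) (M : ℕ) :
    Nest W (truncD D M) where
  isOpen := fun k => (hN.isOpen k).union (isOpen_lt continuous_const continuous_norm)
  anti := by
    intro k l hkl
    apply union_subset_union (hN.anti hkl)
    intro y hy
    simp only [mem_ofPred_eq] at hy ⊢
    refine lt_of_le_of_lt ?_ hy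
    have hkl' : (k : ℝ) ≤ l := by exact_mod_cast hkl
    have h1 : 1 / ((l : ℝ) + 1) ≤ 1 / ((k : ℝ) + 1) := by gcongr
    linarith
  reg := by
    intro k x hx
    rw [notMem_truncD] at hx
    filter_upwards [hN.reg k x hx.1, hW.zero] with p hp hp0
    have hlt : ‖x‖ < (M : ℝ) - 1 / (((k + 1 : ℕ) : ℝ) + 1) := by
      refine lt_of_le_of_lt hx.2 ?_
      have h1 : 1 / (((k + 1 : ℕ) : ℝ) + 1) < 1 / ((k : ℝ) + 1) := by
        apply one_div_lt_one_div_of_lt (by positivity)
        push_cast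
        linarith
      linarith
    -- the path stays in the ball for a while
    have hcont : Continuous (fun t : ℝ≥0 => ‖(tr x p).1 t‖) := (tr x p).2.norm
    have h0 : ‖(tr x p).1 0‖ < (M : ℝ) - 1 / (((k + 1 : ℕ) : ℝ) + 1) := by
      rw [tr_apply, hp0, add_zero]
      exact hlt
    have hev : ∀ᶠ t in 𝓝 (0 : ℝ≥0), ‖(tr x p).1 t‖ < (M : ℝ) - 1 / (((k + 1 : ℕ) : ℝ) + 1) :=
      hcont.continuousAt.eventually_lt continuousAt_const h0
    obtain ⟨δ, hδ, hδ2⟩ := Metric.eventually_nhds_iff.1 hev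
    have hδ' : (0 : ℝ≥0∞) < ENNReal.ofReal δ := by positivity
    refine lt_of_lt_of_le (lt_min hp hδ') ?_
    apply le_iInf₂
    rintro t ⟨ht0, ht⟩
    rcases ht with ht | ht
    · exact (min_le_left _ _).trans (hitO_le ht0 ht)
    · refine (min_le_right _ _).trans ?_
      by_contra hcon
      rw [not_le] at hcon
      have h2 : (t : ℝ) < δ := by
        rw [← ENNReal.ofReal_coe_nnreal] at hcon
        exact (ENNReal.ofReal_lt_ofReal_iff hδ).1 hcon
      have h3 := hδ2 (y := t) (by rw [NNReal.dist_eq]; simpa using h2)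
      exact absurd ht (not_lt.2 h3.le)

omit [InnerProductSpace ℝ E] [FiniteDimensional ℝ E] [MeasurableSpace E] [BorelSpace E] in
lemma Vs_truncD_subset {D : ℕ → Set E} {M : ℕ} : Vs (truncD D M) ⊆ Vs D := by
  rintro x ⟨k, hk⟩
  exact ⟨k, (notMem_truncD.1 hk).1⟩

omit [InnerProductSpace ℝ E] [FiniteDimensional ℝ E] [MeasurableSpace E] [BorelSpace E] in
lemma Vs_truncD_subset_ball {D : ℕ → Set E} {M : ℕ} :
    Vs (truncD D M) ⊆ Metric.ball 0 (M : ℝ) := by
  rintro x ⟨k, hk⟩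
  rw [mem_ball_zero_iff]
  have h1 := (notMem_truncD.1 hk).2
  have h2 : (0 : ℝ) < 1 / ((k : ℝ) + 1) := by positivity
  linarith

omit [InnerProductSpace ℝ E] [FiniteDimensional ℝ E] [MeasurableSpace E] [BorelSpace E] in
lemma mem_Vs_truncD {D : ℕ → Set E} {M : ℕ} {x : E} (hx : x ∈ Vs D)
    (hM : ‖x‖ ≤ (M : ℝ) - 1) : x ∈ Vs (truncD D M) := by
  obtain ⟨k, hk⟩ := hx
  refine ⟨k, notMem_truncD.2 ⟨hk, hM.trans ?_⟩⟩
  have h1 : 1 / ((k : ℝ) + 1) ≤ 1 := by
    rw [div_le_one (by positivity)]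
    linarith [Nat.cast_nonneg (α := ℝ) k]
  linarith

lemma TT_truncD {D : ℕ → Set E} {M : ℕ} {p : Pth E} (hT : TT D p ≠ ∞)
    (hM : ∀ s ≤ (TT D p).toNNReal, ‖p.1 s‖ ≤ (M : ℝ) - 1) : TT (truncD D M) p = TT D p := by
  unfold TT
  congr 1
  funext k
  apply le_antisymm (hitO_anti subset_union_left p)
  apply le_iInf₂
  rintro t ⟨ht0, ht⟩
  rcases ht with ht | ht
  · exact hitO_le ht0 ht
  · have h1 : (TT D p).toNNReal < t := by
      by_contra hcon
      have h2 := hM t (not_lt.1 hcon)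
      simp only [mem_ofPred_eq] at ht
      have h3 : 1 / ((k : ℝ) + 1) ≤ 1 := by
        rw [div_le_one (by positivity)]
        linarith [Nat.cast_nonneg (α := ℝ) k]
      linarith
    have h2 : hitO (D k) p ≤ TT D p := le_iSup (fun k => hitO (D k) p) k
    refine h2.trans ?_
    rw [← ENNReal.coe_toNNReal hT]
    exact_mod_cast h1.le

theorem accStmt_of_bounded (hW : IsWiener W) {D : ℕ → Set E} (hN : Nest W D)
    (hb : ∀ (D' : ℕ → Set E) (M : ℝ), Nest W D' → Vs D' ⊆ Metric.ball 0 M → AccStmt W D') :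
    AccStmt W D := by
  have h := fun M : ℕ => hb (truncD D M) M (truncD_nest hW hN M) Vs_truncD_subset_ball
  choose N hNm hN1 hN2 using h
  have hVm : ∀ M, MeasurableSet (Vs (truncD D M)) := fun M =>
    measurableSet_Vs (truncD_nest hW hN M).isOpen
  refine ⟨⋃ M, (N M ∩ {p | p.1 0 ∈ Vs (truncD D M)}), ?_, ?_, ?_⟩
  · exact MeasurableSet.iUnion fun M => (hNm M).inter (measurable_eval 0 (hVm M))
  · intro x _
    have h1 : ∀ᵐ p ∂W, ∀ M, tr x p ∉ N M ∩ {p | p.1 0 ∈ Vs (truncD D M)} := by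
      rw [ae_all_iff]
      intro M
      by_cases hx : x ∈ Vs (truncD D M)
      · filter_upwards [hN1 M x hx] with p hp hcon
        exact hp hcon.1
      · filter_upwards [hW.zero] with p hp hcon
        apply hx
        have := hcon.2
        simp only [mem_ofPred_eq, tr_apply, hp, add_zero] at this
        exact this
    filter_upwards [h1] with p hp hcon
    obtain ⟨M, hM⟩ := mem_iUnion.1 hcon
    exact hp M hM
  · intro p hp hp0 hT
    obtain ⟨C, hC⟩ := (isCompact_Icc (a := (0 : ℝ≥0)) (b := (TT D p).toNNReal)).exists_bound_of_continuousOn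
      p.2.continuousOn
    obtain ⟨M, hM⟩ := exists_nat_ge (C + 1)
    have hM' : ∀ s ≤ (TT D p).toNNReal, ‖p.1 s‖ ≤ (M : ℝ) - 1 := by
      intro s hs
      have := hC s ⟨zero_le, hs⟩
      linarith
    have hTT := TT_truncD hT hM'
    have hV : p.1 0 ∈ Vs (truncD D M) := mem_Vs_truncD hp0 (hM' 0 zero_le)
    have hpN : p ∉ N M := by
      intro hcon
      exact hp (mem_iUnion.2 ⟨M, hcon, hV⟩)
    have h3 := hN2 M p hpN hV (by rw [hTT]; exact hT)
    rw [hTT] at h3
    exact h3.mono Vs_truncD_subset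

end Pool.Agent.Lib.P07dee5
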