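import Mathlib
import Pool.Agent.Lib.P07dee5.AccessC
import Pool.Agent.Lib.P07dee5.Bounded

/-! # Accessibility of the exit point -/

open MeasureTheory Set Filter Topology ProbabilityTheory Module
open scoped ENNReal NNReal

namespace Pool.Agent.Lib.P07dee5

variable {E : Type*} [NormedAddCommGroup E] [InnerProductSpace ℝ E] [FiniteDimensional ℝ E]
  [MeasurableSpace E] [BorelSpace E] {W : Measure (Pth E)}

theorem access (hn : 3 ≤ finrank ℝ E) (hW : IsWiener W) {D : ℕ → Set E} (hN : Nest W D) :
    AccStmt W D :=
  accStmt_of_bounded hW hN fun _ _ hN' hM => access_bounded hn hW hN' hM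

end Pool.Agent.Lib.P07dee5
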