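import Mathlib
import Pool.Agent.Lib.P07dee5.Dens

/-! # The law of `n` independent Brownian motions is a Wiener measure -/

open MeasureTheory Set Filter Topology ProbabilityTheory Module
open scoped ENNReal NNReal RealInnerProductSpace

set_option linter.unusedSectionVars false

namespace Pool.Agent.Lib.P07dee5

section GP

variable {E : Type*} [NormedAddCommGroup E] [InnerProductSpace ℝ E] [FiniteDimensional ℝ E]
  [MeasurableSpace E] [BorelSpace E]

/-- centred Gaussian process with values in `E` and covariance `K s t ⟪x, y⟫` -/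
structure IsBM' {Ω : Type*} [MeasurableSpace Ω] (F : ℝ≥0 → Ω → E) (P : Measure Ω)
    (K : ℝ≥0 → ℝ≥0 → ℝ) : Prop where
  gauss : IsGaussianProcess F P
  mean : ∀ t x, ∫ ω, ⟪x, F t ω⟫ ∂P = 0
  cov : ∀ s t x y, cov[fun ω => ⟪x, F s ω⟫, fun ω => ⟪y, F t ω⟫; P] = K s t * ⟪x, y⟫

variable {Ω : Type*} [MeasurableSpace Ω] {P : Measure Ω} {Ω' : Type*} [MeasurableSpace Ω']
  {P' : Measure Ω'} {K : ℝ≥0 → ℝ≥0 → ℝ}

lemma memLp_inner {F : ℝ≥0 → Ω → E} (h : IsGaussianProcess F P) (t : ℝ≥0) (x : E) :
    MemLp (fun ω => ⟪x, F t ω⟫) 2 P :=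
  ((h.hasGaussianLaw_eval t).map_fun (innerSL ℝ x)).memLp_two

/-- mean and variance of a functional -/
lemma IsBM'.functional {F : ℝ≥0 → Ω → E} (h : IsBM' F P K) (I : Finset ℝ≥0)
    (L : StrongDual ℝ (I → E)) :
    ∫ ω, L (fun i => F i ω) ∂P = 0 ∧
    Var[fun ω => L (fun i => F i ω); P] =
      ∑ i : I, ∑ j : I, K i j * ⟪(InnerProductSpace.toDual ℝ E).symm (L ∘L .single ℝ (fun _ => E) i),
        (InnerProductSpace.toDual ℝ E).symm (L ∘L .single ℝ (fun _ => E) j)⟫ := by
  classical
  have := h.gauss.isProbabilityMeasure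
  have e : (fun ω => L (fun i => F i ω)) = fun ω => ∑ i : I,
      ⟪(InnerProductSpace.toDual ℝ E).symm (L ∘L .single ℝ (fun _ => E) i), F i ω⟫ := by
    funext ω
    rw [← L.sum_comp_single]
    simp
  rw [e]
  constructor
  · rw [integral_finsetSum]
    · exact Finset.sum_eq_zero fun i _ => h.mean i _
    · intro i _
      exact (memLp_inner h.gauss i _).integrable (by norm_num)
  · rw [← covariance_self, covariance_fun_sum_fun_sum]
    · exact Finset.sum_congr rfl fun i _ => Finset.sum_congr rfl fun j _ => h.cov _ _ _ _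
    · intro i
      exact memLp_inner h.gauss i _
    · intro i
      exact memLp_inner h.gauss i _
    · refine Finset.aemeasurable_fun_sum _ fun i _ => ?_
      exact (memLp_inner h.gauss i _).1.aemeasurable

lemma IsBM'.map_eq {F : Ω → Pth E} {G : Ω' → Pth E} (hF : Measurable F) (hG : Measurable G)
    (h : IsBM' (fun t ω => (F ω).1 t) P K) (h' : IsBM' (fun t ω => (G ω).1 t) P' K) :
    P.map F = P'.map G := by
  have i1 := h.gauss.isProbabilityMeasure
  have i2 := h'.gauss.isProbabilityMeasure
  apply measure_ext_fdd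
  intro I g
  have hm : Measurable (fun p : Pth E => fun i : I => p.1 i) :=
    measurable_pi_lambda _ fun i => measurable_eval _
  have hgm : Measurable (fun q : I → E => (g q : ℝ≥0∞)) :=
    g.continuous.measurable.coe_nnreal_ennreal
  have key : P.map (fun ω => fun i : I => (F ω).1 i) = P'.map (fun ω => fun i : I => (G ω).1 i) := by
    apply Measure.ext_of_charFunDual
    ext L
    have g1 := (h.gauss.hasGaussianLaw I).charFunDual_map_eq_fun L
    have g2 := (h'.gauss.hasGaussianLaw I).charFunDual_map_eq_fun L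
    have f1 := h.functional I L
    have f2 := h'.functional I L
    simp only [Finset.restrict_def] at g1 g2
    rw [g1, g2, f1.1, f1.2, f2.1, f2.2]
  have d1 := lintegral_map (μ := P) (hgm.comp hm) hF
  have d2 := lintegral_map (μ := P') (hgm.comp hm) hG
  have e1 := lintegral_map (μ := P) hgm (hm.comp hF)
  have e2 := lintegral_map (μ := P') hgm (hm.comp hG)
  simp only [Function.comp_def] at e1 e2 d1 d2
  rw [d1, d2, ← e1, ← e2, key]

lemma IsBM'.transfer {X : Ω → Pth E} (hX : Measurable X)
    (h : IsBM' (fun t ω => (X ω).1 t) P K) :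
    IsBM' (fun t (p : Pth E) => p.1 t) (P.map X) K where
  gauss := by
    constructor
    intro I
    constructor
    have := (h.gauss.hasGaussianLaw I).isGaussian_map
    rw [Measure.map_map _ hX]
    · exact this
    · exact measurable_pi_lambda _ fun i => measurable_eval _
  mean := by
    intro t x
    rw [integral_map hX.aemeasurable]
    · exact h.mean t x
    · exact ((measurable_const.inner (measurable_eval t))).aestronglyMeasurable
  cov := by
    intro s t x y
    rw [covariance_map_fun]
    · exact h.cov s t x y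
    · exact ((measurable_const.inner (measurable_eval s))).aestronglyMeasurable
    · exact ((measurable_const.inner (measurable_eval t))).aestronglyMeasurable
    · exact hX.aemeasurable

/-- covariance of linear combinations -/
lemma IsBM'.cov_sub {F : ℝ≥0 → Ω → E} (h : IsBM' F P K) (s s' t t' : ℝ≥0) (x y : E) :
    cov[fun ω => ⟪x, F s ω - F s' ω⟫, fun ω => ⟪y, F t ω - F t' ω⟫; P] =
      (K s t - K s t' - K s' t + K s' t') * ⟪x, y⟫ := by
  have := h.gauss.isProbabilityMeasure
  simp only [inner_sub_right]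
  rw [covariance_fun_sub_fun_sub (memLp_inner h.gauss _ _) (memLp_inner h.gauss _ _)
    (memLp_inner h.gauss _ _) (memLp_inner h.gauss _ _), h.cov, h.cov, h.cov, h.cov]
  ring

/-- increments between two times depending on a parameter -/
lemma IsBM'.incr {F : ℝ≥0 → Ω → E} (h : IsBM' F P K) {S : Type*} (a b : S → ℝ≥0) :
    IsGaussianProcess (fun (t : S) ω => F (a t) ω - F (b t) ω) P := by
  classical
  exact h.gauss.of_isGaussianProcess fun t ↦ ⟨{a t, b t},
    { toFun x := x ⟨a t, by simp⟩ - x ⟨b t, by simp⟩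
      map_add' x y := by simp; abel
      map_smul' c x := by simp; module },
    by simp⟩

/-- increments between two times depending on a parameter -/
lemma IsBM'.sub {F : ℝ≥0 → Ω → E} (h : IsBM' F P K) (a b : ℝ≥0 → ℝ≥0) {K' : ℝ≥0 → ℝ≥0 → ℝ}
    (hK : ∀ s t, K (a s) (a t) - K (a s) (b t) - K (b s) (a t) + K (b s) (b t) = K' s t) :
    IsBM' (fun t ω => F (a t) ω - F (b t) ω) P K' where
  gauss := h.incr a b
  mean := by
    intro t x
    have := h.gauss.isProbabilityMeasure
    simp only [inner_sub_right]
    rw [integral_sub ((memLp_inner h.gauss _ _).integrable (by norm_num))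
      ((memLp_inner h.gauss _ _).integrable (by norm_num)), h.mean, h.mean, sub_zero]
  cov := by
    intro s t x y
    rw [h.cov_sub, hK]

lemma IsBM'.comp_right {F : ℝ≥0 → Ω → E} (h : IsBM' F P K) (a : ℝ≥0 → ℝ≥0)
    {K' : ℝ≥0 → ℝ≥0 → ℝ} (hK : ∀ s t, K (a s) (a t) = K' s t) :
    IsBM' (fun t ω => F (a t) ω) P K' where
  gauss := h.gauss.comp_right a
  mean := fun t x => h.mean _ _
  cov := by
    intro s t x y
    rw [h.cov, hK]

lemma IsBM'.smul {F : ℝ≥0 → Ω → E} (h : IsBM' F P K) (c : ℝ)
    {K' : ℝ≥0 → ℝ≥0 → ℝ} (hK : ∀ s t, c ^ 2 * K s t = K' s t) :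
    IsBM' (fun t ω => c • F t ω) P K' where
  gauss := h.gauss.smul fun _ => c
  mean := by
    intro t x
    simp only [inner_smul_right]
    rw [integral_const_mul, h.mean, mul_zero]
  cov := by
    intro s t x y
    simp only [inner_smul_right]
    rw [covariance_const_mul_left, covariance_const_mul_right, h.cov, ← hK]
    ring

lemma IsBM'.rot {F : ℝ≥0 → Ω → E} (h : IsBM' F P K) (Q : E ≃ₗᵢ[ℝ] E) :
    IsBM' (fun t ω => Q (F t ω)) P K := by
  have e : ∀ (x z : E), ⟪x, Q z⟫ = ⟪Q.symm x, z⟫ := by
    intro x z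
    rw [← Q.inner_map_map (Q.symm x) z, Q.apply_symm_apply]
  constructor
  · exact h.gauss.comp_left fun _ => (Q : E →L[ℝ] E)
  · intro t x
    simp only [e]
    exact h.mean _ _
  · intro s t x y
    simp only [e]
    rw [h.cov, ← e, Q.apply_symm_apply]

lemma IsBM'.law {F : ℝ≥0 → Ω → E} (h : IsBM' F P K) (hK : ∀ t : ℝ≥0, K t t = t) (t : ℝ≥0) :
    P.map (F t) = (stdGaussian E).map (fun z => (NNReal.sqrt t : ℝ) • z) := by
  have := h.gauss.isProbabilityMeasure
  have hg := h.gauss.hasGaussianLaw_eval t
  have hm := hg.aemeasurable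
  have i1 : IsProbabilityMeasure (P.map (F t)) := Measure.isProbabilityMeasure_map hm
  have i2 : IsProbabilityMeasure ((stdGaussian E).map (fun z => (NNReal.sqrt t : ℝ) • z)) :=
    Measure.isProbabilityMeasure_map (by fun_prop)
  apply Measure.ext_of_charFun
  ext ξ
  have hv : Var[fun ω => ⟪ξ, F t ω⟫; P] = t * ‖ξ‖ ^ 2 := by
    rw [← covariance_self (memLp_inner h.gauss t ξ).1.aemeasurable, h.cov, hK,
      real_inner_self_eq_norm_sq]
  rw [charFun_scaled, hg.charFun_map_eq, h.mean, hv]
  congr 1
  push_cast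
  ring

theorem isWiener_of_isBM' {W : Measure (Pth E)}
    (h : IsBM' (fun t (p : Pth E) => p.1 t) W (fun s t => ((min s t : ℝ≥0) : ℝ))) :
    IsWiener W := by
  have hprob := h.gauss.isProbabilityMeasure
  have hlaw := h.law (by simp)
  have hid : W.map id = W := Measure.map_id
  refine ⟨hprob, ?_, hlaw, ?_, ?_, ?_, ?_, ?_⟩
  · have h0 := hlaw 0
    have h1 : (fun z : E => (NNReal.sqrt 0 : ℝ) • z) = fun _ => 0 := by
      funext z; simp
    rw [h1, Measure.map_const] at h0
    simp only [measure_univ, one_smul] at h0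
    have h2 : ∀ᵐ y ∂(W.map fun p : Pth E => p.1 0), y = 0 := by
      rw [h0, ae_dirac_iff (measurableSet_eq)]
    exact ae_of_ae_map (measurable_eval 0).aemeasurable h2
  · intro s
    have hind : IndepFun (fun (p : Pth E) t => p.1 (min t s))
        (fun (p : Pth E) t => p.1 (s + t) - p.1 s) W := by
      apply IsGaussianProcess.indepFun_of_covariance_inner (X := fun t (p : Pth E) => p.1 (min t s))
        (Y := fun t (p : Pth E) => p.1 (s + t) - p.1 s)
      · classical
        apply h.gauss.of_isGaussianProcess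
        rintro (t | t)
        · exact ⟨{min t s},
            { toFun x := x ⟨min t s, by simp⟩
              map_add' x y := by simp
              map_smul' c x := by simp }, by simp⟩
        · exact ⟨{s + t, s},
            { toFun x := x ⟨s + t, by simp⟩ - x ⟨s, by simp⟩
              map_add' x y := by simp; abel
              map_smul' c x := by simp; module }, by simp⟩
      · exact fun t => (measurable_eval _).aemeasurable
      · exact fun t => ((measurable_eval _).sub (measurable_eval _)).aemeasurable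
      · intro u t x y
        simp only [inner_sub_right]
        rw [covariance_fun_sub_right (memLp_inner h.gauss _ _) (memLp_inner h.gauss _ _)
          (memLp_inner h.gauss _ _), h.cov, h.cov]
        have e1 : min (min u s) (s + t) = min u s :=
          min_eq_left ((min_le_right _ _).trans le_self_add)
        have e2 : min (min u s) s = min u s := min_eq_left (min_le_right _ _)
        rw [e1, e2]
        ring
    rw [IndepFun_iff] at hind ⊢
    intro t1 t2 h1 h2
    apply hind
    · obtain ⟨A, ⟨B, hB, rfl⟩, rfl⟩ := h1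
      exact ⟨B, hB, rfl⟩
    · obtain ⟨A, ⟨B, hB, rfl⟩, rfl⟩ := h2
      exact ⟨B, hB, rfl⟩
  · intro s
    conv_rhs => rw [← hid]
    refine IsBM'.map_eq (measurable_inc s) measurable_id
      (K := fun s t => ((min s t : ℝ≥0) : ℝ)) ?_ h
    have := h.sub (fun t => s + t) (fun t => s) (K' := fun s t => ((min s t : ℝ≥0) : ℝ)) ?_
    · simpa using this
    · intro a b
      have e1 : min (s + a) (s + b) = s + min a b := (add_min _ _ _).symm
      have e2 : min (s + a) s = s := min_eq_right le_self_add
      have e3 : min s (s + b) = s := min_eq_left le_self_add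
      simp only [e1, e2, e3, min_self]
      push_cast
      ring
  · intro Q
    conv_rhs => rw [← hid]
    exact IsBM'.map_eq (measurable_mapQ Q) measurable_id (h.rot Q) h
  · intro c hc
    conv_rhs => rw [← hid]
    refine IsBM'.map_eq (measurable_sc c) measurable_id
      (K := fun s t => ((min s t : ℝ≥0) : ℝ)) ?_ h
    have h1 := h.comp_right (fun t => t / c ^ 2)
      (K' := fun s t => ((min s t : ℝ≥0) : ℝ) / c ^ 2) ?_
    · have h2 := h1.smul (c : ℝ) (K' := fun s t => ((min s t : ℝ≥0) : ℝ)) ?_
      · simpa using h2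
      · intro s t
        have : (c : ℝ) ≠ 0 := by exact_mod_cast hc
        field_simp
    · intro s t
      have : min (s / c ^ 2) (t / c ^ 2) = min s t / c ^ 2 := by
        rcases le_total s t with hst | hst
        · rw [min_eq_left hst, min_eq_left (div_le_div_of_nonneg_right hst (by positivity))]
        · rw [min_eq_right hst, min_eq_right (div_le_div_of_nonneg_right hst (by positivity))]
      simp only [this]
      push_cast
      ring
  · have h1 := h.sub (fun t => 1 - min t 1) (fun t => 1)
      (K' := fun s t => ((min (min s 1) (min t 1) : ℝ≥0) : ℝ)) ?_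
    · have h2 := h.comp_right (fun t => min t 1)
        (K' := fun s t => ((min (min s 1) (min t 1) : ℝ≥0) : ℝ)) (fun _ _ => rfl)
      exact IsBM'.map_eq ((measurable_stop 1).comp measurable_rev) (measurable_stop 1) h1 h2
    · intro s t
      have k1 : min s 1 ≤ 1 := min_le_right _ _
      have k2 : min t 1 ≤ 1 := min_le_right _ _
      have e1 : min (1 - min s 1) 1 = 1 - min s 1 := min_eq_left tsub_le_self
      have e2 : min 1 (1 - min t 1) = 1 - min t 1 := min_eq_right tsub_le_self
      have e3 : min (1 - min s 1) (1 - min t 1) = 1 - max (min s 1) (min t 1) := by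
        rcases le_total (min s 1) (min t 1) with hst | hst
        · rw [max_eq_right hst, min_eq_right (tsub_le_tsub_left hst _)]
        · rw [max_eq_left hst, min_eq_left (tsub_le_tsub_left hst _)]
      simp only [e1, e2, e3, min_self]
      rw [NNReal.coe_sub (max_le k1 k2), NNReal.coe_sub k1, NNReal.coe_sub k2, NNReal.coe_max,
        NNReal.coe_min (min s 1) (min t 1)]
      have := min_add_max ((min s 1 : ℝ≥0) : ℝ) ((min t 1 : ℝ≥0) : ℝ)
      push_cast at this ⊢
      linarith

end GP

section

variable {Ω : Type*} [MeasurableSpace Ω] {P : Measure Ω}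

/-- independent real Brownian motions are jointly Gaussian -/
lemma bm_gauss [IsProbabilityMeasure P] {n : ℕ} {B : Fin n → ℝ≥0 → Ω → ℝ}
    (hB : ∀ i, IsPreBrownianReal (B i) P)
    (hind : iIndepFun (fun i ω t => B i t ω) P) :
    IsGaussianProcess (fun (q : Fin n × ℝ≥0) ω => B q.1 q.2 ω) P := by
  classical
  constructor
  intro I
  set J : Finset ℝ≥0 := I.image Prod.snd with hJ
  have h1 : iIndepFun (fun (i : Fin n) ω => J.restrict (fun t => B i t ω)) P := by
    have := hind.comp (fun _ f => J.restrict f) (fun _ => by fun_prop)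
    exact this
  have h2 : ∀ i : Fin n, HasGaussianLaw (fun ω => J.restrict (fun t => B i t ω)) P := fun i =>
    (hB i).isGaussianProcess.hasGaussianLaw J
  have h3 := iIndepFun.hasGaussianLaw h2 h1
  let L : (Fin n → J → ℝ) →L[ℝ] (I → ℝ) :=
    { toFun x q := x q.1.1 ⟨q.1.2, Finset.mem_image_of_mem _ q.2⟩
      map_add' x y := by ext; simp
      map_smul' c x := by ext; simp }
  exact h3.map_fun L

lemma bm_cov [IsProbabilityMeasure P] {n : ℕ} {B : Fin n → ℝ≥0 → Ω → ℝ}
    (hB : ∀ i, IsPreBrownianReal (B i) P)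
    (hind : iIndepFun (fun i ω t => B i t ω) P) (i j : Fin n) (s t : ℝ≥0) :
    cov[fun ω => B i s ω, fun ω => B j t ω; P] = if i = j then ((min s t : ℝ≥0) : ℝ) else 0 := by
  split_ifs with h
  · subst h
    rw [(hB i).covariance_fun_eval]
  · apply IndepFun.covariance_eq_zero
    · exact (hind.indepFun h).comp (φ := fun f : ℝ≥0 → ℝ => f s) (ψ := fun f : ℝ≥0 → ℝ => f t)
        (by fun_prop) (by fun_prop)
    · exact ((hB i).isGaussianProcess.hasGaussianLaw_eval s).memLp_two
    · exact ((hB j).isGaussianProcess.hasGaussianLaw_eval t).memLp_two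

lemma isBM'_bm [IsProbabilityMeasure P] {n : ℕ} {B : Fin n → ℝ≥0 → Ω → ℝ}
    (hB : ∀ i, IsPreBrownianReal (B i) P)
    (hind : iIndepFun (fun i ω t => B i t ω) P) :
    IsBM' (fun t ω => WithLp.toLp 2 (fun i => B i t ω) : ℝ≥0 → Ω → EuclideanSpace ℝ (Fin n)) P
      (fun s t => ((min s t : ℝ≥0) : ℝ)) := by
  have hL : ∀ i t, MemLp (fun ω => B i t ω) 2 P := fun i t =>
    ((hB i).isGaussianProcess.hasGaussianLaw_eval t).memLp_two
  have e : ∀ (x : EuclideanSpace ℝ (Fin n)) (t : ℝ≥0) (ω : Ω),
      ⟪x, (WithLp.toLp 2 (fun i => B i t ω) : EuclideanSpace ℝ (Fin n))⟫ =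
        ∑ i, x i * B i t ω := by
    intro x t ω
    simp [PiLp.inner_apply, mul_comm]
  constructor
  · classical
    apply (bm_gauss hB hind).of_isGaussianProcess
    intro t
    let L0 : ((Finset.univ.image (fun i : Fin n => (i, t))) → ℝ) →L[ℝ] (Fin n → ℝ) :=
      { toFun x i := x ⟨(i, t), by simp⟩
        map_add' x y := by ext; simp
        map_smul' c x := by ext; simp }
    refine ⟨Finset.univ.image (fun i : Fin n => (i, t)),
      ((EuclideanSpace.equiv (Fin n) ℝ).symm : (Fin n → ℝ) →L[ℝ] EuclideanSpace ℝ (Fin n)) ∘L L0,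
      fun ω => ?_⟩
    rfl
  · intro t x
    simp only [e]
    rw [integral_finsetSum]
    · apply Finset.sum_eq_zero
      intro i _
      rw [integral_const_mul, (hB i).integral_eval, mul_zero]
    · intro i _
      exact ((hL i t).integrable (by norm_num)).const_mul _
  · intro s t x y
    simp only [e]
    rw [covariance_fun_sum_fun_sum (fun i => (hL i s).const_mul _) (fun i => (hL i t).const_mul _)]
    simp only [covariance_const_mul_left, covariance_const_mul_right, bm_cov hB hind]
    simp [PiLp.inner_apply, Finset.mul_sum]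
    apply Finset.sum_congr rfl
    intro i _
    ring

set_option linter.unusedVariables false in
theorem isWiener_bm {Ω : Type*} [MeasurableSpace Ω] {P : Measure Ω} [IsProbabilityMeasure P]
    {n : ℕ} {B : Fin n → ℝ≥0 → Ω → ℝ} (hB : ∀ i, IsBrownianReal (B i) P)
    (hmeas : ∀ i t, Measurable (B i t))
    (hind : iIndepFun (fun i ω t => B i t ω) P) (X : Ω → Pth (EuclideanSpace ℝ (Fin n)))
    (hX : Measurable X) (hXB : ∀ᵐ ω ∂P, ∀ t i, (X ω).1 t i = B i t ω) :
    IsWiener (P.map X) := by
  apply isWiener_of_isBM'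
  apply IsBM'.transfer hX
  have h := isBM'_bm (fun i => (hB i).toIsPreBrownianReal) hind
  have hae : ∀ t, (fun ω => (WithLp.toLp 2 (fun i => B i t ω) : EuclideanSpace ℝ (Fin n)))
      =ᵐ[P] fun ω => (X ω).1 t := by
    intro t
    filter_upwards [hXB] with ω hω
    ext i
    simp [hω]
  constructor
  · exact h.gauss.congr hae
  · intro t x
    rw [← h.mean t x]
    apply integral_congr_ae
    filter_upwards [hae t] with ω hω
    rw [hω]
  · intro s t x y
    rw [← h.cov s t x y]
    have m1 : ∫ ω, ⟪x, (X ω).1 s⟫ ∂P =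
        ∫ ω, ⟪x, (WithLp.toLp 2 (fun i => B i s ω) : EuclideanSpace ℝ (Fin n))⟫ ∂P := by
      apply integral_congr_ae
      filter_upwards [hae s] with ω hω
      rw [hω]
    have m2 : ∫ ω, ⟪y, (X ω).1 t⟫ ∂P =
        ∫ ω, ⟪y, (WithLp.toLp 2 (fun i => B i t ω) : EuclideanSpace ℝ (Fin n))⟫ ∂P := by
      apply integral_congr_ae
      filter_upwards [hae t] with ω hω
      rw [hω]
    unfold covariance
    rw [m1, m2]
    apply integral_congr_ae
    filter_upwards [hae s, hae t] with ω hω hω'
    rw [hω, hω']

end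

end Pool.Agent.Lib.P07dee5
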