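import Mathlib
import Pool.Agent.Lib.P07dee5.Ident
import Pool.Agent.Lib.P07dee5.AccDef

open MeasureTheory Set Filter Topology ProbabilityTheory Module
open scoped ENNReal NNReal RealInnerProductSpace

namespace Pool.Agent.Lib.P07dee5

variable {E : Type*} [NormedAddCommGroup E] [InnerProductSpace ℝ E] [FiniteDimensional ℝ E]
  [MeasurableSpace E] [BorelSpace E] {W : Measure (Pth E)}

/-- the core theorem on path space, from the accessibility statement for nests -/
theorem core_of_access (hW : IsWiener W)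
    (access : ∀ {D : ℕ → Set E}, Nest W D →
      ∃ N : Set (Pth E), MeasurableSet N ∧ (∀ x ∈ Vs D, ∀ᵐ p ∂W, tr x p ∉ N) ∧
        ∀ p ∉ N, p.1 0 ∈ Vs D → TT D p ≠ ∞ → Acc (Vs D) (p.1 (TT D p).toNNReal)) {U : Set E}
    (hU : ∀ x ∈ U, ∃ f : E → ℝ≥0∞, FineFn W f ∧ f x < 1 ∧ ∀ y, f y < 1 → y ∈ U) :
    ∃ T : Pth E → ℝ≥0∞, Measurable T ∧ ∀ a ∈ U, ∀ᵐ p ∂W, hitO Uᶜ (tr a p) = T (tr a p) ∧
      (T (tr a p) ≠ ∞ → (tr a p).1 (T (tr a p)).toNNReal ∉ U ∧
        Acc U ((tr a p).1 (T (tr a p)).toNNReal)) := by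
  obtain ⟨D, hN, hsub, hD⟩ := ident hW hU
  obtain ⟨N, hNm, hNae, hacc⟩ := access hN
  refine ⟨T' D, measurable_T' hN.isOpen hN.anti, ?_⟩
  intro a ha
  filter_upwards [hD a ha, ae_T' hW hN hNm hNae a] with p hp1 hp2
  obtain ⟨h0, h1⟩ := hp1
  set q := tr a p with hq
  refine ⟨?_, ?_⟩
  · apply le_antisymm
    · by_cases htop : T' D q = ∞
      · rw [htop]; exact le_top
      · have h2 := h1 htop
        have h3 : 0 < (T' D q).toNNReal := ENNReal.toNNReal_pos h0.ne' htop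
        have h4 := hitO_le (D := Uᶜ) (p := q) h3 h2
        rwa [ENNReal.coe_toNNReal htop] at h4
    · apply le_iInf₂
      intro t ht
      by_contra hcon
      rw [not_le] at hcon
      exact ht.2 (hsub (mem_Vs_of_lt_T' ht.1 hcon))
  · intro htop
    refine ⟨h1 htop, ?_⟩
    obtain ⟨n, hn⟩ : ∃ n : ℕ, ((1 / (n + 1) : ℝ≥0) : ℝ≥0∞) < T' D q := by
      have h3 : 0 < (T' D q).toNNReal := ENNReal.toNNReal_pos h0.ne' htop
      obtain ⟨n, hn⟩ := exists_nat_one_div_lt (K := ℝ) (show (0:ℝ) < (T' D q).toNNReal by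
        exact_mod_cast h3)
      refine ⟨n, ?_⟩
      rw [← ENNReal.coe_toNNReal htop, ENNReal.coe_lt_coe, ← NNReal.coe_lt_coe]
      push_cast; exact hn
    set s : ℝ≥0 := 1 / (n + 1) with hs
    have hspos : 0 < s := by positivity
    have h2 : shift s q ∉ N := hp2 n hn
    have h3 : (shift s q).1 0 ∈ Vs D := by
      rw [shift_apply, add_zero]
      exact mem_Vs_of_lt_T' hspos hn
    have h4 : 0 < TT D (shift s q) := pos_TT_shift hN.isOpen hN.anti hspos hn
    have h5 : T' D q = s + TT D (shift s q) := by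
      rw [T'_shift hN.isOpen hN.anti hn, T'_eq_TT hN.isOpen hN.anti h4]
    have h6 : TT D (shift s q) ≠ ∞ := by
      intro hcon
      rw [hcon, add_top] at h5
      exact htop h5
    have h7 := hacc _ h2 h3 h6
    have h8 : (T' D q).toNNReal = s + (TT D (shift s q)).toNNReal := by
      rw [h5, ENNReal.toNNReal_add ENNReal.coe_ne_top h6, ENNReal.toNNReal_coe]
    rw [h8]
    rw [shift_apply] at h7
    exact h7.mono hsub

end Pool.Agent.Lib.P07dee5
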