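import Mathlib
import Pool.Agent.Lib.P07dee5.Exc
import Pool.Agent.Lib.P07dee5.Newton

/-! # Bump functions: truncated resolvent potentials -/

open MeasureTheory Set Filter Topology ProbabilityTheory Module Metric
open scoped ENNReal NNReal RealInnerProductSpace

set_option linter.unusedSectionVars false

namespace Pool.Agent.Lib.P07dee5

/-- integrals of lower semicontinuous functions are lower semicontinuous in the parameter -/
lemma lsc_lintegral {α X : Type*} [MeasurableSpace α] {μ : Measure α} [PseudoMetricSpace X]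
    {F : X → α → ℝ≥0∞} (hm : ∀ x, Measurable (F x))
    (hl : ∀ a, LowerSemicontinuous (fun x => F x a)) :
    LowerSemicontinuous (fun x => ∫⁻ a, F x a ∂μ) := by
  intro x c hc
  by_contra hcon
  rw [not_eventually] at hcon
  obtain ⟨y, hy, hyc⟩ := exists_seq_forall_of_frequently hcon
  have h1 : ∫⁻ a, F x a ∂μ ≤ ∫⁻ a, liminf (fun k => F (y k) a) atTop ∂μ := by
    apply lintegral_mono
    intro a
    have h2 := (hl a).le_liminf x
    refine h2.trans ?_
    have h3 : liminf (fun x => F x a) (𝓝 x) ≤ liminf (fun x => F x a) (map y atTop) :=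
      liminf_le_liminf_of_le hy (by isBoundedDefault) (by isBoundedDefault)
    exact h3
  have h2 := h1.trans (lintegral_liminf_le fun k => hm (y k))
  have h3 : liminf (fun k => ∫⁻ a, F (y k) a ∂μ) atTop ≤ c := by
    apply liminf_le_of_le (by isBoundedDefault)
    intro b hb
    obtain ⟨m, hm⟩ := hb.exists
    exact hm.trans (not_lt.1 (hyc m))
  exact absurd hc (not_lt.2 (h2.trans h3))

variable {E : Type*} [NormedAddCommGroup E] [InnerProductSpace ℝ E] [FiniteDimensional ℝ E]
  [MeasurableSpace E] [BorelSpace E] {W : Measure (Pth E)}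

/-- discounted occupation time -/
noncomputable def pot1 (B : Set E) (p : Pth E) : ℝ≥0∞ :=
  ∫⁻ t in Ioi (0:ℝ), ENNReal.ofReal (Real.exp (-t)) * B.indicator (fun _ => 1) (p.1 t.toNNReal)

/-- discounted kernel -/
noncomputable def Gk (w : E) : ℝ≥0∞ :=
  ∫⁻ t in Ioi (0:ℝ), ENNReal.ofReal (Real.exp (-t)) * ENNReal.ofReal (gk t w)

lemma measurable_pot1 {B : Set E} (hB : MeasurableSet B) : Measurable (pot1 B) := by
  unfold pot1
  apply Measurable.lintegral_prod_right'
    (f := fun q : Pth E × ℝ => ENNReal.ofReal (Real.exp (-q.2)) *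
      B.indicator (fun _ => (1:ℝ≥0∞)) (q.1.1 q.2.toNNReal))
  apply Measurable.mul (by fun_prop)
  exact (measurable_const.indicator hB).comp (Measurable.eval (measurable_snd.real_toNNReal)
    measurable_fst)

lemma lsc_pot1 {B : Set E} (hB : IsOpen B) : LowerSemicontinuous (Ex W (pot1 B)) := by
  apply lsc_lintegral
  · intro x
    exact (measurable_pot1 hB.measurableSet).comp (measurable_tr x)
  · intro p
    apply lsc_lintegral
    · intro x
      apply Measurable.mul (by fun_prop)
      exact (measurable_const.indicator hB.measurableSet).comp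
        (Measurable.eval measurable_real_toNNReal measurable_const)
    · intro t
      have h1 : (fun x : E => ENNReal.ofReal (Real.exp (-t)) *
          B.indicator (fun _ => (1:ℝ≥0∞)) ((tr x p).1 t.toNNReal)) =
          {x : E | x + p.1 t.toNNReal ∈ B}.indicator (fun _ => ENNReal.ofReal (Real.exp (-t))) := by
        funext x
        by_cases hx : x + p.1 t.toNNReal ∈ B
        · rw [indicator_of_mem (by exact hx), indicator_of_mem (by exact hx), mul_one]
        · rw [indicator_of_notMem (by exact hx), indicator_of_notMem (by exact hx), mul_zero]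
      rw [h1]
      exact (hB.preimage (by fun_prop)).lowerSemicontinuous_indicator (zero_le)

lemma Ex_pot1 (hW : IsWiener W) {B : Set E} (hB : MeasurableSet B) (y : E) :
    Ex W (pot1 B) y = ∫⁻ z in B, Gk (z - y) := by
  have hprob := hW.prob
  have hBm : Measurable (B.indicator (fun _ => (1:ℝ≥0∞))) := measurable_const.indicator hB
  have h1 : Ex W (pot1 B) y = ∫⁻ t in Ioi (0:ℝ), ENNReal.ofReal (Real.exp (-t)) *
      Ex W (fun p => B.indicator (fun _ => 1) (p.1 t.toNNReal)) y := by
    unfold Ex pot1
    rw [lintegral_lintegral_swap]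
    · apply lintegral_congr
      intro t
      rw [lintegral_const_mul]
      exact hBm.comp ((measurable_eval _).comp (measurable_tr y))
    · apply Measurable.aemeasurable
      apply Measurable.mul (by fun_prop)
      exact hBm.comp (Measurable.eval (measurable_snd.real_toNNReal)
        ((measurable_tr y).comp measurable_fst))
  have h2 : ∀ t ∈ Ioi (0:ℝ), ENNReal.ofReal (Real.exp (-t)) *
      Ex W (fun p => B.indicator (fun _ => 1) (p.1 t.toNNReal)) y =
      ∫⁻ z, ENNReal.ofReal (Real.exp (-t)) *
        (ENNReal.ofReal (gk t (z - y)) * B.indicator (fun _ => 1) z) := by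
    intro t ht
    rw [mem_Ioi] at ht
    rw [Ex_eval hW (Real.toNNReal_pos.2 ht) hBm y, Real.coe_toNNReal t ht.le, lintegral_const_mul]
    exact ((continuous_gk t).measurable.comp (measurable_id.sub_const y)).ennreal_ofReal.mul hBm
  rw [h1, setLIntegral_congr_fun measurableSet_Ioi h2, lintegral_lintegral_swap,
    ← lintegral_indicator hB]
  · apply lintegral_congr
    intro z
    unfold Gk
    by_cases hz : z ∈ B
    · simp only [indicator_of_mem hz, mul_one]
    · simp [indicator_of_notMem hz]
  · apply Measurable.aemeasurable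
    apply Measurable.mul (by fun_prop)
    apply Measurable.mul
    · exact (measurable_gk2.comp (measurable_fst.prodMk
        (measurable_snd.sub measurable_const))).ennreal_ofReal
    · exact hBm.comp measurable_snd

lemma measurable_Gk : Measurable (Gk (E := E)) := by
  unfold Gk
  apply Measurable.lintegral_prod_right' (f := fun q : E × ℝ => ENNReal.ofReal (Real.exp (-q.2)) *
    ENNReal.ofReal (gk q.2 q.1))
  exact (by fun_prop : Measurable fun q : E × ℝ => ENNReal.ofReal (Real.exp (-q.2))).mul
    (measurable_gk2.comp measurable_swap).ennreal_ofReal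

lemma lintegral_exp : ∫⁻ t in Ioi (0:ℝ), ENNReal.ofReal (Real.exp (-t)) = 1 := by
  rw [← ofReal_integral_eq_lintegral_ofReal (integrableOn_exp_neg_Ioi 0)
    (Eventually.of_forall fun t => (Real.exp_pos _).le), integral_exp_neg_Ioi_zero]
  simp

lemma lintegral_Gk : ∫⁻ w : E, Gk w = 1 := by
  unfold Gk
  rw [lintegral_lintegral_swap]
  · have h1 : ∀ t ∈ Ioi (0:ℝ), ∫⁻ w : E, ENNReal.ofReal (Real.exp (-t)) * ENNReal.ofReal (gk t w) =
        ENNReal.ofReal (Real.exp (-t)) := by
      intro t ht
      rw [lintegral_const_mul _ (continuous_gk t).measurable.ennreal_ofReal,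
        lintegral_gk (by exact ht), mul_one]
    rw [setLIntegral_congr_fun measurableSet_Ioi h1, lintegral_exp]
  · apply Measurable.aemeasurable
    exact (by fun_prop : Measurable fun q : E × ℝ => ENNReal.ofReal (Real.exp (-q.2))).mul
      (measurable_gk2.comp measurable_swap).ennreal_ofReal

/-- total mass of the potential of a set -/
lemma lintegral_pot1 (hW : IsWiener W) {B : Set E} (hB : MeasurableSet B) :
    ∫⁻ y, Ex W (pot1 B) y = volume B := by
  simp_rw [Ex_pot1 hW hB]
  rw [lintegral_lintegral_swap]
  · have h1 : ∀ z : E, ∫⁻ y, Gk (z - y) = 1 := by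
      intro z
      rw [lintegral_sub_left_eq_self (μ := volume) (fun y => Gk y) z, lintegral_Gk]
    simp_rw [h1]
    simp
  · apply Measurable.aemeasurable
    exact measurable_Gk.comp (measurable_snd.sub measurable_fst)

/-- the potential is supermedian -/
lemma smed_pot1 (hW : IsWiener W) {B : Set E} (hB : MeasurableSet B) :
    SMed W 1 (Ex W (pot1 B)) where
  meas := measurable_Ex hW (measurable_pot1 hB)
  sup := by
    intro s x
    have h1 := markov hW s (G := fun _ => 1) measurable_const (measurable_pot1 hB) x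
    simp only [one_mul] at h1
    have h1' : Ex W (fun p => Ex W (pot1 B) (p.1 s)) x = Ex W (fun p => pot1 B (shift s p)) x :=
      h1.symm
    rw [h1', ← Ex_const_mul _ (F := fun p => pot1 B (shift s p))
      ((measurable_pot1 hB).comp (measurable_shift s))]
    apply Ex_mono
    intro p
    unfold pot1
    rw [← lintegral_const_mul']
    · have h2 : ∀ t ∈ Ioi (0:ℝ), dsc 1 s * (ENNReal.ofReal (Real.exp (-t)) *
          B.indicator (fun _ => 1) ((shift s p).1 t.toNNReal)) =
          ENNReal.ofReal (Real.exp (-((s:ℝ) + t))) *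
            B.indicator (fun _ => 1) (p.1 ((s:ℝ) + t).toNNReal) := by
        intro t ht
        rw [mem_Ioi] at ht
        rw [shift_apply, Real.toNNReal_add (NNReal.coe_nonneg s) ht.le, Real.toNNReal_coe,
          dsc_coe, ← mul_assoc, ← ENNReal.ofReal_mul (Real.exp_pos _).le, ← Real.exp_add]
        congr 3
        push_cast
        ring
      rw [setLIntegral_congr_fun measurableSet_Ioi h2, ← lintegral_indicator measurableSet_Ioi,
        ← lintegral_indicator measurableSet_Ioi]
      conv_rhs =>
        rw [← lintegral_add_left_eq_self (μ := volume) ((Ioi (0:ℝ)).indicator _) (s:ℝ)]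
      apply lintegral_mono
      intro t
      simp only
      by_cases ht : 0 < t
      · have hm0 : t ∈ Ioi (0:ℝ) := ht
        have hm1 : (s:ℝ) + t ∈ Ioi (0:ℝ) := by
          rw [mem_Ioi]; have := NNReal.coe_nonneg s; linarith
        rw [indicator_of_mem hm0, indicator_of_mem hm1]
      · rw [indicator_of_notMem (by exact ht)]
        exact zero_le
    · exact dsc_ne_top _ _

/-- upper bound for the kernel away from `0` -/
lemma Gk_le {w : E} (hw : 1 / 4 ≤ ‖w‖) :
    Gk w ≤ ENNReal.ofReal ((finrank ℝ E).factorial * 32 ^ (finrank ℝ E) + 1) := by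
  set n := finrank ℝ E with hn
  have key : ∀ t ∈ Ioi (0:ℝ), gk t w ≤ n.factorial * 32 ^ n + 1 := by
    intro t ht
    rw [mem_Ioi] at ht
    have hbase : ∀ s : ℝ, 0 < s → (2 * Real.pi * s) ^ (-(n : ℝ) / 2) ≤ s ^ (-(n : ℝ) / 2) := by
      intro s hs
      apply Real.rpow_le_rpow_of_nonpos hs
      · nlinarith [Real.pi_gt_three]
      · have : (0:ℝ) ≤ n := by positivity
        linarith
    have hexp : Real.exp (-‖w‖ ^ 2 / (2 * t)) ≤ 1 := by
      rw [Real.exp_le_one_iff]
      apply div_nonpos_of_nonpos_of_nonneg _ (by positivity)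
      have : 0 ≤ ‖w‖ ^ 2 := by positivity
      linarith
    unfold gk
    rcases le_or_gt t 1 with h1 | h1
    · have h2 : Real.exp (-‖w‖ ^ 2 / (2 * t)) ≤ n.factorial * (32 * t) ^ n := by
        have h3 := Real.pow_div_factorial_le_exp (1 / (32 * t)) (by positivity) n
        have h4 : -‖w‖ ^ 2 / (2 * t) ≤ -(1 / (32 * t)) := by
          rw [neg_div, neg_le_neg_iff, div_le_div_iff₀ (by positivity) (by positivity)]
          have hw2 : 1 / 16 ≤ ‖w‖ ^ 2 := by nlinarith
          nlinarith
        have hpos : 0 < (1 / (32 * t)) ^ n / n.factorial := by positivity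
        calc Real.exp (-‖w‖ ^ 2 / (2 * t)) ≤ Real.exp (-(1 / (32 * t))) := Real.exp_le_exp.2 h4
          _ = (Real.exp (1 / (32 * t)))⁻¹ := Real.exp_neg _
          _ ≤ ((1 / (32 * t)) ^ n / n.factorial)⁻¹ := by gcongr
          _ = n.factorial * (32 * t) ^ n := by
            rw [inv_div, div_pow, one_pow, div_div_eq_mul_div, div_one]
      calc (2 * Real.pi * t) ^ (-(n : ℝ) / 2) * Real.exp (-‖w‖ ^ 2 / (2 * t)) ≤
            t ^ (-(n : ℝ) / 2) * (n.factorial * (32 * t) ^ n) :=
            mul_le_mul (hbase t ht) h2 (Real.exp_pos _).le (by positivity)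
        _ = n.factorial * 32 ^ n * (t ^ (-(n : ℝ) / 2) * t ^ n) := by rw [mul_pow]; ring
        _ = n.factorial * 32 ^ n * t ^ ((n : ℝ) / 2) := by
            rw [← Real.rpow_natCast t n, ← Real.rpow_add ht]
            congr 2; ring
        _ ≤ n.factorial * 32 ^ n * 1 := by
            gcongr
            exact Real.rpow_le_one ht.le h1 (by positivity)
        _ ≤ n.factorial * 32 ^ n + 1 := by linarith
    · calc (2 * Real.pi * t) ^ (-(n : ℝ) / 2) * Real.exp (-‖w‖ ^ 2 / (2 * t)) ≤
            t ^ (-(n : ℝ) / 2) * 1 :=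
            mul_le_mul (hbase t ht) hexp (Real.exp_pos _).le (by positivity)
        _ ≤ 1 * 1 := by
            gcongr
            apply Real.rpow_le_one_of_one_le_of_nonpos h1.le
            have : (0:ℝ) ≤ n := by positivity
            linarith
        _ ≤ n.factorial * 32 ^ n + 1 := by
            have : (0:ℝ) ≤ n.factorial * 32 ^ n := by positivity
            linarith
  unfold Gk
  calc ∫⁻ t in Ioi (0:ℝ), ENNReal.ofReal (Real.exp (-t)) * ENNReal.ofReal (gk t w) ≤
        ∫⁻ t in Ioi (0:ℝ), ENNReal.ofReal (Real.exp (-t)) *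
          ENNReal.ofReal (n.factorial * 32 ^ n + 1) := by
        apply setLIntegral_mono (by fun_prop)
        intro t ht
        gcongr
        exact key t ht
    _ = ENNReal.ofReal (n.factorial * 32 ^ n + 1) := by
        rw [lintegral_mul_const _ (by fun_prop), lintegral_exp, one_mul]

/-- lower bound for the kernel near `0` -/
lemma le_Gk (hn : 2 ≤ finrank ℝ E) {w : E} {ρ : ℝ} (hρ : 0 < ρ) (hρ1 : ρ ≤ 1) (hw : ‖w‖ ≤ ρ) :
    ENNReal.ofReal ((2 * Real.pi) ^ (-(finrank ℝ E : ℝ) / 2) * Real.exp (-2) *
      Real.log (1 / ρ ^ 2)) ≤ Gk w := by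
  set n := finrank ℝ E with hndef
  have hn' : (2:ℝ) ≤ n := by exact_mod_cast hn
  set c := (2 * Real.pi) ^ (-(n : ℝ) / 2) * Real.exp (-2) with hc
  have hc0 : 0 ≤ c := by positivity
  have hρ2 : ρ ^ 2 ≤ 1 := by nlinarith
  have hρ0 : 0 < ρ ^ 2 := by positivity
  have hint : IntegrableOn (fun t : ℝ => 1 / t) (Ioc (ρ ^ 2) 1) := by
    have := intervalIntegral.intervalIntegrable_one_div (a := ρ ^ 2) (b := 1) (f := fun t : ℝ => t)
      (μ := volume) (by
        intro t ht
        rw [uIcc_of_le hρ2] at ht
        exact (hρ0.trans_le ht.1).ne') (by fun_prop)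
    exact this.1
  have h1 : ENNReal.ofReal (c * Real.log (1 / ρ ^ 2)) =
      ∫⁻ t in Ioc (ρ ^ 2) 1, ENNReal.ofReal (c * (1 / t)) := by
    rw [← ofReal_integral_eq_lintegral_ofReal (hint.const_mul c)]
    · congr 1
      rw [integral_const_mul, ← intervalIntegral.integral_of_le hρ2,
        integral_one_div_of_pos hρ0 one_pos]
    · filter_upwards [ae_restrict_mem measurableSet_Ioc] with t ht
      have : 0 < t := hρ0.trans ht.1
      positivity
  rw [h1]
  unfold Gk
  calc ∫⁻ t in Ioc (ρ ^ 2) 1, ENNReal.ofReal (c * (1 / t)) ≤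
        ∫⁻ t in Ioc (ρ ^ 2) 1, ENNReal.ofReal (Real.exp (-t)) * ENNReal.ofReal (gk t w) := by
        have hmeas : Measurable fun t : ℝ =>
            ENNReal.ofReal (Real.exp (-t)) * ENNReal.ofReal (gk t w) :=
          Measurable.mul (by fun_prop)
            (measurable_gk2.comp (measurable_id.prodMk measurable_const)).ennreal_ofReal
        apply setLIntegral_mono hmeas
        intro t ht
        have ht0 : 0 < t := hρ0.trans ht.1
        rw [← ENNReal.ofReal_mul (Real.exp_pos _).le]
        apply ENNReal.ofReal_le_ofReal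
        unfold gk
        rw [Real.mul_rpow (by positivity) ht0.le, hc]
        have e1 : Real.exp (-1) ≤ Real.exp (-t) := Real.exp_le_exp.2 (by linarith [ht.2])
        have e2 : Real.exp (-1) ≤ Real.exp (-‖w‖ ^ 2 / (2 * t)) := by
          apply Real.exp_le_exp.2
          rw [neg_div, neg_le_neg_iff, div_le_one (by positivity)]
          have h3 : ‖w‖ ^ 2 ≤ ρ ^ 2 := by gcongr
          nlinarith [ht.1]
        have e3 : 1 / t ≤ t ^ (-(n : ℝ) / 2) := by
          rw [one_div, ← Real.rpow_neg_one]
          apply Real.rpow_le_rpow_of_exponent_ge ht0 ht.2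
          linarith
        have e4 : Real.exp (-2) = Real.exp (-1) * Real.exp (-1) := by
          rw [← Real.exp_add]; norm_num
        have hp : 0 ≤ (2 * Real.pi) ^ (-(n : ℝ) / 2) := by positivity
        calc (2 * Real.pi) ^ (-(n : ℝ) / 2) * Real.exp (-2) * (1 / t) =
              (2 * Real.pi) ^ (-(n : ℝ) / 2) * (Real.exp (-1) * (Real.exp (-1) * (1 / t))) := by
              rw [e4]; ring
          _ ≤ (2 * Real.pi) ^ (-(n : ℝ) / 2) * (Real.exp (-t) *
                (Real.exp (-‖w‖ ^ 2 / (2 * t)) * t ^ (-(n : ℝ) / 2))) := by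
              gcongr
          _ = Real.exp (-t) * ((2 * Real.pi) ^ (-(n : ℝ) / 2) * t ^ (-(n : ℝ) / 2) *
                Real.exp (-‖w‖ ^ 2 / (2 * t))) := by ring
    _ ≤ ∫⁻ t in Ioi (0:ℝ), ENNReal.ofReal (Real.exp (-t)) * ENNReal.ofReal (gk t w) := by
        apply lintegral_mono_set
        intro t ht
        exact hρ0.trans ht.1

/-- layer cake: averages against the Gaussian kernel are controlled by averages over balls -/
lemma gk_average_le [Nontrivial E] {t : ℝ} (ht : 0 < t) {F : E → ℝ≥0∞} (hF : Measurable F) {y : E} {a : ℝ≥0∞}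
    (h : ∀ R : ℝ, 0 < R → ∫⁻ z in closedBall y R, F z ≤ a * volume (closedBall y R)) :
    ∫⁻ z, ENNReal.ofReal (gk t (z - y)) * F z ≤ a := by
  have hlc : ∀ z : E, ENNReal.ofReal (gk t (z - y)) =
      ∫⁻ l in Ioi (0:ℝ), {q : E × ℝ | q.2 < gk t (q.1 - y)}.indicator (fun _ => 1) (z, l) := by
    intro z
    have hm : MeasurableSet {l : ℝ | l < gk t (z - y)} := measurableSet_Iio
    have h1 : (fun l : ℝ => {q : E × ℝ | q.2 < gk t (q.1 - y)}.indicator (fun _ => (1:ℝ≥0∞)) (z, l)) =
        {l : ℝ | l < gk t (z - y)}.indicator (fun _ => 1) := by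
      funext l
      simp [indicator]
    rw [h1, lintegral_indicator hm, setLIntegral_const, one_mul, Measure.restrict_apply hm]
    have h2 : {l : ℝ | l < gk t (z - y)} ∩ Ioi 0 = Ioo 0 (gk t (z - y)) := by
      ext l; simp [and_comm]
    rw [h2, Real.volume_Ioo, sub_zero]
  have hS : MeasurableSet {q : E × ℝ | q.2 < gk t (q.1 - y)} :=
    measurableSet_lt measurable_snd ((continuous_gk t).measurable.comp (measurable_fst.sub_const y))
  have hind : Measurable ({q : E × ℝ | q.2 < gk t (q.1 - y)}.indicator (fun _ => (1:ℝ≥0∞))) :=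
    measurable_const.indicator hS
  have key : ∀ G : E → ℝ≥0∞, Measurable G → ∫⁻ z, ENNReal.ofReal (gk t (z - y)) * G z =
      ∫⁻ l in Ioi (0:ℝ), ∫⁻ z in {z | l < gk t (z - y)}, G z := by
    intro G hG
    have e1 : ∀ z, ENNReal.ofReal (gk t (z - y)) * G z = ∫⁻ l in Ioi (0:ℝ),
        {q : E × ℝ | q.2 < gk t (q.1 - y)}.indicator (fun _ => 1) (z, l) * G z := by
      intro z
      rw [hlc z, lintegral_mul_const]
      exact hind.comp measurable_prodMk_left
    simp_rw [e1]
    rw [lintegral_lintegral_swap]
    · apply lintegral_congr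
      intro l
      have hm : MeasurableSet {z : E | l < gk t (z - y)} :=
        measurableSet_lt measurable_const
          ((continuous_gk t).measurable.comp (measurable_id.sub_const y))
      rw [← lintegral_indicator hm]
      apply lintegral_congr
      intro z
      by_cases hz : l < gk t (z - y)
      · rw [indicator_of_mem (by exact hz), indicator_of_mem (by exact hz), one_mul]
      · rw [indicator_of_notMem (by exact hz), indicator_of_notMem (by exact hz), zero_mul]
    · apply Measurable.aemeasurable
      exact hind.mul (hG.comp measurable_fst)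
  have hball : ∀ l ∈ Ioi (0:ℝ), ∫⁻ z in {z | l < gk t (z - y)}, F z ≤
      a * ∫⁻ z in {z | l < gk t (z - y)}, 1 := by
    intro l hl
    rw [mem_Ioi] at hl
    set C := (2 * Real.pi * t) ^ (-(finrank ℝ E : ℝ) / 2) with hC
    have hC0 : 0 < C := by positivity
    have hiff : ∀ z : E, l < gk t (z - y) ↔ ‖z - y‖ ^ 2 < 2 * t * Real.log (C / l) := by
      intro z
      unfold gk
      rw [← hC]
      have e1 : l < C * Real.exp (-‖z - y‖ ^ 2 / (2 * t)) ↔
          Real.exp (‖z - y‖ ^ 2 / (2 * t)) < C / l := by
        rw [lt_div_iff₀ hl, neg_div, Real.exp_neg]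
        have hp := Real.exp_pos (‖z - y‖ ^ 2 / (2 * t))
        rw [← div_eq_mul_inv, lt_div_iff₀ hp, mul_comm]
      rw [e1, ← Real.lt_log_iff_exp_lt (by positivity), div_lt_iff₀ (by positivity), mul_comm]
    rcases le_or_gt (2 * t * Real.log (C / l)) 0 with h0 | h0
    · have : {z : E | l < gk t (z - y)} = ∅ := by
        ext z
        simp only [Set.mem_ofPred_eq, mem_empty_iff_false, iff_false]
        rw [hiff, not_lt]
        exact h0.trans (by positivity)
      rw [this]
      simp
    · set R := Real.sqrt (2 * t * Real.log (C / l)) with hR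
      have hR0 : 0 < R := Real.sqrt_pos.2 h0
      have : {z : E | l < gk t (z - y)} = ball y R := by
        ext z
        rw [Set.mem_ofPred_eq, hiff, mem_ball, dist_eq_norm, hR, Real.lt_sqrt (norm_nonneg _)]
      rw [this]
      calc ∫⁻ z in ball y R, F z ≤ ∫⁻ z in closedBall y R, F z :=
            lintegral_mono_set ball_subset_closedBall
        _ ≤ a * volume (closedBall y R) := h R hR0
        _ = a * ∫⁻ z in ball y R, 1 := by
            rw [setLIntegral_const, one_mul, Measure.addHaar_closedBall _ _ hR0.le,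
              Measure.addHaar_ball _ _ hR0.le]
  rw [key F hF]
  calc ∫⁻ l in Ioi (0:ℝ), ∫⁻ z in {z | l < gk t (z - y)}, F z ≤
        ∫⁻ l in Ioi (0:ℝ), a * ∫⁻ z in {z | l < gk t (z - y)}, 1 := by
        apply lintegral_mono_ae
        filter_upwards [ae_restrict_mem measurableSet_Ioi] with l hl
        exact hball l hl
    _ = a * ∫⁻ z, ENNReal.ofReal (gk t (z - y)) * 1 := by
        rw [lintegral_const_mul, key (fun _ => 1) measurable_const]
        have : (fun l : ℝ => ∫⁻ z in {z : E | l < gk t (z - y)}, (1:ℝ≥0∞)) =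
            fun l => ∫⁻ z, {q : E × ℝ | q.2 < gk t (q.1 - y)}.indicator (fun _ => 1) (z, l) := by
          funext l
          have hm : MeasurableSet {z : E | l < gk t (z - y)} :=
            measurableSet_lt measurable_const
              ((continuous_gk t).measurable.comp (measurable_id.sub_const y))
          rw [← lintegral_indicator hm]
          rfl
        rw [this]
        exact Measurable.lintegral_prod_left' hind
    _ = a := by
        simp only [mul_one]
        have e1 := lintegral_sub_right_eq_self (μ := (volume : Measure E))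
          (fun z => ENNReal.ofReal (gk t z)) y
        rw [e1, lintegral_gk ht, mul_one]

end Pool.Agent.Lib.P07dee5
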