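import Mathlib
import Pool.Agent.Lib.P07dee5.SupA

/-! # Superharmonic functions are right continuous at time zero along paths -/

open MeasureTheory Set Filter Topology ProbabilityTheory Module Metric
open scoped ENNReal NNReal RealInnerProductSpace

set_option linter.unusedSectionVars false

namespace Pool.Agent.Lib.P07dee5

variable {E : Type*} [NormedAddCommGroup E] [InnerProductSpace ℝ E] [FiniteDimensional ℝ E]
  [MeasurableSpace E] [BorelSpace E] {W : Measure (Pth E)}

/-- superharmonic functions on the whole space -/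
structure Superharmonic (s : E → EReal) : Prop where
  lsc : LowerSemicontinuous s
  ne_bot : ∀ x, s x ≠ ⊥
  ne_top : ∃ x, s x ≠ ⊤
  mean : ∀ (x : E) (r : ℝ), 0 < r → ∀ c : ℝ, (∀ y ∈ Metric.closedBall x r, (c : EReal) ≤ s y) →
    ∫⁻ y in Metric.closedBall x r, (s y - c).toENNReal ≤
      (s x - c).toENNReal * volume (Metric.closedBall x r)

/-- superharmonic functions are locally bounded below -/
lemma Superharmonic.exists_lower {s : E → EReal} (hs : Superharmonic s) (x : E) (r : ℝ)
    (hr : 0 ≤ r) : ∃ L : ℝ, ∀ y ∈ closedBall x r, (L : EReal) ≤ s y := by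
  obtain ⟨y0, _, hy0⟩ := (hs.lsc.lowerSemicontinuousOn (closedBall x r)).exists_isMinOn
    (nonempty_closedBall.2 hr) (isCompact_closedBall x r)
  have h1 : (⊥ : EReal) < s y0 := bot_lt_iff_ne_bot.2 (hs.ne_bot y0)
  obtain ⟨L, _, hL⟩ := EReal.lt_iff_exists_real_btwn.1 h1
  exact ⟨L, fun y hy => hL.le.trans (hy0 hy)⟩

/-- truncation of extended reals -/
noncomputable def trunc (L K : ℝ) (a : EReal) : ℝ≥0∞ := min (a - L).toENNReal (ENNReal.ofReal K)

lemma continuous_trunc (L K : ℝ) : Continuous (trunc L K) := by
  unfold trunc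
  apply Continuous.min _ continuous_const
  apply EReal.continuous_toENNReal.comp
  rw [continuous_iff_continuousAt]
  intro a
  have h1 : ContinuousAt (fun p : EReal × EReal => p.1 + p.2) (a, ((-L : ℝ) : EReal)) :=
    EReal.continuousAt_add (Or.inr (EReal.coe_ne_bot _)) (Or.inr (EReal.coe_ne_top _))
  have h2 : ContinuousAt (fun a : EReal => (a, ((-L : ℝ) : EReal))) a := by fun_prop
  have h3 := ContinuousAt.comp (g := fun p : EReal × EReal => p.1 + p.2) (x := a) h1 h2
  refine h3.congr (Eventually.of_forall fun b => ?_)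
  simp [Function.comp, sub_eq_add_neg]

lemma monotone_trunc (L K : ℝ) : Monotone (trunc L K) := by
  intro a b h
  unfold trunc
  apply min_le_min _ le_rfl
  exact EReal.toENNReal_le_toENNReal (EReal.sub_le_sub h le_rfl)

/-- Superharmonic functions are not much larger than their value at the starting point, for a
short time along almost every path. -/
theorem superharmonic_reg (hn : 2 ≤ finrank ℝ E) (hW : IsWiener W) {s : E → EReal}
    (hs : Superharmonic s) {x : E} {q : ℝ} (hq : s x < q) :
    ∀ᵐ p ∂W, 0 < hitO {y | (q : EReal) < s y} (tr x p) := by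
  have hprob := hW.prob
  have hnt : Nontrivial E := Module.nontrivial_of_finrank_pos (R := ℝ) (by omega)
  set n := finrank ℝ E with hndef
  obtain ⟨L0, hL0⟩ := hs.exists_lower x 1 zero_le_one
  -- lower bound `L`, height `K`
  obtain ⟨L, hL1, hL2⟩ : ∃ L : ℝ, (∀ y ∈ closedBall x 1, ((L + 1 : ℝ) : EReal) ≤ s y) ∧ L ≤ q :=
    ⟨min L0 q - 1, fun y hy => (EReal.coe_le_coe_iff.2 (by
      have := min_le_left L0 q; linarith)).trans (hL0 y hy), by have := min_le_right L0 q; linarith⟩
  set K : ℝ := q + 1 - L with hK
  have hK1 : 1 ≤ K := by linarith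
  set v : E → ℝ≥0∞ := fun y => trunc L K (s y) with hv
  have hvlsc : LowerSemicontinuous v :=
    (continuous_trunc L K).comp_lowerSemicontinuous hs.lsc (monotone_trunc L K)
  have hvK : ∀ y, v y ≤ ENNReal.ofReal K := fun y => min_le_right _ _
  have hv1 : ∀ y ∈ closedBall x 1, 1 ≤ v y := by
    intro y hy
    apply le_min
    · have h1 : ((1:ℝ) : EReal) ≤ s y - L := by
        have h2 := EReal.sub_le_sub (hL1 y hy) (le_refl (L : EReal))
        refine le_trans (le_of_eq ?_) h2
        rw [← EReal.coe_sub]
        congr 1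
        ring
      have h2 := EReal.toENNReal_le_toENNReal h1
      rw [EReal.real_coe_toENNReal, ENNReal.ofReal_one] at h2
      exact h2
    · rw [← ENNReal.ofReal_one]
      exact ENNReal.ofReal_le_ofReal hK1
  have hvmean : ∀ y : E, ∀ R : ℝ, 0 < R → closedBall y R ⊆ closedBall x 1 →
      ∫⁻ z in closedBall y R, v z ≤ v y * volume (closedBall y R) := by
    intro y R hR hsub
    have hvol : volume (closedBall y R) ≠ ∞ := measure_closedBall_lt_top.ne
    have h1 : ∫⁻ z in closedBall y R, v z ≤ (s y - L).toENNReal * volume (closedBall y R) := by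
      refine (lintegral_mono fun z => min_le_left _ _).trans (hs.mean y R hR L ?_)
      intro z hz
      exact (EReal.coe_le_coe_iff.2 (by linarith)).trans (hL1 z (hsub hz))
    have h2 : ∫⁻ z in closedBall y R, v z ≤ ENNReal.ofReal K * volume (closedBall y R) := by
      refine (lintegral_mono fun z => hvK z).trans ?_
      rw [setLIntegral_const]
    simp only [hv, trunc]
    rcases le_total (s y - L).toENNReal (ENNReal.ofReal K) with h | h
    · rw [min_eq_left h]; exact h1
    · rw [min_eq_right h]; exact h2
  -- the bump function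
  set G : ℝ := n.factorial * 32 ^ n + 1 with hG
  have hG0 : 0 < G := by positivity
  set v0 : ℝ := (volume (ball x (1/2))).toReal with hv0def
  have hv0ne : volume (ball x (1/2)) ≠ ∞ := measure_ball_lt_top.ne
  have hv0 : 0 < v0 := ENNReal.toReal_pos (measure_ball_pos _ _ (by norm_num)).ne' hv0ne
  set A : ℝ := K * G + K / v0 + 1 with hA
  have hA0 : 0 < A := by positivity
  set c0 : ℝ := (2 * Real.pi) ^ (-(n : ℝ) / 2) * Real.exp (-2) with hc0def
  have hc0 : 0 < c0 := by positivity
  obtain ⟨ρ, hρ0, hρ1, hρA⟩ : ∃ ρ : ℝ, 0 < ρ ∧ ρ ≤ 1 / 4 ∧ A < c0 * Real.log (1 / ρ ^ 2) := by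
    set e := Real.exp (-(A / c0 + 1) / 2) with he
    refine ⟨min (1/4) e, by positivity, min_le_left _ _, ?_⟩
    have hm0 : 0 < min (1/4) e := by positivity
    have h1 : Real.log (min (1/4) e) ≤ -(A / c0 + 1) / 2 := by
      calc Real.log (min (1/4) e) ≤ Real.log e := Real.log_le_log hm0 (min_le_right _ _)
        _ = _ := by rw [he, Real.log_exp]
    have h2 : Real.log (1 / (min (1/4) e) ^ 2) = -(2 * Real.log (min (1/4) e)) := by
      rw [one_div, Real.log_inv, Real.log_pow]
      push_cast
      ring
    rw [h2]
    have h3 : A / c0 + 1 ≤ -(2 * Real.log (min (1/4) e)) := by linarith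
    calc A = c0 * (A / c0) := by field_simp
      _ < c0 * (A / c0 + 1) := by
        apply mul_lt_mul_of_pos_left _ hc0
        linarith
      _ ≤ _ := by gcongr
  set B := ball x ρ with hB
  have hBm : MeasurableSet B := measurableSet_ball
  have hBo : IsOpen B := isOpen_ball
  have hV0 : volume B ≠ 0 := (measure_ball_pos _ _ hρ0).ne'
  have hV1 : volume B ≠ ∞ := measure_ball_lt_top.ne
  set u : E → ℝ≥0∞ := Ex W (pot1 B) with hu
  set M : ℝ≥0∞ := ENNReal.ofReal A * volume B with hM
  have hAe0 : ENNReal.ofReal A ≠ 0 := (ENNReal.ofReal_pos.2 hA0).ne'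
  have hM0 : M ≠ 0 := mul_ne_zero hAe0 hV0
  have hM1 : M ≠ ∞ := ENNReal.mul_ne_top ENNReal.ofReal_ne_top hV1
  have hulsc : LowerSemicontinuous u := lsc_pot1 hBo
  have husmed := smed_pot1 hW hBm
  have hum : Measurable u := husmed.meas
  set φ : E → ℝ≥0∞ := fun y => ENNReal.ofReal K * min 1 (u y / M) with hφ
  have hφm : Measurable φ := (measurable_const.min (hum.div_const M)).const_mul _
  have hφK : ∀ y, φ y ≤ ENNReal.ofReal K := by
    intro y
    calc φ y ≤ ENNReal.ofReal K * 1 := mul_le_mul' le_rfl (min_le_left _ _)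
      _ = _ := mul_one _
  have hφsmed : SMed W 1 φ := by
    refine ⟨hφm, fun t y => ?_⟩
    have hmin : Measurable fun p : Pth E => min 1 (u (p.1 t) / M) :=
      measurable_const.min ((hum.comp (measurable_eval t)).div_const M)
    have e1 : Ex W (fun p => φ (p.1 t)) y =
        ENNReal.ofReal K * Ex W (fun p => min 1 (u (p.1 t) / M)) y :=
      Ex_const_mul _ hmin y
    rw [e1, ← mul_assoc, mul_comm (dsc 1 t), mul_assoc]
    refine mul_le_mul' le_rfl (le_min ?_ ?_)
    · calc dsc 1 t * Ex W (fun p => min 1 (u (p.1 t) / M)) y ≤ 1 * Ex W (fun _ => 1) y :=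
            mul_le_mul' (dsc_le_one _ _) (Ex_mono (fun p => min_le_left _ _) y)
        _ = 1 := by rw [Ex_const hW, one_mul]
    · calc dsc 1 t * Ex W (fun p => min 1 (u (p.1 t) / M)) y ≤
            dsc 1 t * Ex W (fun p => M⁻¹ * u (p.1 t)) y := by
            refine mul_le_mul' le_rfl (Ex_mono (fun p => ?_) y)
            rw [mul_comm, ← div_eq_mul_inv]
            exact min_le_right _ _
        _ = M⁻¹ * (dsc 1 t * Ex W (fun p => u (p.1 t)) y) := by
            rw [Ex_const_mul M⁻¹ (F := fun p => u (p.1 t)) (hum.comp (measurable_eval t))]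
            ring
        _ ≤ M⁻¹ * u y := mul_le_mul' le_rfl (husmed.sup t y)
        _ = u y / M := by rw [mul_comm, div_eq_mul_inv]
  have hφlsc : LowerSemicontinuous φ := by
    have hg : Continuous fun a : ℝ≥0∞ => ENNReal.ofReal K * min 1 (a / M) :=
      (ENNReal.continuous_const_mul ENNReal.ofReal_ne_top).comp
        (continuous_const.min (ENNReal.continuous_div_const M hM0))
    refine hg.comp_lowerSemicontinuous hulsc ?_
    intro a b hab
    dsimp only
    gcongr
  -- near `x`
  have hux : M < u x := by
    rw [hu, Ex_pot1 hW hBm]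
    calc M < ENNReal.ofReal (c0 * Real.log (1 / ρ ^ 2)) * volume B := by
          rw [hM]
          exact (ENNReal.mul_lt_mul_iff_left hV0 hV1).2
            ((ENNReal.ofReal_lt_ofReal_iff (hA0.trans hρA)).2 hρA)
      _ = ∫⁻ _ in B, ENNReal.ofReal (c0 * Real.log (1 / ρ ^ 2)) := by rw [setLIntegral_const]
      _ ≤ ∫⁻ z in B, Gk (z - x) := by
          apply setLIntegral_mono (measurable_Gk.comp (measurable_id.sub_const x))
          intro z hz
          apply le_Gk hn hρ0 (by linarith)
          rw [hB, mem_ball, dist_eq_norm] at hz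
          exact hz.le
  have hnear : ∀ᶠ y in 𝓝 x, φ y = ENNReal.ofReal K := by
    filter_upwards [hulsc x M hux] with y hy
    have h1 : 1 ≤ u y / M := by
      rw [ENNReal.le_div_iff_mul_le (Or.inl hM0) (Or.inl hM1), one_mul]
      exact le_of_lt hy
    simp only [hφ]
    rw [min_eq_left h1, mul_one]
  -- away from `x`
  have hfar : ∀ y : E, 1 / 2 ≤ ‖y - x‖ → φ y < 1 := by
    intro y hy
    have h1 : u y ≤ ENNReal.ofReal G * volume B := by
      rw [hu, Ex_pot1 hW hBm, ← setLIntegral_const]
      apply setLIntegral_mono measurable_const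
      intro z hz
      apply Gk_le
      rw [hB, mem_ball, dist_eq_norm] at hz
      have := norm_sub_le_norm_sub_add_norm_sub y z x
      rw [norm_sub_rev y z] at this
      linarith
    calc φ y ≤ ENNReal.ofReal K * (u y / M) := mul_le_mul' le_rfl (min_le_right _ _)
      _ ≤ ENNReal.ofReal K * (ENNReal.ofReal G * volume B / M) := by gcongr
      _ = ENNReal.ofReal (K * G / A) := by
          rw [hM, ENNReal.mul_div_mul_right _ _ hV0 hV1, ← ENNReal.ofReal_div_of_pos hA0,
            ← ENNReal.ofReal_mul (by positivity)]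
          congr 1; ring
      _ < 1 := by
          rw [ENNReal.ofReal_lt_one, div_lt_one hA0, hA]
          have : 0 < K / v0 := by positivity
          linarith
  have hint : ∫⁻ y, φ y ≤ volume (ball x (1/2)) := by
    calc ∫⁻ y, φ y ≤ ∫⁻ y, ENNReal.ofReal K * M⁻¹ * u y := by
          apply lintegral_mono
          intro y
          simp only [hφ]
          rw [mul_assoc, mul_comm M⁻¹, ← div_eq_mul_inv]
          exact mul_le_mul' le_rfl (min_le_right _ _)
      _ = ENNReal.ofReal K * M⁻¹ * volume B := by
          rw [lintegral_const_mul _ hum, hu, lintegral_pot1 hW hBm]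
      _ = ENNReal.ofReal (K / A) := by
          rw [ENNReal.ofReal_div_of_pos hA0, hM, ENNReal.mul_inv (Or.inl hAe0)
            (Or.inl ENNReal.ofReal_ne_top), mul_assoc, mul_assoc,
            ENNReal.inv_mul_cancel hV0 hV1, mul_one, div_eq_mul_inv]
      _ ≤ ENNReal.ofReal v0 := by
          apply ENNReal.ofReal_le_ofReal
          rw [div_le_iff₀ hA0, hA]
          have h1 : v0 * (K / v0) = K := by field_simp
          have h2 : 0 ≤ v0 * (K * G + 1) := by positivity
          nlinarith
      _ = volume (ball x (1/2)) := by rw [hv0def, ENNReal.ofReal_toReal hv0ne]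
  -- the glued function
  classical
  set f : E → ℝ≥0∞ := fun y => if y ∈ ball x 1 then min (v y) (φ y) else φ y with hf
  have hfφ : ∀ y, f y ≤ φ y := by
    intro y
    simp only [hf]
    split_ifs
    · exact min_le_right _ _
    · exact le_rfl
  have hffar : ∀ y : E, 1 / 2 ≤ ‖y - x‖ → f y = φ y := by
    intro y hy
    simp only [hf]
    split_ifs with h1
    · exact min_eq_right ((hfar y hy).le.trans (hv1 y (ball_subset_closedBall h1)))
    · rfl
  have hflsc : LowerSemicontinuous f := by
    intro y
    by_cases hy : y ∈ ball x 1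
    · have h1 : LowerSemicontinuousAt (fun z => min (v z) (φ z)) y := by
        intro a ha
        have ha1 : a < v y := lt_of_lt_of_le ha (min_le_left _ _)
        have ha2 : a < φ y := lt_of_lt_of_le ha (min_le_right _ _)
        filter_upwards [hvlsc y a ha1, hφlsc y a ha2] with z h1 h2
        exact lt_min h1 h2
      intro a ha
      have hfy : f y = min (v y) (φ y) := by simp only [hf, if_pos hy]
      rw [hfy] at ha
      filter_upwards [h1 a ha, isOpen_ball.mem_nhds hy] with z hz1 hz2
      simp only [hf, if_pos hz2]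
      exact hz1
    · intro a ha
      have hy1 : 1 ≤ ‖y - x‖ := by
        rw [mem_ball, not_lt, dist_eq_norm] at hy; exact hy
      rw [hffar y (by linarith)] at ha
      have hO : IsOpen {z : E | 1 / 2 < ‖z - x‖} := isOpen_lt continuous_const (by fun_prop)
      filter_upwards [hφlsc y a ha, hO.mem_nhds (by
        show 1 / 2 < ‖y - x‖; linarith)] with z hz1 hz2
      rw [hffar z (le_of_lt hz2)]
      exact hz1
  have hfm : Measurable f := hflsc.measurable
  have hfsmed : SMed W 1 f := by
    refine ⟨hfm, fun t y => ?_⟩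
    by_cases hcase : f y = φ y
    · rw [hcase]
      refine le_trans ?_ (hφsmed.sup t y)
      exact mul_le_mul' le_rfl (Ex_mono (fun p => hfφ _) y)
    · -- here `f y = v y` and `y` is close to `x`
      have hyball : y ∈ ball x 1 := by
        by_contra h
        exact hcase (by simp only [hf, if_neg h])
      have hfy : f y = v y := by
        have h1 : f y = min (v y) (φ y) := by simp only [hf, if_pos hyball]
        rw [h1] at hcase ⊢
        rcases le_total (v y) (φ y) with h | h
        · exact min_eq_left h
        · exact absurd (min_eq_right h) hcase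
      have hyhalf : ‖y - x‖ < 1 / 2 := by
        by_contra h
        exact hcase (hffar y (not_lt.1 h))
      have hvy1 : 1 ≤ v y := hv1 y (ball_subset_closedBall hyball)
      have hballs : ∀ R : ℝ, 0 < R →
          ∫⁻ z in closedBall y R, f z ≤ v y * volume (closedBall y R) := by
        intro R hR
        rcases le_or_gt R (1/2) with hR2 | hR2
        · have hsub : closedBall y R ⊆ ball x 1 := by
            intro z hz
            rw [mem_closedBall, dist_eq_norm] at hz
            rw [mem_ball, dist_eq_norm]
            have := norm_sub_le_norm_sub_add_norm_sub z y x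
            linarith
          refine le_trans ?_ (hvmean y R hR (hsub.trans ball_subset_closedBall))
          apply setLIntegral_mono hvlsc.measurable
          intro z hz
          simp only [hf, if_pos (hsub hz)]
          exact min_le_left _ _
        · calc ∫⁻ z in closedBall y R, f z ≤ ∫⁻ z, φ z :=
                (setLIntegral_le_lintegral _ _).trans (lintegral_mono hfφ)
            _ ≤ volume (ball x (1/2)) := hint
            _ = volume (ball y (1/2)) := by
                rw [Measure.addHaar_ball_center, Measure.addHaar_ball_center volume y]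
            _ ≤ volume (closedBall y R) :=
                measure_mono ((ball_subset_ball hR2.le).trans ball_subset_closedBall)
            _ = 1 * volume (closedBall y R) := (one_mul _).symm
            _ ≤ v y * volume (closedBall y R) := mul_le_mul' hvy1 le_rfl
      have hEx : Ex W (fun p => f (p.1 t)) y ≤ f y := by
        rcases eq_or_ne t 0 with rfl | ht
        · apply le_of_eq
          unfold Ex
          rw [lintegral_congr_ae (g := fun _ => f y)]
          · simp
          · filter_upwards [hW.zero] with p hp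
            simp [hp]
        · rw [Ex_eval hW (pos_iff_ne_zero.2 ht) hfm, hfy]
          exact gk_average_le (by
            have : 0 < t := pos_iff_ne_zero.2 ht
            exact_mod_cast this) hfm hballs
      calc dsc 1 t * Ex W (fun p => f (p.1 t)) y ≤ 1 * f y := mul_le_mul' (dsc_le_one _ _) hEx
        _ = f y := one_mul _
  -- conclusion
  set q' : ℝ≥0∞ := ENNReal.ofReal (q - L) with hq'
  have hxball : x ∈ ball x 1 := mem_ball_self one_pos
  have hfx : f x < q' := by
    have h1 : f x ≤ v x := by
      simp only [hf, if_pos hxball]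
      exact min_le_left _ _
    refine lt_of_le_of_lt h1 (lt_of_le_of_lt (min_le_left _ _) ?_)
    have h2 : s x - L < ((q - L : ℝ) : EReal) := by
      rw [EReal.coe_sub]
      exact EReal.sub_lt_sub_of_lt_of_le hq le_rfl (EReal.coe_ne_bot _) (EReal.coe_ne_top _)
    have h3 : 0 ≤ s x - L := by
      rw [EReal.sub_nonneg (Or.inr (EReal.coe_ne_top _)) (Or.inr (EReal.coe_ne_bot _))]
      exact (EReal.coe_le_coe_iff.2 (by linarith)).trans
        (hL1 x (mem_closedBall_self zero_le_one))
    exact EReal.toENNReal_lt_toENNReal h3 h2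
  have hmain := rusc_zero hW hfsmed hflsc hfx
  obtain ⟨ε, hε, hεball⟩ := Metric.mem_nhds_iff.1 hnear
  set ε' := min ε 1 with hε'
  have hε'0 : 0 < ε' := by positivity
  have hsub : ∀ y ∈ ball x ε', (q : EReal) < s y → q' < f y := by
    intro y hy hqy
    have hy1 : y ∈ ball x 1 := ball_subset_ball (min_le_right _ _) hy
    have hy2 : φ y = ENNReal.ofReal K := hεball (ball_subset_ball (min_le_left _ _) hy)
    simp only [hf, if_pos hy1]
    have hqL : 0 ≤ q - L := by linarith
    have hqK : q' < ENNReal.ofReal K := by
      rw [hq', ENNReal.ofReal_lt_ofReal_iff (by linarith)]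
      linarith
    rw [hy2]
    refine lt_min (lt_min ?_ hqK) hqK
    have h2 : ((q - L : ℝ) : EReal) < s y - L := by
      rw [EReal.coe_sub]
      exact EReal.sub_lt_sub_of_lt_of_le hqy le_rfl (EReal.coe_ne_bot _) (EReal.coe_ne_top _)
    exact EReal.toENNReal_lt_toENNReal (by exact_mod_cast hqL) h2
  filter_upwards [hmain, hW.zero] with p hp hp0
  have hstart : (tr x p).1 0 = x := by simp [hp0]
  -- the path stays in the small ball for a short time
  have hcont : ∀ᶠ t in 𝓝 (0 : ℝ≥0), (tr x p).1 t ∈ ball x ε' := by
    apply (tr x p).2.continuousAt.eventually_mem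
    rw [hstart]
    exact ball_mem_nhds x hε'0
  obtain ⟨δ, hδ, hδball⟩ := Metric.mem_nhds_iff.1 hcont
  have hlow : min (ENNReal.ofReal δ) (hitO {y | q' < f y} (tr x p)) ≤
      hitO {y | (q : EReal) < s y} (tr x p) := by
    apply le_iInf₂
    intro t ht
    rcases lt_or_ge (t : ℝ) δ with h | h
    · refine (min_le_right _ _).trans (hitO_le ht.1 ?_)
      apply hsub _ _ ht.2
      apply hδball
      rw [mem_ball, NNReal.dist_eq]
      simpa using h
    · refine (min_le_left _ _).trans ?_
      rw [← ENNReal.ofReal_coe_nnreal]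
      exact ENNReal.ofReal_le_ofReal h
  exact lt_of_lt_of_le (lt_min (ENNReal.ofReal_pos.2 hδ) hp) hlow

end Pool.Agent.Lib.P07dee5
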