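import Mathlib
import Pool.Agent.Lib.P07dee5.Ident
import Pool.Agent.Lib.P07dee5.Sup

/-! # The fine topology: neighbourhood bases by functions regular along Brownian paths -/

open MeasureTheory Set Filter Topology ProbabilityTheory Module
open scoped ENNReal NNReal RealInnerProductSpace

namespace Pool.Agent.Lib.P07dee5

/-- the fine topology: coarsest topology making all superharmonic functions continuous -/
@[reducible] noncomputable def fineTopology (E : Type*) [NormedAddCommGroup E]
    [InnerProductSpace ℝ E] [FiniteDimensional ℝ E] [MeasurableSpace E] [BorelSpace E] :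
    TopologicalSpace E :=
  ⨅ s : {s : E → EReal // Superharmonic s}, TopologicalSpace.induced s.1 inferInstance

variable {E : Type*} [NormedAddCommGroup E] [InnerProductSpace ℝ E] [FiniteDimensional ℝ E]
  [MeasurableSpace E] [BorelSpace E] {W : Measure (Pth E)}

omit [InnerProductSpace ℝ E] [FiniteDimensional ℝ E] [MeasurableSpace E] [BorelSpace E] in
lemma hitO_pos_of_continuous {O : Set E} (hO : IsOpen O) {x : E} (hx : x ∈ O) {p : Pth E}
    (hp : p.1 0 = 0) {D : Set E} (hD : Disjoint O D) : 0 < hitO D (tr x p) := by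
  have h1 : {t : ℝ≥0 | x + p.1 t ∈ O} ∈ 𝓝 (0 : ℝ≥0) := by
    apply (hO.preimage (continuous_const.add p.2)).mem_nhds
    simpa [hp] using hx
  obtain ⟨δ, hδ, hsub⟩ := Metric.mem_nhds_iff.1 h1
  have h2 : ENNReal.ofReal δ ≤ hitO D (tr x p) := by
    apply le_iInf₂
    intro t ht
    by_contra hcon
    rw [not_le] at hcon
    have h3 : (t : ℝ) < δ := by
      rw [ENNReal.lt_ofReal_iff_toReal_lt ENNReal.coe_ne_top] at hcon
      simpa using hcon
    have h4 : t ∈ Metric.ball (0 : ℝ≥0) δ := by
      rw [Metric.mem_ball, NNReal.dist_eq]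
      simpa using h3
    exact Set.disjoint_left.1 hD (hsub h4) ht.2
  exact (ENNReal.ofReal_pos.2 hδ).trans_le h2

lemma fineFn_of_continuous (hW : IsWiener W) {f : E → ℝ≥0∞} (hf : Continuous f) :
    FineFn W f where
  lsc := hf.lowerSemicontinuous
  reg := by
    intro x q hq
    filter_upwards [hW.zero] with p hp
    apply hitO_pos_of_continuous (hf.isOpen_preimage _ isOpen_Iio) (x := x) (by exact hq) hp
    rw [Set.disjoint_left]
    intro y hy hy'
    have h1 : f y < q := hy
    have h2 : q < f y := hy'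
    exact absurd (h1.trans h2) (lt_irrefl _)

lemma le_hitO_union {A B : Set E} (p : Pth E) :
    min (hitO A p) (hitO B p) ≤ hitO (A ∪ B) p := by
  apply le_iInf₂
  rintro t ⟨ht, h | h⟩
  · exact (min_le_left _ _).trans (hitO_le ht h)
  · exact (min_le_right _ _).trans (hitO_le ht h)

lemma FineFn.max {f g : E → ℝ≥0∞} (hf : FineFn W f) (hg : FineFn W g) :
    FineFn W (fun y => f y ⊔ g y) where
  lsc := by
    intro x q hq
    rcases lt_sup_iff.1 hq with h | h
    · filter_upwards [hf.lsc x q h] with y hy using hy.trans_le le_sup_left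
    · filter_upwards [hg.lsc x q h] with y hy using hy.trans_le le_sup_right
  reg := by
    intro x q hq
    have hq' := sup_lt_iff.1 hq
    filter_upwards [hf.reg x q hq'.1, hg.reg x q hq'.2] with p h1 h2
    have h3 : {y | q < f y ⊔ g y} = {y | q < f y} ∪ {y | q < g y} := by
      ext y
      simp only [Set.mem_ofPred_eq, Set.mem_union, lt_sup_iff]
    rw [h3]
    exact (lt_min h1 h2).trans_le (le_hitO_union _)

/-- the filter of fine neighbourhoods defined through `FineFn` -/
def fineFilter (hW : IsWiener W) (x : E) : Filter E where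
  sets := {V | ∃ f : E → ℝ≥0∞, FineFn W f ∧ f x < 1 ∧ ∀ y, f y < 1 → y ∈ V}
  univ_sets := ⟨fun _ => 0, fineFn_of_continuous hW continuous_const, by simp, fun _ _ => trivial⟩
  sets_of_superset := by
    rintro V V' ⟨f, h1, h2, h3⟩ hsub
    exact ⟨f, h1, h2, fun y hy => hsub (h3 y hy)⟩
  inter_sets := by
    rintro V V' ⟨f, h1, h2, h3⟩ ⟨g, h1', h2', h3'⟩
    exact ⟨_, h1.max h1', sup_lt_iff.2 ⟨h2, h2'⟩, fun y hy =>
      ⟨h3 y (sup_lt_iff.1 hy).1, h3' y (sup_lt_iff.1 hy).2⟩⟩

/-- rescaled positive part -/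
noncomputable def gsc (c K : ℝ) (v : EReal) : ℝ≥0∞ := (v - c).toENNReal / ENNReal.ofReal K

lemma monotone_gsc (c K : ℝ) : Monotone (gsc c K) := by
  intro a b h
  unfold gsc
  apply ENNReal.div_le_div_right
  exact EReal.toENNReal_le_toENNReal (EReal.sub_le_sub h le_rfl)

lemma continuous_gsc (c : ℝ) {K : ℝ} (hK : 0 < K) : Continuous (gsc c K) := by
  unfold gsc
  have h1 : Continuous (fun v : EReal => (v - c).toENNReal) := by
    apply EReal.continuous_toENNReal.comp
    rw [continuous_iff_continuousAt]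
    intro a
    have h1 : ContinuousAt (fun p : EReal × EReal => p.1 + p.2) (a, ((-c : ℝ) : EReal)) :=
      EReal.continuousAt_add (Or.inr (EReal.coe_ne_bot _)) (Or.inr (EReal.coe_ne_top _))
    have h2 : ContinuousAt (fun a : EReal => (a, ((-c : ℝ) : EReal))) a := by fun_prop
    have h3 := ContinuousAt.comp (g := fun p : EReal × EReal => p.1 + p.2) (x := a) h1 h2
    refine h3.congr (Eventually.of_forall fun b => ?_)
    simp [sub_eq_add_neg]
  exact (ENNReal.continuous_div_const _ (ENNReal.ofReal_pos.2 hK).ne').comp h1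

lemma gsc_coe (c : ℝ) {K : ℝ} (hK : 0 < K) {q : ℝ≥0∞} (hq : q ≠ ∞) :
    gsc c K ((c + K * q.toReal : ℝ) : EReal) = q := by
  unfold gsc
  rw [← EReal.coe_sub, EReal.toENNReal_of_ne_top (EReal.coe_ne_top _), EReal.toReal_coe]
  rw [show c + K * q.toReal - c = K * q.toReal by ring, ENNReal.ofReal_mul hK.le,
    ENNReal.ofReal_toReal hq, mul_comm, ENNReal.mul_div_cancel_right
    (ENNReal.ofReal_pos.2 hK).ne' ENNReal.ofReal_ne_top]

lemma fineFn_gsc (hn : 2 ≤ finrank ℝ E) (hW : IsWiener W) {s : E → EReal}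
    (hs : Superharmonic s) (c : ℝ) {K : ℝ} (hK : 0 < K) : FineFn W (fun y => gsc c K (s y)) where
  lsc := (continuous_gsc c hK).comp_lowerSemicontinuous hs.lsc (monotone_gsc c K)
  reg := by
    intro x q hq
    by_cases htop : q = ∞
    · apply Eventually.of_forall
      intro p
      have : {y : E | q < gsc c K (s y)} = ∅ := by
        ext y; simp [htop]
      rw [this]
      simp [hitO]
    · have h1 : s x < ((c + K * q.toReal : ℝ) : EReal) := by
        apply (monotone_gsc c K).reflect_lt
        rw [gsc_coe c hK htop]; exact hq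
      filter_upwards [superharmonic_reg hn hW hs h1] with p hp
      refine hp.trans_le (hitO_anti ?_ _)
      intro y hy
      apply (monotone_gsc c K).reflect_lt
      rw [gsc_coe c hK htop]; exact hy

lemma fineFilter_le (hn : 2 ≤ finrank ℝ E) (hW : IsWiener W) (x : E) :
    fineFilter hW x ≤ @nhds E (fineTopology E) x := by
  unfold fineTopology
  rw [nhds_iInf]
  apply le_iInf
  rintro ⟨s, hs⟩
  rw [nhds_induced, ← tendsto_iff_comap]
  rw [tendsto_order]
  constructor
  · intro a ha
    have hO : IsOpen {y | a < s y} := hs.lsc.isOpen_preimage a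
    obtain ⟨r, hr, hsub⟩ := Metric.isOpen_iff.1 hO x ha
    refine ⟨fun y => ENNReal.ofReal (dist y x / r), fineFn_of_continuous hW
      (ENNReal.continuous_ofReal.comp (by fun_prop)), by simp, ?_⟩
    intro y hy
    apply hsub
    rw [Metric.mem_ball]
    rw [ENNReal.ofReal_lt_one, div_lt_one hr] at hy
    exact hy
  · intro a ha
    obtain ⟨c, hc1, hc2⟩ := EReal.lt_iff_exists_real_btwn.1 ha
    obtain ⟨b, hb1, hb2⟩ := EReal.lt_iff_exists_real_btwn.1 hc2
    have hcb : 0 < b - c := sub_pos.2 (EReal.coe_lt_coe_iff.1 hb1)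
    refine ⟨_, fineFn_gsc hn hW hs c hcb, ?_, ?_⟩
    · have h0 := gsc_coe c hcb (q := 0) ENNReal.zero_ne_top
      have h1 : gsc c (b - c) (s x) ≤ gsc c (b - c) ((c + (b - c) * (0 : ℝ≥0∞).toReal : ℝ) : EReal) := by
        apply monotone_gsc
        simpa using hc1.le
      rw [h0] at h1
      exact h1.trans_lt zero_lt_one
    · intro y hy
      have h1 := gsc_coe c hcb (q := 1) ENNReal.one_ne_top
      rw [← h1] at hy
      have h2 := (monotone_gsc c (b - c)).reflect_lt hy
      refine h2.trans ?_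
      simpa using hb2

theorem fine_base (hn : 2 ≤ finrank ℝ E) (hW : IsWiener W) {U : Set E}
    (hU : @IsOpen E (fineTopology E) U) {x : E} (hx : x ∈ U) :
    ∃ f : E → ℝ≥0∞, FineFn W f ∧ f x < 1 ∧ ∀ y, f y < 1 → y ∈ U :=
  fineFilter_le hn hW x (@IsOpen.mem_nhds E (fineTopology E) x U hU hx)

end Pool.Agent.Lib.P07dee5
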