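import Mathlib
import Pool.Agent.Lib.P07dee5.Path

/-! # The path space is standard Borel; images of full sets under measurable maps -/

open MeasureTheory Set Filter Topology ProbabilityTheory Module
open scoped ENNReal NNReal

namespace Pool.Agent.Lib.P07dee5

section Std

variable {E : Type*} [NormedAddCommGroup E] [InnerProductSpace ℝ E] [FiniteDimensional ℝ E]
  [MeasurableSpace E] [BorelSpace E]

/-- The path space is measurably equivalent to the space of continuous maps with the Borel
`σ`-algebra of the compact-open topology. -/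
instance instStdPth : StandardBorelSpace (Pth E) := by
  have : CompleteSpace E := FiniteDimensional.complete ℝ E
  have : SecondCountableTopology E := by
    have : ProperSpace E := FiniteDimensional.proper_real E
    infer_instance
  let : MeasurableSpace C(ℝ≥0, E) := borel _
  have : BorelSpace C(ℝ≥0, E) := ⟨rfl⟩
  have : PolishSpace C(ℝ≥0, E) := inferInstance
  let j : C(ℝ≥0, E) → (ℕ → E) := fun f n => f (TopologicalSpace.denseSeq ℝ≥0 n)
  have hjc : Continuous j := continuous_pi fun n => continuous_eval_const _
  have hji : Function.Injective j := by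
    intro f g h
    apply ContinuousMap.ext
    have h1 : (f : ℝ≥0 → E) = g := by
      refine Continuous.ext_on (TopologicalSpace.denseRange_denseSeq ℝ≥0) f.continuous
        g.continuous ?_
      rintro _ ⟨n, rfl⟩
      exact congrFun h n
    exact fun a => congrFun h1 a
  have hj : MeasurableEmbedding j := hjc.measurableEmbedding hji
  let e : Pth E ≃ᵐ C(ℝ≥0, E) :=
    { toFun := fun p => ⟨p.1, p.2⟩
      invFun := fun f => ⟨f, f.continuous⟩
      left_inv := fun p => rfl
      right_inv := fun f => rfl
      measurable_toFun := by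
        refine (hj.measurable_comp_iff).1 ?_
        exact measurable_pi_lambda _ fun n => measurable_eval _
      measurable_invFun := by
        refine measurable_toPth fun t => ?_
        exact (continuous_eval_const t).measurable }
  let tt : TopologicalSpace (Pth E) := TopologicalSpace.induced e inferInstance
  have he : IsInducing e := ⟨rfl⟩
  have hc : IsClosedEmbedding e := ⟨⟨he, e.injective⟩, by
    rw [e.surjective.range_eq]; exact isClosed_univ⟩
  refine ⟨tt, ⟨?_⟩, hc.polishSpace⟩
  rw [← e.measurableEmbedding.comap_eq]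
  exact (borel_comap (f := e) (t := inferInstance)).symm

end Std

section Map

lemma map_null_of_ae {X Y : Type*} [MeasurableSpace X] [StandardBorelSpace X] [MeasurableSpace Y]
    [TopologicalSpace Y] [SecondCountableTopology Y] [T2Space Y] [BorelSpace Y] {μ : Measure X}
    [IsFiniteMeasure μ] {f : X → Y} (hf : Measurable f) {A : Set Y} (h : ∀ᵐ x ∂μ, f x ∈ A) :
    (μ.map f) Aᶜ = 0 := by
  obtain ⟨t', hfc, hb, hP⟩ : ∃ t' : TopologicalSpace X, @Continuous X Y t' _ f ∧
      @BorelSpace X t' _ ∧ @PolishSpace X t' := by
    let t0 := upgradeStandardBorel X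
    obtain ⟨t', hle, hfc, hP⟩ := hf.exists_continuous (t := t0.toTopologicalSpace)
    refine ⟨t', hfc, ⟨?_⟩, hP⟩
    rw [eq_borel_upgradeStandardBorel X, borel_eq_borel_of_le hP _ hle]
    infer_instance
  obtain ⟨S, hS, hSm, hSA⟩ := h.exists_measurable_mem
  have hS0 : μ Sᶜ = 0 := hS
  refine le_antisymm (le_of_forall_pos_le_add fun ε hε => ?_) bot_le
  obtain ⟨K, hKS, hKc, hKε⟩ := hSm.exists_isCompact_sdiff_lt (measure_ne_top μ S) hε.ne'
  have hfK : IsClosed (f '' K) := (hKc.image hfc).isClosed
  calc (μ.map f) Aᶜ ≤ (μ.map f) (f '' K)ᶜ := by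
        refine measure_mono (compl_subset_compl.2 ?_)
        rintro _ ⟨x, hx, rfl⟩
        exact hSA x (hKS hx)
    _ = μ (f ⁻¹' (f '' K)ᶜ) := Measure.map_apply hf hfK.measurableSet.compl
    _ ≤ μ (Sᶜ ∪ S \ K) := by
        refine measure_mono fun x hx => ?_
        by_cases hxS : x ∈ S
        · exact Or.inr ⟨hxS, fun hxK => hx ⟨x, hxK, rfl⟩⟩
        · exact Or.inl hxS
    _ ≤ μ Sᶜ + μ (S \ K) := measure_union_le _ _
    _ ≤ 0 + ε := by
        rw [hS0]
        exact add_le_add_right hKε.le _

end Map

end Pool.Agent.Lib.P07dee5
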