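import Mathlib
import Pool.Agent.Lib.P07dee5.Ident
import Pool.Agent.Lib.P07dee5.Fine
import Pool.Agent.Lib.P07dee5.BM
import Pool.Agent.Lib.P07dee5.Core
import Pool.Agent.Lib.P07dee5.Std

/-! # Brownian motion on a probability space: from path space to the final statement -/

open MeasureTheory Set Filter Topology ProbabilityTheory Module
open scoped ENNReal NNReal RealInnerProductSpace

set_option linter.unusedSectionVars false

namespace Pool.Agent.Lib.P07dee5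


section

/-- standard Brownian motion in `ℝⁿ` started at `a` -/
structure IsBM {Ω : Type*} [MeasurableSpace Ω] (P : Measure Ω) {n : ℕ}
    (X : ℝ≥0 → Ω → EuclideanSpace ℝ (Fin n)) (a : EuclideanSpace ℝ (Fin n)) : Prop where
  meas : ∀ t, Measurable (X t)
  coord : ∀ i, IsBrownianReal (fun t ω => X t ω i - a i) P
  indep : iIndepFun (fun (i : Fin n) (ω : Ω) (t : ℝ≥0) => X t ω i - a i) P

/-- exit time from `U` -/
noncomputable def exitTime {Ω : Type*} {n : ℕ} (X : ℝ≥0 → Ω → EuclideanSpace ℝ (Fin n))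
    (U : Set (EuclideanSpace ℝ (Fin n))) (ω : Ω) : ℝ≥0∞ :=
  sInf {s : ℝ≥0∞ | ∃ t : ℝ≥0, 0 < t ∧ X t ω ∉ U ∧ s = t}

/-- position at the exit time -/
noncomputable def exitPos {Ω : Type*} {n : ℕ} (X : ℝ≥0 → Ω → EuclideanSpace ℝ (Fin n))
    (U : Set (EuclideanSpace ℝ (Fin n))) (ω : Ω) : EuclideanSpace ℝ (Fin n) :=
  X (exitTime X U ω).toNNReal ω

/-- Keldysh measure -/
noncomputable def keldysh {Ω : Type*} [MeasurableSpace Ω] (P : Measure Ω) {n : ℕ}
    (X : ℝ≥0 → Ω → EuclideanSpace ℝ (Fin n)) (U : Set (EuclideanSpace ℝ (Fin n))) :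
    Measure (EuclideanSpace ℝ (Fin n)) :=
  (P.restrict {ω | exitTime X U ω < ∞}).map (exitPos X U)

/-- points outside `U` rectifiably accessible from `U` -/
def accessible {n : ℕ} (U : Set (EuclideanSpace ℝ (Fin n))) : Set (EuclideanSpace ℝ (Fin n)) :=
  {z | z ∉ U ∧ ∃ γ : ℝ → EuclideanSpace ℝ (Fin n), ContinuousOn γ (Icc 0 1) ∧
    BoundedVariationOn γ (Icc 0 1) ∧ (∀ t ∈ Ico (0:ℝ) 1, γ t ∈ U) ∧ γ 1 = z}

/-! ### paths of the process -/

variable {Ω : Type*} [MeasurableSpace Ω] {P : Measure Ω}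

lemma IsBM.exists_path {n : ℕ} {X : ℝ≥0 → Ω → EuclideanSpace ℝ (Fin n)}
    {a : EuclideanSpace ℝ (Fin n)} (hX : IsBM P X a) :
    ∃ Xp : Ω → Pth (EuclideanSpace ℝ (Fin n)), Measurable Xp ∧
      ∀ᵐ ω ∂P, ∀ t, (Xp ω).1 t = X t ω - a := by
  classical
  have h1 : ∀ᵐ ω ∂P, Continuous (fun t => X t ω - a) := by
    have h2 : ∀ᵐ ω ∂P, ∀ i, Continuous (fun t => X t ω i - a i) :=
      ae_all_iff.2 fun i => (hX.coord i).cont
    filter_upwards [h2] with ω hω
    exact (PiLp.continuous_toLp 2 _).comp (continuous_pi hω)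
  obtain ⟨s, hs1, hs2, hs3⟩ : ∃ s : Set Ω, MeasurableSet s ∧ P sᶜ = 0 ∧
      ∀ ω ∈ s, Continuous (fun t => X t ω - a) := by
    refine ⟨(toMeasurable P {ω | ¬ Continuous (fun t => X t ω - a)})ᶜ,
      (measurableSet_toMeasurable _ _).compl, ?_, ?_⟩
    · rw [compl_compl, measure_toMeasurable]
      exact h1
    · intro ω hω
      by_contra hcon
      exact hω (subset_toMeasurable _ _ hcon)
  refine ⟨fun ω => if h : ω ∈ s then ⟨fun t => X t ω - a, hs3 ω h⟩ else ⟨fun _ => 0, continuous_const⟩,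
    ?_, ?_⟩
  · apply measurable_toPth
    intro t
    have h2 : (fun ω => ((if h : ω ∈ s then ⟨fun t => X t ω - a, hs3 ω h⟩ else
        ⟨fun _ => 0, continuous_const⟩ : Pth (EuclideanSpace ℝ (Fin n))).1 t)) =
        fun ω => if ω ∈ s then X t ω - a else 0 := by
      funext ω
      split_ifs <;> rfl
    rw [h2]
    exact Measurable.ite hs1 ((hX.meas t).sub_const a) measurable_const
  · have h2 : ∀ᵐ ω ∂P, ω ∈ s := by
      rw [ae_iff]; exact hs2
    filter_upwards [h2] with ω hω t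
    simp only [hω, dite_true]

lemma exitTime_eq {n : ℕ} {X : ℝ≥0 → Ω → EuclideanSpace ℝ (Fin n)}
    {U : Set (EuclideanSpace ℝ (Fin n))} {ω : Ω} {q : Pth (EuclideanSpace ℝ (Fin n))}
    (h : ∀ t, q.1 t = X t ω) : exitTime X U ω = hitO Uᶜ q := by
  apply le_antisymm
  · refine le_iInf₂ fun t ht => sInf_le ⟨t, ht.1, ?_, rfl⟩
    rw [← h t]; exact ht.2
  · refine le_sInf ?_
    rintro _ ⟨t, h1, h2, rfl⟩
    apply hitO_le h1
    rw [h t]; exact h2

/-- the core property at one starting point -/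
def CoreAt {E : Type*} [NormedAddCommGroup E] [NormedSpace ℝ E] [MeasurableSpace E]
    (W : Measure (Pth E)) (U : Set E) (a : E) : Prop :=
  ∃ T : Pth E → ℝ≥0∞, Measurable T ∧ ∀ᵐ p ∂W, hitO Uᶜ (tr a p) = T p ∧
    (T p ≠ ∞ → (tr a p).1 (T p).toNNReal ∉ U ∧
      ∃ γ : ℝ → E, ContinuousOn γ (Icc 0 1) ∧ eVariationOn γ (Icc 0 1) ≠ ∞ ∧
        (∀ t ∈ Ico (0:ℝ) 1, γ t ∈ U) ∧ γ 1 = (tr a p).1 (T p).toNNReal)

lemma final_of_coreAt {n : ℕ} {U : Set (EuclideanSpace ℝ (Fin n))}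
    {a : EuclideanSpace ℝ (Fin n)} {X : ℝ≥0 → Ω → EuclideanSpace ℝ (Fin n)} 
    [IsProbabilityMeasure P] {Xp : Ω → Pth (EuclideanSpace ℝ (Fin n))} (hXp : Measurable Xp)
    (hXX : ∀ᵐ ω ∂P, ∀ t, (Xp ω).1 t = X t ω - a) (hC : CoreAt (P.map Xp) U a) :
    AEMeasurable (exitTime X U) P ∧ AEMeasurable (exitPos X U) P ∧
      (∀ᵐ ω ∂P, exitTime X U ω < ∞ → exitPos X U ω ∈ accessible U) ∧
      keldysh P X U (Uᶜ \ accessible U) = 0 := by
  obtain ⟨T, hTm, hT⟩ := hC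
  have hT' := ae_of_ae_map hXp.aemeasurable hT
  set f : Pth (EuclideanSpace ℝ (Fin n)) → EuclideanSpace ℝ (Fin n) :=
    fun p => (tr a p).1 (T p).toNNReal with hf
  have hfm : Measurable f := Measurable.eval hTm.ennreal_toNNReal (measurable_tr a)
  have key : ∀ᵐ ω ∂P, exitTime X U ω = T (Xp ω) ∧ exitPos X U ω = f (Xp ω) ∧
      (T (Xp ω) ≠ ∞ → f (Xp ω) ∈ accessible U) := by
    filter_upwards [hXX, hT'] with ω h1 h2
    have h3 : ∀ t, (tr a (Xp ω)).1 t = X t ω := by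
      intro t
      rw [tr_apply, h1 t]; abel
    have h4 : exitTime X U ω = T (Xp ω) := by rw [exitTime_eq h3, h2.1]
    refine ⟨h4, ?_, ?_⟩
    · unfold exitPos
      rw [h4, ← h3]
    · intro h5
      exact h2.2 h5
  have k1 : AEMeasurable (exitTime X U) P :=
    ⟨fun ω => T (Xp ω), hTm.comp hXp, key.mono fun ω h => h.1⟩
  have k2 : AEMeasurable (exitPos X U) P :=
    ⟨fun ω => f (Xp ω), hfm.comp hXp, key.mono fun ω h => h.2.1⟩
  refine ⟨k1, k2, ?_, ?_⟩
  · filter_upwards [key] with ω h h1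
    rw [h.2.1]
    apply h.2.2
    rw [← h.1]
    exact h1.ne
  · have hS : MeasurableSet {p | T p ≠ ∞} := (hTm (measurableSet_singleton ∞)).compl
    have e1 : P.restrict {ω | exitTime X U ω < ∞} = P.restrict (Xp ⁻¹' {p | T p ≠ ∞}) := by
      apply Measure.restrict_congr_set
      filter_upwards [key] with ω h
      apply propext
      show exitTime X U ω < ∞ ↔ T (Xp ω) ≠ ∞
      rw [h.1, lt_top_iff_ne_top]
    have e2 : keldysh P X U = ((P.map Xp).restrict {p | T p ≠ ∞}).map f := by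
      unfold keldysh
      rw [e1, Measure.restrict_map hXp hS, Measure.map_map hfm hXp]
      apply Measure.map_congr
      apply ae_restrict_of_ae
      filter_upwards [key] with ω h
      exact h.2.1
    rw [e2]
    have : IsProbabilityMeasure (P.map Xp) := Measure.isProbabilityMeasure_map hXp.aemeasurable
    have h3 : ∀ᵐ p ∂((P.map Xp).restrict {p | T p ≠ ∞}), f p ∈ accessible U := by
      rw [ae_restrict_iff' hS]
      filter_upwards [hT] with p hp h4
      exact hp.2 h4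
    exact measure_mono_null (fun x hx => hx.2) (map_null_of_ae hfm h3)

lemma IsBM.prob {n : ℕ} (hn : 0 < n) {X : ℝ≥0 → Ω → EuclideanSpace ℝ (Fin n)}
    {a : EuclideanSpace ℝ (Fin n)} (hX : IsBM P X a) : IsProbabilityMeasure P :=
  (hX.coord ⟨0, hn⟩).toIsPreBrownianReal.isGaussianProcess.isProbabilityMeasure

lemma IsBM.isWiener {n : ℕ} (hn : 0 < n) {X : ℝ≥0 → Ω → EuclideanSpace ℝ (Fin n)}
    {a : EuclideanSpace ℝ (Fin n)} (hX : IsBM P X a)
    {Xp : Ω → Pth (EuclideanSpace ℝ (Fin n))} (hXp : Measurable Xp)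
    (hXX : ∀ᵐ ω ∂P, ∀ t, (Xp ω).1 t = X t ω - a) : IsWiener (P.map Xp) := by
  have := hX.prob hn
  refine isWiener_bm (B := fun i t ω => X t ω i - a i) (fun i => hX.coord i) (fun i t => ?_)
    hX.indep Xp hXp ?_
  · have h1 := hX.meas t
    have h2 : Measurable (fun ω => X t ω i) := by
      have h3 : Measurable (fun x : EuclideanSpace ℝ (Fin n) => x i) :=
        (EuclideanSpace.proj i : EuclideanSpace ℝ (Fin n) →L[ℝ] ℝ).continuous.measurable
      exact h3.comp h1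
    exact h2.sub_const _
  · filter_upwards [hXX] with ω h t i
    rw [h t]
    rfl

/-- the accessibility statement for nests -/
def AccessFor (m : ℕ) : Prop :=
  ∀ W : Measure (Pth (EuclideanSpace ℝ (Fin m))), IsWiener W →
    ∀ D : ℕ → Set (EuclideanSpace ℝ (Fin m)), Nest W D →
      ∃ N : Set (Pth (EuclideanSpace ℝ (Fin m))), MeasurableSet N ∧
        (∀ x ∈ Vs D, ∀ᵐ p ∂W, tr x p ∉ N) ∧
        ∀ p ∉ N, p.1 0 ∈ Vs D → TT D p ≠ ∞ → Acc (Vs D) (p.1 (TT D p).toNNReal)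

lemma coreAt_three {n : ℕ} (hacc : AccessFor n) {W : Measure (Pth (EuclideanSpace ℝ (Fin n)))}
    (hW : IsWiener W) {U : Set (EuclideanSpace ℝ (Fin n))}
    (hU : ∀ x ∈ U, ∃ f : EuclideanSpace ℝ (Fin n) → ℝ≥0∞, FineFn W f ∧ f x < 1 ∧
      ∀ y, f y < 1 → y ∈ U)
    {a : EuclideanSpace ℝ (Fin n)} (ha : a ∈ U) : CoreAt W U a := by
  obtain ⟨T, hT, h⟩ := core_of_access hW (fun hN => hacc W hW _ hN) hU
  exact ⟨fun p => T (tr a p), hT.comp (measurable_tr a), h a ha⟩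

/-! ### the planar case -/

lemma isBrownianReal_comp {Ω' : Type*} [MeasurableSpace Ω'] {Q : Measure Ω'} {f : Ω' → Ω}
    (hf : MeasurePreserving f Q P) {Y : ℝ≥0 → Ω → ℝ} (hY : IsBrownianReal Y P) :
    IsBrownianReal (fun t ω => Y t (f ω)) Q where
  hasLaw := fun I => (hY.hasLaw I).comp hf.hasLaw
  cont := hf.quasiMeasurePreserving.ae hY.cont

lemma indep_three [IsProbabilityMeasure P] {β : Type*} [MeasurableSpace β] {F : Fin 2 → Ω → β}
    (hF : ∀ i, Measurable (F i)) (h : iIndepFun F P) :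
    iIndepFun (fun (i : Fin 3) (z : Ω × Ω) =>
      (![F 0 z.2, F 1 z.2, F 0 z.1] : Fin 3 → β) i) (P.prod P) := by
  have hm : ∀ i : Fin 3, Measurable (fun z : Ω × Ω => (![F 0 z.2, F 1 z.2, F 0 z.1] : Fin 3 → β) i) := by
    intro i
    fin_cases i
    · exact (hF 0).comp measurable_snd
    · exact (hF 1).comp measurable_snd
    · exact (hF 0).comp measurable_fst
  rw [iIndepFun_iff_map_fun_eq_pi_map (fun i => (hm i).aemeasurable)]
  have : ∀ i : Fin 3, IsProbabilityMeasure ((P.prod P).map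
      (fun z : Ω × Ω => (![F 0 z.2, F 1 z.2, F 0 z.1] : Fin 3 → β) i)) := fun i =>
    Measure.isProbabilityMeasure_map (hm i).aemeasurable
  symm
  apply Measure.pi_eq
  intro s hs
  rw [Measure.map_apply (measurable_pi_lambda _ hm) (MeasurableSet.univ_pi hs)]
  have e1 : (fun (z : Ω × Ω) (i : Fin 3) => (![F 0 z.2, F 1 z.2, F 0 z.1] : Fin 3 → β) i) ⁻¹'
      (univ.pi s) = (F 0 ⁻¹' (s 2)) ×ˢ (F 0 ⁻¹' (s 0) ∩ F 1 ⁻¹' (s 1)) := by
    ext z
    simp [Fin.forall_fin_succ, Set.mem_pi]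
    tauto
  rw [e1, Measure.prod_prod, Fin.prod_univ_three]
  rw [Measure.map_apply (hm 0) (hs 0), Measure.map_apply (hm 1) (hs 1),
    Measure.map_apply (hm 2) (hs 2)]
  have e2 : (fun (z : Ω × Ω) => (![F 0 z.2, F 1 z.2, F 0 z.1] : Fin 3 → β) 0) ⁻¹' (s 0) =
      univ ×ˢ (F 0 ⁻¹' (s 0)) := by
    ext z; simp
  have e3 : (fun (z : Ω × Ω) => (![F 0 z.2, F 1 z.2, F 0 z.1] : Fin 3 → β) 1) ⁻¹' (s 1) =
      univ ×ˢ (F 1 ⁻¹' (s 1)) := by
    ext z; simp
  have e4 : (fun (z : Ω × Ω) => (![F 0 z.2, F 1 z.2, F 0 z.1] : Fin 3 → β) 2) ⁻¹' (s 2) =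
      (F 0 ⁻¹' (s 2)) ×ˢ univ := by
    ext z; simp
  rw [e2, e3, e4, Measure.prod_prod, Measure.prod_prod, Measure.prod_prod, measure_univ]
  have h2 := (h.indepFun (show (0 : Fin 2) ≠ 1 by decide)).measure_inter_preimage_eq_mul _ _
    (hs 0) (hs 1)
  rw [h2]
  ring

/-- projection to the first two coordinates -/
noncomputable def prj (y : EuclideanSpace ℝ (Fin 3)) : EuclideanSpace ℝ (Fin 2) :=
  WithLp.toLp 2 ![y 0, y 1]

lemma prj_lip : LipschitzWith 1 prj := by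
  refine LipschitzWith.of_dist_le_mul (fun x y => ?_)
  rw [NNReal.coe_one, one_mul, EuclideanSpace.dist_eq, EuclideanSpace.dist_eq]
  apply Real.sqrt_le_sqrt
  rw [Fin.sum_univ_two, Fin.sum_univ_three]
  have : 0 ≤ dist (x 2) (y 2) ^ 2 := sq_nonneg _
  show dist (x 0) (y 0) ^ 2 + dist (x 1) (y 1) ^ 2 ≤ _
  linarith

/-- joining a planar path and a coordinate of another path -/
noncomputable def jn (z : Pth (EuclideanSpace ℝ (Fin 2)) × Pth (EuclideanSpace ℝ (Fin 2))) :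
    Pth (EuclideanSpace ℝ (Fin 3)) :=
  ⟨fun t => WithLp.toLp 2 ![z.2.1 t 0, z.2.1 t 1, z.1.1 t 0], by
    refine (PiLp.continuous_toLp 2 _).comp (continuous_pi fun i => ?_)
    have h1 : ∀ (p : Pth (EuclideanSpace ℝ (Fin 2))) (j : Fin 2), Continuous (fun t => p.1 t j) :=
      fun p j => (EuclideanSpace.proj j : EuclideanSpace ℝ (Fin 2) →L[ℝ] ℝ).continuous.comp p.2
    fin_cases i
    · exact h1 z.2 0
    · exact h1 z.2 1
    · exact h1 z.1 0⟩

lemma jn_apply (z : Pth (EuclideanSpace ℝ (Fin 2)) × Pth (EuclideanSpace ℝ (Fin 2))) (t : ℝ≥0) :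
    (jn z).1 t = WithLp.toLp 2 ![z.2.1 t 0, z.2.1 t 1, z.1.1 t 0] := rfl

lemma measurable_jn : Measurable jn := by
  apply measurable_toPth
  intro t
  have h1 : ∀ j : Fin 2, Measurable (fun p : Pth (EuclideanSpace ℝ (Fin 2)) => p.1 t j) :=
    fun j => (EuclideanSpace.proj j : EuclideanSpace ℝ (Fin 2) →L[ℝ] ℝ).continuous.measurable.comp
      (measurable_eval t)
  have h2 : Measurable (fun z : Pth (EuclideanSpace ℝ (Fin 2)) × Pth (EuclideanSpace ℝ (Fin 2)) =>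
      ![z.2.1 t 0, z.2.1 t 1, z.1.1 t 0]) := by
    refine measurable_pi_lambda _ fun i => ?_
    fin_cases i
    · exact (h1 0).comp measurable_snd
    · exact (h1 1).comp measurable_snd
    · exact (h1 0).comp measurable_fst
  exact (PiLp.continuous_toLp 2 _).measurable.comp h2

/-- the lifted starting point -/
noncomputable def lft (a : EuclideanSpace ℝ (Fin 2)) : EuclideanSpace ℝ (Fin 3) :=
  WithLp.toLp 2 ![a 0, a 1, 0]

lemma prj_lft (a : EuclideanSpace ℝ (Fin 2)) : prj (lft a) = a := by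
  ext i
  fin_cases i <;> rfl

lemma prj_tr_jn (x : EuclideanSpace ℝ (Fin 3))
    (z : Pth (EuclideanSpace ℝ (Fin 2)) × Pth (EuclideanSpace ℝ (Fin 2))) (t : ℝ≥0) :
    prj ((tr x (jn z)).1 t) = (tr (prj x) z.2).1 t := by
  ext i
  fin_cases i <;> rfl

lemma hitO_congr {E E' : Type*} [NormedAddCommGroup E] [NormedAddCommGroup E']
    {D : Set E} {D' : Set E'} {p : Pth E} {p' : Pth E'}
    (h : ∀ t, p.1 t ∈ D ↔ p'.1 t ∈ D') : hitO D p = hitO D' p' := by
  unfold hitO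
  simp only [h]

lemma isWiener_jn {X : ℝ≥0 → Ω → EuclideanSpace ℝ (Fin 2)} {a : EuclideanSpace ℝ (Fin 2)}
    (hX : IsBM P X a) {Xp : Ω → Pth (EuclideanSpace ℝ (Fin 2))} (hXp : Measurable Xp)
    (hXX : ∀ᵐ ω ∂P, ∀ t, (Xp ω).1 t = X t ω - a) :
    IsWiener (((P.map Xp).prod (P.map Xp)).map jn) := by
  have hprob := hX.prob (by norm_num)
  have hXi : ∀ (i : Fin 2) (t : ℝ≥0), Measurable (fun ω => X t ω i) := fun i t =>
    (EuclideanSpace.proj i : EuclideanSpace ℝ (Fin 2) →L[ℝ] ℝ).continuous.measurable.comp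
      (hX.meas t)
  rw [Measure.map_prod_map P P hXp hXp, Measure.map_map measurable_jn (hXp.prodMap hXp)]
  refine isWiener_bm (B := fun (i : Fin 3) t (z : Ω × Ω) =>
    (![fun t => X t z.2 0 - a 0, fun t => X t z.2 1 - a 1, fun t => X t z.1 0 - a 0] :
      Fin 3 → ℝ≥0 → ℝ) i t) (fun i => ?_) (fun i t => ?_) ?_ _
      (measurable_jn.comp (hXp.prodMap hXp)) ?_
  · fin_cases i
    · exact isBrownianReal_comp (measurePreserving_snd (μ := P) (ν := P)) (hX.coord 0)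
    · exact isBrownianReal_comp (measurePreserving_snd (μ := P) (ν := P)) (hX.coord 1)
    · exact isBrownianReal_comp (measurePreserving_fst (μ := P) (ν := P)) (hX.coord 0)
  · fin_cases i
    · exact ((hXi 0 t).sub_const _).comp measurable_snd
    · exact ((hXi 1 t).sub_const _).comp measurable_snd
    · exact ((hXi 0 t).sub_const _).comp measurable_fst
  · exact indep_three (F := fun (i : Fin 2) (ω : Ω) (t : ℝ≥0) => X t ω i - a i)
      (fun i => measurable_pi_lambda _ fun t => (hXi i t).sub_const _) hX.indep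
  · have h1 : ∀ᵐ z ∂(P.prod P), ∀ t, (Xp z.1).1 t = X t z.1 - a :=
      (Measure.quasiMeasurePreserving_fst (μ := P) (ν := P)).ae hXX
    have h2 : ∀ᵐ z ∂(P.prod P), ∀ t, (Xp z.2).1 t = X t z.2 - a :=
      (Measure.quasiMeasurePreserving_snd (μ := P) (ν := P)).ae hXX
    filter_upwards [h1, h2] with z k1 k2 t i
    show (jn (Xp z.1, Xp z.2)).1 t i = _
    rw [jn_apply]
    show (![(Xp z.2).1 t 0, (Xp z.2).1 t 1, (Xp z.1).1 t 0] : Fin 3 → ℝ) i = _
    rw [k1 t, k2 t]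
    fin_cases i <;> rfl

lemma fineFn_lift {W : Measure (Pth (EuclideanSpace ℝ (Fin 2)))} [IsProbabilityMeasure W]
    {f : EuclideanSpace ℝ (Fin 2) → ℝ≥0∞} (hf : FineFn W f) :
    FineFn ((W.prod W).map jn) (fun y => f (prj y)) where
  lsc := hf.lsc.comp prj_lip.continuous
  reg := by
    intro x q hq
    have hO : IsOpen {y : EuclideanSpace ℝ (Fin 3) | q < f (prj y)} :=
      (hf.lsc.comp prj_lip.continuous).isOpen_preimage q
    have hms : MeasurableSet {p : Pth (EuclideanSpace ℝ (Fin 3)) |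
        0 < hitO {y : EuclideanSpace ℝ (Fin 3) | q < f (prj y)} (tr x p)} :=
      ((measurable_hitO hO).comp (measurable_tr x)) measurableSet_Ioi
    rw [ae_map_iff measurable_jn.aemeasurable hms]
    have h1 := (Measure.quasiMeasurePreserving_snd (μ := W) (ν := W)).ae (hf.reg (prj x) q hq)
    filter_upwards [h1] with z hz
    have h2 : hitO {y : EuclideanSpace ℝ (Fin 3) | q < f (prj y)} (tr x (jn z)) =
        hitO {y | q < f y} (tr (prj x) z.2) := by
      apply hitO_congr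
      intro t
      show q < f (prj ((tr x (jn z)).1 t)) ↔ q < f ((tr (prj x) z.2).1 t)
      rw [prj_tr_jn]
    rw [h2]
    exact hz

lemma coreAt_two (hacc : AccessFor 3) {X : ℝ≥0 → Ω → EuclideanSpace ℝ (Fin 2)} {a : EuclideanSpace ℝ (Fin 2)}
    (hX : IsBM P X a) {Xp : Ω → Pth (EuclideanSpace ℝ (Fin 2))} (hXp : Measurable Xp)
    (hXX : ∀ᵐ ω ∂P, ∀ t, (Xp ω).1 t = X t ω - a) {U : Set (EuclideanSpace ℝ (Fin 2))}
    (hU : ∀ x ∈ U, ∃ f : EuclideanSpace ℝ (Fin 2) → ℝ≥0∞, FineFn (P.map Xp) f ∧ f x < 1 ∧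
      ∀ y, f y < 1 → y ∈ U) (ha : a ∈ U) : CoreAt (P.map Xp) U a := by
  have hprob := hX.prob (by norm_num)
  have : IsProbabilityMeasure (P.map Xp) := Measure.isProbabilityMeasure_map hXp.aemeasurable
  set W := P.map Xp with hW
  have hW3 : IsWiener ((W.prod W).map jn) := isWiener_jn hX hXp hXX
  have hU3 : ∀ x ∈ prj ⁻¹' U, ∃ f : EuclideanSpace ℝ (Fin 3) → ℝ≥0∞,
      FineFn ((W.prod W).map jn) f ∧ f x < 1 ∧ ∀ y, f y < 1 → y ∈ prj ⁻¹' U := by
    intro x hx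
    obtain ⟨f, h1, h2, h3⟩ := hU (prj x) hx
    exact ⟨fun y => f (prj y), fineFn_lift h1, h2, fun y hy => h3 _ hy⟩
  obtain ⟨T, hT, h⟩ := core_of_access hW3 (fun hN => hacc _ hW3 _ hN) hU3
  have hb : lft a ∈ prj ⁻¹' U := by
    show prj (lft a) ∈ U
    rw [prj_lft]; exact ha
  have h1 := ae_of_ae_map measurable_jn.aemeasurable (h (lft a) hb)
  have h2 := Measure.ae_ae_of_ae_prod h1
  obtain ⟨q, hq⟩ := h2.exists
  refine ⟨fun p => T (tr (lft a) (jn (q, p))), hT.comp ((measurable_tr _).comp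
    (measurable_jn.comp measurable_prodMk_left)), ?_⟩
  filter_upwards [hq] with p hp
  have e1 : ∀ t, prj ((tr (lft a) (jn (q, p))).1 t) = (tr a p).1 t := by
    intro t
    rw [prj_tr_jn, prj_lft]
  have e2 : hitO Uᶜ (tr a p) = hitO (prj ⁻¹' U)ᶜ (tr (lft a) (jn (q, p))) := by
    apply hitO_congr
    intro t
    rw [← e1 t]
    rfl
  refine ⟨by rw [e2]; exact hp.1, fun hne => ?_⟩
  obtain ⟨k1, γ, k2, k3, k4, k5⟩ := hp.2 hne
  rw [← e1]
  refine ⟨k1, fun t => prj (γ t), prj_lip.continuous.comp_continuousOn k2, ?_, fun t ht => k4 t ht,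
    congrArg prj k5⟩
  have h3 := (prj_lip.lipschitzOnWith (s := univ)).comp_eVariationOn_le (g := γ) (s := Icc 0 1)
    (fun _ _ => trivial)
  refine ne_top_of_le_ne_top ?_ h3
  rw [ENNReal.coe_one, one_mul]
  exact k3

theorem final_of_access (hacc : ∀ m, 3 ≤ m → AccessFor m) {n : ℕ} (hn : 2 ≤ n) {U : Set (EuclideanSpace ℝ (Fin n))}
    (hU : @IsOpen _ (fineTopology (EuclideanSpace ℝ (Fin n))) U)
    {a : EuclideanSpace ℝ (Fin n)} (ha : a ∈ U) {Ω : Type*} [MeasurableSpace Ω] (P : Measure Ω)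
    (X : ℝ≥0 → Ω → EuclideanSpace ℝ (Fin n)) (hX : IsBM P X a) :
    AEMeasurable (exitTime X U) P ∧ AEMeasurable (exitPos X U) P ∧
      (∀ᵐ ω ∂P, exitTime X U ω < ∞ → exitPos X U ω ∈ accessible U) ∧
      keldysh P X U (Uᶜ \ accessible U) = 0 := by
  have hprob := hX.prob (by omega)
  obtain ⟨Xp, hXp, hXX⟩ := hX.exists_path
  have hW := hX.isWiener (by omega) hXp hXX
  have hn' : 2 ≤ finrank ℝ (EuclideanSpace ℝ (Fin n)) := by
    rw [finrank_euclideanSpace_fin]; exact hn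
  have hU' : ∀ x ∈ U, ∃ f : EuclideanSpace ℝ (Fin n) → ℝ≥0∞, FineFn (P.map Xp) f ∧ f x < 1 ∧
      ∀ y, f y < 1 → y ∈ U := fun x hx => fine_base hn' hW hU hx
  refine final_of_coreAt hXp hXX ?_
  rcases hn.eq_or_lt with h2 | h3
  · subst h2
    exact coreAt_two (hacc 3 le_rfl) hX hXp hXX hU' ha
  · exact coreAt_three (hacc n h3) hW hU' ha

end

end Pool.Agent.Lib.P07dee5
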